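import Pool.Agent.H.MP_43e44c_ag.PE.Def

/-!
The projectors to the eigenspaces of `K`.
-/

set_option autoImplicit false

open NumberField Module Matrix

namespace Pool.MP43e44c.PE

variable {m : ℕ} {K : Type*} [Field K] [NumberField K] [IsCMField K] (D : Dat K m)

/-- The trace is the sum of the values of the embeddings. -/
theorem Proj_tr (x : K) : ((Algebra.trace ℚ K x : ℚ) : ℂ) = ∑ τ : K →+* ℂ, τ x := by
  have h := trace_eq_sum_embeddings (K := ℚ) (L := K) ℂ (x := x)
  have e : ((Algebra.trace ℚ K x : ℚ) : ℂ) = algebraMap ℚ ℂ (Algebra.trace ℚ K x) := by simp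
  rw [e, h]
  exact (Fintype.sum_equiv (RingHom.equivRatAlgHom K ℂ) (fun τ : K →+* ℂ => τ x) (fun σ => σ x)
    (fun τ => rfl)).symm

/-- Duality of the matrices of embeddings: `∑_j τ(b_j^∨) τ'(b_j) = δ`.  From `Tr(b_i b_j^∨) = δ_ij` and
`Tr = ∑ τ`: the two square matrices `(τ(b_i))` and `(τ(b_j^∨))` are inverse to each other. -/
theorem dual_emb (τ τ' : K →+* ℂ) [Decidable (τ = τ')] :
    ∑ j, τ ((Algebra.traceForm ℚ K).dualBasis (traceForm_nondegenerate ℚ K) (Module.finBasis ℚ K) j) *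
      τ' (Module.finBasis ℚ K j) = if τ = τ' then 1 else 0 := by
  classical
  set b := Module.finBasis ℚ K with hb
  set b' := (Algebra.traceForm ℚ K).dualBasis (traceForm_nondegenerate ℚ K) b with hb'
  let A : Matrix (K →+* ℂ) (Fin (finrank ℚ K)) ℂ := Matrix.of fun τ j => τ (b' j)
  let A' : Matrix (Fin (finrank ℚ K)) (K →+* ℂ) ℂ := Matrix.of fun j τ => τ (b j)
  have h2 : Aᵀ * A'ᵀ = 1 := by
    ext i j
    have h3 : Algebra.trace ℚ K (b' i * b j) = if j = i then (1 : ℚ) else 0 :=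
      LinearMap.BilinForm.apply_dualBasis_left (B := Algebra.traceForm ℚ K)
        (traceForm_nondegenerate ℚ K) b i j
    have h4 : ((Algebra.trace ℚ K (b' i * b j) : ℚ) : ℂ) = if j = i then (1 : ℂ) else 0 := by
      rw [h3]
      split_ifs <;> simp
    rw [Proj_tr] at h4
    rw [Matrix.mul_apply, Matrix.one_apply]
    refine Eq.trans (Finset.sum_congr rfl fun τ _ => ?_) (h4.trans ?_)
    · exact (map_mul τ (b' i) (b j)).symm
    · by_cases hij : i = j
      · simp [hij]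
      · simp [hij, Ne.symm hij]
  have h5 : A'ᵀ * Aᵀ = 1 := by
    rw [Matrix.mul_eq_one_comm_of_card_eq] at h2
    · exact h2
    · rw [NumberField.Embeddings.card, Fintype.card_fin]
  have h6 := congrFun (congrFun h5 τ') τ
  rw [Matrix.mul_apply] at h6
  simp only [A, A', Matrix.transpose_apply, Matrix.of_apply, Matrix.one_apply] at h6
  rw [show (if τ = τ' then (1 : ℂ) else 0) = if τ' = τ then 1 else 0 by
    by_cases h : τ = τ'
    · simp [h]
    · simp [h, Ne.symm h], ← h6]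
  exact Finset.sum_congr rfl fun j _ => mul_comm _ _

/-- Expansion of an element of `K` in the basis. -/
theorem Proj_repr (a : K) :
    ∑ j, (Algebra.trace ℚ K (a * (Algebra.traceForm ℚ K).dualBasis (traceForm_nondegenerate ℚ K)
      (Module.finBasis ℚ K) j)) • Module.finBasis ℚ K j = a := by
  have h := (Module.finBasis ℚ K).sum_repr a
  conv_rhs => rw [← h]
  refine Finset.sum_congr rfl fun j _ => ?_
  congr 1
  have h2 : (Algebra.traceForm ℚ K).dualBasis (traceForm_nondegenerate ℚ K)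
      ((Algebra.traceForm ℚ K).dualBasis (traceForm_nondegenerate ℚ K) (Module.finBasis ℚ K)) =
      Module.finBasis ℚ K :=
    LinearMap.BilinForm.dualBasis_dualBasis _ (Algebra.traceForm_isSymm ℚ) _
  have h3 := LinearMap.BilinForm.dualBasis_repr_apply (B := Algebra.traceForm ℚ K)
    (traceForm_nondegenerate ℚ K)
    ((Algebra.traceForm ℚ K).dualBasis (traceForm_nondegenerate ℚ K) (Module.finBasis ℚ K)) a j
  rw [h2, Algebra.traceForm_apply] at h3
  exact h3.symm

theorem Proj_smul (q : ℚ) (a : K) : qc (D.ρ (q • a)) = (q : ℂ) • qc (D.ρ a) := by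
  have h : D.ρ (q • a) = q • D.ρ a := map_rat_smul D.ρ q a
  rw [h]
  ext i j
  simp

theorem ρ_sum (a : K) : qc (D.ρ a) = ∑ τ, τ a • D.e τ := by
  conv_lhs => rw [← Proj_repr a, map_sum, map_sum]
  simp only [Dat.e, Finset.smul_sum]
  rw [Finset.sum_comm]
  refine Finset.sum_congr rfl fun j _ => ?_
  rw [Proj_smul, Proj_tr, Finset.sum_smul]
  refine Finset.sum_congr rfl fun τ _ => ?_
  rw [map_mul, mul_smul]

/-- `ρ(a) e_τ = τ(a) e_τ`.  `a b_j = ∑_i Tr(a b_j b_i^∨) b_i` and `∑_j Tr(c b_j) b_j^∨ = c`. -/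
theorem ρ_e (a : K) (τ : K →+* ℂ) : qc (D.ρ a) * D.e τ = τ a • D.e τ := by
  classical
  have h1 : qc (D.ρ a) * D.e τ = ∑ τ' : K →+* ℂ, (τ' a * ∑ j,
      τ ((Algebra.traceForm ℚ K).dualBasis (traceForm_nondegenerate ℚ K) (Module.finBasis ℚ K) j) *
      τ' (Module.finBasis ℚ K j)) • D.e τ' := by
    conv_lhs => rw [Dat.e, Finset.mul_sum]
    simp only [Finset.mul_sum, Finset.sum_smul]
    rw [Finset.sum_comm]
    refine Finset.sum_congr rfl fun j _ => ?_
    rw [mul_smul_comm, ← map_mul, ← map_mul, ρ_sum, Finset.smul_sum]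
    refine Finset.sum_congr rfl fun τ' _ => ?_
    rw [map_mul, smul_smul]
    congr 1
    ring
  rw [h1, Finset.sum_eq_single τ]
  · rw [dual_emb, if_pos rfl, mul_one]
  · intro τ' _ hne
    rw [dual_emb, if_neg (Ne.symm hne), mul_zero, zero_smul]
  · intro h
    exact absurd (Finset.mem_univ _) h

theorem e_ρ (a : K) (τ : K →+* ℂ) : D.e τ * qc (D.ρ a) = τ a • D.e τ := by
  rw [← ρ_e, Dat.e, Finset.mul_sum, Finset.sum_mul]
  refine Finset.sum_congr rfl fun j _ => ?_
  rw [mul_smul_comm, smul_mul_assoc, ← map_mul, ← map_mul, ← map_mul, ← map_mul, mul_comm]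

theorem Proj_mul (τ τ' : K →+* ℂ) [Decidable (τ = τ')] :
    D.e τ * D.e τ' = (if τ = τ' then (1 : ℂ) else 0) • D.e τ' := by
  rw [← dual_emb, Finset.sum_smul]
  conv_lhs => rw [Dat.e, Finset.sum_mul]
  refine Finset.sum_congr rfl fun j _ => ?_
  rw [smul_mul_assoc, ρ_e, smul_smul]

theorem e_idem (τ : K →+* ℂ) : D.e τ * D.e τ = D.e τ := by
  classical
  rw [Proj_mul, if_pos rfl, one_smul]

theorem e_orth {τ τ' : K →+* ℂ} (h : τ ≠ τ') : D.e τ * D.e τ' = 0 := by
  classical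
  rw [Proj_mul, if_neg h, zero_smul]

theorem e_sum : ∑ τ, D.e τ = 1 := by
  have h := ρ_sum D 1
  rw [map_one, map_one] at h
  rw [h]
  exact Finset.sum_congr rfl fun τ _ => by rw [map_one, one_smul]

theorem act_e (σ : ℂ ≃+* ℂ) (τ : K →+* ℂ) : act σ (D.e τ) = D.e (tw σ τ) := by
  ext i j
  simp only [Dat.e, Matrix.map_apply, Matrix.sum_apply, Matrix.smul_apply, smul_eq_mul, map_sum,
    map_mul, RingHom.mapMatrix_apply, eq_ratCast, map_ratCast]
  rfl

/-- `e τ` is a combination of the `ρ b`. -/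
theorem e_mem_span (τ : K →+* ℂ) : D.e τ ∈ Submodule.span ℂ (Set.range fun a => qc (D.ρ a)) :=
  Submodule.sum_mem _ fun _ _ => Submodule.smul_mem _ _ (Submodule.subset_span ⟨_, rfl⟩)

theorem comm_iff (Y : Mat m ℂ) :
    (∀ a, Y * qc (D.ρ a) = qc (D.ρ a) * Y) ↔ ∀ τ, Y * D.e τ = D.e τ * Y := by
  constructor
  · intro h τ
    rw [Dat.e, Finset.mul_sum, Finset.sum_mul]
    exact Finset.sum_congr rfl fun j _ => by rw [mul_smul_comm, smul_mul_assoc, h]
  · intro h a
    rw [ρ_sum, Finset.mul_sum, Finset.sum_mul]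
    exact Finset.sum_congr rfl fun τ _ => by rw [mul_smul_comm, smul_mul_assoc, h]

end Pool.MP43e44c.PE
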