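import Pool.Agent.H.MP_43e44c_ag.PE.Rat

/-!
The rational envelope of the complex structure.
-/

set_option autoImplicit false

open NumberField Module Matrix

namespace Pool.MP43e44c.PE

variable {m : ℕ} {K : Type*} [Field K] [NumberField K] [IsCMField K] (D : Dat K m)

lemma env_lmul (l : ℝ →ₗ[ℚ] ℚ) (x : ℝ) (q : ℚ) : l (x * (q : ℝ)) = l x * q := by
  have h : x * (q : ℝ) = q • x := by
    rw [Rat.smul_def, mul_comm]
  rw [h, map_smul, smul_eq_mul, mul_comm]

lemma env_mapR (l : ℝ →ₗ[ℚ] ℚ) (A : Mat m ℝ) (M : Mat m ℚ) : (A * qr M).map l = A.map l * M := by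
  ext i j
  simp only [Matrix.map_apply, Matrix.mul_apply, map_sum, RingHom.mapMatrix_apply,
    eq_ratCast, env_lmul]

lemma env_mapL (l : ℝ →ₗ[ℚ] ℚ) (A : Mat m ℝ) (M : Mat m ℚ) : (qr M * A).map l = M * A.map l := by
  ext i j
  simp only [Matrix.map_apply, Matrix.mul_apply, map_sum, RingHom.mapMatrix_apply,
    eq_ratCast]
  refine Finset.sum_congr rfl fun k _ => ?_
  rw [mul_comm, env_lmul, mul_comm]

lemma env_decomp : ∃ (r : ℕ) (c : Fin r → ℝ) (l : Fin r → ℝ →ₗ[ℚ] ℚ),
    D.J = ∑ j, c j • qr (D.Jl (l j)) := by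
  obtain ⟨r, c, l, h⟩ := exists_rat_decomp (F := ℝ) (fun p : Fin m × Fin m => D.J p.1 p.2)
  refine ⟨r, c, l, ?_⟩
  ext i j
  have h1 := h (i, j)
  simp only at h1
  rw [Matrix.sum_apply]
  simp only [Matrix.smul_apply, RingHom.mapMatrix_apply, Matrix.map_apply, Dat.Jl, smul_eq_mul]
  exact h1

/-- A rational matrix commutes with all `l(J)` iff it commutes with `J`: apply `l` to `J M = M J`
entrywise; conversely use `exists_rat_decomp` for the entries of `J`. -/
theorem comm_Jl (M : Mat m ℚ) : (∀ l, D.Jl l * M = M * D.Jl l) ↔ D.J * qr M = qr M * D.J := by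
  constructor
  · intro h
    obtain ⟨r, c, l, hJ⟩ := env_decomp D
    rw [hJ, Finset.sum_mul, Finset.mul_sum]
    refine Finset.sum_congr rfl fun j _ => ?_
    rw [smul_mul_assoc, mul_smul_comm, ← map_mul, ← map_mul, h]
  · intro h l
    have h1 := env_mapR l D.J M
    have h2 := env_mapL l D.J M
    rw [h] at h1
    unfold Dat.Jl
    rw [← h1, ← h2]

theorem Jl_comm (l : ℝ →ₗ[ℚ] ℚ) (a : K) : D.Jl l * D.ρ a = D.ρ a * D.Jl l :=
  (comm_Jl D (D.ρ a)).2 (D.J_ρ a) l

/-- From `Ψ_J` and `J_sq`: `Jᵀ Ψ + Ψ J = 0`; apply `l`. -/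
theorem Jl_skew (l : ℝ →ₗ[ℚ] ℚ) : (D.Jl l)ᵀ * D.Ψ + D.Ψ * D.Jl l = 0 := by
  have h1 : D.Jᵀ * qr D.Ψ + qr D.Ψ * D.J = 0 := by
    have h2 : D.Jᵀ * qr D.Ψ * D.J * D.J = qr D.Ψ * D.J := by rw [D.Ψ_J]
    rw [mul_assoc, D.J_sq, mul_neg, mul_one] at h2
    rw [← h2, add_neg_cancel]
  have h3 := env_mapR l D.Jᵀ D.Ψ
  have h4 := env_mapL l D.J D.Ψ
  unfold Dat.Jl
  rw [← Matrix.transpose_map, ← h3, ← h4]
  ext i j
  have h5 : (D.Jᵀ * qr D.Ψ) i j + (qr D.Ψ * D.J) i j = 0 := by
    rw [← Matrix.add_apply, h1, Matrix.zero_apply]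
  rw [Matrix.add_apply, Matrix.map_apply, Matrix.map_apply, ← map_add, h5, map_zero,
    Matrix.zero_apply]

/-- `J` is a complex combination of the `l(J)`. -/
theorem J_mem : rc D.J ∈ D.G := by
  obtain ⟨r, c, l, hJ⟩ := env_decomp D
  have h1 : rc D.J = ∑ j, ((c j : ℝ) : ℂ) • qc (D.Jl (l j)) := by
    conv_lhs => rw [hJ]
    ext i j
    rw [Matrix.sum_apply, RingHom.mapMatrix_apply, Matrix.map_apply, Matrix.sum_apply, map_sum]
    refine Finset.sum_congr rfl fun k _ => ?_
    simp only [Matrix.smul_apply, smul_eq_mul, RingHom.mapMatrix_apply, Matrix.map_apply, map_mul]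
    rw [← IsScalarTower.algebraMap_apply ℚ ℝ ℂ]
    rfl
  rw [h1]
  exact Submodule.sum_mem _ fun j _ => Submodule.smul_mem _ _ (D.Jl_mem (l j))

/-- `G` is stable under entrywise automorphisms of `ℂ`: `{X | act σ X ∈ G}` is a complex subspace (for
the twisted scalar multiplication it is closed under complex scalars because `σ` is bijective), closed
under commutators, and contains the rational generators. -/
theorem G_act (σ : ℂ ≃+* ℂ) {X : Mat m ℂ} (hX : X ∈ D.G) : act σ X ∈ D.G := by
  let g : Submodule ℂ (Mat m ℂ) :=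
    { carrier := {X | act σ X ∈ D.G}
      add_mem' := by
        intro X Y hX hY
        have h : act σ (X + Y) = act σ X + act σ Y := by
          ext i j
          simp [act]
        change act σ (X + Y) ∈ D.G
        rw [h]
        exact Submodule.add_mem _ hX hY
      zero_mem' := by
        have h : act σ (0 : Mat m ℂ) = 0 := by
          ext i j
          simp [act]
        change act σ (0 : Mat m ℂ) ∈ D.G
        rw [h]
        exact Submodule.zero_mem _
      smul_mem' := by
        intro c X hX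
        have h : act σ (c • X) = σ c • act σ X := by
          ext i j
          simp [act]
        change act σ (c • X) ∈ D.G
        rw [h]
        exact Submodule.smul_mem _ _ hX }
  have hmul : ∀ X Y : Mat m ℂ, act σ (X * Y) = act σ X * act σ Y := by
    intro X Y
    ext i j
    simp [act, Matrix.mul_apply]
  have hg : D.G ≤ g := by
    apply D.G_le
    · intro X hX Y hY
      have h : act σ (X * Y - Y * X) = act σ X * act σ Y - act σ Y * act σ X := by
        have hs : act σ (X * Y - Y * X) = act σ (X * Y) - act σ (Y * X) := by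
          ext i j
          exact map_sub σ ((X * Y) i j) ((Y * X) i j)
        rw [hs, hmul, hmul]
      change act σ (X * Y - Y * X) ∈ D.G
      rw [h]
      exact D.G_lie _ hX _ hY
    · intro l
      have h : act σ (qc (D.Jl l)) = qc (D.Jl l) := by
        ext i j
        simp [act]
      change act σ (qc (D.Jl l)) ∈ D.G
      rw [h]
      exact D.Jl_mem l
  exact hg hX

theorem G_comm {X : Mat m ℂ} (hX : X ∈ D.G) (a : K) : X * qc (D.ρ a) = qc (D.ρ a) * X := by
  let g : Submodule ℂ (Mat m ℂ) :=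
    { carrier := {X | X * qc (D.ρ a) = qc (D.ρ a) * X}
      add_mem' := by
        intro X Y hX hY
        change (X + Y) * qc (D.ρ a) = qc (D.ρ a) * (X + Y)
        rw [add_mul, mul_add, show X * qc (D.ρ a) = qc (D.ρ a) * X from hX,
          show Y * qc (D.ρ a) = qc (D.ρ a) * Y from hY]
      zero_mem' := by
        change (0 : Mat m ℂ) * qc (D.ρ a) = qc (D.ρ a) * 0
        rw [zero_mul, mul_zero]
      smul_mem' := by
        intro c X hX
        change (c • X) * qc (D.ρ a) = qc (D.ρ a) * (c • X)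
        rw [smul_mul_assoc, mul_smul_comm, show X * qc (D.ρ a) = qc (D.ρ a) * X from hX] }
  have hg : D.G ≤ g := by
    apply D.G_le
    · intro X hX Y hY
      have hX' : X * qc (D.ρ a) = qc (D.ρ a) * X := hX
      have hY' : Y * qc (D.ρ a) = qc (D.ρ a) * Y := hY
      change (X * Y - Y * X) * qc (D.ρ a) = qc (D.ρ a) * (X * Y - Y * X)
      rw [sub_mul, mul_sub, mul_assoc, hY', ← mul_assoc, hX', mul_assoc, mul_assoc Y, hX',
        ← mul_assoc Y, hY', mul_assoc]
    · intro l
      change qc (D.Jl l) * qc (D.ρ a) = qc (D.ρ a) * qc (D.Jl l)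
      rw [← map_mul, ← map_mul, Jl_comm]
  exact hg hX

theorem G_skew {X : Mat m ℂ} (hX : X ∈ D.G) : Xᵀ * qc D.Ψ + qc D.Ψ * X = 0 := by
  let g : Submodule ℂ (Mat m ℂ) :=
    { carrier := {X | Xᵀ * qc D.Ψ + qc D.Ψ * X = 0}
      add_mem' := by
        intro X Y hX hY
        have hX' : Xᵀ * qc D.Ψ + qc D.Ψ * X = 0 := hX
        have hY' : Yᵀ * qc D.Ψ + qc D.Ψ * Y = 0 := hY
        change (X + Y)ᵀ * qc D.Ψ + qc D.Ψ * (X + Y) = 0
        rw [Matrix.transpose_add, add_mul, mul_add]
        calc Xᵀ * qc D.Ψ + Yᵀ * qc D.Ψ + (qc D.Ψ * X + qc D.Ψ * Y)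
            = (Xᵀ * qc D.Ψ + qc D.Ψ * X) + (Yᵀ * qc D.Ψ + qc D.Ψ * Y) := by abel
          _ = 0 := by rw [hX', hY', add_zero]
      zero_mem' := by
        change (0 : Mat m ℂ)ᵀ * qc D.Ψ + qc D.Ψ * 0 = 0
        rw [Matrix.transpose_zero, zero_mul, mul_zero, add_zero]
      smul_mem' := by
        intro c X hX
        have hX' : Xᵀ * qc D.Ψ + qc D.Ψ * X = 0 := hX
        change (c • X)ᵀ * qc D.Ψ + qc D.Ψ * (c • X) = 0
        rw [Matrix.transpose_smul, smul_mul_assoc, mul_smul_comm, ← smul_add, hX', smul_zero] }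
  have hg : D.G ≤ g := by
    apply D.G_le
    · intro X hX Y hY
      have hX' : Xᵀ * qc D.Ψ = -(qc D.Ψ * X) := eq_neg_of_add_eq_zero_left hX
      have hY' : Yᵀ * qc D.Ψ = -(qc D.Ψ * Y) := eq_neg_of_add_eq_zero_left hY
      change (X * Y - Y * X)ᵀ * qc D.Ψ + qc D.Ψ * (X * Y - Y * X) = 0
      rw [Matrix.transpose_sub, Matrix.transpose_mul, Matrix.transpose_mul, sub_mul, mul_assoc,
        mul_assoc, hX', hY', mul_neg, mul_neg, ← mul_assoc, ← mul_assoc, hX', hY', mul_sub]
      simp only [neg_mul, mul_assoc]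
      abel
    · intro l
      change (qc (D.Jl l))ᵀ * qc D.Ψ + qc D.Ψ * qc (D.Jl l) = 0
      have h : (qc (D.Jl l))ᵀ = qc (D.Jl l)ᵀ := by
        ext i j
        simp
      rw [h, ← map_mul, ← map_mul, ← map_add, Jl_skew, map_zero]
  exact hg hX

variable {S : Type*} [Fintype S] [DecidableEq S]

/-- The summand of `der` for one slot. -/
def env_dr (s : S) (M : Mat m ℂ) (T : (S → Fin m) → ℂ) : (S → Fin m) → ℂ :=
  fun x => ∑ i, M i (x s) * T (Function.update x s i)

lemma env_der (M : Mat m ℂ) (T : (S → Fin m) → ℂ) : der M T = ∑ s, env_dr s M T := by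
  funext x
  rw [Finset.sum_apply]
  rfl

lemma env_dr_sum (s : S) (M : Mat m ℂ) (T : S → (S → Fin m) → ℂ) :
    env_dr s M (∑ s', T s') = ∑ s', env_dr s M (T s') := by
  funext x
  rw [Finset.sum_apply]
  unfold env_dr
  rw [Finset.sum_comm]
  refine Finset.sum_congr rfl fun i _ => ?_
  rw [Finset.sum_apply, Finset.mul_sum]

omit [Fintype S] in
lemma env_dr_same (s : S) (X Y : Mat m ℂ) (T : (S → Fin m) → ℂ) :
    env_dr s X (env_dr s Y T) = env_dr s (Y * X) T := by
  funext x
  unfold env_dr
  simp only [Function.update_self, Function.update_idem, Matrix.mul_apply, Finset.mul_sum,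
    Finset.sum_mul]
  rw [Finset.sum_comm]
  refine Finset.sum_congr rfl fun j _ => Finset.sum_congr rfl fun i _ => ?_
  ring

omit [Fintype S] in
lemma env_dr_comm {s s' : S} (h : s ≠ s') (X Y : Mat m ℂ) (T : (S → Fin m) → ℂ) :
    env_dr s X (env_dr s' Y T) = env_dr s' Y (env_dr s X T) := by
  funext x
  unfold env_dr
  simp only [Finset.mul_sum]
  rw [Finset.sum_comm]
  refine Finset.sum_congr rfl fun j _ => Finset.sum_congr rfl fun i _ => ?_
  rw [Function.update_of_ne h.symm, Function.update_of_ne h, Function.update_comm h]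
  ring

omit [Fintype S] in
lemma env_dr_sub (s : S) (X Y : Mat m ℂ) (T : (S → Fin m) → ℂ) :
    env_dr s (X - Y) T = env_dr s X T - env_dr s Y T := by
  funext x
  rw [Pi.sub_apply]
  unfold env_dr
  rw [← Finset.sum_sub_distrib]
  refine Finset.sum_congr rfl fun i _ => ?_
  rw [Matrix.sub_apply]
  ring

lemma env_der_zero (M : Mat m ℂ) : der M (0 : (S → Fin m) → ℂ) = 0 := by
  funext x
  unfold der
  simp

/-- `der` is a homomorphism of Lie algebras (up to sign; check which one): `der` of a commutator is the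
commutator of `der`s. Only the consequence `der_comm_eq_zero` is needed. -/
theorem der_comm_eq_zero (X Y : Mat m ℂ) (T : (S → Fin m) → ℂ) (hX : der X T = 0) (hY : der Y T = 0) :
    der (X * Y - Y * X) T = 0 := by
  have h1 : ∑ s, ∑ s', env_dr s X (env_dr s' Y T) = 0 := by
    have h := env_der_zero (S := S) X
    rw [← hY, env_der Y T, env_der] at h
    simp only [env_dr_sum] at h
    rw [h, ← env_der, hY]
  have h2 : ∑ s, ∑ s', env_dr s Y (env_dr s' X T) = 0 := by
    have h := env_der_zero (S := S) Y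
    rw [← hX, env_der X T, env_der] at h
    simp only [env_dr_sum] at h
    rw [h, ← env_der, hX]
  rw [Finset.sum_comm] at h2
  have h3 : ∑ s, ∑ s', (env_dr s' Y (env_dr s X T) - env_dr s X (env_dr s' Y T)) = 0 := by
    simp only [Finset.sum_sub_distrib]
    rw [h1, h2, sub_zero]
  rw [env_der, ← h3]
  refine Finset.sum_congr rfl fun s _ => ?_
  rw [Finset.sum_eq_single s]
  · rw [env_dr_same, env_dr_same, env_dr_sub]
  · intro s' _ hne
    rw [env_dr_comm hne, sub_self]
  · intro h
    exact absurd (Finset.mem_univ s) h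

/-- A rational tensor killed by `J` is killed by every `l(J)` (apply `l` to the values), hence by `G`
(`G_le` for the subspace `{X | der X T = 0}`). -/
theorem G_der (T : (S → Fin m) → ℚ) (hT : der (rc D.J) (fun x => (T x : ℂ)) = 0) {X : Mat m ℂ}
    (hX : X ∈ D.G) : der X (fun x => (T x : ℂ)) = 0 := by
  let g : Submodule ℂ (Mat m ℂ) :=
    { carrier := {X | der X (fun x => (T x : ℂ)) = 0}
      add_mem' := by
        intro X Y hX hY
        have hX' : der X (fun x => (T x : ℂ)) = 0 := hX
        have hY' : der Y (fun x => (T x : ℂ)) = 0 := hY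
        change der (X + Y) (fun x => (T x : ℂ)) = 0
        have h : der (X + Y) (fun x => (T x : ℂ)) =
            der X (fun x => (T x : ℂ)) + der Y (fun x => (T x : ℂ)) := by
          funext x
          rw [Pi.add_apply]
          unfold der
          simp only [Matrix.add_apply, add_mul, Finset.sum_add_distrib]
        rw [h, hX', hY', add_zero]
      zero_mem' := by
        change der (0 : Mat m ℂ) (fun x => (T x : ℂ)) = 0
        funext x
        unfold der
        simp
      smul_mem' := by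
        intro c X hX
        have hX' : der X (fun x => (T x : ℂ)) = 0 := hX
        change der (c • X) (fun x => (T x : ℂ)) = 0
        have h : der (c • X) (fun x => (T x : ℂ)) = c • der X (fun x => (T x : ℂ)) := by
          funext x
          rw [Pi.smul_apply, smul_eq_mul]
          unfold der
          simp only [Matrix.smul_apply, smul_eq_mul, Finset.mul_sum, mul_assoc]
        rw [h, hX', smul_zero] }
  have hg : D.G ≤ g := by
    apply D.G_le
    · intro X hX Y hY
      exact der_comm_eq_zero X Y _ hX hY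
    · intro l
      change der (qc (D.Jl l)) (fun x => (T x : ℂ)) = 0
      funext x
      have h1 := congrFun hT x
      unfold der at h1 ⊢
      simp only [RingHom.mapMatrix_apply, Matrix.map_apply, Complex.coe_algebraMap, Pi.zero_apply]
        at h1
      have h2 : ∑ s, ∑ i, D.J i (x s) * (T (Function.update x s i) : ℝ) = 0 := by
        have h3 : ((∑ s, ∑ i, D.J i (x s) * (T (Function.update x s i) : ℝ) : ℝ) : ℂ) = 0 := by
          push_cast
          exact h1
        exact_mod_cast h3
      have h4 := congrArg l h2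
      rw [map_sum, map_zero] at h4
      simp only [map_sum, env_lmul] at h4
      simp only [RingHom.mapMatrix_apply, Matrix.map_apply, Pi.zero_apply, Dat.Jl, eq_ratCast]
      exact_mod_cast h4
  exact hg hX

end Pool.MP43e44c.PE
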