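import Pool.Agent.H.MP_43e44c_ag.PE.Ten1

/-!
Tensors killed by the unitary Lie algebra.
-/

set_option autoImplicit false

open NumberField Module Matrix

namespace Pool.MP43e44c.PE

variable {m : ℕ} {K : Type*} [Field K] [NumberField K] [IsCMField K] (D : Dat K m)

/-- The values on tuples of basis vectors, as a linear map. -/
noncomputable def Ten_E {S : Type*} [Fintype S] [DecidableEq S] {ι : Type*}
    (b : ι → (Fin m → ℂ)) : ((S → Fin m) → ℂ) →ₗ[ℂ] ((S → ι) → ℂ) where
  toFun T := fun z => extT T (fun s => b (z s))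
  map_add' T T' := by
    funext z
    exact extT_add T T' _
  map_smul' a T := by
    funext z
    exact extT_smul a T _

open Classical in
/-- Extension by zero from the tuples of one colouring. -/
noncomputable def Ten_X {S : Type*} [Fintype S] {R : Type*} {N : ℕ} (c : S → R) :
    ((S → Fin N) → ℂ) →ₗ[ℂ] ((S → R × Fin N) → ℂ) where
  toFun B := fun z => if ∀ s, (z s).1 = c s then B (fun s => (z s).2) else 0
  map_add' B B' := by
    funext z
    show (if ∀ s, (z s).1 = c s then (B + B') (fun s => (z s).2) else 0) =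
      (if ∀ s, (z s).1 = c s then B (fun s => (z s).2) else 0) +
      (if ∀ s, (z s).1 = c s then B' (fun s => (z s).2) else 0)
    split_ifs
    · rfl
    · rw [add_zero]
  map_smul' a B := by
    funext z
    show (if ∀ s, (z s).1 = c s then (a • B) (fun s => (z s).2) else 0) =
      a • (if ∀ s, (z s).1 = c s then B (fun s => (z s).2) else 0)
    split_ifs
    · rfl
    · rw [smul_zero]

/-- The number of slots of each kind. -/
theorem Ten_card {p : ℕ} {P : Fin p × Fin 2 → Prop} [DecidablePred P]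
    (σ : {s // P s} ≃ {s // ¬ P s}) : Fintype.card {s // P s} = p := by
  have h1 := Fintype.card_congr σ
  have h2 := Fintype.card_subtype_compl P
  have h3 := Fintype.card_subtype_le P
  have h4 : Fintype.card (Fin p × Fin 2) = p * 2 := by
    rw [Fintype.card_prod, Fintype.card_fin, Fintype.card_fin]
  omega

/-- One contraction is the product of forms of a perfect matching. -/
theorem Ten_one (hm : 0 < m) {p : ℕ} {N : ℕ} {Φ : Set (K →+* ℂ)} [DecidablePred (· ∈ Φ)]
    {b : Basis ((K →+* ℂ) × Fin N) ℂ (Fin m → ℂ)} (h : D.Adp N Φ b)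
    (c : Fin p × Fin 2 → (K →+* ℂ)) (σ : {s // c s ∈ Φ} ≃ {s // ¬ c s ∈ Φ})
    (hσ : ∀ s, cj (c (σ s)) = c s) :
    ∃ (e : Equiv.Perm (Fin p × Fin 2)) (t : Fin p → (K →+* ℂ)),
      Ten_X c (fun z => if ∀ s : {s // c s ∈ Φ}, z s = z (σ s) then 1 else 0) =
        Ten_E b (prodT e (fun q => (D.e (t q))ᵀ * qc D.Ψ)) := by
  classical
  have f : {s // c s ∈ Φ} ≃ Fin p := Fintype.equivFinOfCardEq (Ten_card σ)
  let g : Fin p × Fin 2 → Fin p × Fin 2 := fun x =>
    if x.2 = 0 then (f.symm x.1 : Fin p × Fin 2) else (σ (f.symm x.1) : Fin p × Fin 2)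
  have hg0 : ∀ q, g (q, 0) = f.symm q := fun q => if_pos rfl
  have hg1 : ∀ q, g (q, 1) = σ (f.symm q) := fun q => if_neg one_ne_zero
  have hgi : Function.Injective g := by
    rintro ⟨q, i⟩ ⟨q', i'⟩ hq
    have hi : i = 0 ∨ i = 1 := by
      rcases i with ⟨i, hi⟩
      interval_cases i
      · exact Or.inl rfl
      · exact Or.inr rfl
    have hi' : i' = 0 ∨ i' = 1 := by
      rcases i' with ⟨i', hi'⟩
      interval_cases i'
      · exact Or.inl rfl
      · exact Or.inr rfl
    rcases hi with rfl | rfl <;> rcases hi' with rfl | rfl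
    · rw [hg0, hg0] at hq
      rw [f.symm.injective (Subtype.ext hq)]
    · rw [hg0, hg1] at hq
      exact absurd (f.symm q).2 (hq ▸ (σ (f.symm q')).2)
    · rw [hg1, hg0] at hq
      exact absurd (f.symm q').2 (hq ▸ (σ (f.symm q)).2)
    · rw [hg1, hg1] at hq
      rw [f.symm.injective (σ.injective (Subtype.ext hq))]
  have hgb : Function.Bijective g := Finite.injective_iff_bijective.1 hgi
  let e : Equiv.Perm (Fin p × Fin 2) := (Equiv.ofBijective g hgb).symm
  have he0 : ∀ q, e.symm (q, 0) = f.symm q := fun q => hg0 q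
  have he1 : ∀ q, e.symm (q, 1) = σ (f.symm q) := fun q => hg1 q
  refine ⟨e, fun q => c (f.symm q), ?_⟩
  funext z
  show (if ∀ s, (z s).1 = c s then
      (if ∀ s : {s // c s ∈ Φ}, (z s).2 = (z (σ s)).2 then (1 : ℂ) else 0) else 0) =
    extT (prodT e (fun q => (D.e (c (f.symm q)))ᵀ * qc D.Ψ)) (fun s => b (z s))
  rw [extT_prodT]
  have h1 : ∀ q, b (z (e.symm (q, 0))) ⬝ᵥ
      (((D.e (c (f.symm q)))ᵀ * qc D.Ψ) *ᵥ b (z (e.symm (q, 1)))) =
      if ((z (f.symm q)).1 = c (f.symm q) ∧ (z (σ (f.symm q))).1 = c (σ (f.symm q))) ∧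
        (z (f.symm q)).2 = (z (σ (f.symm q))).2 then 1 else 0 := by
    intro q
    rw [he0, he1, ← mulVec_mulVec, ← Adp_dot]
    have hc2 : c (σ (f.symm q)) = cj (c (f.symm q)) := by
      rw [← hσ, cj_cj]
    by_cases hz : (z (f.symm q)).1 = c (f.symm q)
    · have h2 : D.e (c (f.symm q)) *ᵥ b (z (f.symm q)) = b (z (f.symm q)) := by
        have := h.e_b (z (f.symm q)).1 (z (f.symm q)).2
        rw [← hz]
        exact this
      rw [h2]
      have h3 := Adp_pair hm h (z (f.symm q)).1 (z (σ (f.symm q))).1 (z (f.symm q)).2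
        (z (σ (f.symm q))).2
      have h4 : b (z (f.symm q)) ⬝ᵥ (qc D.Ψ *ᵥ b (z (σ (f.symm q)))) = _ := h3
      rw [h4]
      have h5 : (z (f.symm q)).1 ∈ Φ := by
        rw [hz]
        exact (f.symm q).2
      rw [if_pos h5]
      refine if_congr ?_ rfl rfl
      rw [hc2, hz]
      tauto
    · have h2 : D.e (c (f.symm q)) *ᵥ b (z (f.symm q)) = 0 :=
        Adp_e_ne h (fun h' => hz h'.symm) (z (f.symm q)).2
      rw [h2, zero_dotProduct, if_neg (fun h' => hz h'.1.1)]
  rw [Finset.prod_congr rfl (fun q _ => h1 q), Finset.prod_ite_zero, Finset.prod_const_one]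
  by_cases hall : ∀ q, ((z (f.symm q)).1 = c (f.symm q) ∧
      (z (σ (f.symm q))).1 = c (σ (f.symm q))) ∧ (z (f.symm q)).2 = (z (σ (f.symm q))).2
  · rw [if_pos (fun q _ => hall q)]
    have h6 : ∀ s, (z s).1 = c s := by
      intro s
      by_cases hs : c s ∈ Φ
      · have := (hall (f ⟨s, hs⟩)).1.1
        rwa [Equiv.symm_apply_apply] at this
      · have := (hall (f (σ.symm ⟨s, hs⟩))).1.2
        rwa [Equiv.symm_apply_apply, Equiv.apply_symm_apply] at this
    have h7 : ∀ s : {s // c s ∈ Φ}, (z s).2 = (z (σ s)).2 := by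
      intro s
      have := (hall (f s)).2
      rwa [Equiv.symm_apply_apply] at this
    rw [if_pos h6, if_pos h7]
  · refine Eq.trans ?_ (if_neg (fun h' => hall (fun q => h' q (Finset.mem_univ q)))).symm
    by_cases h6 : ∀ s, (z s).1 = c s
    · rw [if_pos h6, if_neg]
      intro h7
      exact hall fun q => ⟨⟨h6 _, h6 _⟩, h7 _⟩
    · rw [if_neg h6]

/-- A tensor in `2p` slots killed by all skew matrices is a combination of products of the forms
`(x,y) ↦ Ψ(e_t x, y)` over perfect matchings. -/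
theorem ten (hm : 0 < m) {p : ℕ} (T : (Fin p × Fin 2 → Fin m) → ℂ)
    (hT : ∀ X, D.Sk X → der X T = 0) :
    T ∈ Submodule.span ℂ {f | ∃ (e : Equiv.Perm (Fin p × Fin 2)) (t : Fin p → (K →+* ℂ)),
      f = prodT e (fun q => (D.e (t q))ᵀ * qc D.Ψ)} := by
  classical
  obtain ⟨N, Φ, b, h⟩ := exists_adp D hm
  set V := Submodule.span ℂ {f : (Fin p × Fin 2 → Fin m) → ℂ |
    ∃ (e : Equiv.Perm (Fin p × Fin 2)) (t : Fin p → (K →+* ℂ)),
      f = prodT e (fun q => (D.e (t q))ᵀ * qc D.Ψ)} with hV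
  have hinj : Function.Injective (Ten_E (S := Fin p × Fin 2) (m := m) b) := by
    intro T1 T2 h12
    exact eq_of_extT b T1 T2 fun z => congrFun h12 z
  have hcol : ∀ c : Fin p × Fin 2 → (K →+* ℂ),
      Ten_X c (fun z : Fin p × Fin 2 → Fin N => extT T (fun s => b (c s, z s))) ∈
        V.map (Ten_E b) := by
    intro c
    have h1 := Submodule.mem_map_of_mem (f := Ten_X c) (ten_color D hm T hT h c)
    rw [Submodule.map_span] at h1
    refine (Submodule.span_le.2 ?_) h1
    rintro _ ⟨_, ⟨σ, hσ, rfl⟩, rfl⟩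
    obtain ⟨e, t, he⟩ := Ten_one D hm h c σ hσ
    rw [he]
    exact Submodule.mem_map_of_mem (Submodule.subset_span ⟨e, t, rfl⟩)
  have hsum : Ten_E b T = ∑ c : Fin p × Fin 2 → (K →+* ℂ),
      Ten_X c (fun z : Fin p × Fin 2 → Fin N => extT T (fun s => b (c s, z s))) := by
    funext z
    rw [Finset.sum_apply, Finset.sum_eq_single (fun s => (z s).1)]
    · show extT T (fun s => b (z s)) = if ∀ s, (z s).1 = (z s).1 then
        extT T (fun s => b ((z s).1, (z s).2)) else 0
      rw [if_pos (fun _ => rfl)]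
    · intro c _ hc
      show (if ∀ s, (z s).1 = c s then extT T (fun s => b (c s, (z s).2)) else 0) = 0
      rw [if_neg]
      intro h'
      exact hc (funext fun s => (h' s).symm)
    · intro h'
      exact absurd (Finset.mem_univ _) h'
  have hE : Ten_E b T ∈ V.map (Ten_E b) := by
    rw [hsum]
    exact Submodule.sum_mem _ fun c _ => hcol c
  obtain ⟨T', hT', hTT⟩ := hE
  rwa [hinj hTT] at hT'

end Pool.MP43e44c.PE
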