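import Pool.Agent.H.MP_43e44c_ag.PE.Core1
import Pool.Agent.H.MP_43e44c_ag.PE.Ten
import Pool.Agent.H.MP_43e44c_ag.PE.Env

/-!
Rational tensors killed by the complex structure.
-/

set_option autoImplicit false

open NumberField Module Matrix

namespace Pool.MP43e44c.PE

variable {m : ℕ} {K : Type*} [Field K] [NumberField K] [IsCMField K] (D : Dat K m)

/-- If `G` is the whole unitary Lie algebra then rational tensors killed by `J` are rational combinations of
products of the forms `ψ(x, a y)`.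
Proof: `G_der` and `ten`; `(e_t)ᵀ Ψ = Ψ e_{conj t}` (`e_ros`) is in the span of the `Ψ ρ(a)` (`e_mem_span`);
`prodT_mem_span` and `mem_span_rat`. -/
theorem core (hm : 0 < m) (hall : ∀ X, D.Sk X → X ∈ D.G) {p : ℕ} (T : (Fin p × Fin 2 → Fin m) → ℚ)
    (hT : der (rc D.J) (fun x => (T x : ℂ)) = 0) :
    T ∈ Submodule.span ℚ {f | ∃ (e : Equiv.Perm (Fin p × Fin 2)) (a : Fin p → K),
      f = prodT e (fun q => D.Ψ * D.ρ (a q))} := by
  set V : Set (Mat m ℚ) := Set.range (fun a => D.Ψ * D.ρ a) with hV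
  have hβ : ∀ t : K →+* ℂ, (D.e t)ᵀ * qc D.Ψ ∈ Submodule.span ℂ (qc '' V) := by
    intro t
    rw [e_ros D hm t]
    have h1 := Submodule.mem_map_of_mem (f := LinearMap.mulLeft ℂ (qc D.Ψ)) (e_mem_span D (cj t))
    rw [Submodule.map_span] at h1
    rw [LinearMap.mulLeft_apply] at h1
    refine Submodule.span_mono ?_ h1
    rintro _ ⟨_, ⟨a, rfl⟩, rfl⟩
    refine ⟨D.Ψ * D.ρ a, ⟨a, rfl⟩, ?_⟩
    rw [LinearMap.mulLeft_apply, map_mul]
  have h1 := ten D hm (fun x => ((T x : ℚ) : ℂ)) (fun X hX => G_der D T hT (hall X hX))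
  apply mem_span_rat
  refine (Submodule.span_le.2 ?_) h1
  rintro f ⟨e, t, rfl⟩
  have h2 := prodT_mem_span e V (fun q => (D.e (t q))ᵀ * qc D.Ψ) (fun q => hβ (t q))
  refine Submodule.span_mono ?_ h2
  rintro g ⟨a, ha, rfl⟩
  choose k hk using ha
  refine ⟨prodT e a, ⟨e, k, ?_⟩, rfl⟩
  congr 1
  funext q
  exact (hk q).symm

end Pool.MP43e44c.PE
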