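import Pool.Agent.H.MP_43e44c_ag.PE.Cup1
import Pool.Agent.H.MP_43e44c_ag.Cup

/-!
Alternating sums of products over perfect matchings.
-/

set_option autoImplicit false

open NumberField Module Matrix

namespace Pool.MP43e44c.PE

/-- Reindexing of the alternating sum by a permutation of the slots. -/
theorem cup2_reindex {V : Type*} {p : ℕ} (e : Equiv.Perm (Fin p × Fin 2)) (β : Fin p → V → V → ℝ)
    (v : Fin p × Fin 2 → V) :
    (((∑ σ : Equiv.Perm (Fin p × Fin 2), ((Equiv.Perm.sign σ : ℤ) : ℝ) *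
      ∏ q, β q (v (σ (e.symm (q, 0)))) (v (σ (e.symm (q, 1)))) : ℝ)) : ℂ) =
      ((Equiv.Perm.sign e : ℤ) : ℂ) * altSum (fun q x y => ((β q x y : ℝ) : ℂ)) v := by
  unfold altSum
  rw [Finset.mul_sum]
  push_cast
  refine Fintype.sum_equiv (Equiv.mulRight e⁻¹) _ _ fun σ => ?_
  rw [Equiv.coe_mulRight, Equiv.Perm.sign_mul, Equiv.Perm.sign_inv]
  have h1 : ((Equiv.Perm.sign e : ℤ) : ℂ) * ((Equiv.Perm.sign e : ℤ) : ℂ) = 1 := by
    rw [← Int.cast_mul]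
    have h2 : ((Equiv.Perm.sign e : ℤˣ) : ℤ) * ((Equiv.Perm.sign e : ℤˣ) : ℤ) = 1 := by
      rw [← Units.val_mul, Int.units_mul_self, Units.val_one]
    rw [h2, Int.cast_one]
  have h3 : ((((Equiv.Perm.sign σ * Equiv.Perm.sign e : ℤˣ)) : ℤ) : ℂ) =
      ((Equiv.Perm.sign σ : ℤ) : ℂ) * ((Equiv.Perm.sign e : ℤ) : ℂ) := by
    rw [Units.val_mul, Int.cast_mul]
  rw [h3]
  have h4 : ∀ x, (σ * e⁻¹) x = σ (e.symm x) := fun x => rfl
  simp only [h4]
  linear_combination (-(((Equiv.Perm.sign σ : ℤ) : ℂ) *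
    ∏ q, ((β q (v (σ (e.symm (q, 0)))) (v (σ (e.symm (q, 1)))) : ℝ) : ℂ))) * h1

variable {E : Type*} [AddCommGroup E] [Module ℂ E] [Module ℝ E] [IsScalarTower ℝ ℂ E]
variable {K : Type*} [Field K] [NumberField K] [IsCMField K]

/-- The alternating sum over all permutations of the slots of a product over a perfect matching is
`±2^{-p}` times a cup product.  Proof: reindex by `e` (sign of `e`), then `altSum_antisymm` and
`cup_eq_altSum` (real and complex versions). -/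
theorem altsum_match {Λ : AddSubgroup E} {ψ : E →ₗ[ℝ] E →ₗ[ℝ] ℝ} (hψ : IsPolarisation Λ ψ)
    {ι : K →+* Module.End ℂ E}
    (hι : ∀ φ : Module.End ℂ E, (∃ a, ι a = φ) ↔ ∃ n : ℕ, n ≠ 0 ∧ ∀ x ∈ Λ, n • φ x ∈ Λ)
    {k p : ℕ} (κ : Fin p × Fin 2 → Fin k) (e : Equiv.Perm (Fin p × Fin 2)) (a : Fin p → K) :
    (fun v : Fin p × Fin 2 → Fin k → E => ∑ σ : Equiv.Perm (Fin p × Fin 2), ((Equiv.Perm.sign σ : ℤ) : ℝ) *
      ∏ q, ψ (v (σ (e.symm (q, 0))) (κ (e.symm (q, 0))))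
        (ι (a q) (v (σ (e.symm (q, 1))) (κ (e.symm (q, 1)))))) ∈
      Submodule.span ℚ {f | ∃ θ : Fin p → (Fin k → E) [⋀^Fin 2]→ₗ[ℝ] ℝ,
        (∀ i, IsHodgeClass (powLattice Λ k) (θ i)) ∧ f = cup θ} := by
  set β : Fin p → (Fin k → E) → (Fin k → E) → ℝ := fun q u w =>
    ψ (u (κ (e.symm (q, 0)))) (ι (a q) (w (κ (e.symm (q, 1))))) with hβ
  have h1 : ∀ q, ∃ θ : (Fin k → E) [⋀^Fin 2]→ₗ[ℝ] ℝ, IsHodgeClass (powLattice Λ k) θ ∧
      ∀ u w : Fin k → E, θ ![u, w] = β q u w - β q w u := fun q =>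
    exists_two_form hψ hι (κ (e.symm (q, 0))) (κ (e.symm (q, 1))) (a q)
  choose θ hθ hθv using h1
  have h2 : (fun v : Fin p × Fin 2 → Fin k → E => ∑ σ : Equiv.Perm (Fin p × Fin 2),
      ((Equiv.Perm.sign σ : ℤ) : ℝ) *
      ∏ q, ψ (v (σ (e.symm (q, 0))) (κ (e.symm (q, 0))))
        (ι (a q) (v (σ (e.symm (q, 1))) (κ (e.symm (q, 1)))))) =
      (((Equiv.Perm.sign e : ℤ) : ℚ) * (1 / 2) ^ p) • cup θ := by
    funext v
    apply Complex.ofReal_injective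
    have h3 := cup2_reindex e β v
    refine h3.trans ?_
    have h4 : altSum (fun i x y => ((β i x y : ℝ) : ℂ) - ((β i y x : ℝ) : ℂ)) v =
        2 ^ p * altSum (fun i x y => ((β i x y : ℝ) : ℂ)) v :=
      altSum_antisymm (fun i x y => ((β i x y : ℝ) : ℂ)) v
    have h5 : (cup θ v : ℂ) = altSum (fun i x y => ((β i x y : ℝ) : ℂ) - ((β i y x : ℝ) : ℂ)) v := by
      rw [cup_eq_altSum]
      congr 1
      funext i x y
      rw [hθv]
      push_cast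
      rfl
    rw [Pi.smul_apply, Rat.smul_def]
    push_cast
    rw [h5, h4, mul_assoc, ← mul_assoc ((1 / 2 : ℂ) ^ p), ← mul_pow]
    norm_num
  rw [h2]
  exact Submodule.smul_mem _ _ (Submodule.subset_span ⟨θ, hθ, rfl⟩)

end Pool.MP43e44c.PE
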