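import Pool.Agent.H.MP_43e44c_ag.PE.Def

/-!
Multilinear extension of tensors given in coordinates.
-/

set_option autoImplicit false

open Module Matrix

namespace Pool.MP43e44c.PE

variable {S : Type*} [Fintype S] [DecidableEq S] {F : Type*} [Field F] {m : ℕ}

/-- The multilinear form with values `T x` on the tuples of basis vectors. -/
def extT (T : (S → Fin m) → F) (v : S → Fin m → F) : F := ∑ x : S → Fin m, T x * ∏ s, v s (x s)

theorem Ext_prod_upd (v : S → Fin m → F) (s : S) (a : Fin m → F) (x : S → Fin m) :
    ∏ r, Function.update v s a r (x r) = a (x s) * ∏ r ∈ Finset.univ.erase s, v r (x r) := by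
  rw [← Finset.mul_prod_erase Finset.univ _ (Finset.mem_univ s), Function.update_self]
  congr 1
  apply Finset.prod_congr rfl
  intro r hr
  rw [Function.update_of_ne (Finset.ne_of_mem_erase hr)]

theorem extT_update_add (T : (S → Fin m) → F) (v : S → Fin m → F) (s : S) (a b : Fin m → F) :
    extT T (Function.update v s (a + b)) = extT T (Function.update v s a) + extT T (Function.update v s b) := by
  unfold extT
  rw [← Finset.sum_add_distrib]
  apply Finset.sum_congr rfl
  intro x _
  rw [Ext_prod_upd, Ext_prod_upd, Ext_prod_upd, Pi.add_apply]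
  ring

theorem extT_update_smul (T : (S → Fin m) → F) (v : S → Fin m → F) (s : S) (c : F) (a : Fin m → F) :
    extT T (Function.update v s (c • a)) = c * extT T (Function.update v s a) := by
  unfold extT
  rw [Finset.mul_sum]
  apply Finset.sum_congr rfl
  intro x _
  rw [Ext_prod_upd, Ext_prod_upd, Pi.smul_apply, smul_eq_mul]
  ring

theorem extT_add (T T' : (S → Fin m) → F) (v : S → Fin m → F) : extT (T + T') v = extT T v + extT T' v := by
  unfold extT
  rw [← Finset.sum_add_distrib]
  apply Finset.sum_congr rfl
  intro x _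
  rw [Pi.add_apply, add_mul]

theorem extT_smul (c : F) (T : (S → Fin m) → F) (v : S → Fin m → F) : extT (c • T) v = c * extT T v := by
  unfold extT
  rw [Finset.mul_sum]
  apply Finset.sum_congr rfl
  intro x _
  rw [Pi.smul_apply, smul_eq_mul, mul_assoc]

theorem extT_single (T : (S → Fin m) → F) (x : S → Fin m) : extT T (fun s => Pi.single (x s) 1) = T x := by
  unfold extT
  rw [Finset.sum_eq_single x]
  · have h : ∏ s, (Pi.single (x s) (1 : F) : Fin m → F) (x s) = 1 := by
      apply Finset.prod_eq_one
      intro s _
      rw [Pi.single_eq_same]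
    rw [h, mul_one]
  · intro y _ hy
    obtain ⟨s, hs⟩ : ∃ s, y s ≠ x s := by
      by_contra hcon
      push Not at hcon
      exact hy (funext hcon)
    rw [Finset.prod_eq_zero (Finset.mem_univ s), mul_zero]
    show (Pi.single (x s) (1 : F) : Fin m → F) (y s) = 0
    rw [Pi.single_apply, if_neg hs]
  · intro h
    exact absurd (Finset.mem_univ x) h

/-- exchange of a coordinate -/
theorem Ext_swap (s : S) (G : (S → Fin m) → Fin m → F) :
    ∑ x : S → Fin m, ∑ i, G x i = ∑ y : S → Fin m, ∑ j, G (Function.update y s j) (y s) := by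
  have hinv : Function.Involutive
      (fun p : (S → Fin m) × Fin m => ((Function.update p.1 s p.2, p.1 s) : (S → Fin m) × Fin m)) := by
    rintro ⟨x, i⟩
    simp only [Function.update_idem, Function.update_eq_self, Function.update_self]
  rw [← Fintype.sum_prod_type' G, ← Fintype.sum_prod_type' (fun y j => G (Function.update y s j) (y s))]
  rw [← Equiv.sum_comp hinv.toPerm]
  rfl

/-- `der` is the derivation action. -/
theorem extT_der (X : Mat m F) (T : (S → Fin m) → F) (v : S → Fin m → F) :
    extT (der X T) v = ∑ s, extT T (Function.update v s (X *ᵥ v s)) := by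
  have h1 : extT (der X T) v = ∑ s, ∑ x : S → Fin m, ∑ i,
      X i (x s) * T (Function.update x s i) * ∏ r, v r (x r) := by
    unfold extT der
    rw [Finset.sum_comm]
    apply Finset.sum_congr rfl
    intro x _
    rw [Finset.sum_mul]
    apply Finset.sum_congr rfl
    intro s _
    rw [Finset.sum_mul]
  rw [h1]
  apply Finset.sum_congr rfl
  intro s _
  rw [Ext_swap s (fun x i => X i (x s) * T (Function.update x s i) * ∏ r, v r (x r))]
  unfold extT
  apply Finset.sum_congr rfl
  intro y _
  rw [Ext_prod_upd, Matrix.mulVec, dotProduct, Finset.sum_mul, Finset.mul_sum]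
  apply Finset.sum_congr rfl
  intro j _
  have h2 : ∏ r, v r (Function.update y s j r) = v s j * ∏ r ∈ Finset.univ.erase s, v r (y r) := by
    rw [← Finset.mul_prod_erase Finset.univ _ (Finset.mem_univ s), Function.update_self]
    congr 1
    apply Finset.prod_congr rfl
    intro r hr
    rw [Function.update_of_ne (Finset.ne_of_mem_erase hr)]
  rw [h2]
  simp only [Function.update_idem, Function.update_eq_self, Function.update_self]
  ring

/-- tuples indexed by `S` as families of pairs -/
def Ext_equiv {Q : Type*} (e : S ≃ Q × Fin 2) : (S → Fin m) ≃ (Q → Fin m × Fin m) where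
  toFun x := fun q => (x (e.symm (q, 0)), x (e.symm (q, 1)))
  invFun f := fun s => if (e s).2 = 0 then (f (e s).1).1 else (f (e s).1).2
  left_inv x := by
    funext s
    by_cases h : (e s).2 = 0
    · have h2 : ((e s).1, (0 : Fin 2)) = e s := Prod.ext rfl h.symm
      simp only [if_pos h, h2, Equiv.symm_apply_apply]
    · have h1 : (e s).2 = 1 := by
        have := (e s).2.isLt
        ext
        have h3 : ((e s).2 : ℕ) ≠ 0 := fun h4 => h (Fin.ext h4)
        simp only [Fin.val_one]
        omega
      have h2 : ((e s).1, (1 : Fin 2)) = e s := Prod.ext rfl h1.symm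
      simp only [if_neg h, h2, Equiv.symm_apply_apply]
  right_inv f := by
    funext q
    simp only [Equiv.apply_symm_apply, if_true, one_ne_zero, if_false]

theorem extT_prodT {Q : Type*} [Fintype Q] (e : S ≃ Q × Fin 2) (β : Q → Mat m F) (v : S → Fin m → F) :
    extT (prodT e β) v = ∏ q, v (e.symm (q, 0)) ⬝ᵥ (β q *ᵥ v (e.symm (q, 1))) := by
  classical
  have h1 : ∀ q, v (e.symm (q, 0)) ⬝ᵥ (β q *ᵥ v (e.symm (q, 1))) =
      ∑ p : Fin m × Fin m, v (e.symm (q, 0)) p.1 * (β q p.1 p.2 * v (e.symm (q, 1)) p.2) := by
    intro q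
    rw [Fintype.sum_prod_type, dotProduct]
    apply Finset.sum_congr rfl
    intro i _
    rw [Matrix.mulVec, dotProduct, Finset.mul_sum]
  have h2 : ∏ q, v (e.symm (q, 0)) ⬝ᵥ (β q *ᵥ v (e.symm (q, 1))) =
      ∑ f : Q → Fin m × Fin m, ∏ q,
        (v (e.symm (q, 0)) (f q).1 * (β q (f q).1 (f q).2 * v (e.symm (q, 1)) (f q).2)) := by
    rw [Finset.prod_congr rfl (fun q _ => h1 q), Finset.prod_univ_sum, Fintype.piFinset_univ]
  rw [h2, ← Equiv.sum_comp (Ext_equiv (m := m) e)]
  unfold extT prodT
  apply Finset.sum_congr rfl
  intro x _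
  have h3 : ∏ s, v s (x s) = ∏ q, (v (e.symm (q, 0)) (x (e.symm (q, 0))) *
      v (e.symm (q, 1)) (x (e.symm (q, 1)))) := by
    rw [← Equiv.prod_comp e.symm (fun s => v s (x s)), Fintype.prod_prod_type]
    apply Finset.prod_congr rfl
    intro q _
    rw [Fin.prod_univ_two]
  rw [h3, ← Finset.prod_mul_distrib]
  apply Finset.prod_congr rfl
  intro q _
  simp only [Ext_equiv, Equiv.coe_fn_mk]
  ring

/-- the extension as a multilinear map -/
def Ext_M {S : Type*} [Fintype S] [hS : DecidableEq S] (T : (S → Fin m) → F) : MultilinearMap F (fun _ : S => Fin m → F) F where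
  toFun := extT T
  map_update_add' := by
    intro hd v s a b
    have he : hd = hS := Subsingleton.elim _ _
    subst he
    exact extT_update_add T v s a b
  map_update_smul' := by
    intro hd v s c a
    have he : hd = hS := Subsingleton.elim _ _
    subst he
    exact extT_update_smul T v s c a

/-- Two tensors are equal if their extensions agree on the tuples of vectors of a basis. -/
theorem eq_of_extT {ι : Type*} [Fintype ι] (b : Basis ι F (Fin m → F)) (T T' : (S → Fin m) → F)
    (h : ∀ z : S → ι, extT T (fun s => b (z s)) = extT T' (fun s => b (z s))) : T = T' := by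
  have h1 : Ext_M T = Ext_M T' := Module.Basis.ext_multilinear (fun _ => b) (fun z => h z)
  funext x
  have h2 : extT T (fun s => Pi.single (x s) 1) = extT T' (fun s => Pi.single (x s) 1) :=
    congrArg (fun M : MultilinearMap F (fun _ : S => Fin m → F) F => M (fun s => Pi.single (x s) 1)) h1
  rw [extT_single, extT_single] at h2
  exact h2

end Pool.MP43e44c.PE
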