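import Pool.Agent.H.MP_43e44c_ag.PE.Set0
import Pool.Agent.H.MP_43e44c_ag.PE.Ext

/-!
The form with coordinates `prodT`.
-/

set_option autoImplicit false

open NumberField Module Matrix

namespace Pool.MP43e44c.PE

variable {E : Type*} [AddCommGroup E] [Module ℂ E] [Module ℝ E] [IsScalarTower ℝ ℂ E]
variable {K : Type*} [Field K] [NumberField K] [IsCMField K]

/-- The value of the multilinear form with coordinates `prodT e (Ψ ρ(a))`. -/
theorem form_of_prodT {m : ℕ} {b : Basis (Fin m) ℝ E} {ψ : E →ₗ[ℝ] E →ₗ[ℝ] ℝ} {ι : K →+* Module.End ℂ E}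
    {D : Dat K m} (hD : Repr b ψ ι D) {p : ℕ} (e : Equiv.Perm (Fin p × Fin 2)) (a : Fin p → K)
    (w : Fin p × Fin 2 → E) :
    ∑ x : Fin p × Fin 2 → Fin m, ((prodT e (fun q => D.Ψ * D.ρ (a q)) x : ℚ) : ℝ) *
      ∏ s, b.repr (w s) (x s) = ∏ q, ψ (w (e.symm (q, 0))) (ι (a q) (w (e.symm (q, 1)))) := by
  have h1 := extT_prodT (F := ℝ) e (fun q => qr (D.Ψ * D.ρ (a q))) (fun s => b.equivFun (w s))
  have h2 : ∀ x : Fin p × Fin 2 → Fin m, ((prodT e (fun q => D.Ψ * D.ρ (a q)) x : ℚ) : ℝ) =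
      prodT e (fun q => qr (D.Ψ * D.ρ (a q))) x := by
    intro x
    simp only [prodT, RingHom.mapMatrix_apply, Matrix.map_apply, eq_ratCast, Rat.cast_prod]
  have h3 : ∀ q, b.equivFun (w (e.symm (q, 0))) ⬝ᵥ
      (qr (D.Ψ * D.ρ (a q)) *ᵥ b.equivFun (w (e.symm (q, 1)))) =
      ψ (w (e.symm (q, 0))) (ι (a q) (w (e.symm (q, 1)))) := by
    intro q
    rw [map_mul, ← Matrix.mulVec_mulVec, ← hD.ψ, hD.ρ, LinearEquiv.symm_apply_apply,
      LinearEquiv.symm_apply_apply]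
  rw [Finset.prod_congr rfl (fun q _ => h3 q)] at h1
  rw [← h1]
  unfold extT
  refine Finset.sum_congr rfl fun x _ => ?_
  rw [h2]
  rfl

end Pool.MP43e44c.PE
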