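import Pool.Agent.H.MP_43e44c_ag.PE.Tor

/-!
Expansion of a form on `E^k` in coordinates.
-/

set_option autoImplicit false

open NumberField Module Matrix

namespace Pool.MP43e44c.PE

variable {E : Type*} [AddCommGroup E] [Module ℂ E] [Module ℝ E] [IsScalarTower ℝ ℂ E]

variable {K : Type*} [Field K] [NumberField K] [IsCMField K]

/-- `ω` is the sum over `κ` of the multilinear forms with coordinates `T κ` (multilinearity:
`v s = ∑_j Pi.single j (v s j)`, `v s j = ∑_i b.repr (v s j) i • b i`). -/
theorem expand {m : ℕ} (b : Basis (Fin m) ℝ E) {k p : ℕ} (ω : (Fin k → E) [⋀^Fin p × Fin 2]→ₗ[ℝ] ℝ)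
    (v : Fin p × Fin 2 → Fin k → E) :
    ω v = ∑ κ : Fin p × Fin 2 → Fin k, ∑ x : Fin p × Fin 2 → Fin m,
      ω (fun s => Pi.single (κ s) (b (x s))) * ∏ s, b.repr (v s (κ s)) (x s) := by
  classical
  have h1 : ω v = ω.toMultilinearMap (fun s => ∑ j, Pi.single j (v s j)) := by
    have : (fun s => ∑ j, (Pi.single j (v s j) : Fin k → E)) = v := by
      funext s
      exact Finset.univ_sum_single (v s)
    rw [this]
    rfl
  rw [h1, MultilinearMap.map_sum ω.toMultilinearMap (fun s j => (Pi.single j (v s j) : Fin k → E))]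
  refine Finset.sum_congr rfl fun κ _ => ?_
  have h2 : (fun s => (Pi.single (κ s) (v s (κ s)) : Fin k → E)) =
      fun s => ∑ i, b.repr (v s (κ s)) i • (Pi.single (κ s) (b i) : Fin k → E) := by
    funext s
    conv_lhs => rw [← b.sum_repr (v s (κ s))]
    rw [← LinearMap.single_apply ℝ (fun _ => E), map_sum]
    refine Finset.sum_congr rfl fun i _ => ?_
    rw [map_smul, LinearMap.single_apply]
  rw [h2, MultilinearMap.map_sum ω.toMultilinearMap
    (fun s i => b.repr (v s (κ s)) i • (Pi.single (κ s) (b i) : Fin k → E))]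
  refine Finset.sum_congr rfl fun x _ => ?_
  rw [MultilinearMap.map_smul_univ, smul_eq_mul, mul_comm]
  rfl

end Pool.MP43e44c.PE
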