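import Pool.Agent.H.MP_43e44c_ag.PE.Hdg2
import Pool.Agent.H.MP_43e44c_ag.PE.Hdg3
import Pool.Agent.H.MP_43e44c_ag.PE.Cup2
import Pool.Agent.H.MP_43e44c_ag.PE.Cup3

/-!
Hodge classes are generated by divisors.
-/

set_option autoImplicit false

open NumberField Module Matrix

namespace Pool.MP43e44c.PE

variable {E : Type*} [AddCommGroup E] [Module ℂ E] [Module ℝ E] [IsScalarTower ℝ ℂ E]
variable {K : Type*} [Field K] [NumberField K] [IsCMField K]

/-- The alternating sum over the permutations of the slots of the multilinear form with coordinates `T`,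
as a `ℚ`-linear function of `T`. -/
noncomputable def cupsL {m : ℕ} (b : Basis (Fin m) ℝ E) {k p : ℕ} (κ : Fin p × Fin 2 → Fin k) :
    ((Fin p × Fin 2 → Fin m) → ℚ) →ₗ[ℚ] ((Fin p × Fin 2 → Fin k → E) → ℝ) where
  toFun T := fun v => ∑ σ : Equiv.Perm (Fin p × Fin 2), ((Equiv.Perm.sign σ : ℤ) : ℝ) *
    ∑ x : Fin p × Fin 2 → Fin m, (T x : ℝ) * ∏ s, b.repr (v (σ s) (κ s)) (x s)
  map_add' T T' := by
    funext v
    simp only [Pi.add_apply, Rat.cast_add, add_mul, Finset.sum_add_distrib, mul_add]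
  map_smul' q T := by
    funext v
    simp only [Pi.smul_apply, smul_eq_mul, Rat.cast_mul, RingHom.id_apply, Rat.smul_def,
      Finset.mul_sum]
    refine Finset.sum_congr rfl fun σ _ => Finset.sum_congr rfl fun x _ => ?_
    ring

theorem cupsL_apply {m : ℕ} (b : Basis (Fin m) ℝ E) {k p : ℕ} (κ : Fin p × Fin 2 → Fin k)
    (T : (Fin p × Fin 2 → Fin m) → ℚ) (v : Fin p × Fin 2 → Fin k → E) : cupsL b κ T v =
      ∑ σ : Equiv.Perm (Fin p × Fin 2), ((Equiv.Perm.sign σ : ℤ) : ℝ) *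
        ∑ x : Fin p × Fin 2 → Fin m, (T x : ℝ) * ∏ s, b.repr (v (σ s) (κ s)) (x s) := rfl

/-- An alternating form is the average of its alternating sum. -/
theorem cups_alt {V : Type*} [AddCommGroup V] [Module ℝ V] {S : Type*} [Fintype S]
    [DecidableEq S] (ω : V [⋀^S]→ₗ[ℝ] ℝ) (v : S → V) :
    ∑ σ : Equiv.Perm S, ((Equiv.Perm.sign σ : ℤ) : ℝ) * ω (fun s => v (σ s)) =
      (Fintype.card (Equiv.Perm S) : ℝ) * ω v := by
  have h : ∀ σ : Equiv.Perm S, ((Equiv.Perm.sign σ : ℤ) : ℝ) * ω (fun s => v (σ s)) = ω v := by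
    intro σ
    have h1 : ω (fun s => v (σ s)) = Equiv.Perm.sign σ • ω v := ω.map_perm v σ
    rw [h1]
    rcases Int.units_eq_one_or (Equiv.Perm.sign σ) with h2 | h2 <;> rw [h2] <;> simp
  rw [Finset.sum_congr rfl fun σ _ => h σ, Finset.sum_const, Finset.card_univ, nsmul_eq_mul]

/-- If all coordinate tensors of Hodge classes are rational combinations of products of the forms
`ψ(x, a y)` then Hodge classes are generated by divisors. -/
theorem generated {m : ℕ} {b : Basis (Fin m) ℝ E} {Λ : AddSubgroup E}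
    (hΛ : Λ = AddSubgroup.closure (Set.range b)) {ψ : E →ₗ[ℝ] E →ₗ[ℝ] ℝ} (hψ : IsPolarisation Λ ψ)
    {ι : K →+* Module.End ℂ E}
    (hι : ∀ φ : Module.End ℂ E, (∃ a, ι a = φ) ↔ ∃ n : ℕ, n ≠ 0 ∧ ∀ x ∈ Λ, n • φ x ∈ Λ)
    {D : Dat K m} (hD : Repr b ψ ι D) (p : ℕ)
    (hc : ∀ T : (Fin p × Fin 2 → Fin m) → ℚ, der (rc D.J) (fun x => (T x : ℂ)) = 0 →
      T ∈ Submodule.span ℚ {f | ∃ (e : Equiv.Perm (Fin p × Fin 2)) (a : Fin p → K),
        f = prodT e (fun q => D.Ψ * D.ρ (a q))}) (k : ℕ) :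
    GeneratedByDivisors (powLattice Λ k) p := by
  classical
  intro ω hω
  choose T hT1 hT2 using fun κ : Fin p × Fin 2 → Fin k => coords hΛ hD ω hω κ
  have hmem : ∀ κ : Fin p × Fin 2 → Fin k, cupsL b κ (T κ) ∈ Submodule.span ℚ
      {f | ∃ θ : Fin p → (Fin k → E) [⋀^Fin 2]→ₗ[ℝ] ℝ,
        (∀ i, IsHodgeClass (powLattice Λ k) (θ i)) ∧ f = cup θ} := by
    intro κ
    refine Submodule.span_induction (p := fun T _ => cupsL b κ T ∈ Submodule.span ℚ
      {f | ∃ θ : Fin p → (Fin k → E) [⋀^Fin 2]→ₗ[ℝ] ℝ,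
        (∀ i, IsHodgeClass (powLattice Λ k) (θ i)) ∧ f = cup θ}) ?_ ?_ ?_ ?_ (hc (T κ) (hT2 κ))
    · rintro f ⟨e, a, rfl⟩
      have h1 : cupsL b κ (prodT e (fun q => D.Ψ * D.ρ (a q))) =
          (fun v : Fin p × Fin 2 → Fin k → E => ∑ σ : Equiv.Perm (Fin p × Fin 2),
            ((Equiv.Perm.sign σ : ℤ) : ℝ) *
            ∏ q, ψ (v (σ (e.symm (q, 0))) (κ (e.symm (q, 0))))
              (ι (a q) (v (σ (e.symm (q, 1))) (κ (e.symm (q, 1)))))) := by
        funext v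
        rw [cupsL_apply]
        refine Finset.sum_congr rfl fun σ _ => ?_
        rw [form_of_prodT hD e a fun s => v (σ s) (κ s)]
      rw [h1]
      exact altsum_match hψ hι κ e a
    · rw [map_zero]
      exact Submodule.zero_mem _
    · intro f g _ _ hf hg
      rw [map_add]
      exact Submodule.add_mem _ hf hg
    · intro q f _ hf
      rw [map_smul]
      exact Submodule.smul_mem _ q hf
  have hcard : ((Fintype.card (Equiv.Perm (Fin p × Fin 2)) : ℕ) : ℝ) ≠ 0 :=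
    Nat.cast_ne_zero.2 Fintype.card_ne_zero
  have hω2 : (⇑ω : (Fin p × Fin 2 → Fin k → E) → ℝ) =
      ((Fintype.card (Equiv.Perm (Fin p × Fin 2)) : ℚ))⁻¹ •
        ∑ κ : Fin p × Fin 2 → Fin k, cupsL b κ (T κ) := by
    funext v
    rw [Pi.smul_apply, Finset.sum_apply, Rat.smul_def]
    have h1 : ∑ κ : Fin p × Fin 2 → Fin k, cupsL b κ (T κ) v =
        (Fintype.card (Equiv.Perm (Fin p × Fin 2)) : ℝ) * ω v := by
      rw [← cups_alt ω v]
      simp only [cupsL_apply]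
      rw [Finset.sum_comm]
      refine Finset.sum_congr rfl fun σ _ => ?_
      rw [← Finset.mul_sum, expand b ω (fun s => v (σ s))]
      congr 1
      refine Finset.sum_congr rfl fun κ _ => Finset.sum_congr rfl fun x _ => ?_
      rw [hT1 κ x]
    rw [h1]
    push_cast
    field_simp
  rw [hω2]
  exact Submodule.smul_mem _ _ (Submodule.sum_mem _ fun κ _ => hmem κ)

end Pool.MP43e44c.PE
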