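import Pool.Agent.H.MP_43e44c_ag.Defs

/-!
Polarised complex tori whose endomorphism algebra is a given number field.
-/

set_option autoImplicit false

open NumberField Module

namespace Pool.MP43e44c

variable {E : Type*} [AddCommGroup E] [Module ℂ E] [Module ℝ E]

/-- `Λ` is a lattice: the group generated by a basis of the real vector space `E`. -/
def IsLattice (Λ : AddSubgroup E) : Prop :=
  ∃ (m : ℕ) (b : Basis (Fin m) ℝ E), Λ = AddSubgroup.closure (Set.range b)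

/-- `ψ` is a Riemann form (polarisation) of the complex torus `E/Λ`. -/
structure IsPolarisation (Λ : AddSubgroup E) (ψ : E →ₗ[ℝ] E →ₗ[ℝ] ℝ) : Prop where
  alt : ∀ x, ψ x x = 0
  int : ∀ x ∈ Λ, ∀ y ∈ Λ, ∃ n : ℤ, ψ x y = n
  inv : ∀ x y, ψ (Complex.I • x) (Complex.I • y) = ψ x y
  pos : ∀ x, x ≠ 0 → 0 < ψ x (Complex.I • x)

variable {K : Type*} [Field K] [NumberField K]

/-- The complex torus `A = E/Λ` is an abelian variety, and `ι` identifies the field `K` with the algebra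
`End(A) ⊗ ℚ`, that is, with the set of complex linear `φ : E → E` such that `n φ(Λ) ⊆ Λ` for some `n ≥ 1`. -/
structure HasEndK (Λ : AddSubgroup E) (ι : K →+* Module.End ℂ E) : Prop where
  lat : IsLattice Λ
  pol : ∃ ψ : E →ₗ[ℝ] E →ₗ[ℝ] ℝ, IsPolarisation Λ ψ
  endo : ∀ φ : Module.End ℂ E, (∃ a, ι a = φ) ↔ ∃ n : ℕ, n ≠ 0 ∧ ∀ x ∈ Λ, n • φ x ∈ Λ

/-- The multiplicity of the embedding `τ` of `K` in the tangent space `E` of `A`: the dimension of the space
of the `x` with `a x = τ(a) x` for all `a` in `K`. -/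
noncomputable def mult (ι : K →+* Module.End ℂ E) (τ : K →+* ℂ) : ℕ :=
  finrank ℂ (⨅ a : K, Module.End.eigenspace (ι a) (τ a) : Submodule ℂ E)

/-- `A^k = E^k/Λ^k`. -/
def powLattice (Λ : AddSubgroup E) (k : ℕ) : Set (Fin k → E) := {v | ∀ i, v i ∈ Λ}

/-- The multiplicities are nondegenerate: the functions `τ ↦ m(σ ∘ τ) - m(conj (σ ∘ τ))` on the set of
embeddings, for all automorphisms `σ` of the field `ℂ`, span the space of all functions `z` with
`z(conj τ) = - z(τ)`. -/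
def NondegMult (m : (K →+* ℂ) → ℕ) : Prop :=
  ∀ z : (K →+* ℂ) → ℂ, (∀ τ, z (ComplexEmbedding.conjugate τ) = - z τ) →
    z ∈ Submodule.span ℂ (Set.range fun (σ : ℂ ≃+* ℂ) (τ : K →+* ℂ) =>
      (m ((σ : ℂ →+* ℂ).comp τ) : ℂ) - (m (ComplexEmbedding.conjugate ((σ : ℂ →+* ℂ).comp τ)) : ℂ))

end Pool.MP43e44c
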