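import Pool.Agent.H.MP_43e44c_ag.PE.AutC
import Pool.Agent.H.MP_43e44c_ag.PE.Tor

/-!
Separation from nondegeneracy.
-/

set_option autoImplicit false

open NumberField Module

namespace Pool.MP43e44c.PE

variable {K : Type*} [Field K] [NumberField K] [IsCMField K]

/-- A nondegenerate multiplicity function separates the embeddings: for `t ≠ τ` some translate takes
different values.  Proof: otherwise all translates of `m - m ∘ conj`, hence all odd functions, take the same
value at `τ` and `t`; the odd function with `z τ = 1`, `z (conj τ) = -1` and `0` elsewhere does not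
(`t ≠ τ`). Here `m τ + m (conj τ)` is constant. -/
theorem sep_of_nondeg (m : (K →+* ℂ) → ℕ) (N : ℕ) (hN : ∀ τ, m τ + m (cj τ) = N) (h : NondegMult m)
    {τ t : K →+* ℂ} (ht : t ≠ τ) : ∃ s : ℂ ≃+* ℂ, m (tw s τ) ≠ m (tw s t) := by
  classical
  by_contra hc
  push Not at hc
  let z : (K →+* ℂ) → ℂ := fun x => if x = τ then 1 else if x = cj τ then -1 else 0
  have hz : ∀ x, z (cj x) = - z x := by
    intro x
    show (if cj x = τ then (1 : ℂ) else if cj x = cj τ then -1 else 0) =
      - (if x = τ then (1 : ℂ) else if x = cj τ then -1 else 0)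
    by_cases h1 : x = τ
    · subst h1
      rw [if_neg (cj_ne x), if_pos rfl, if_pos rfl]
    · by_cases h2 : x = cj τ
      · subst h2
        rw [cj_cj, if_pos rfl, if_neg (cj_ne τ), if_pos rfl, neg_neg]
      · rw [if_neg h1, if_neg h2, if_neg, if_neg, neg_zero]
        · intro h3
          apply h1
          rw [← cj_cj x, h3, cj_cj]
        · intro h3
          apply h2
          rw [← h3, cj_cj]
  have h1 := h z hz
  have h2 : z τ = z t := by
    refine Submodule.span_induction (p := fun (g : (K →+* ℂ) → ℂ) _ => g τ = g t) ?_ ?_ ?_ ?_ h1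
    · rintro _ ⟨s, rfl⟩
      have h3 := hc s
      have h4 := hN (tw s τ)
      have h5 := hN (tw s t)
      have h6 : m (cj (tw s τ)) = m (cj (tw s t)) := by omega
      show (m (tw s τ) : ℂ) - (m (cj (tw s τ)) : ℂ) = (m (tw s t) : ℂ) - (m (cj (tw s t)) : ℂ)
      rw [h3, h6]
    · rfl
    · intro x y _ _ hx hy
      rw [Pi.add_apply, Pi.add_apply, hx, hy]
    · intro a x _ hx
      rw [Pi.smul_apply, Pi.smul_apply, hx]
  have h3 : z τ = 1 := if_pos rfl
  have h4 : z t = if t = cj τ then -1 else 0 := if_neg ht
  rw [h3, h4] at h2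
  by_cases h5 : t = cj τ
  · rw [if_pos h5] at h2
    norm_num at h2
  · rw [if_neg h5] at h2
    exact one_ne_zero h2

end Pool.MP43e44c.PE
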