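import Pool.Agent.H.MP_43e44c_ag.PE.Set0

/-!
Multiplicities in coordinates.
-/

set_option autoImplicit false

open NumberField Module Matrix

namespace Pool.MP43e44c.PE

variable {E : Type*} [AddCommGroup E] [Module ℂ E] [Module ℝ E] [IsScalarTower ℝ ℂ E]
variable {K : Type*} [Field K] [NumberField K] [IsCMField K]

theorem Set3_re_rc {m : ℕ} (M : Mat m ℝ) (v : Fin m → ℂ) :
    (fun i => ((rc M *ᵥ v) i).re) = M *ᵥ fun i => (v i).re := by
  funext i
  simp [mulVec, dotProduct]

theorem Set3_re_qc {m : ℕ} (M : Mat m ℚ) (v : Fin m → ℂ) :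
    (fun i => ((qc M *ᵥ v) i).re) = qr M *ᵥ fun i => (v i).re := by
  funext i
  simp [mulVec, dotProduct, Complex.mul_re]

theorem Set3_rc_co {m : ℕ} (M : Mat m ℝ) (x : Fin m → ℝ) :
    (rc M *ᵥ fun i => ((x i : ℝ) : ℂ)) = fun i => (((M *ᵥ x) i : ℝ) : ℂ) := by
  funext i
  simp [mulVec, dotProduct]

theorem Set3_qc_co {m : ℕ} (M : Mat m ℚ) (x : Fin m → ℝ) :
    (qc M *ᵥ fun i => ((x i : ℝ) : ℂ)) = fun i => (((qr M *ᵥ x) i : ℝ) : ℂ) := by
  funext i
  simp [mulVec, dotProduct]

theorem Set3_smul (c : ℂ) (u : E) : c • u = c.re • u + c.im • (Complex.I • u) := by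
  rw [← algebraMap_smul ℂ c.re u, ← algebraMap_smul ℂ c.im (Complex.I • u), smul_smul, ← add_smul]
  congr 1
  simp

/-- The multiplicities agree: `v ↦ b.equivFun.symm (Re v)` is a complex linear isomorphism from
`D.eig τ` to the `τ`-eigenspace of `E`, with inverse `L u ↦ u - i J u`. -/
theorem mul_eq_mult {m : ℕ} {b : Basis (Fin m) ℝ E} {ψ : E →ₗ[ℝ] E →ₗ[ℝ] ℝ} {ι : K →+* Module.End ℂ E}
    {D : Dat K m} (h : Repr b ψ ι D) (τ : K →+* ℂ) : D.mul τ = mult ι τ := by
  -- multiplication by `i`
  have hI : ∀ v ∈ D.eig τ, b.equivFun.symm (fun i => ((Complex.I • v) i).re) =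
      Complex.I • b.equivFun.symm (fun i => (v i).re) := by
    intro v hv
    rw [← h.J, ← Set3_re_rc, hv.1]
  have hc : ∀ (c : ℂ), ∀ v ∈ D.eig τ, b.equivFun.symm (fun i => ((c • v) i).re) =
      c • b.equivFun.symm (fun i => (v i).re) := by
    intro c v hv
    rw [Set3_smul c (b.equivFun.symm fun i => (v i).re), ← hI v hv, ← map_smul, ← map_smul,
      ← map_add]
    congr 1
    funext i
    simp [Complex.mul_re]
    ring
  let F : D.eig τ →ₗ[ℂ] E :=
    { toFun := fun v => b.equivFun.symm (fun i => ((v : Fin m → ℂ) i).re)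
      map_add' := fun u v => by
        rw [← map_add]
        congr 1
      map_smul' := fun c v => hc c v v.2 }
  have hF : ∀ v : D.eig τ, F v = b.equivFun.symm (fun i => ((v : Fin m → ℂ) i).re) := fun _ => rfl
  have hinj : Function.Injective F := by
    rw [injective_iff_map_eq_zero]
    intro v hv
    have h1 : (fun i => ((v : Fin m → ℂ) i).re) = 0 := by
      rw [hF] at hv
      exact (LinearEquiv.map_eq_zero_iff _).1 hv
    have h2 : (fun i => ((Complex.I • (v : Fin m → ℂ)) i).re) = 0 := by
      have h3 := hI v v.2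
      rw [h1, map_zero, smul_zero] at h3
      exact (LinearEquiv.map_eq_zero_iff _).1 h3
    apply Subtype.ext
    funext i
    apply Complex.ext
    · exact congrFun h1 i
    · have h4 := congrFun h2 i
      simpa using h4
  have hrange : LinearMap.range F = (⨅ a : K, Module.End.eigenspace (ι a) (τ a) : Submodule ℂ E) := by
    apply le_antisymm
    · rintro _ ⟨v, rfl⟩
      rw [Submodule.mem_iInf]
      intro a
      rw [Module.End.mem_eigenspace_iff, hF, ← h.ρ, ← Set3_re_qc, v.2.2 a]
      exact hc _ v v.2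
    · intro u hu
      rw [Submodule.mem_iInf] at hu
      have hJu : b.equivFun (Complex.I • u) = D.J *ᵥ b.equivFun u := by
        have h1 := h.J (b.equivFun u)
        rw [LinearEquiv.symm_apply_apply] at h1
        rw [← h1, LinearEquiv.apply_symm_apply]
      have hcu : ∀ c : ℂ, b.equivFun (c • u) = c.re • b.equivFun u + c.im • (D.J *ᵥ b.equivFun u) := by
        intro c
        rw [Set3_smul c u, map_add, map_smul, map_smul, hJu]
      have hJJ : D.J *ᵥ (D.J *ᵥ b.equivFun u) = - b.equivFun u := by
        rw [mulVec_mulVec, D.J_sq, neg_mulVec, one_mulVec]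
      set x := b.equivFun u with hx
      set y := D.J *ᵥ x with hy
      have hmem : ((fun i => ((x i : ℝ) : ℂ)) - Complex.I • fun i => ((y i : ℝ) : ℂ)) ∈ D.eig τ := by
        constructor
        · rw [mulVec_sub, mulVec_smul, Set3_rc_co, Set3_rc_co, ← hy, hJJ]
          funext i
          simp only [Pi.sub_apply, Pi.smul_apply, smul_eq_mul, Pi.neg_apply]
          push_cast
          linear_combination (y i : ℂ) * Complex.I_mul_I
        · intro a
          rw [mulVec_sub, mulVec_smul, Set3_qc_co, Set3_qc_co]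
          have h1 : qr (D.ρ a) *ᵥ x = (τ a).re • x + (τ a).im • y := by
            have h2 := h.ρ a x
            rw [hx, LinearEquiv.symm_apply_apply, Module.End.mem_eigenspace_iff.1 (hu a)] at h2
            rw [← hx] at h2
            rw [← hcu, ← h2, LinearEquiv.apply_symm_apply]
          have h3 : qr (D.ρ a) *ᵥ y = (τ a).re • y - (τ a).im • x := by
            rw [hy, mulVec_mulVec, ← D.J_ρ, ← mulVec_mulVec, h1, mulVec_add, mulVec_smul, mulVec_smul,
              ← hy, hJJ, smul_neg]
            rfl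
          rw [h1, h3]
          funext i
          simp only [Pi.sub_apply, Pi.smul_apply, smul_eq_mul, Pi.add_apply]
          push_cast
          conv_rhs => rw [← Complex.re_add_im (τ a)]
          linear_combination (((τ a).im : ℂ) * (y i : ℂ)) * Complex.I_mul_I
      refine ⟨⟨_, hmem⟩, ?_⟩
      rw [hF]
      have h5 : (fun i => ((((fun i => ((x i : ℝ) : ℂ)) - Complex.I • fun i => ((y i : ℝ) : ℂ)) :
          Fin m → ℂ) i).re) = x := by
        funext i
        simp
      rw [h5, hx, LinearEquiv.symm_apply_apply]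
  unfold Dat.mul mult
  rw [← hrange]
  exact (LinearMap.finrank_range_of_inj hinj).symm

end Pool.MP43e44c.PE
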