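import Pool.Agent.H.MP_43e44c_ag.PE.Conv

/-!
A nonzero abelian variety has a nonzero multiplicity.
-/

set_option autoImplicit false

open NumberField Module Matrix

namespace Pool.MP43e44c.PE

variable {E : Type*} [AddCommGroup E] [Module ℂ E] [Module ℝ E] [IsScalarTower ℝ ℂ E]
variable {K : Type*} [Field K] [NumberField K] [IsCMField K]

theorem exists_mult_ne_zero {Λ : AddSubgroup E} {ι : K →+* Module.End ℂ E} (h : HasEndK Λ ι)
    (hE : ∃ x : E, x ≠ 0) : ∃ τ, mult ι τ ≠ 0 := by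
  obtain ⟨m, b, hΛ⟩ := h.lat
  obtain ⟨ψ, hψ⟩ := h.pol
  obtain ⟨D, hD⟩ := exists_repr (K := K) b hΛ hψ h.endo
  obtain ⟨n, ⟨C⟩⟩ := exists_coo D
  by_contra hcon
  push Not at hcon
  have hn : ∀ _τ : K →+* ℂ, n = 0 := by
    intro τ
    have h1 := C.card τ
    rw [mul_eq_mult hD, mul_eq_mult hD, hcon, hcon] at h1
    exact h1
  have he : ∀ τ, D.e τ = 0 := by
    intro τ
    have h0 := hn τ
    subst h0
    rw [← C.e_W_Γ τ]
    ext i j
    rw [Matrix.mul_apply]
    simp
  have h1 : (1 : Mat m ℂ) = 0 := by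
    rw [← e_sum D]
    exact Finset.sum_eq_zero fun τ _ => he τ
  obtain ⟨x, hx⟩ := hE
  apply hx
  have hm : IsEmpty (Fin m) := by
    constructor
    intro i
    have h2 := congrFun (congrFun h1 i) i
    simp at h2
  have h3 : b.equivFun x = 0 := Subsingleton.elim _ _
  exact b.equivFun.map_eq_zero_iff.1 h3

end Pool.MP43e44c.PE
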