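import Pool.Agent.H.MP_43e44c_ag.PE.Set1

/-!
Existence of the matrix data.
-/

set_option autoImplicit false

open NumberField Module Matrix

namespace Pool.MP43e44c.PE

theorem Set2_qr_inj {m : ℕ} {M N : Mat m ℚ} (h : qr M = qr N) : M = N := by
  ext i j
  have h1 := congrFun (congrFun h i) j
  simpa using h1

theorem Set2_ext_mulVec {m : ℕ} {A B : Mat m ℝ} (h : ∀ v : Fin m → ℝ, A *ᵥ v = B *ᵥ v) : A = B := by
  ext i j
  have h1 := congrFun (h (Pi.single j 1)) i
  simpa using h1

theorem Set2_ext_dot {m : ℕ} {A B : Mat m ℝ}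
    (h : ∀ u v : Fin m → ℝ, u ⬝ᵥ (A *ᵥ v) = u ⬝ᵥ (B *ᵥ v)) : A = B := by
  ext i j
  have h1 := h (Pi.single i 1) (Pi.single j 1)
  simpa using h1

variable {E : Type*} [AddCommGroup E] [Module ℂ E] [Module ℝ E] [IsScalarTower ℝ ℂ E]
variable {K : Type*} [Field K] [NumberField K] [IsCMField K]

/-- Every real linear map has a matrix. -/
theorem Set2_exists_matrix {m : ℕ} (b : Basis (Fin m) ℝ E) (T : E →ₗ[ℝ] E) :
    ∃ A : Mat m ℝ, ∀ v : Fin m → ℝ, b.equivFun.symm (A *ᵥ v) = T (b.equivFun.symm v) := by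
  refine ⟨LinearMap.toMatrix' (b.equivFun.toLinearMap ∘ₗ T ∘ₗ b.equivFun.symm.toLinearMap),
    fun v => ?_⟩
  rw [← Matrix.toLin'_apply, Matrix.toLin'_toMatrix']
  simp

theorem Set2_ext_symm {m : ℕ} (b : Basis (Fin m) ℝ E) {A B : Mat m ℝ}
    (h : ∀ v : Fin m → ℝ, b.equivFun.symm (A *ᵥ v) = b.equivFun.symm (B *ᵥ v)) : A = B :=
  Set2_ext_mulVec fun v => b.equivFun.symm.injective (h v)

/-- Existence of the matrix data: `J` = matrix of multiplication by `i`, `ρ a` = rational matrix of `ι a`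
(`exists_rat_matrix`, choice; a ring homomorphism because matrices are determined by the map), `Ψ` = matrix
of `ψ` (rational, even integral). -/
theorem exists_repr {m : ℕ} (b : Basis (Fin m) ℝ E) {Λ : AddSubgroup E}
    (hΛ : Λ = AddSubgroup.closure (Set.range b)) {ψ : E →ₗ[ℝ] E →ₗ[ℝ] ℝ} (hψ : IsPolarisation Λ ψ)
    {ι : K →+* Module.End ℂ E}
    (hι : ∀ φ : Module.End ℂ E, (∃ a, ι a = φ) ↔ ∃ n : ℕ, n ≠ 0 ∧ ∀ x ∈ Λ, n • φ x ∈ Λ) :
    ∃ D : Dat K m, Repr b ψ ι D := by
  subst hΛ
  -- the complex structure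
  obtain ⟨J, hJ⟩ := Set2_exists_matrix b
    ((Complex.I • (LinearMap.id : E →ₗ[ℂ] E)).restrictScalars ℝ)
  have hJ' : ∀ v : Fin m → ℝ, b.equivFun.symm (J *ᵥ v) = Complex.I • b.equivFun.symm v := by
    intro v
    rw [hJ v]
    rfl
  -- the action of the field
  have hex : ∀ a : K, ∃ M : Mat m ℚ, ∀ v : Fin m → ℝ,
      b.equivFun.symm (qr M *ᵥ v) = ι a (b.equivFun.symm v) := by
    intro a
    obtain ⟨n, hn, h⟩ := (hι (ι a)).1 ⟨a, rfl⟩
    exact exists_rat_matrix b (ι a) n hn h
  choose R hR using hex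
  have hRu : ∀ (a : K) (M : Mat m ℚ),
      (∀ v : Fin m → ℝ, b.equivFun.symm (qr M *ᵥ v) = ι a (b.equivFun.symm v)) → R a = M := by
    intro a M hM
    refine Set2_qr_inj (Set2_ext_symm b fun v => ?_)
    rw [hR a v, hM v]
  let ρ : K →+* Mat m ℚ :=
    { toFun := R
      map_one' := by
        refine hRu 1 1 fun v => ?_
        rw [map_one, map_one, one_mulVec]
        rfl
      map_zero' := by
        refine hRu 0 0 fun v => ?_
        rw [map_zero, map_zero, zero_mulVec, map_zero]
        rfl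
      map_add' := by
        intro x y
        refine hRu (x + y) (R x + R y) fun v => ?_
        rw [map_add, map_add, add_mulVec, map_add, hR x v, hR y v]
        rfl
      map_mul' := by
        intro x y
        refine hRu (x * y) (R x * R y) fun v => ?_
        rw [map_mul, map_mul, ← mulVec_mulVec, hR x, hR y]
        rfl }
  have hρ : ∀ (a : K) (v : Fin m → ℝ),
      b.equivFun.symm (qr (ρ a) *ᵥ v) = ι a (b.equivFun.symm v) := fun a v => hR a v
  -- the polarisation
  have hint : ∀ i j : Fin m, ∃ n : ℤ, ψ (b i) (b j) = n := fun i j =>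
    hψ.int (b i) (AddSubgroup.subset_closure ⟨i, rfl⟩) (b j) (AddSubgroup.subset_closure ⟨j, rfl⟩)
  choose N hN using hint
  let Ψ : Mat m ℚ := Matrix.of fun i j => (N i j : ℚ)
  have hΨ : ∀ u v : Fin m → ℝ,
      ψ (b.equivFun.symm u) (b.equivFun.symm v) = u ⬝ᵥ (qr Ψ *ᵥ v) := by
    intro u v
    rw [b.equivFun_symm_apply, b.equivFun_symm_apply]
    simp only [map_sum, map_smul, LinearMap.sum_apply, LinearMap.smul_apply, smul_eq_mul,
      dotProduct, mulVec, Finset.mul_sum]
    rw [Finset.sum_comm]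
    refine Finset.sum_congr rfl fun i _ => Finset.sum_congr rfl fun j _ => ?_
    rw [hN i j]
    simp [Ψ]
    ring
  have hanti : ∀ x y, ψ x y = - ψ y x := by
    intro x y
    have h1 := hψ.alt (x + y)
    have h2 := hψ.alt x
    have h3 := hψ.alt y
    simp only [map_add, LinearMap.add_apply] at h1
    linarith
  let D : Dat K m :=
    { J := J
      ρ := ρ
      Ψ := Ψ
      J_sq := by
        refine Set2_ext_symm b fun v => ?_
        rw [← mulVec_mulVec, hJ', hJ', smul_smul, Complex.I_mul_I, neg_smul, one_smul,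
          neg_mulVec, one_mulVec, map_neg]
      J_ρ := by
        intro a
        refine Set2_ext_symm b fun v => ?_
        rw [← mulVec_mulVec, ← mulVec_mulVec, hJ', hρ, hρ, hJ', map_smul]
      comm := by
        intro M hM
        obtain ⟨φ, hφ, hφ2⟩ := exists_end_of_matrix b J hJ' M hM
        obtain ⟨a, rfl⟩ := (hι φ).2 hφ
        exact ⟨a, hRu a M hφ2⟩
      Ψ_alt := by
        ext i j
        have h1 : ((N j i : ℤ) : ℝ) = - ((N i j : ℤ) : ℝ) := by
          rw [← hN j i, ← hN i j]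
          exact hanti _ _
        have h2 : N j i = - N i j := by exact_mod_cast h1
        simp [Ψ, h2]
      Ψ_J := by
        refine Set2_ext_dot fun u v => ?_
        have h1 := hψ.inv (b.equivFun.symm u) (b.equivFun.symm v)
        rw [← hJ', ← hJ', hΨ, hΨ] at h1
        rw [← h1, ← mulVec_mulVec, ← mulVec_mulVec, dotProduct_mulVec u, vecMul_transpose]
      Ψ_pos := by
        intro v hv
        have hx : b.equivFun.symm v ≠ 0 := by
          intro h0
          exact hv (b.equivFun.symm.injective (by rw [h0, map_zero]))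
        have h1 := hψ.pos _ hx
        rw [← hJ', hΨ, mulVec_mulVec] at h1
        exact h1 }
  exact ⟨D, hJ', hρ, hΨ⟩

end Pool.MP43e44c.PE
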