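import Pool.Agent.H.MP_43e44c_ag.PE.Ros
import Pool.Agent.H.MP_43e44c_ag.PE.Set2
import Pool.Agent.H.MP_43e44c_ag.PE.Set3

/-!
Converse: Hodge classes of degree two are invariant under the unitary elements of `K`.
-/

set_option autoImplicit false

open NumberField Module Matrix

namespace Pool.MP43e44c.PE

variable {m : ℕ} {K : Type*} [Field K] [NumberField K] [IsCMField K]

/-- A rational form of type `(1,1)` is `Ψ ρ(a)`. -/
theorem form_eq (D : Dat K m) (M : Mat m ℚ) (hM : D.Jᵀ * qr M * D.J = qr M) :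
    ∃ a, M = D.Ψ * D.ρ a := by
  have hU := isUnit_Ψ D
  have hU' : IsUnit D.Ψ.det := (isUnit_iff_isUnit_det _).mp hU
  have hUr : IsUnit (qr D.Ψ).det := by
    have h4 : (qr D.Ψ).det = algebraMap ℚ ℝ D.Ψ.det := ((algebraMap ℚ ℝ).map_det D.Ψ).symm
    rw [h4]
    exact hU'.map _
  obtain ⟨N, hN⟩ : ∃ N : Mat m ℚ, N = D.Ψ⁻¹ * M := ⟨_, rfl⟩
  have hΨN : D.Ψ * N = M := by
    rw [hN, ← mul_assoc, mul_nonsing_inv _ hU', one_mul]
  have hJΨ : qr D.Ψ * D.J = -(D.Jᵀ * qr D.Ψ) := by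
    have h1 := congrArg (· * D.J) D.Ψ_J
    simp only [mul_assoc, D.J_sq, mul_neg, mul_one] at h1
    rw [← h1]
  have hJM : qr M * D.J = -(D.Jᵀ * qr M) := by
    have h1 := congrArg (· * D.J) hM
    simp only [mul_assoc, D.J_sq, mul_neg, mul_one] at h1
    rw [← h1]
  have hcomm : D.J * qr N = qr N * D.J := by
    have h1 : qr D.Ψ * (D.J * qr N) = qr D.Ψ * (qr N * D.J) := by
      rw [← mul_assoc, hJΨ, ← mul_assoc (qr D.Ψ), ← map_mul, hΨN, hJM, neg_mul, mul_assoc, ← map_mul,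
        hΨN]
    have h3 : (qr D.Ψ)⁻¹ * (qr D.Ψ * (D.J * qr N)) = (qr D.Ψ)⁻¹ * (qr D.Ψ * (qr N * D.J)) := by
      rw [h1]
    rwa [← mul_assoc, nonsing_inv_mul _ hUr, one_mul, ← mul_assoc, nonsing_inv_mul _ hUr,
      one_mul] at h3
  obtain ⟨a, ha⟩ := D.comm N hcomm
  exact ⟨a, by rw [ha, hΨN]⟩

theorem form_inv (D : Dat K m) (hm : 0 < m) (M : Mat m ℚ) (hM : D.Jᵀ * qr M * D.J = qr M) (y : K)
    (hy : y * IsCMField.complexConj K y = 1) : (D.ρ y)ᵀ * M * D.ρ y = M := by
  obtain ⟨a, rfl⟩ := form_eq D M hM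
  rw [← mul_assoc, ros D hm, mul_assoc, mul_assoc, ← map_mul, ← map_mul]
  congr 2
  linear_combination a * hy

variable {E : Type*} [AddCommGroup E] [Module ℂ E] [Module ℝ E] [IsScalarTower ℝ ℂ E]

omit [IsScalarTower ℝ ℂ E] in
/-- Bilinear forms on `E`. -/
theorem bil_inv {b : Basis (Fin m) ℝ E} {ψ : E →ₗ[ℝ] E →ₗ[ℝ] ℝ} {ι : K →+* Module.End ℂ E}
    {D : Dat K m} (hD : Repr b ψ ι D) (hm : 0 < m) (B : LinearMap.BilinForm ℝ E)
    (hrat : ∀ i j, ∃ q : ℚ, B (b i) (b j) = q)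
    (hI : ∀ x y, B (Complex.I • x) (Complex.I • y) = B x y) (y : K)
    (hy : y * IsCMField.complexConj K y = 1) (u w : E) : B (ι y u) (ι y w) = B u w := by
  choose q hq using hrat
  have hT : LinearMap.BilinForm.toMatrix b B = qr (Matrix.of q) := by
    ext i j
    rw [LinearMap.BilinForm.toMatrix_apply, hq]
    simp
  have hB : ∀ x x' : Fin m → ℝ, B (b.equivFun.symm x) (b.equivFun.symm x') =
      x ⬝ᵥ (qr (Matrix.of q) *ᵥ x') := by
    intro x x'
    rw [← hT, LinearMap.BilinForm.dotProduct_toMatrix_mulVec]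
  have hM : D.Jᵀ * qr (Matrix.of q) * D.J = qr (Matrix.of q) := by
    apply Set2_ext_dot
    intro x x'
    have h1 := hI (b.equivFun.symm x) (b.equivFun.symm x')
    rw [← hD.J, ← hD.J, hB, hB] at h1
    rw [← h1, ← mulVec_mulVec, ← mulVec_mulVec, dotProduct_mulVec, vecMul_transpose]
  have h2 := form_inv D hm (Matrix.of q) hM y hy
  have h3 : (qr (D.ρ y))ᵀ * qr (Matrix.of q) * qr (D.ρ y) = qr (Matrix.of q) := by
    conv_rhs => rw [← h2]
    rw [map_mul, map_mul]
    rfl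
  have h4 : ∀ x x' : Fin m → ℝ, B (ι y (b.equivFun.symm x)) (ι y (b.equivFun.symm x')) =
      B (b.equivFun.symm x) (b.equivFun.symm x') := by
    intro x x'
    rw [← hD.ρ, ← hD.ρ, hB, hB]
    conv_rhs => rw [← h3]
    rw [← mulVec_mulVec, ← mulVec_mulVec, dotProduct_mulVec x, vecMul_transpose]
  have h5 := h4 (b.equivFun u) (b.equivFun w)
  rwa [LinearEquiv.symm_apply_apply, LinearEquiv.symm_apply_apply] at h5

/-- A two-form as a bilinear map. -/
noncomputable def bil2 {V : Type*} [AddCommGroup V] [Module ℝ V] (θ : V [⋀^Fin 2]→ₗ[ℝ] ℝ) :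
    LinearMap.BilinForm ℝ V :=
  LinearMap.mk₂ ℝ (fun x y => θ ![x, y]) (fun x y a => two_add_left θ x y a)
    (fun c x a => two_smul_left θ c x a) (fun a x y => two_add_right θ x y a)
    (fun c x a => two_smul_right θ c a x)

/-- Hodge classes of degree two on `A^k` are invariant under unitary elements. -/
theorem hodge2_inv {b : Basis (Fin m) ℝ E} {Λ : AddSubgroup E}
    (hΛ : Λ = AddSubgroup.closure (Set.range b)) {ψ : E →ₗ[ℝ] E →ₗ[ℝ] ℝ} {ι : K →+* Module.End ℂ E}
    {D : Dat K m} (hD : Repr b ψ ι D) (hm : 0 < m) {k : ℕ} (θ : (Fin k → E) [⋀^Fin 2]→ₗ[ℝ] ℝ)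
    (hθ : IsHodgeClass (powLattice Λ k) θ) (y : K) (hy : y * IsCMField.complexConj K y = 1)
    (u w : Fin k → E) : θ ![fun j => ι y (u j), fun j => ι y (w j)] = θ ![u, w] := by
  classical
  have hsing : ∀ (i : Fin k) (a : Fin m), (Pi.single i (b a) : Fin k → E) ∈ powLattice Λ k := by
    intro i a j
    by_cases h : j = i
    · subst h
      rw [Pi.single_eq_same, hΛ]
      exact AddSubgroup.subset_closure ⟨a, rfl⟩
    · rw [Pi.single_eq_of_ne h]
      exact Λ.zero_mem
  have key : ∀ (i j : Fin k) (x x' : E), bil2 θ (Pi.single i (ι y x)) (Pi.single j (ι y x')) =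
      bil2 θ (Pi.single i x) (Pi.single j x') := by
    intro i j x x'
    have h := bil_inv hD hm ((bil2 θ).compl₁₂ (LinearMap.single ℝ (fun _ : Fin k => E) i)
      (LinearMap.single ℝ (fun _ : Fin k => E) j)) ?_ ?_ y hy x x'
    · exact h
    · intro a c
      refine hθ.rational ![Pi.single i (b a), Pi.single j (b c)] ?_
      intro l
      fin_cases l
      · exact hsing i a
      · exact hsing j c
    · intro v v'
      have h1 := hθ.type_pp Complex.I (by simp) ![Pi.single i v, Pi.single j v']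
      refine Eq.trans ?_ h1
      show θ ![Pi.single i (Complex.I • v), Pi.single j (Complex.I • v')] = _
      congr 1
      funext l
      fin_cases l
      · exact Pi.single_smul (f := fun _ : Fin k => E) i Complex.I v
      · exact Pi.single_smul (f := fun _ : Fin k => E) j Complex.I v'
  have hexp : ∀ u w : Fin k → E, θ ![u, w] = ∑ i, ∑ j, bil2 θ (Pi.single i (u i)) (Pi.single j (w j)) := by
    intro u w
    calc θ ![u, w] = bil2 θ (∑ i, Pi.single i (u i)) (∑ j, Pi.single j (w j)) := by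
          rw [Finset.univ_sum_single, Finset.univ_sum_single]
          rfl
      _ = ∑ i, ∑ j, bil2 θ (Pi.single i (u i)) (Pi.single j (w j)) := by
          rw [map_sum (bil2 θ), LinearMap.sum_apply]
          exact Finset.sum_congr rfl fun i _ => map_sum _ _ _
  rw [hexp, hexp]
  exact Finset.sum_congr rfl fun i _ => Finset.sum_congr rfl fun j _ => key i j _ _

/-- Classes generated by divisors are invariant under unitary elements. -/
theorem span_inv {b : Basis (Fin m) ℝ E} {Λ : AddSubgroup E}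
    (hΛ : Λ = AddSubgroup.closure (Set.range b)) {ψ : E →ₗ[ℝ] E →ₗ[ℝ] ℝ} {ι : K →+* Module.End ℂ E}
    {D : Dat K m} (hD : Repr b ψ ι D) (hm : 0 < m) {k p : ℕ} (y : K)
    (hy : y * IsCMField.complexConj K y = 1) (F : (Fin p × Fin 2 → Fin k → E) → ℝ)
    (hF : F ∈ Submodule.span ℚ {f | ∃ θ : Fin p → (Fin k → E) [⋀^Fin 2]→ₗ[ℝ] ℝ,
      (∀ i, IsHodgeClass (powLattice Λ k) (θ i)) ∧ f = cup θ})
    (v : Fin p × Fin 2 → Fin k → E) : F (fun s j => ι y (v s j)) = F v := by
  induction hF using Submodule.span_induction with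
  | mem F hF =>
    obtain ⟨θ, hθ, rfl⟩ := hF
    unfold cup
    refine Finset.sum_congr rfl fun σ _ => ?_
    congr 1
    refine Finset.prod_congr rfl fun i _ => ?_
    exact hodge2_inv hΛ hD hm (θ i) (hθ i) y hy (v (σ (i, 0))) (v (σ (i, 1)))
  | zero => rfl
  | add F F' _ _ h h' => rw [Pi.add_apply, Pi.add_apply, h, h']
  | smul q F _ h => rw [Pi.smul_apply, Pi.smul_apply, h]

end Pool.MP43e44c.PE
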