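import Pool.Agent.H.MP_43e44c_ag.PE.ConvC
import Pool.Agent.H.MP_43e44c_ag.PE.ConvD

/-!
The converse: degenerate multiplicities give exceptional Hodge classes.
-/

set_option autoImplicit false

open NumberField Module Matrix

namespace Pool.MP43e44c.PE

variable {E : Type*} [AddCommGroup E] [Module ℂ E] [Module ℝ E] [IsScalarTower ℝ ℂ E]
variable {m : ℕ} {K : Type*} [Field K] [NumberField K] [IsCMField K] {D : Dat K m} {n k : ℕ}

/-- The complex form with coefficient `c`. -/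
noncomputable def cΩ (b : Basis (Fin m) ℝ E) (C : Coo D n) (t : Fin k → K →+* ℂ) (c : GC K) :
    (Fin k → E) [⋀^Fin n × Fin k]→ₗ[ℝ] ℂ :=
  ∑ g : GG K, ((g c : GC K) : ℂ) • cM b C (fun j => g • t j)

omit [Module ℂ E] [IsScalarTower ℝ ℂ E] in
theorem cΩ_apply (b : Basis (Fin m) ℝ E) (C : Coo D n) (t : Fin k → K →+* ℂ) (c : GC K)
    (v : Fin n × Fin k → Fin k → E) :
    cΩ b C t c v = ∑ g : GG K, ((g c : GC K) : ℂ) * cM b C (fun j => g • t j) v := by
  classical
  unfold cΩ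
  have h : ∀ s : Finset (GG K), (∑ g ∈ s, ((g c : GC K) : ℂ) • cM b C (fun j => g • t j)) v =
      ∑ g ∈ s, ((g c : GC K) : ℂ) * cM b C (fun j => g • t j) v := by
    intro s
    induction s using Finset.induction_on with
    | empty => rfl
    | insert a s ha ih =>
      rw [Finset.sum_insert ha, Finset.sum_insert ha, ← ih]
      rfl
  exact h Finset.univ

/-- The real form with coefficient `c`. -/
noncomputable def rΩ (b : Basis (Fin m) ℝ E) (C : Coo D n) (t : Fin k → K →+* ℂ) {p : ℕ}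
    (e : Fin n × Fin k ≃ Fin p × Fin 2) (c : GC K) : (Fin k → E) [⋀^Fin p × Fin 2]→ₗ[ℝ] ℝ :=
  (Complex.reLm.compAlternatingMap (cΩ b C t c)).domDomCongr e

omit [Module ℂ E] [IsScalarTower ℝ ℂ E] in
theorem rΩ_apply (b : Basis (Fin m) ℝ E) (C : Coo D n) (t : Fin k → K →+* ℂ) {p : ℕ}
    (e : Fin n × Fin k ≃ Fin p × Fin 2) (c : GC K) (v : Fin p × Fin 2 → Fin k → E) :
    rΩ b C t e c v = (∑ g : GG K, ((g c : GC K) : ℂ) * cM b C (fun j => g • t j) (fun s => v (e s))).re := by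
  rw [← cΩ_apply]
  rfl

theorem rΩ_hodge {b : Basis (Fin m) ℝ E} {Λ : AddSubgroup E}
    (hΛ : Λ = AddSubgroup.closure (Set.range b)) {ψ : E →ₗ[ℝ] E →ₗ[ℝ] ℝ} {ι : K →+* Module.End ℂ E}
    (hD : Repr b ψ ι D) (C : Coo D n) (t : Fin k → K →+* ℂ)
    (hbal : ∀ g : GG K, ∑ j, D.mul (g • t j) = ∑ j, D.mul (cj (g • t j))) {p : ℕ}
    (e : Fin n × Fin k ≃ Fin p × Fin 2) (c : GC K) :
    IsHodgeClass (powLattice Λ k) (rΩ b C t e c) := by
  constructor
  · intro v hv
    have h1 : ∀ (s : Fin n × Fin k) (j : Fin k) (i : Fin m), ∃ z : ℤ, (z : ℝ) = b.repr (v (e s) j) i := by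
      intro s j
      have h2 : v (e s) j ∈ Λ := hv (e s) j
      rw [hΛ] at h2
      exact (Set1_mem b _).1 h2
    choose z hz using h1
    obtain ⟨Q, hQ⟩ := cM_rat b C t (fun s => v (e s)) (fun s j i => (z s j i : ℚ)) (by
      intro s j i
      rw [← hz]
      norm_cast)
    refine ⟨Algebra.trace ℚ (GC K) (c * Q), ?_⟩
    rw [rΩ_apply]
    have h2 := trace_eq_sum_automorphisms (K := ℚ) (c * Q)
    have h3 : ((Algebra.trace ℚ (GC K) (c * Q) : ℚ) : ℂ)
        = ((algebraMap ℚ (GC K) (Algebra.trace ℚ (GC K) (c * Q)) : GC K) : ℂ) := by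
      rw [eq_ratCast (algebraMap ℚ (GC K))]
      norm_cast
    have h4 : ∑ g : GG K, ((g c : GC K) : ℂ) * cM b C (fun j => g • t j) (fun s => v (e s)) =
        ((Algebra.trace ℚ (GC K) (c * Q) : ℚ) : ℂ) := by
      rw [h3, h2]
      push_cast
      refine Finset.sum_congr rfl fun g _ => ?_
      rw [hQ g, map_mul]
      push_cast
      rfl
    rw [h4]
    exact Complex.ratCast_re _
  · intro z hz v
    rw [rΩ_apply, rΩ_apply]
    congr 1
    refine Finset.sum_congr rfl fun g _ => ?_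
    congr 1
    exact cM_rot hD C (fun j => g • t j) (hbal g) z hz fun s => v (e s)

theorem rΩ_ι {b : Basis (Fin m) ℝ E} {ψ : E →ₗ[ℝ] E →ₗ[ℝ] ℝ} {ι : K →+* Module.End ℂ E}
    (hD : Repr b ψ ι D) (C : Coo D n) (t : Fin k → K →+* ℂ) {p : ℕ}
    (e : Fin n × Fin k ≃ Fin p × Fin 2) (c : GC K) (y : K) (v : Fin p × Fin 2 → Fin k → E) :
    rΩ b C t e c (fun s j => ι y (v s j)) = rΩ b C t e (c * (∏ j, lft (t j) y) ^ n) v := by
  rw [rΩ_apply, rΩ_apply]
  congr 1
  refine Finset.sum_congr rfl fun g _ => ?_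
  have h1 := cM_ι hD C (fun j => g • t j) y (fun s => v (e s))
  refine (congrArg (fun x => ((g c : GC K) : ℂ) * x) h1).trans ?_
  have h2 : ((g (c * (∏ j, lft (t j) y) ^ n) : GC K) : ℂ) =
      ((g c : GC K) : ℂ) * (∏ j, (g • t j) y) ^ n := by
    rw [map_mul, map_pow, map_prod]
    push_cast
    congr 1
  rw [h2]
  ring

/-- **Converse.** -/
theorem conv {Λ : AddSubgroup E} {ι : K →+* Module.End ℂ E} (h : HasEndK Λ ι)
    (h0 : ∃ τ, mult ι τ ≠ 0) (hnd : ¬ NondegMult (mult ι)) :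
    ∃ k p, ¬ GeneratedByDivisors (powLattice Λ k) p := by
  classical
  obtain ⟨m, b, hΛ⟩ := h.lat
  obtain ⟨ψ, hψ⟩ := h.pol
  obtain ⟨D, hD⟩ := exists_repr b hΛ hψ h.endo
  obtain ⟨n, ⟨C⟩⟩ := exists_coo D
  obtain ⟨τ₀, hτ₀⟩ := h0
  have hmul : ∀ τ, D.mul τ = mult ι τ := fun τ => mul_eq_mult hD τ
  have hn : n ≠ 0 := by
    have h1 := C.card τ₀
    rw [hmul] at h1
    omega
  have hm : 0 < m := by
    have h1 : D.mul τ₀ ≤ m := by
      have h2 := Submodule.finrank_le (D.eig τ₀)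
      rwa [finrank_fin_fun] at h2
    rw [hmul] at h1
    omega
  obtain ⟨k, t, y, hy, hY, hbal⟩ := conv_list (mult ι) hnd n hn
  have hbal' : ∀ g : GG K, ∑ j, D.mul (g • t j) = ∑ j, D.mul (cj (g • t j)) := by
    intro g
    obtain ⟨σ, hσ⟩ := conv_ext g
    have h1 := hbal σ
    unfold convF at h1
    simp only [hσ] at h1
    rw [Finset.sum_sub_distrib, sub_eq_zero] at h1
    simp only [hmul]
    exact_mod_cast h1
  set p := ∑ j, D.mul (t j) with hp
  have hbal1 : ∑ j, D.mul (t j) = ∑ j, D.mul (cj (t j)) := by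
    have h1 := hbal' 1
    simpa only [one_smul] using h1
  have hcard : n * k = p * 2 := by
    have h1 : ∑ _j : Fin k, n = ∑ j, (D.mul (t j) + D.mul (cj (t j))) :=
      Finset.sum_congr rfl fun j _ => C.card (t j)
    rw [Finset.sum_const, Finset.card_univ, Fintype.card_fin, smul_eq_mul, Finset.sum_add_distrib,
      ← hbal1, ← hp] at h1
    rw [mul_comm, h1]
    ring
  obtain ⟨e⟩ : Nonempty (Fin n × Fin k ≃ Fin p × Fin 2) := by
    rw [← Fintype.card_eq, Fintype.card_prod, Fintype.card_prod, Fintype.card_fin, Fintype.card_fin,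
      Fintype.card_fin, Fintype.card_fin]
    exact hcard
  refine ⟨k, p, fun hgen => ?_⟩
  set Y : GC K := (∏ j, lft (t j) y) ^ n with hYdef
  have hY1 : (1 : GC K) - Y ≠ 0 := by
    intro h1
    apply hY
    have h2 : Y = 1 := (sub_eq_zero.1 h1).symm
    have h3 := congrArg (fun x : GC K => (x : ℂ)) h2
    rw [hYdef] at h3
    push_cast at h3
    exact h3
  have hinv := span_inv hΛ hD hm y hy _ (hgen _ (rΩ_hodge hΛ hD C t hbal' e (1 - Y)⁻¹))
    (fun s => (Pi.single (e.symm s).2 (b.equivFun.symm fun i => (C.w (e.symm s).1 i : ℝ)) : Fin k → E))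
  rw [rΩ_ι hD, rΩ_apply, rΩ_apply] at hinv
  have hsp : ∀ g : GG K, cM b C (fun j => g • t j) (fun s => (Pi.single (e.symm (e s)).2
      (b.equivFun.symm fun i => (C.w (e.symm (e s)).1 i : ℝ)) : Fin k → E)) = 1 := by
    intro g
    simp only [Equiv.symm_apply_apply]
    exact cM_special b C _
  simp only [hsp, mul_one] at hinv
  rw [← sub_eq_zero, ← Complex.sub_re, ← Finset.sum_sub_distrib] at hinv
  have h5 : ∀ g : GG K, ((g ((1 - Y)⁻¹ * Y) : GC K) : ℂ) - ((g ((1 - Y)⁻¹) : GC K) : ℂ) = -1 := by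
    intro g
    have h6 : (1 - Y)⁻¹ * Y - (1 - Y)⁻¹ = -1 := by
      field_simp
      ring
    have h7 := congrArg (fun x : GC K => ((g x : GC K) : ℂ)) h6
    simp only [map_sub, map_neg, map_one] at h7
    push_cast at h7
    exact h7
  rw [Finset.sum_congr rfl fun g _ => h5 g, Finset.sum_const, Finset.card_univ] at hinv
  have h8 : (Fintype.card (GG K)) ≠ 0 := Fintype.card_ne_zero
  apply h8
  have h9 : ((Fintype.card (GG K) : ℕ) • (-1 : ℂ)).re = -(Fintype.card (GG K) : ℝ) := by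
    rw [nsmul_eq_mul, mul_neg, mul_one, Complex.neg_re, Complex.natCast_re]
  rw [h9, neg_eq_zero] at hinv
  exact_mod_cast hinv

end Pool.MP43e44c.PE
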