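import Pool.Agent.H.MP_43e44c_ag.PE.Adp1

/-!
Adapted bases: elementary skew matrices.
-/

set_option autoImplicit false

open NumberField Module Matrix

namespace Pool.MP43e44c.PE

variable {m : ℕ} {K : Type*} [Field K] [NumberField K] [IsCMField K] (D : Dat K m)

variable {D} {N : ℕ} {Φ : Set (K →+* ℂ)} {b : Basis ((K →+* ℂ) × Fin N) ℂ (Fin m → ℂ)}

theorem Adp_e_ne (h : D.Adp N Φ b) {τ t : K →+* ℂ} (ht : t ≠ τ) (i : Fin N) : D.e t *ᵥ b (τ, i) = 0 := by
  rw [← h.e_b τ i, mulVec_mulVec, e_orth D ht, zero_mulVec]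

theorem Adp_dot {F : Type*} [CommRing F] (M : Mat m F) (v u : Fin m → F) :
    (M *ᵥ v) ⬝ᵥ u = v ⬝ᵥ (Mᵀ *ᵥ u) := by
  rw [dotProduct_mulVec, vecMul_transpose]

theorem Adp_pair_ne (hm : 0 < m) (h : D.Adp N Φ b) {τ t : K →+* ℂ} (ht : t ≠ cj τ) (i j : Fin N) :
    b (τ, i) ⬝ᵥ (qc D.Ψ *ᵥ b (t, j)) = 0 := by
  rw [← h.e_b τ i, Adp_dot, mulVec_mulVec, e_ros D hm, ← mulVec_mulVec, Adp_e_ne h ht.symm,
    mulVec_zero, dotProduct_zero]

/-- The form is alternating. -/
theorem Adp_alt (v w : Fin m → ℂ) :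
    v ⬝ᵥ (qc D.Ψ *ᵥ w) = -(w ⬝ᵥ (qc D.Ψ *ᵥ v)) := by
  have h1 : (qc D.Ψ)ᵀ = -qc D.Ψ := by
    have := congrArg qc D.Ψ_alt
    rw [map_neg] at this
    rw [← this]
    ext i j
    simp
  rw [dotProduct_comm w, Adp_dot, h1, neg_mulVec, dotProduct_neg, neg_neg]

open Classical in
/-- The values of the form on the basis. -/
theorem Adp_pair (hm : 0 < m) (h : D.Adp N Φ b) (s t : K →+* ℂ) (i j : Fin N) :
    b (s, i) ⬝ᵥ (qc D.Ψ *ᵥ b (t, j)) =
      if t = cj s ∧ i = j then (if s ∈ Φ then 1 else -1) else 0 := by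
  by_cases ht : t = cj s
  · subst ht
    by_cases hs : s ∈ Φ
    · rw [h.dual s hs]
      simp [hs]
    · have hs' : cj s ∈ Φ := by
        by_contra h'
        exact hs ((h.cm s).2 h')
      have h1 := h.dual (cj s) hs' j i
      rw [cj_cj] at h1
      rw [Adp_alt, h1]
      by_cases hij : i = j
      · simp [hij, hs]
      · simp [hij, Ne.symm hij]
  · rw [Adp_pair_ne hm h ht]
    simp [ht]

/-- For `τ ∈ Φ` and indices `p, q` there is a skew `X` with `X b(τ,q) = b(τ,p)`,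
`X b(conj τ,p) = - b(conj τ,q)` and `X = 0` on the other basis vectors: check skewness and commutation with
the projectors on basis vectors. -/
theorem Adp_elem (hm : 0 < m) (h : D.Adp N Φ b) {τ : K →+* ℂ} (hτ : τ ∈ Φ) (p q : Fin N) :
    ∃ X : Mat m ℂ, D.Sk X ∧ X *ᵥ b (τ, q) = b (τ, p) ∧ X *ᵥ b (cj τ, p) = - b (cj τ, q) ∧
      ∀ x, x ≠ (τ, q) → x ≠ (cj τ, p) → X *ᵥ b x = 0 := by
  classical
  have hcτ : cj τ ∉ Φ := (h.cm τ).1 hτ
  have hne : cj τ ≠ τ := cj_ne τ
  set f : (K →+* ℂ) × Fin N → (Fin m → ℂ) := fun x =>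
    if x = (τ, q) then b (τ, p) else if x = (cj τ, p) then - b (cj τ, q) else 0 with hf
  have hf1 : f (τ, q) = b (τ, p) := by simp [hf]
  have hf2 : f (cj τ, p) = - b (cj τ, q) := by simp [hf, hne]
  have hf3 : ∀ x, x ≠ (τ, q) → x ≠ (cj τ, p) → f x = 0 := by
    intro x h1 h2
    simp [hf, h1, h2]
  set X : Mat m ℂ := LinearMap.toMatrix' (b.constr ℂ f) with hX
  have hXb : ∀ x, X *ᵥ b x = f x := by
    intro x
    rw [hX, LinearMap.toMatrix'_mulVec, Basis.constr_basis]
  have heb : ∀ (t s : K →+* ℂ) (i : Fin N), D.e t *ᵥ b (s, i) = if t = s then b (s, i) else 0 := by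
    intro t s i
    split_ifs with h1
    · rw [h1]
      exact h.e_b s i
    · exact Adp_e_ne h h1 i
  have hef : ∀ (t : K →+* ℂ) (x : (K →+* ℂ) × Fin N),
      D.e t *ᵥ f x = if t = x.1 then f x else 0 := by
    intro t x
    by_cases h1 : x = (τ, q)
    · subst h1
      rw [hf1, heb]
    · by_cases h2 : x = (cj τ, p)
      · subst h2
        rw [hf2, mulVec_neg, heb]
        split_ifs
        · rfl
        · exact neg_zero
      · rw [hf3 x h1 h2, mulVec_zero]
        split_ifs <;> rfl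
  refine ⟨X, ⟨fun t => ?_, ?_⟩, by rw [hXb, hf1], by rw [hXb, hf2],
    fun x h1 h2 => by rw [hXb, hf3 x h1 h2]⟩
  · refine Matrix.toLin'.injective (b.ext fun x => ?_)
    obtain ⟨s, i⟩ := x
    rw [toLin'_apply, toLin'_apply, ← mulVec_mulVec, ← mulVec_mulVec, hXb, hef, heb]
    split_ifs with h1
    · exact hXb _
    · exact mulVec_zero _
  · refine (Matrix.toLinearMap₂' ℂ).injective (LinearMap.ext_basis b b fun x y => ?_)
    rw [map_zero, LinearMap.zero_apply, LinearMap.zero_apply, toLinearMap₂'_apply', add_mulVec,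
      dotProduct_add, ← mulVec_mulVec, ← mulVec_mulVec, hXb, ← Adp_dot, hXb]
    obtain ⟨s, i⟩ := x
    obtain ⟨t, j⟩ := y
    by_cases h1 : (s, i) = (τ, q)
    · obtain ⟨rfl, rfl⟩ := Prod.mk.inj h1
      rw [hf1]
      by_cases h2 : (t, j) = (s, i)
      · obtain ⟨rfl, rfl⟩ := Prod.mk.inj h2
        rw [hf1, Adp_pair hm h, Adp_pair hm h]
        simp [hne.symm]
      · by_cases h3 : (t, j) = (cj s, p)
        · obtain ⟨rfl, rfl⟩ := Prod.mk.inj h3
          rw [hf2, mulVec_neg, dotProduct_neg, Adp_pair hm h, Adp_pair hm h]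
          simp [hτ]
        · rw [hf3 _ h2 h3, mulVec_zero, dotProduct_zero, add_zero, Adp_pair hm h]
          have h4 : ¬ (t = cj s ∧ p = j) := by
            rintro ⟨rfl, rfl⟩
            exact h3 rfl
          simp [h4]
    · by_cases h1' : (s, i) = (cj τ, p)
      · obtain ⟨rfl, rfl⟩ := Prod.mk.inj h1'
        rw [hf2, neg_dotProduct]
        by_cases h2 : (t, j) = (τ, q)
        · obtain ⟨rfl, rfl⟩ := Prod.mk.inj h2
          rw [hf1, Adp_pair hm h, Adp_pair hm h]
          simp [hcτ, cj_cj]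
        · by_cases h3 : (t, j) = (cj τ, i)
          · obtain ⟨rfl, rfl⟩ := Prod.mk.inj h3
            rw [hf2, mulVec_neg, dotProduct_neg, Adp_pair hm h, Adp_pair hm h]
            simp [hne, cj_cj]
          · rw [hf3 _ h2 h3, mulVec_zero, dotProduct_zero, add_zero, Adp_pair hm h]
            have h4 : ¬ (t = cj (cj τ) ∧ q = j) := by
              rw [cj_cj]
              rintro ⟨rfl, rfl⟩
              exact h2 rfl
            rw [if_neg h4, neg_zero]
      · rw [hf3 _ h1 h1', zero_dotProduct, zero_add]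
        by_cases h2 : (t, j) = (τ, q)
        · obtain ⟨rfl, rfl⟩ := Prod.mk.inj h2
          rw [hf1, Adp_pair hm h]
          have h4 : ¬ (t = cj s ∧ i = p) := by
            rintro ⟨h5, rfl⟩
            refine h1' ?_
            rw [h5, cj_cj]
          rw [if_neg h4]
        · by_cases h3 : (t, j) = (cj τ, p)
          · obtain ⟨rfl, rfl⟩ := Prod.mk.inj h3
            rw [hf2, mulVec_neg, dotProduct_neg, Adp_pair hm h]
            have h4 : ¬ (cj τ = cj s ∧ i = q) := by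
              rintro ⟨h5, rfl⟩
              have h6 := congrArg cj h5
              rw [cj_cj, cj_cj] at h6
              exact h1 (by rw [h6])
            rw [if_neg h4, neg_zero]
          · rw [hf3 _ h2 h3, mulVec_zero, dotProduct_zero]

end Pool.MP43e44c.PE
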