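import Pool.Agent.H.MP_43e44c_ag.PE.Proj

/-!
The Rosati involution is complex conjugation.
-/

set_option autoImplicit false

open NumberField Module Matrix

namespace Pool.MP43e44c.PE

variable {m : ℕ} {K : Type*} [Field K] [NumberField K] [IsCMField K] (D : Dat K m)

/-- `Ψ` is invertible (`Ψ_pos`: `Ψ J` has trivial kernel over `ℝ`). -/
theorem isUnit_Ψ : IsUnit D.Ψ := by
  have h1 : Function.Injective ((qr D.Ψ * D.J) *ᵥ ·) := by
    intro u v huv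
    by_contra hne
    have h2 : (qr D.Ψ * D.J) *ᵥ (u - v) = 0 := by
      rw [mulVec_sub]
      exact sub_eq_zero.mpr huv
    have h3 := D.Ψ_pos (u - v) (sub_ne_zero.mpr hne)
    rw [h2, dotProduct_zero] at h3
    exact lt_irrefl _ h3
  have h2 : IsUnit (qr D.Ψ * D.J) := mulVec_injective_iff_isUnit.mp h1
  rw [isUnit_iff_isUnit_det, det_mul] at h2
  have h3 := isUnit_of_mul_isUnit_left h2
  have h4 : (qr D.Ψ).det = algebraMap ℚ ℝ D.Ψ.det := ((algebraMap ℚ ℝ).map_det D.Ψ).symm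
  rw [h4, isUnit_iff_ne_zero] at h3
  rw [isUnit_iff_isUnit_det, isUnit_iff_ne_zero]
  intro h5
  exact h3 (by rw [h5, map_zero])

theorem Ros_rc_qr (M : Mat m ℚ) : rc (qr M) = qc M := by
  ext i j
  simp [RingHom.mapMatrix_apply]

theorem Ros_J_sq : rc D.J * rc D.J = -1 := by
  rw [← map_mul, D.J_sq, map_neg, map_one]

theorem Ros_J_e (τ : K →+* ℂ) : rc D.J * D.e τ = D.e τ * rc D.J := by
  refine (comm_iff D (rc D.J)).1 (fun a => ?_) τ
  rw [← Ros_rc_qr, ← map_mul, ← map_mul, D.J_ρ a]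

theorem Ros_star_qc (M : Mat m ℚ) (w : Fin m → ℂ) : star (qc M *ᵥ w) = qc M *ᵥ star w := by
  ext i
  simp only [Pi.star_apply, mulVec, dotProduct, star_sum, star_mul', RingHom.mapMatrix_apply,
    map_apply, eq_ratCast, RCLike.star_def, map_ratCast]

/-- There is a common eigenvector of `J` and `ρ(K)`. -/
theorem Ros_eig (hm : 0 < m) : ∃ (τ : K →+* ℂ) (w : Fin m → ℂ), w ≠ 0 ∧
    rc D.J *ᵥ w = Complex.I • w ∧ ∀ a, qc (D.ρ a) *ᵥ w = τ a • w := by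
  have hQ : (1 - Complex.I • rc D.J : Mat m ℂ) ≠ 0 := by
    intro h
    have h1 := congrFun (congrFun h ⟨0, hm⟩) ⟨0, hm⟩
    rw [Matrix.sub_apply, Matrix.one_apply_eq, Matrix.smul_apply, smul_eq_mul] at h1
    have h2 : rc D.J ⟨0, hm⟩ ⟨0, hm⟩ = ((D.J ⟨0, hm⟩ ⟨0, hm⟩ : ℝ) : ℂ) := rfl
    rw [h2] at h1
    have h3 := congrArg Complex.re h1
    simp at h3
  obtain ⟨τ, hτ⟩ : ∃ τ : K →+* ℂ, D.e τ * (1 - Complex.I • rc D.J) ≠ 0 := by
    by_contra hcon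
    push Not at hcon
    apply hQ
    have h1 : (∑ τ, D.e τ) * (1 - Complex.I • rc D.J : Mat m ℂ) = 1 - Complex.I • rc D.J := by
      rw [e_sum, one_mul]
    rw [← h1, Finset.sum_mul]
    exact Finset.sum_eq_zero fun τ _ => hcon τ
  obtain ⟨u, hu⟩ : ∃ u, (D.e τ * (1 - Complex.I • rc D.J)) *ᵥ u ≠ 0 := by
    by_contra hcon
    push Not at hcon
    apply hτ
    apply (Matrix.toLin' (R := ℂ)).injective
    refine LinearMap.ext fun v => ?_
    rw [toLin'_apply, hcon v, map_zero]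
    rfl
  refine ⟨τ, _, hu, ?_, fun a => ?_⟩
  · have h1 : rc D.J * (1 - Complex.I • rc D.J) =
        Complex.I • (1 - Complex.I • rc D.J : Mat m ℂ) := by
      rw [mul_sub, mul_one, mul_smul_comm, Ros_J_sq, smul_sub, smul_smul, Complex.I_mul_I, smul_neg,
        sub_neg_eq_add, neg_smul, one_smul, sub_neg_eq_add, add_comm]
    rw [mulVec_mulVec, ← mul_assoc, Ros_J_e, mul_assoc, h1, mul_smul_comm, smul_mulVec]
  · rw [mulVec_mulVec, ← mul_assoc, ρ_e, smul_mul_assoc, smul_mulVec]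

/-- The hermitian form is positive. -/
theorem Ros_herm {w : Fin m → ℂ} (hw : w ≠ 0) :
    star w ⬝ᵥ (rc (qr D.Ψ * D.J) *ᵥ w) ≠ 0 := by
  intro h
  set S : Mat m ℝ := qr D.Ψ * D.J with hS
  have hpos : ∀ v : Fin m → ℝ, 0 ≤ v ⬝ᵥ (S *ᵥ v) := by
    intro v
    by_cases hv : v = 0
    · rw [hv, zero_dotProduct]
    · exact (D.Ψ_pos v hv).le
  have h1 : (star w ⬝ᵥ (rc S *ᵥ w)).re =
      (fun i => (w i).re) ⬝ᵥ (S *ᵥ fun i => (w i).re) +
        (fun i => (w i).im) ⬝ᵥ (S *ᵥ fun i => (w i).im) := by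
    simp only [dotProduct, mulVec, Complex.re_sum, ← Finset.sum_add_distrib]
    refine Finset.sum_congr rfl fun i _ => ?_
    rw [Complex.mul_re, Complex.re_sum, Complex.im_sum]
    have e1 : ∀ j, (rc S i j * w j).re = S i j * (w j).re := fun j => by
      show (((S i j : ℝ) : ℂ) * w j).re = _
      rw [Complex.re_ofReal_mul]
    have e2 : ∀ j, (rc S i j * w j).im = S i j * (w j).im := fun j => by
      show (((S i j : ℝ) : ℂ) * w j).im = _
      rw [Complex.im_ofReal_mul]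
    simp only [e1, e2, Pi.star_apply, RCLike.star_def, Complex.conj_re, Complex.conj_im]
    ring
  rw [h, Complex.zero_re] at h1
  have h2 := hpos fun i => (w i).re
  have h3 := hpos fun i => (w i).im
  apply hw
  have h4 : (fun i => (w i).re) = 0 := by
    by_contra hne
    have := D.Ψ_pos _ hne
    linarith
  have h5 : (fun i => (w i).im) = 0 := by
    by_contra hne
    have := D.Ψ_pos _ hne
    linarith
  ext i
  exact Complex.ext (congrFun h4 i) (congrFun h5 i)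

/-- The Rosati involution preserves `ρ(K)`. -/
theorem Ros_adj (a : K) : ∃ a', (D.ρ a)ᵀ * D.Ψ = D.Ψ * D.ρ a' := by
  have hU := isUnit_Ψ D
  have hU' : IsUnit D.Ψ.det := (isUnit_iff_isUnit_det _).mp hU
  have hM : D.Ψ * (D.Ψ⁻¹ * ((D.ρ a)ᵀ * D.Ψ)) = (D.ρ a)ᵀ * D.Ψ := by
    rw [← mul_assoc, mul_nonsing_inv _ hU', one_mul]
  obtain ⟨M, hMdef⟩ : ∃ M : Mat m ℚ, M = D.Ψ⁻¹ * ((D.ρ a)ᵀ * D.Ψ) := ⟨_, rfl⟩
  rw [← hMdef] at hM
  have hJΨ : qr D.Ψ * D.J = -(D.Jᵀ * qr D.Ψ) := by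
    have h1 := congrArg (· * D.J) D.Ψ_J
    simp only [mul_assoc, D.J_sq, mul_neg, mul_one] at h1
    rw [← h1]
  have hqr : qr D.Ψ * qr M = (qr (D.ρ a))ᵀ * qr D.Ψ := by
    rw [← map_mul, hM, map_mul]
    rfl
  have hcomm : D.J * qr M = qr M * D.J := by
    have hUr : IsUnit (qr D.Ψ).det := by
      have h4 : (qr D.Ψ).det = algebraMap ℚ ℝ D.Ψ.det := ((algebraMap ℚ ℝ).map_det D.Ψ).symm
      rw [h4]
      exact hU'.map _
    have h1 : qr D.Ψ * (D.J * qr M) = qr D.Ψ * (qr M * D.J) := by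
      have h2 : D.Jᵀ * (qr (D.ρ a))ᵀ = (qr (D.ρ a))ᵀ * D.Jᵀ := by
        rw [← transpose_mul, ← transpose_mul, D.J_ρ a]
      rw [← mul_assoc, hJΨ, ← mul_assoc, hqr, neg_mul, mul_assoc, hqr, ← mul_assoc, h2, mul_assoc,
        mul_assoc, hJΨ, mul_neg]
    have h3 : (qr D.Ψ)⁻¹ * (qr D.Ψ * (D.J * qr M)) = (qr D.Ψ)⁻¹ * (qr D.Ψ * (qr M * D.J)) := by
      rw [h1]
    rwa [← mul_assoc, nonsing_inv_mul _ hUr, one_mul, ← mul_assoc, nonsing_inv_mul _ hUr,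
      one_mul] at h3
  obtain ⟨a', ha'⟩ := D.comm M hcomm
  exact ⟨a', by rw [ha', hM]⟩

/-- Rosati = complex conjugation.  `Ψ⁻¹ ρ(a)ᵀ Ψ` is rational and commutes with `J`, so it is `ρ(a')`.
As `m > 0` and `∑ e_τ = 1`, `P ≠ 0` (if `P = 0` then `J = -i`, `J` real), there are `τ` and `0 ≠ w ∈ ℂ^m`
with `J w = i w`, `ρ(b) w = τ(b) w` for all `b`.  `v = Re w` satisfies `ρ(b) v = Re τ(b) v + Im τ(b) J v`
(`Im w = -J Re w`) and `v ≠ 0`.  From `ψ(ρ(a)v, Jv) = ψ(v, ρ(a')Jv)` and `ψ(ρ(a)v, v) = ψ(v, ρ(a')v)`,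
`ψ(v,v) = 0 = ψ(Jv,Jv)`, `ψ(v,Jv) > 0`: `τ(a') = conj τ(a) = τ(complexConj a)`
(`IsCMField.complexEmbedding_complexConj`). -/
theorem ros (hm : 0 < m) (a : K) : (D.ρ a)ᵀ * D.Ψ = D.Ψ * D.ρ (IsCMField.complexConj K a) := by
  obtain ⟨a', ha'⟩ := Ros_adj D a
  obtain ⟨τ, w, hw, hJ, hρ⟩ := Ros_eig D hm
  have hH : star w ⬝ᵥ (qc D.Ψ *ᵥ w) ≠ 0 := by
    intro h
    apply Ros_herm D hw
    rw [map_mul, Ros_rc_qr, ← mulVec_mulVec, hJ, mulVec_smul, dotProduct_smul, h, smul_zero]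
  have h1 : (qc (D.ρ a))ᵀ * qc D.Ψ = qc D.Ψ * qc (D.ρ a') := by
    rw [← map_mul, ← ha', map_mul]
    rfl
  have h2 : star w ⬝ᵥ (((qc (D.ρ a))ᵀ * qc D.Ψ) *ᵥ w) =
      star (τ a) * (star w ⬝ᵥ (qc D.Ψ *ᵥ w)) := by
    rw [← mulVec_mulVec, dotProduct_mulVec, vecMul_transpose, ← Ros_star_qc, hρ, star_smul,
      smul_dotProduct, smul_eq_mul]
  have h3 : star w ⬝ᵥ ((qc D.Ψ * qc (D.ρ a')) *ᵥ w) = τ a' * (star w ⬝ᵥ (qc D.Ψ *ᵥ w)) := by
    rw [← mulVec_mulVec, hρ, mulVec_smul, dotProduct_smul, smul_eq_mul]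
  rw [h1, h3] at h2
  have h4 : τ a' = star (τ a) := mul_right_cancel₀ hH h2
  have h5 : a' = IsCMField.complexConj K a := by
    apply τ.injective
    rw [IsCMField.complexEmbedding_complexConj, h4]
    rfl
  rw [ha', h5]

/-- `e_τᵀ Ψ = Ψ e_{conj τ}`: by `ρ_sum` and `ros`, `∑_τ τ(a) (e_τᵀ Ψ - Ψ e_{conj τ}) = 0` for all `a`;
use linear independence of the embeddings (or `dual_emb`: multiply by `τ₀(b_j^∨)`, `a = b_j`, sum over
`j`). -/
theorem e_ros (hm : 0 < m) (τ : K →+* ℂ) : (D.e τ)ᵀ * qc D.Ψ = qc D.Ψ * D.e (cj τ) := by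
  classical
  have h1 : ∀ b : K, (qc (D.ρ b))ᵀ * qc D.Ψ = qc D.Ψ * ∑ t : K →+* ℂ, cj t b • D.e t := by
    intro b
    have h2 : (qc (D.ρ b))ᵀ * qc D.Ψ = qc D.Ψ * qc (D.ρ (IsCMField.complexConj K b)) := by
      rw [← map_mul, ← ros D hm, map_mul]
      rfl
    rw [h2, ρ_sum]
    congr 1
    refine Finset.sum_congr rfl fun t _ => ?_
    rw [IsCMField.complexEmbedding_complexConj]
    rfl
  have h3 : (D.e τ)ᵀ * qc D.Ψ = qc D.Ψ * ∑ t : K →+* ℂ, (∑ j,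
      τ ((Algebra.traceForm ℚ K).dualBasis (traceForm_nondegenerate ℚ K) (Module.finBasis ℚ K) j) *
      cj t (Module.finBasis ℚ K j)) • D.e t := by
    conv_lhs => rw [Dat.e, transpose_sum, Finset.sum_mul]
    simp only [Finset.sum_smul]
    rw [Finset.sum_comm, Finset.mul_sum]
    refine Finset.sum_congr rfl fun j _ => ?_
    rw [transpose_smul, smul_mul_assoc, h1, ← mul_smul_comm, Finset.smul_sum]
    congr 1
    refine Finset.sum_congr rfl fun t _ => ?_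
    rw [smul_smul]
  rw [h3]
  congr 1
  rw [Finset.sum_eq_single (cj τ)]
  · rw [dual_emb, if_pos (ComplexEmbedding.involutive_conjugate K τ).symm, one_smul]
  · intro t _ ht
    rw [dual_emb, if_neg, zero_smul]
    intro h
    apply ht
    rw [h]
    exact (ComplexEmbedding.involutive_conjugate K t).symm
  · intro h
    exact absurd (Finset.mem_univ _) h

end Pool.MP43e44c.PE
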