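import Pool.Agent.H.MP_43e44c_ag.PE.BlkJ
import Pool.Agent.H.MP_43e44c_ag.PE.Ros

/-!
Adapted bases: existence.
-/

set_option autoImplicit false

open NumberField Module Matrix

namespace Pool.MP43e44c.PE

variable {m : ℕ} {K : Type*} [Field K] [NumberField K] [IsCMField K] (D : Dat K m)

/-- A basis of `ℂ^m` adapted to the eigenspaces: dual bases of `W τ` and `W (conj τ)` for `Ψ`, `τ ∈ Φ`. -/
structure Dat.Adp (N : ℕ) (Φ : Set (K →+* ℂ)) (b : Basis ((K →+* ℂ) × Fin N) ℂ (Fin m → ℂ)) : Prop where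
  cm : ∀ τ, τ ∈ Φ ↔ cj τ ∉ Φ
  e_b : ∀ τ i, D.e τ *ᵥ b (τ, i) = b (τ, i)
  dual : ∀ τ ∈ Φ, ∀ i j, b (τ, i) ⬝ᵥ (qc D.Ψ *ᵥ b (cj τ, j)) = if i = j then 1 else 0

theorem Adp1_mem_W {τ : K →+* ℂ} {v : Fin m → ℂ} (h : v ∈ D.W τ) : D.e τ *ᵥ v = v := by
  obtain ⟨u, rfl⟩ := h
  rw [toLin'_apply, mulVec_mulVec, e_idem]

theorem Adp1_e_mem (τ : K →+* ℂ) (v : Fin m → ℂ) : D.e τ *ᵥ v ∈ D.W τ := ⟨v, by rw [toLin'_apply]⟩

theorem Adp1_sum (v : Fin m → ℂ) : v = ∑ τ, D.e τ *ᵥ v := by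
  rw [← Matrix.sum_mulVec, e_sum, one_mulVec]

theorem Adp1_zero {τ t : K →+* ℂ} (h : τ ≠ t) {v : Fin m → ℂ} (hv : v ∈ D.W t) :
    D.e τ *ᵥ v = 0 := by
  rw [← Adp1_mem_W D hv, mulVec_mulVec, e_orth D h, zero_mulVec]

theorem Adp1_move (hm : 0 < m) (τ : K →+* ℂ) (v w : Fin m → ℂ) :
    (D.e τ *ᵥ v) ⬝ᵥ (qc D.Ψ *ᵥ w) = v ⬝ᵥ (qc D.Ψ *ᵥ (D.e (cj τ) *ᵥ w)) := by
  rw [mulVec_mulVec, ← e_ros D hm, ← mulVec_mulVec, mulVec_transpose]
  rw [dotProduct_comm, dotProduct_mulVec, dotProduct_comm]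

/-- dual bases of paired eigenspaces -/
theorem Adp1_dual (hm : 0 < m) (N : ℕ) (hN : ∀ τ, finrank ℂ (D.W τ) = N) (t s : K →+* ℂ)
    (h : cj t = s) (B : Basis (Fin N) ℂ (D.W t)) : ∃ B' : Basis (Fin N) ℂ (D.W s), ∀ i j,
      (B i : Fin m → ℂ) ⬝ᵥ (qc D.Ψ *ᵥ (B' j : Fin m → ℂ)) = if i = j then 1 else 0 := by
  subst h
  let L : D.W (cj t) →ₗ[ℂ] Module.Dual ℂ (D.W t) :=
    LinearMap.mk₂ ℂ (fun (w : D.W (cj t)) (v : D.W t) =>
      (v : Fin m → ℂ) ⬝ᵥ (qc D.Ψ *ᵥ (w : Fin m → ℂ)))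
      (fun w w' v => by
        show (v : Fin m → ℂ) ⬝ᵥ (qc D.Ψ *ᵥ ((w : Fin m → ℂ) + (w' : Fin m → ℂ))) = _
        rw [mulVec_add, dotProduct_add])
      (fun c w v => by
        show (v : Fin m → ℂ) ⬝ᵥ (qc D.Ψ *ᵥ (c • (w : Fin m → ℂ))) = _
        rw [mulVec_smul, dotProduct_smul])
      (fun w v v' => by
        show ((v : Fin m → ℂ) + (v' : Fin m → ℂ)) ⬝ᵥ _ = _
        rw [add_dotProduct])
      (fun c w v => by
        show (c • (v : Fin m → ℂ)) ⬝ᵥ _ = _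
        rw [smul_dotProduct])
  have hL : ∀ w v, L w v = (v : Fin m → ℂ) ⬝ᵥ (qc D.Ψ *ᵥ (w : Fin m → ℂ)) := fun w v => rfl
  have hinj : Function.Injective L := by
    rw [injective_iff_map_eq_zero]
    intro w hw
    have h1 : ∀ v : Fin m → ℂ, v ⬝ᵥ (qc D.Ψ *ᵥ (w : Fin m → ℂ)) = 0 := by
      intro v
      rw [Adp1_sum D v, sum_dotProduct]
      refine Finset.sum_eq_zero fun τ _ => ?_
      by_cases hτ : τ = t
      · subst hτ
        have := congrArg (fun f => f ⟨D.e τ *ᵥ v, Adp1_e_mem D τ v⟩) hw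
        exact this
      · rw [Adp1_move D hm, Adp1_zero D _ w.2, mulVec_zero, dotProduct_zero]
        intro h
        apply hτ
        rw [← cj_cj τ, h, cj_cj]
    have h2 : qc D.Ψ *ᵥ (w : Fin m → ℂ) = 0 := by
      exact dotProduct_eq_zero _ fun v => by rw [dotProduct_comm]; exact h1 v
    have h3 : IsUnit (qc D.Ψ) := (isUnit_Ψ D).map qc
    have h4 : (w : Fin m → ℂ) = 0 := by
      obtain ⟨u, hu⟩ := h3
      have : ((↑u⁻¹ : Mat m ℂ) * qc D.Ψ) *ᵥ (w : Fin m → ℂ) = 0 := by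
        rw [← mulVec_mulVec, h2, mulVec_zero]
      rw [← hu, Units.inv_mul, one_mulVec] at this
      exact this
    exact Subtype.ext h4
  let E : D.W (cj t) ≃ₗ[ℂ] Module.Dual ℂ (D.W t) :=
    LinearEquiv.ofInjectiveOfFinrankEq L hinj (by rw [Subspace.dual_finrank_eq, hN, hN])
  have hE : ∀ w, E w = L w := fun w => rfl
  refine ⟨B.dualBasis.map E.symm, fun i j => ?_⟩
  rw [← hL, Basis.map_apply, ← hE, LinearEquiv.apply_symm_apply, Basis.dualBasis_apply_self]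

/-- Proof: a set `Φ` with `cm` exists (choose one from each pair: `cj` is an involution without fixed points,
`cj_ne`; e.g. `{τ | 0 < Im τ(θ)}` for `θ` a generator).  `ℂ^m = ⊕ W τ` (`e_idem`, `e_orth`, `e_sum`),
`W τ = {v | e_τ v = v}`, all of dimension `N` (`finrank_W`, `mul_add_mul`).  `Ψ` pairs `W τ` with `W t`
trivially for `t ≠ conj τ` (`e_ros`) and is nondegenerate, so it is a perfect pairing of `W τ` and
`W (conj τ)`: choose bases of `W τ`, `τ ∈ Φ`, and their dual bases. -/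
theorem exists_adp (hm : 0 < m) : ∃ (N : ℕ) (Φ : Set (K →+* ℂ))
    (b : Basis ((K →+* ℂ) × Fin N) ℂ (Fin m → ℂ)), D.Adp N Φ b := by
  classical
  obtain ⟨τ₀⟩ : Nonempty (K →+* ℂ) := inferInstance
  set N := D.mul τ₀ + D.mul (cj τ₀) with hNdef
  have hN : ∀ τ, finrank ℂ (D.W τ) = N := fun τ => by
    rw [finrank_W, mul_add_mul D τ τ₀]
  let f := Fintype.equivFin (K →+* ℂ)
  let Φ : Set (K →+* ℂ) := {τ | f τ < f (cj τ)}
  have hΦ : ∀ τ, τ ∈ Φ ↔ cj τ ∉ Φ := by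
    intro τ
    show f τ < f (cj τ) ↔ ¬ (f (cj τ) < f (cj (cj τ)))
    rw [cj_cj, not_lt]
    refine ⟨fun h => h.le, fun h => lt_of_le_of_ne h fun h' => cj_ne τ (f.injective h').symm⟩
  let B0 : ∀ τ, Basis (Fin N) ℂ (D.W τ) := fun τ => finBasisOfFinrankEq ℂ (D.W τ) (hN τ)
  choose G hG using fun (t s : K →+* ℂ) (h : cj t = s) => Adp1_dual D hm N hN t s h (B0 t)
  let β : ∀ τ, Basis (Fin N) ℂ (D.W τ) := fun τ => if τ ∈ Φ then B0 τ else G (cj τ) τ (cj_cj τ)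
  let v : (K →+* ℂ) × Fin N → (Fin m → ℂ) := fun x => (β x.1 x.2 : Fin m → ℂ)
  have hev : ∀ t x, D.e t *ᵥ v x = if x.1 = t then v x else 0 := by
    intro t x
    split_ifs with h
    · subst h
      exact Adp1_mem_W D (β x.1 x.2).2
    · exact Adp1_zero D (fun h' => h h'.symm) (β x.1 x.2).2
  have hli : LinearIndependent ℂ v := by
    rw [Fintype.linearIndependent_iff]
    intro c hc ⟨t, i⟩
    have h1 : D.e t *ᵥ (∑ x, c x • v x) = 0 := by rw [hc, mulVec_zero]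
    rw [Matrix.mulVec_sum] at h1
    have h2 : ∀ x, D.e t *ᵥ (c x • v x) = if x.1 = t then c x • v x else 0 := by
      intro x
      rw [mulVec_smul, hev]
      split_ifs <;> simp
    simp only [h2] at h1
    rw [Fintype.sum_prod_type, Finset.sum_eq_single t] at h1
    · have h3 : ∑ j, c (t, j) • β t j = 0 := by
        apply Subtype.ext
        rw [Submodule.coe_sum]
        simpa [v] using h1
      exact (Fintype.linearIndependent_iff.1 (β t).linearIndependent) _ h3 i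
    · intro s _ hs
      exact Finset.sum_eq_zero fun j _ => if_neg hs
    · intro h
      exact absurd (Finset.mem_univ t) h
  have hsp : ⊤ ≤ Submodule.span ℂ (Set.range v) := by
    intro u _
    rw [Adp1_sum D u]
    refine Submodule.sum_mem _ fun τ _ => ?_
    have h1 := (β τ).sum_repr ⟨D.e τ *ᵥ u, Adp1_e_mem D τ u⟩
    have h2 : D.e τ *ᵥ u = ∑ i, ((β τ).repr ⟨D.e τ *ᵥ u, Adp1_e_mem D τ u⟩ i) • v (τ, i) := by
      have := congrArg Subtype.val h1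
      rw [Submodule.coe_sum] at this
      exact this.symm
    rw [h2]
    exact Submodule.sum_mem _ fun i _ => Submodule.smul_mem _ _ (Submodule.subset_span ⟨(τ, i), rfl⟩)
  refine ⟨N, Φ, Basis.mk hli hsp, hΦ, fun τ i => ?_, fun τ hτ i j => ?_⟩
  · rw [Basis.mk_apply, hev, if_pos rfl]
  · rw [Basis.mk_apply, Basis.mk_apply]
    have h1 : v (τ, i) = (B0 τ i : Fin m → ℂ) := by
      show ((if τ ∈ Φ then B0 τ else G (cj τ) τ (cj_cj τ)) i : Fin m → ℂ) = _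
      rw [if_pos hτ]
    have h2 : v (cj τ, j) = (G (cj (cj τ)) (cj τ) (cj_cj (cj τ)) j : Fin m → ℂ) := by
      show ((if cj τ ∈ Φ then B0 (cj τ) else G (cj (cj τ)) (cj τ) (cj_cj (cj τ))) j :
        Fin m → ℂ) = _
      rw [if_neg ((hΦ τ).1 hτ)]
    have h3 := hG (cj (cj τ)) (cj τ) (cj_cj (cj τ)) i j
    have h4 : (B0 (cj (cj τ)) i : Fin m → ℂ) = (B0 τ i : Fin m → ℂ) :=
      congrArg (fun t => (B0 t i : Fin m → ℂ)) (cj_cj τ)
    rw [h1, h2, ← h4]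
    exact h3

variable {D} {N : ℕ} {Φ : Set (K →+* ℂ)} {b : Basis ((K →+* ℂ) × Fin N) ℂ (Fin m → ℂ)}

end Pool.MP43e44c.PE
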