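import Pool.Agent.H.MP_43e44c_ag.PE.Def

/-!
The automorphisms of `ℂ` act transitively on the embeddings of a number field.
-/

set_option autoImplicit false

open NumberField Cardinal

namespace Pool.MP43e44c.PE

/-- Two uncountable algebraically closed extensions, of the same cardinality, of a countable field
are isomorphic over it. -/
theorem autC_aux {K : Type*} {L M : Type} [Field K] [Field L] [Field M] [IsAlgClosed L]
    [IsAlgClosed M] [Algebra K L] [Algebra K M] (hK : #K ≤ ℵ₀) (hL : ℵ₀ < #L)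
    (hLM : #L = #M) :
    ∃ e : L ≃+* M, (e : L →+* M).comp (algebraMap K L) = algebraMap K M := by
  obtain ⟨s, hs⟩ := exists_isTranscendenceBasis K L
  obtain ⟨t, ht⟩ := exists_isTranscendenceBasis K M
  have hM : ℵ₀ < #M := hLM ▸ hL
  have h1 := IsAlgClosed.cardinal_eq_cardinal_transcendence_basis_of_aleph0_lt _ hs hK hL
  have h2 := IsAlgClosed.cardinal_eq_cardinal_transcendence_basis_of_aleph0_lt _ ht hK hM
  have h3 : #s = #t := by
    rw [Cardinal.lift_id, Cardinal.lift_id] at h1 h2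
    rw [← h1, ← h2, hLM]
  obtain ⟨e⟩ := Cardinal.eq.1 h3
  let φ : Algebra.adjoin K (Set.range ((↑) : s → L)) ≃ₐ[K]
      Algebra.adjoin K (Set.range ((↑) : t → M)) :=
    (hs.1.aevalEquiv.symm.trans (MvPolynomial.renameEquiv K e)).trans ht.1.aevalEquiv
  have i1 : IsAlgClosure (Algebra.adjoin K (Set.range ((↑) : s → L))) L :=
    IsAlgClosed.isAlgClosure_of_transcendence_basis _ hs
  have i2 : IsAlgClosure (Algebra.adjoin K (Set.range ((↑) : t → M))) M :=
    IsAlgClosed.isAlgClosure_of_transcendence_basis _ ht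
  refine ⟨IsAlgClosure.equivOfEquiv L M φ.toRingEquiv, ?_⟩
  ext x
  have h4 := IsAlgClosure.equivOfEquiv_algebraMap L M φ.toRingEquiv
    (algebraMap K (Algebra.adjoin K (Set.range ((↑) : s → L))) x)
  rw [← IsScalarTower.algebraMap_apply K (Algebra.adjoin K (Set.range ((↑) : s → L))) L] at h4
  have h5 : φ.toRingEquiv (algebraMap K (Algebra.adjoin K (Set.range ((↑) : s → L))) x) =
      algebraMap K (Algebra.adjoin K (Set.range ((↑) : t → M))) x := φ.commutes x
  rw [h5, ← IsScalarTower.algebraMap_apply K (Algebra.adjoin K (Set.range ((↑) : t → M))) M] at h4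
  exact h4

/-- Any two embeddings of a number field into `ℂ` differ by a field automorphism of `ℂ`. -/
theorem exists_aut {K : Type*} [Field K] [NumberField K] (τ τ' : K →+* ℂ) :
    ∃ σ : ℂ ≃+* ℂ, tw σ τ = τ' := by
  have hc : Countable K := (Module.finBasis ℚ K).equivFun.toEquiv.countable_iff.2 inferInstance
  have hK : #K ≤ ℵ₀ := Cardinal.mk_le_aleph0
  have hL : ℵ₀ < #ℂ := by
    rw [Cardinal.mk_complex]
    exact Cardinal.aleph0_lt_continuum
  exact @autC_aux K ℂ ℂ _ _ _ _ _ τ.toAlgebra τ'.toAlgebra hK hL rfl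

/-- Automorphisms of `ℂ` commute with complex conjugation on a CM field. -/
theorem tw_cj {K : Type*} [Field K] [NumberField K] [IsCMField K] (σ : ℂ ≃+* ℂ) (τ : K →+* ℂ) :
    tw σ (cj τ) = cj (tw σ τ) := by
  ext x
  have h1 := IsCMField.complexEmbedding_complexConj K τ x
  have h2 := IsCMField.complexEmbedding_complexConj K (tw σ τ) x
  change σ (starRingEnd ℂ (τ x)) = starRingEnd ℂ (σ (τ x))
  rw [← h1]
  exact h2

/-- A CM field has no real embedding. -/
theorem cj_ne {K : Type*} [Field K] [NumberField K] [IsCMField K] (τ : K →+* ℂ) : cj τ ≠ τ := by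
  intro h
  have h1 : ComplexEmbedding.IsReal τ := h
  have h2 : InfinitePlace.IsReal (InfinitePlace.mk τ) := ⟨τ, h1, rfl⟩
  exact (InfinitePlace.not_isReal_iff_isComplex.2
    (IsTotallyComplex.isComplex (InfinitePlace.mk τ))) h2

theorem cj_cj {K : Type*} [Field K] (τ : K →+* ℂ) : cj (cj τ) = τ := by
  ext x
  simp

theorem tw_tw {K : Type*} [Field K] (σ σ' : ℂ ≃+* ℂ) (τ : K →+* ℂ) :
    tw σ (tw σ' τ) = tw (σ'.trans σ) τ := by
  ext x
  rfl

theorem tw_symm_tw {K : Type*} [Field K] (σ : ℂ ≃+* ℂ) (τ : K →+* ℂ) : tw σ.symm (tw σ τ) = τ := by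
  ext x
  exact σ.symm_apply_apply _

theorem tw_tw_symm {K : Type*} [Field K] (σ : ℂ ≃+* ℂ) (τ : K →+* ℂ) : tw σ (tw σ.symm τ) = τ := by
  ext x
  exact σ.apply_symm_apply _

end Pool.MP43e44c.PE
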