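import Pool.Agent.H.MP_43e44c_ag.PE.Sig

/-!
Compression to the eigenspaces `W τ`.
-/

set_option autoImplicit false

open NumberField Module Matrix

namespace Pool.MP43e44c.PE

variable {m : ℕ} {K : Type*} [Field K] [NumberField K] [IsCMField K] (D : Dat K m)

theorem Blk_fix (τ : K →+* ℂ) (v : D.W τ) : D.e τ *ᵥ (v : Fin m → ℂ) = v := by
  have h := (Sig_isProj_W D τ).map_id v v.2
  rwa [toLin'_apply] at h

theorem Blk_mem (τ : K →+* ℂ) (u : Fin m → ℂ) : D.e τ *ᵥ u ∈ D.W τ := by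
  have h := (Sig_isProj_W D τ).map_mem u
  rwa [toLin'_apply] at h

/-- The projection `v ↦ e_τ v` onto `W τ`. -/
noncomputable def Blk_pr (τ : K →+* ℂ) : (Fin m → ℂ) →ₗ[ℂ] D.W τ :=
  LinearMap.codRestrict (D.W τ) (toLin' (D.e τ)) fun u => by
    rw [toLin'_apply]
    exact Blk_mem D τ u

theorem Blk_pr_coe (τ : K →+* ℂ) (u : Fin m → ℂ) :
    (Blk_pr D τ u : Fin m → ℂ) = D.e τ *ᵥ u := by
  show toLin' (D.e τ) u = _
  rw [toLin'_apply]

theorem Blk_ext {X Y : Mat m ℂ} (h : ∀ u : Fin m → ℂ, X *ᵥ u = Y *ᵥ u) : X = Y := by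
  apply (Matrix.toLin' (R := ℂ)).injective
  refine LinearMap.ext fun u => ?_
  rw [toLin'_apply, toLin'_apply, h]

theorem cp_one (τ : K →+* ℂ) : D.cp τ 1 = 1 := by
  refine LinearMap.ext fun v => Subtype.ext ?_
  rw [Dat.cp_apply, one_mulVec, Blk_fix]
  rfl

theorem cp_mul (τ : K →+* ℂ) (X Y : Mat m ℂ) (hY : Y * D.e τ = D.e τ * Y) :
    D.cp τ (X * Y) = D.cp τ X * D.cp τ Y := by
  refine LinearMap.ext fun v => Subtype.ext ?_
  have h1 : ((D.cp τ X * D.cp τ Y) v : Fin m → ℂ) = D.e τ *ᵥ (X *ᵥ (D.cp τ Y v : Fin m → ℂ)) :=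
    Dat.cp_apply D τ X (D.cp τ Y v)
  have h2 : (D.cp τ Y v : Fin m → ℂ) = Y *ᵥ (v : Fin m → ℂ) := by
    rw [Dat.cp_apply, mulVec_mulVec, ← hY, ← mulVec_mulVec, Blk_fix]
  rw [h1, h2, Dat.cp_apply, mulVec_mulVec (v : Fin m → ℂ) X Y]

/-- `cp τ X = cp τ Y` iff `e_τ X = e_τ Y` for `X, Y` commuting with `e_τ`. -/
theorem cp_eq_iff (τ : K →+* ℂ) {X Y : Mat m ℂ} (hX : X * D.e τ = D.e τ * X)
    (hY : Y * D.e τ = D.e τ * Y) : D.cp τ X = D.cp τ Y ↔ D.e τ * X = D.e τ * Y := by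
  constructor
  · intro h
    refine Blk_ext fun u => ?_
    have h1 : ∀ Z : Mat m ℂ, Z * D.e τ = D.e τ * Z →
        (D.e τ * Z) *ᵥ u = (D.cp τ Z ⟨D.e τ *ᵥ u, Blk_mem D τ u⟩ : Fin m → ℂ) := by
      intro Z hZ
      rw [Dat.cp_apply]
      show (D.e τ * Z) *ᵥ u = D.e τ *ᵥ (Z *ᵥ (D.e τ *ᵥ u))
      rw [mulVec_mulVec u Z, hZ, mulVec_mulVec, ← mul_assoc, e_idem]
    rw [h1 X hX, h1 Y hY, h]
  · intro h
    refine LinearMap.ext fun v => Subtype.ext ?_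
    rw [Dat.cp_apply, Dat.cp_apply, mulVec_mulVec, mulVec_mulVec, h]

theorem cp_eq_smul_iff (τ : K →+* ℂ) {X : Mat m ℂ} (hX : X * D.e τ = D.e τ * X) (c : ℂ) :
    D.cp τ X = c • (1 : Module.End ℂ (D.W τ)) ↔ D.e τ * X = c • D.e τ := by
  have h1 : c • (1 : Module.End ℂ (D.W τ)) = D.cp τ (c • (1 : Mat m ℂ)) := by
    rw [map_smul, cp_one]
  rw [h1, cp_eq_iff D τ hX (by rw [smul_mul_assoc, one_mul, mul_smul_comm, mul_one]),
    mul_smul_comm, mul_one]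

theorem trace_cp (τ : K →+* ℂ) (X : Mat m ℂ) :
    LinearMap.trace ℂ (D.W τ) (D.cp τ X) = (D.e τ * X).trace := by
  have h1 : D.cp τ X = Blk_pr D τ ∘ₗ ((toLin' X) ∘ₗ (D.W τ).subtype) := by
    refine LinearMap.ext fun v => Subtype.ext ?_
    rw [Dat.cp_apply, LinearMap.comp_apply, LinearMap.comp_apply, Blk_pr_coe, toLin'_apply]
    rfl
  have h2 : ((toLin' X) ∘ₗ (D.W τ).subtype) ∘ₗ Blk_pr D τ = toLin' (X * D.e τ) := by
    refine LinearMap.ext fun v => ?_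
    rw [LinearMap.comp_apply, LinearMap.comp_apply, Submodule.subtype_apply, Blk_pr_coe,
      toLin'_apply, toLin'_apply, mulVec_mulVec]
  rw [h1, LinearMap.trace_comp_comm', h2, Matrix.trace_toLin'_eq, Matrix.trace_mul_comm]

/-- Every endomorphism of `W τ` is the compression of a matrix commuting with all projectors and
vanishing on the other eigenspaces: `X = ι A π` with `π : ℂ^m → W τ`, `v ↦ e_τ v`. -/
theorem cp_surj (τ : K →+* ℂ) (A : Module.End ℂ (D.W τ)) :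
    ∃ X : Mat m ℂ, (∀ t, X * D.e t = D.e t * X) ∧ (∀ t, t ≠ τ → D.e t * X = 0) ∧ D.cp τ X = A := by
  obtain ⟨X, hX⟩ : ∃ X : Mat m ℂ, ∀ u, X *ᵥ u = (A (Blk_pr D τ u) : Fin m → ℂ) := by
    refine ⟨LinearMap.toMatrix' ((D.W τ).subtype ∘ₗ (A ∘ₗ Blk_pr D τ)), fun u => ?_⟩
    rw [← toLin'_apply, toLin'_toMatrix']
    rfl
  have h1 : X * D.e τ = X := by
    refine Blk_ext fun u => ?_
    have h2 : Blk_pr D τ (D.e τ *ᵥ u) = Blk_pr D τ u := by
      apply Subtype.ext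
      rw [Blk_pr_coe, Blk_pr_coe, mulVec_mulVec, e_idem]
    rw [← mulVec_mulVec, hX, hX, h2]
  have h2 : D.e τ * X = X := by
    refine Blk_ext fun u => ?_
    rw [← mulVec_mulVec, hX, Blk_fix]
  have h3 : ∀ t, t ≠ τ → D.e t * X = 0 := by
    intro t ht
    rw [← h2, ← mul_assoc, e_orth D ht, zero_mul]
  have h4 : ∀ t, t ≠ τ → X * D.e t = 0 := by
    intro t ht
    rw [← h1, mul_assoc, e_orth D (Ne.symm ht), mul_zero]
  refine ⟨X, fun t => ?_, h3, ?_⟩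
  · by_cases ht : t = τ
    · rw [ht, h1, h2]
    · rw [h3 t ht, h4 t ht]
  · refine LinearMap.ext fun v => Subtype.ext ?_
    have h5 : Blk_pr D τ (v : Fin m → ℂ) = v := by
      apply Subtype.ext
      rw [Blk_pr_coe, Blk_fix]
    rw [Dat.cp_apply, hX, Blk_fix, h5]

end Pool.MP43e44c.PE
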