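import Pool.Agent.H.MP_43e44c_ag.PE.Blk

/-!
The compression of the conjugates of the complex structure.
-/

set_option autoImplicit false

open NumberField Module Matrix

namespace Pool.MP43e44c.PE

variable {m : ℕ} {K : Type*} [Field K] [NumberField K] [IsCMField K] (D : Dat K m)

/-- Trace of an idempotent. -/
theorem BlkJ_trace_idem {W : Type*} [AddCommGroup W] [Module ℂ W] [FiniteDimensional ℂ W]
    (p : Module.End ℂ W) (hp : p * p = p) :
    LinearMap.trace ℂ W p = (finrank ℂ (LinearMap.range p) : ℂ) := by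
  have h : LinearMap.IsProj (LinearMap.range p) p :=
    (LinearMap.isProj_range_iff_isIdempotentElem p).2 hp
  exact h.trace

theorem BlkJ_act_mul (σ : ℂ ≃+* ℂ) (X Y : Mat m ℂ) : act σ (X * Y) = act σ X * act σ Y := by
  have h := Matrix.map_mul (L := X) (M := Y) (f := (σ : ℂ →+* ℂ))
  exact h

theorem BlkJ_act_one (σ : ℂ ≃+* ℂ) : act σ (1 : Mat m ℂ) = 1 := by
  unfold act
  exact Matrix.map_one _ (map_zero σ) (map_one σ)

theorem BlkJ_act_smul (σ : ℂ ≃+* ℂ) (c : ℂ) (X : Mat m ℂ) : act σ (c • X) = σ c • act σ X := by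
  ext i j
  simp [act]

theorem BlkJ_act_add (σ : ℂ ≃+* ℂ) (X Y : Mat m ℂ) : act σ (X + Y) = act σ X + act σ Y := by
  ext i j
  simp [act]

theorem BlkJ_trace_act (σ : ℂ ≃+* ℂ) (X : Mat m ℂ) : (act σ X).trace = σ X.trace := by
  simp [act, Matrix.trace]

omit [NumberField K] [IsCMField K] in
theorem BlkJ_tw_symm (σ : ℂ ≃+* ℂ) (τ : K →+* ℂ) : tw σ (tw σ.symm τ) = τ := by
  ext x
  simp [tw]

theorem BlkJ_act_e (σ : ℂ ≃+* ℂ) (τ : K →+* ℂ) : D.e τ = act σ (D.e (tw σ.symm τ)) := by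
  rw [act_e, BlkJ_tw_symm]

theorem BlkJ_rcJ_sq : rc D.J * rc D.J = -1 := by
  rw [← map_mul, D.J_sq, map_neg, map_one]

theorem BlkJ_rcJ_e (τ : K →+* ℂ) : rc D.J * D.e τ = D.e τ * rc D.J := by
  refine (comm_iff D (rc D.J)).1 (fun a => ?_) τ
  have h := congrArg rc (D.J_ρ a)
  rw [map_mul, map_mul] at h
  have h2 : rc (qr (D.ρ a)) = qc (D.ρ a) := by
    ext i j
    simp
  rwa [h2] at h

theorem BlkJ_P_e (τ : K →+* ℂ) : D.P * D.e τ = D.e τ * D.P := by
  unfold Dat.P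
  rw [smul_mul_assoc, mul_smul_comm, sub_mul, mul_sub, one_mul, mul_one, smul_mul_assoc,
    mul_smul_comm, BlkJ_rcJ_e]

theorem BlkJ_P_idem : D.P * D.P = D.P := by
  have h2 : (1 - Complex.I • rc D.J) * (1 - Complex.I • rc D.J) =
      (2 : ℂ) • (1 - Complex.I • rc D.J) := by
    rw [sub_mul, one_mul, mul_sub, mul_one, smul_mul_smul_comm, BlkJ_rcJ_sq, Complex.I_mul_I,
      two_smul]
    simp only [neg_smul, one_smul, neg_neg]
    abel
  unfold Dat.P
  rw [smul_mul_smul_comm, h2, smul_smul]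
  norm_num

theorem BlkJ_rcJ_eq : rc D.J = (-Complex.I) • (1 : Mat m ℂ) + (2 * Complex.I) • D.P := by
  unfold Dat.P
  rw [smul_smul, smul_sub, smul_smul]
  have h1 : 2 * Complex.I * (1 / 2) = Complex.I := by ring
  have h2 : 2 * Complex.I * (1 / 2) * Complex.I = -1 := by
    rw [h1, Complex.I_mul_I]
  rw [h2, h1, neg_smul, neg_smul, one_smul]
  abel

/-- The compression of `σ(J)` is `σ(i) (2 p - 1)`, `p` an idempotent of rank `mul (σ⁻¹ τ)` with kernel of
dimension `mul (conj (σ⁻¹ τ))`.  Proof: `J = -i + 2i P`; `p = cp τ (σ(P))`, idempotent as `P` is and commutes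
with the projectors; rank = trace (`LinearMap.IsIdempotentElem`/`IsProj` trace) `= tr (e_τ σ(P)) =
σ(tr(e_{σ⁻¹τ} P)) = mul (σ⁻¹ τ)` (`trace_cp`, `act_e`, `trace_eP`); nullity by `finrank_W` and
`mul_add_mul`. -/
theorem cp_J (σ : ℂ ≃+* ℂ) (τ : K →+* ℂ) : ∃ p : Module.End ℂ (D.W τ), p * p = p ∧
    finrank ℂ (LinearMap.range p) = D.mul (tw σ.symm τ) ∧
    finrank ℂ (LinearMap.ker p) = D.mul (cj (tw σ.symm τ)) ∧
    D.cp τ (act σ (rc D.J)) = (-σ Complex.I) • (1 : Module.End ℂ (D.W τ)) + (2 * σ Complex.I) • p := by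
  have hcomm : act σ D.P * D.e τ = D.e τ * act σ D.P := by
    rw [BlkJ_act_e D σ τ, ← BlkJ_act_mul, ← BlkJ_act_mul, BlkJ_P_e]
  have hp : D.cp τ (act σ D.P) * D.cp τ (act σ D.P) = D.cp τ (act σ D.P) := by
    rw [← cp_mul D τ _ _ hcomm, ← BlkJ_act_mul, BlkJ_P_idem]
  have htr : LinearMap.trace ℂ (D.W τ) (D.cp τ (act σ D.P)) = (D.mul (tw σ.symm τ) : ℂ) := by
    rw [trace_cp, BlkJ_act_e D σ τ, ← BlkJ_act_mul, BlkJ_trace_act, trace_eP, map_natCast]
  have hr : finrank ℂ (LinearMap.range (D.cp τ (act σ D.P))) = D.mul (tw σ.symm τ) := by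
    have h2 := BlkJ_trace_idem _ hp
    rw [htr] at h2
    exact_mod_cast h2.symm
  refine ⟨D.cp τ (act σ D.P), hp, hr, ?_, ?_⟩
  · have h3 := LinearMap.finrank_range_add_finrank_ker (D.cp τ (act σ D.P))
    have h4 := finrank_W D τ
    have h5 := mul_add_mul D τ (tw σ.symm τ)
    omega
  · rw [BlkJ_rcJ_eq, BlkJ_act_add, BlkJ_act_smul, BlkJ_act_smul, BlkJ_act_one, map_add, map_smul,
      map_smul, cp_one, map_neg, map_mul, map_ofNat]

end Pool.MP43e44c.PE
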