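import Pool.Agent.H.MP_43e44c_ag.PE.Tor
import Pool.Agent.H.MP_43e44c_ag.PE.AutC
import Pool.Agent.H.MP_43e44c_ag.Gen

/-!
Converse, arithmetic part: degenerate multiplicities give an integral relation, and a unitary element of `K`
on which the corresponding character is nontrivial.
-/

set_option autoImplicit false

open NumberField Module Finset

namespace Pool.MP43e44c.PE

variable {K : Type*} [Field K] [NumberField K]

/-- Elements of the Galois group of the Galois closure extend to automorphisms of `ℂ`. -/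
theorem conv_ext (g : GG K) : ∃ σ : ℂ ≃+* ℂ, ∀ φ : K →+* ℂ, tw σ φ = g • φ := by
  have : NumberField (GC K) := ⟨⟩
  obtain ⟨σ, hσ⟩ := exists_aut (K := GC K) ((GC K).val : GC K →+* ℂ)
    (((GC K).val : GC K →+* ℂ).comp (g : GC K →+* GC K))
  refine ⟨σ, fun φ => ?_⟩
  ext x
  rw [smul_apply]
  exact RingHom.congr_fun hσ (lft φ x)

section Relation

/-- The standard bilinear form on rational functions. -/
noncomputable def convB (K : Type*) [Field K] [NumberField K] :
    LinearMap.BilinForm ℚ ((K →+* ℂ) → ℚ) :=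
  LinearMap.mk₂ ℚ (fun u v => ∑ τ, u τ * v τ)
    (fun u u' v => by simp [add_mul, Finset.sum_add_distrib])
    (fun c u v => by simp [Finset.mul_sum, mul_assoc])
    (fun u v v' => by simp [mul_add, Finset.sum_add_distrib])
    (fun c u v => by simp [Finset.mul_sum, mul_left_comm])

theorem convB_apply (u v : (K →+* ℂ) → ℚ) : convB K u v = ∑ τ, u τ * v τ := rfl

theorem convB_compl (U : Submodule ℚ ((K →+* ℂ) → ℚ)) : IsCompl U ((convB K).orthogonal U) := by
  have hr : (convB K).IsRefl := fun u v h => by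
    rw [convB_apply] at h ⊢
    rw [← h]
    exact Finset.sum_congr rfl fun τ _ => mul_comm _ _
  rw [LinearMap.BilinForm.isCompl_orthogonal_iff_disjoint hr, Submodule.disjoint_def]
  intro u hu hu'
  rw [LinearMap.BilinForm.mem_orthogonal_iff] at hu'
  have h1 : convB K u u = 0 := hu' u hu
  rw [convB_apply, Finset.sum_eq_zero_iff_of_nonneg (fun τ _ => mul_self_nonneg _)] at h1
  funext τ
  exact mul_self_eq_zero.1 (h1 τ (mem_univ _))

/-- The translates as rational functions. -/
def convF (mlt : (K →+* ℂ) → ℕ) (σ : ℂ ≃+* ℂ) (τ : K →+* ℂ) : ℚ :=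
  (mlt (tw σ τ) : ℚ) - (mlt (cj (tw σ τ)) : ℚ)

theorem convF_odd [IsCMField K] (mlt : (K →+* ℂ) → ℕ) (σ : ℂ ≃+* ℂ) (τ : K →+* ℂ) :
    convF mlt σ (cj τ) = - convF mlt σ τ := by
  unfold convF
  rw [tw_cj, cj_cj]
  ring

/-- Degenerate multiplicities have an integral relation. -/
theorem conv_w [IsCMField K] (mlt : (K →+* ℂ) → ℕ) (hnd : ¬ NondegMult mlt) :
    ∃ w : (K →+* ℂ) → ℤ, w ≠ 0 ∧ (∀ τ, w (cj τ) = - w τ) ∧
      ∀ σ : ℂ ≃+* ℂ, ∑ τ, (w τ : ℚ) * convF mlt σ τ = 0 := by
  classical
  by_contra hcon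
  push Not at hcon
  apply hnd
  set U : Submodule ℚ ((K →+* ℂ) → ℚ) := Submodule.span ℚ (Set.range (convF mlt)) with hU
  -- rational odd functions are in `U`
  have key : ∀ z : (K →+* ℂ) → ℚ, (∀ τ, z (cj τ) = - z τ) → z ∈ U := by
    intro z hz
    have hodd : ∀ u ∈ U, ∀ τ, u (cj τ) = - u τ := by
      intro u hu
      rw [hU] at hu
      induction hu using Submodule.span_induction with
      | mem x hx =>
        obtain ⟨σ, rfl⟩ := hx
        exact convF_odd mlt σ
      | zero => intro τ; simp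
      | add x y _ _ hx hy =>
        intro τ
        rw [Pi.add_apply, Pi.add_apply, hx, hy]
        ring
      | smul c x _ hx =>
        intro τ
        rw [Pi.smul_apply, Pi.smul_apply, hx, smul_neg]
    have hc := convB_compl (K := K) U
    have hz2 : z ∈ U ⊔ (convB K).orthogonal U := by
      rw [hc.sup_eq_top]
      trivial
    obtain ⟨u, hu, u', hu', huz⟩ := Submodule.mem_sup.1 hz2
    have hu'o : ∀ τ, u' (cj τ) = - u' τ := by
      intro τ
      have h1 := hz τ
      have h2 := hodd u hu τ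
      rw [← huz, Pi.add_apply, Pi.add_apply, h2] at h1
      linarith
    have hu'0 : u' = 0 := by
      by_contra hne
      obtain ⟨d, hd⟩ := IsLocalization.exist_integer_multiples_of_finite (nonZeroDivisors ℤ) u'
      choose w hw using hd
      have hd0 : ((d : ℤ) : ℚ) ≠ 0 := by
        exact_mod_cast nonZeroDivisors.ne_zero d.2
      have hw' : ∀ τ, (w τ : ℚ) = ((d : ℤ) : ℚ) * u' τ := by
        intro τ
        have := hw τ
        rw [zsmul_eq_mul] at this
        exact this
      obtain ⟨σ, hσ⟩ := hcon w (by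
        intro h
        apply hne
        funext τ
        have h1 := hw' τ
        rw [h] at h1
        simp only [Pi.zero_apply, Int.cast_zero] at h1
        exact (mul_eq_zero.1 h1.symm).resolve_left hd0) (by
        intro τ
        have h1 := hw' (cj τ)
        have h2 := hw' τ
        rw [hu'o, mul_neg, ← h2] at h1
        exact_mod_cast h1)
      apply hσ
      rw [LinearMap.BilinForm.mem_orthogonal_iff] at hu'
      have h3 : convB K (convF mlt σ) u' = 0 := hu' _ (Submodule.subset_span ⟨σ, rfl⟩)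
      rw [convB_apply] at h3
      calc ∑ τ, (w τ : ℚ) * convF mlt σ τ = ((d : ℤ) : ℚ) * ∑ τ, convF mlt σ τ * u' τ := by
            rw [Finset.mul_sum]
            refine Finset.sum_congr rfl fun τ _ => ?_
            rw [hw' τ]
            ring
        _ = 0 := by rw [h3, mul_zero]
    rw [← huz, hu'0, add_zero]
    exact hu
  -- complex odd functions
  intro z hz
  have hcast : ∀ u ∈ U, (fun τ => ((u τ : ℚ) : ℂ)) ∈ Submodule.span ℂ
      (Set.range fun (σ : ℂ ≃+* ℂ) (τ : K →+* ℂ) =>
      (mlt ((σ : ℂ →+* ℂ).comp τ) : ℂ) - (mlt (ComplexEmbedding.conjugate ((σ : ℂ →+* ℂ).comp τ)) : ℂ)) := by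
    intro u hu
    rw [hU] at hu
    induction hu using Submodule.span_induction with
    | mem x hx =>
      obtain ⟨σ, rfl⟩ := hx
      refine Submodule.subset_span ⟨σ, ?_⟩
      funext τ
      unfold convF
      push_cast
      rfl
    | zero =>
      have e : (fun τ => (((0 : (K →+* ℂ) → ℚ) τ : ℚ) : ℂ)) = 0 := by
        funext τ
        simp
      rw [e]
      exact Submodule.zero_mem _
    | add x y _ _ hx hy =>
      have e : (fun τ => (((x + y) τ : ℚ) : ℂ)) = (fun τ => ((x τ : ℚ) : ℂ)) + fun τ => ((y τ : ℚ) : ℂ) := by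
        funext τ
        simp
      rw [e]
      exact Submodule.add_mem _ hx hy
    | smul c x _ hx =>
      have e : (fun τ => (((c • x) τ : ℚ) : ℂ)) = (c : ℂ) • fun τ => ((x τ : ℚ) : ℂ) := by
        funext τ
        simp
      rw [e]
      exact Submodule.smul_mem _ (c : ℂ) hx
  set δ : (K →+* ℂ) → (K →+* ℂ) → ℚ := fun t τ => if τ = t then 1 else 0 with hδ
  have hz3 : z = ∑ t, (z t / 2) • (fun τ => (((δ t τ - δ (cj t) τ : ℚ)) : ℂ)) := by
    funext τ
    rw [Finset.sum_apply]
    simp only [Pi.smul_apply, smul_eq_mul, Rat.cast_sub, mul_sub, Finset.sum_sub_distrib]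
    have h1 : ∑ t, z t / 2 * ((δ t τ : ℚ) : ℂ) = z τ / 2 := by
      rw [Finset.sum_eq_single τ]
      · simp [hδ]
      · intro t _ ht
        simp only [hδ]
        rw [if_neg ht.symm]
        simp
      · intro h
        exact absurd (mem_univ τ) h
    have h2 : ∑ t, z t / 2 * ((δ (cj t) τ : ℚ) : ℂ) = z (cj τ) / 2 := by
      rw [Finset.sum_eq_single (cj τ)]
      · rw [cj_cj]
        simp [hδ]
      · intro t _ ht
        simp only [hδ]
        rw [if_neg]
        · simp
        · intro h
          apply ht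
          rw [h, cj_cj]
      · intro h
        exact absurd (mem_univ _) h
    rw [h1, h2, hz τ]
    ring
  rw [hz3]
  refine Submodule.sum_mem _ fun t _ => Submodule.smul_mem _ _ ?_
  refine hcast (fun τ => δ t τ - δ (cj t) τ) (key _ ?_)
  intro τ
  have h1 : δ t (cj τ) = δ (cj t) τ := by
    simp only [hδ]
    congr 1
    apply propext
    constructor
    · intro h
      rw [← h, cj_cj]
    · intro h
      rw [h, cj_cj]
  have h2 : δ (cj t) (cj τ) = δ t τ := by
    simp only [hδ]
    congr 1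
    apply propext
    constructor
    · intro h
      rw [← cj_cj τ, h, cj_cj]
    · intro h
      rw [h]
  show δ t (cj τ) - δ (cj t) (cj τ) = -(δ t τ - δ (cj t) τ)
  rw [h1, h2]
  ring

end Relation

section Character

/-- A nontrivial character is nontrivial on some element. -/
theorem conv_a (w : (K →+* ℂ) → ℤ) (hw : w ≠ 0) : ∃ a : K, a ≠ 0 ∧ ∏ τ : K →+* ℂ, (τ a) ^ (w τ) ≠ 1 := by
  classical
  by_contra hcon
  push Not at hcon
  set pb := Field.powerBasisOfFiniteOfSeparable ℚ K with hpb
  set α := pb.gen with hα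
  have hinj : ∀ τ t : K →+* ℂ, τ α = t α → τ = t := by
    intro τ t h
    have h1 : τ.toRatAlgHom = t.toRatAlgHom := pb.algHom_ext h
    ext x
    exact AlgHom.congr_fun h1 x
  set P : Polynomial ℂ := ∏ τ : K →+* ℂ, (Polynomial.X + Polynomial.C (τ α)) ^ (w τ).toNat with hP
  set Q : Polynomial ℂ := ∏ τ : K →+* ℂ, (Polynomial.X + Polynomial.C (τ α)) ^ (-w τ).toNat with hQ
  have hPe : ∀ z, P.eval z = ∏ τ : K →+* ℂ, (z + τ α) ^ (w τ).toNat := by
    intro z
    rw [hP, Polynomial.eval_prod]
    simp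
  have hQe : ∀ z, Q.eval z = ∏ τ : K →+* ℂ, (z + τ α) ^ (-w τ).toNat := by
    intro z
    rw [hQ, Polynomial.eval_prod]
    simp
  have hpow : ∀ (x : ℂ) (n : ℤ), x ≠ 0 → x ^ n * x ^ (-n).toNat = x ^ n.toNat := by
    intro x n hx
    rw [← zpow_natCast x (-n).toNat, ← zpow_natCast x n.toNat, ← zpow_add₀ hx]
    congr 1
    omega
  have hPQ : P = Q := by
    apply Polynomial.eq_of_infinite_eval_eq
    have h1 : (Set.range fun n : ℕ => (n : ℂ)) \ {z | ∃ τ : K →+* ℂ, z = -(τ α)} ⊆
        {x | Polynomial.eval x P = Polynomial.eval x Q} := by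
      rintro _ ⟨⟨n, rfl⟩, hn⟩
      have hne : (n : K) + α ≠ 0 := by
        intro h
        obtain ⟨τ⟩ : Nonempty (K →+* ℂ) := inferInstance
        apply hn
        refine ⟨τ, ?_⟩
        have h2 := congrArg τ h
        rw [map_add, map_natCast, map_zero] at h2
        exact eq_neg_of_add_eq_zero_left h2
      have h2 := hcon _ hne
      have h3 : ∀ τ : K →+* ℂ, τ ((n : K) + α) = (n : ℂ) + τ α := by
        intro τ
        rw [map_add, map_natCast]
      simp only [h3] at h2
      show Polynomial.eval (n : ℂ) P = Polynomial.eval (n : ℂ) Q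
      rw [hPe, hQe]
      have h4 : ∀ τ : K →+* ℂ, (n : ℂ) + τ α ≠ 0 := by
        intro τ h
        exact hn ⟨τ, eq_neg_of_add_eq_zero_left h⟩
      calc ∏ τ : K →+* ℂ, ((n : ℂ) + τ α) ^ (w τ).toNat
          = (∏ τ : K →+* ℂ, ((n : ℂ) + τ α) ^ (w τ)) * ∏ τ : K →+* ℂ, ((n : ℂ) + τ α) ^ (-w τ).toNat := by
            rw [← Finset.prod_mul_distrib]
            exact Finset.prod_congr rfl fun τ _ => (hpow _ _ (h4 τ)).symm
        _ = _ := by rw [h2, one_mul]
    refine Set.Infinite.mono h1 ?_
    refine Set.Infinite.sdiff ?_ ?_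
    · exact Set.infinite_range_of_injective Nat.cast_injective
    · refine (Set.finite_range fun τ : K →+* ℂ => -(τ α)).subset ?_
      rintro _ ⟨τ, rfl⟩
      exact ⟨τ, rfl⟩
  obtain ⟨τ₀, hτ₀⟩ := Function.ne_iff.1 hw
  rw [Pi.zero_apply] at hτ₀
  have hne : ∀ τ : K →+* ℂ, τ ≠ τ₀ → -(τ₀ α) + τ α ≠ 0 := by
    intro τ h h'
    exact h (hinj _ _ (by linear_combination h'))
  have hev := congrArg (Polynomial.eval (-(τ₀ α))) hPQ
  rw [hPe, hQe] at hev
  rcases lt_or_gt_of_ne hτ₀ with h | h
  · have hQ0 : ∏ τ : K →+* ℂ, (-(τ₀ α) + τ α) ^ (-w τ).toNat = 0 := by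
      apply Finset.prod_eq_zero (mem_univ τ₀)
      rw [neg_add_cancel]
      apply zero_pow
      omega
    rw [hQ0] at hev
    refine Finset.prod_ne_zero_iff.2 (fun τ _ => ?_) hev
    by_cases ht : τ = τ₀
    · rw [ht]
      have : (w τ₀).toNat = 0 := by omega
      rw [this, pow_zero]
      exact one_ne_zero
    · exact pow_ne_zero _ (hne τ ht)
  · have hP0 : ∏ τ : K →+* ℂ, (-(τ₀ α) + τ α) ^ (w τ).toNat = 0 := by
      apply Finset.prod_eq_zero (mem_univ τ₀)
      rw [neg_add_cancel]
      apply zero_pow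
      omega
    rw [hP0] at hev
    refine Finset.prod_ne_zero_iff.2 (fun τ _ => ?_) hev.symm
    by_cases ht : τ = τ₀
    · rw [ht]
      have : (-w τ₀).toNat = 0 := by omega
      rw [this, pow_zero]
      exact one_ne_zero
    · exact pow_ne_zero _ (hne τ ht)

end Character

end Pool.MP43e44c.PE
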