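import Pool.Agent.H.MP_43e44c_ag.PE.ConvA

/-!
Converse, arithmetic part: a list of embeddings and a unitary element.
-/

set_option autoImplicit false

open NumberField Module Finset

namespace Pool.MP43e44c.PE

variable {K : Type*} [Field K] [NumberField K] [IsCMField K]

/-- Degenerate multiplicities: a list of embeddings all of whose translates are balanced, and a unitary
element on which the product of the list is not a root of unity of order dividing `N`. -/
theorem conv_list (mlt : (K →+* ℂ) → ℕ) (hnd : ¬ NondegMult mlt) (N : ℕ) (hN : N ≠ 0) :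
    ∃ (k : ℕ) (t : Fin k → (K →+* ℂ)) (y : K), y * IsCMField.complexConj K y = 1 ∧
      (∏ j, t j y) ^ N ≠ 1 ∧ ∀ σ : ℂ ≃+* ℂ, ∑ j, convF mlt σ (t j) = 0 := by
  classical
  obtain ⟨w, hw, hodd, hrel⟩ := conv_w mlt hnd
  obtain ⟨a, ha, haw⟩ := conv_a (fun τ => (N : ℤ) * w τ) (by
    intro h
    apply hw
    funext τ
    have h1 := congrFun h τ
    simp only [Pi.zero_apply, mul_eq_zero, Nat.cast_eq_zero] at h1
    exact h1.resolve_left hN)
  -- the list
  let I := Σ τ : K →+* ℂ, Fin (w τ).toNat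
  let e : I ≃ Fin (Fintype.card I) := Fintype.equivFin I
  have hsum : ∀ f : (K →+* ℂ) → ℚ, ∑ j, f (e.symm j).1 = ∑ τ, (w τ).toNat * f τ := by
    intro f
    rw [Equiv.sum_comp e.symm fun x : I => f x.1, Fintype.sum_sigma]
    refine Finset.sum_congr rfl fun τ _ => ?_
    show ∑ _y : Fin (w τ).toNat, f τ = _
    rw [Finset.sum_const, Finset.card_univ, Fintype.card_fin, nsmul_eq_mul]
  have hprod : ∀ f : (K →+* ℂ) → ℂ, ∏ j, f (e.symm j).1 = ∏ τ, f τ ^ (w τ).toNat := by
    intro f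
    rw [Equiv.prod_comp e.symm fun x : I => f x.1, Fintype.prod_sigma]
    refine Finset.prod_congr rfl fun τ _ => ?_
    show ∏ _y : Fin (w τ).toNat, f τ = _
    rw [Finset.prod_const, Finset.card_univ, Fintype.card_fin]
  have hconj : ∀ τ : K →+* ℂ, τ (IsCMField.complexConj K a) = cj τ a := fun τ =>
    IsCMField.complexEmbedding_complexConj K τ a
  have hca : IsCMField.complexConj K a ≠ 0 := by
    intro h
    exact ha (by simpa using h)
  let ecj : (K →+* ℂ) ≃ (K →+* ℂ) := ⟨cj, cj, cj_cj, cj_cj⟩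
  refine ⟨Fintype.card I, fun j => (e.symm j).1, a / IsCMField.complexConj K a, ?_, ?_, ?_⟩
  · rw [map_div₀, IsCMField.complexConj_apply_apply]
    field_simp
  · have h0 : ∀ τ : K →+* ℂ, τ a ≠ 0 := fun τ h => ha (by simpa using h)
    have h1 : ∏ j, (e.symm j).1 (a / IsCMField.complexConj K a) = ∏ τ : K →+* ℂ, (τ a) ^ (w τ) := by
      rw [hprod fun τ => τ (a / IsCMField.complexConj K a)]
      have h2 : ∀ τ : K →+* ℂ, τ (a / IsCMField.complexConj K a) ^ (w τ).toNat =
          τ a ^ (((w τ).toNat : ℕ) : ℤ) * (cj τ a ^ (((w τ).toNat : ℕ) : ℤ))⁻¹ := by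
        intro τ
        rw [map_div₀, hconj, div_pow, zpow_natCast, zpow_natCast, div_eq_mul_inv]
      rw [Finset.prod_congr rfl fun τ _ => h2 τ, Finset.prod_mul_distrib]
      have h3 : ∏ τ : K →+* ℂ, (cj τ a ^ (((w τ).toNat : ℕ) : ℤ))⁻¹ =
          ∏ τ : K →+* ℂ, (τ a ^ (((w (cj τ)).toNat : ℕ) : ℤ))⁻¹ := by
        rw [← Equiv.prod_comp ecj]
        refine Finset.prod_congr rfl fun τ _ => ?_
        show (cj (cj τ) a ^ (((w (cj τ)).toNat : ℕ) : ℤ))⁻¹ = _
        rw [cj_cj]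
      rw [h3, ← Finset.prod_mul_distrib]
      refine Finset.prod_congr rfl fun τ _ => ?_
      rw [← zpow_neg, ← zpow_add₀ (h0 τ)]
      congr 1
      rw [hodd]
      omega
    rw [h1, ← Finset.prod_pow]
    intro h2
    apply haw
    rw [← h2]
    refine Finset.prod_congr rfl fun τ _ => ?_
    rw [mul_comm, zpow_mul, zpow_natCast]
  · intro σ
    rw [hsum fun τ => convF mlt σ τ]
    have h1 := hrel σ
    have h2 : ∀ τ : K →+* ℂ, (w τ : ℚ) = (((w τ).toNat : ℕ) : ℚ) - (((w (cj τ)).toNat : ℕ) : ℚ) := by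
      intro τ
      have h3 : (w τ : ℤ) = (((w τ).toNat : ℕ) : ℤ) - (((w (cj τ)).toNat : ℕ) : ℤ) := by
        rw [hodd]
        omega
      exact_mod_cast h3
    have h4 : ∑ τ : K →+* ℂ, (((w (cj τ)).toNat : ℕ) : ℚ) * convF mlt σ τ =
        - ∑ τ : K →+* ℂ, (((w τ).toNat : ℕ) : ℚ) * convF mlt σ τ := by
      rw [← Equiv.sum_comp ecj, ← Finset.sum_neg_distrib]
      refine Finset.sum_congr rfl fun τ _ => ?_
      show (((w (cj (cj τ))).toNat : ℕ) : ℚ) * convF mlt σ (cj τ) = _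
      rw [cj_cj, convF_odd]
      ring
    have h5 : ∑ τ : K →+* ℂ, (w τ : ℚ) * convF mlt σ τ =
        ∑ τ : K →+* ℂ, (((w τ).toNat : ℕ) : ℚ) * convF mlt σ τ -
        ∑ τ : K →+* ℂ, (((w (cj τ)).toNat : ℕ) : ℚ) * convF mlt σ τ := by
      rw [← Finset.sum_sub_distrib]
      refine Finset.sum_congr rfl fun τ _ => ?_
      rw [h2 τ]
      ring
    rw [h5, h4] at h1
    linarith

end Pool.MP43e44c.PE
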