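import Pool.Agent.H.MP_43e44c_ag.PE.Sig

/-!
Converse: coordinates of the rational homology over `K`, and determinants of rotations on the eigenspaces.
-/

set_option autoImplicit false

open NumberField Module Matrix

namespace Pool.MP43e44c.PE

variable {m : ℕ} {K : Type*} [Field K] [NumberField K] [IsCMField K]

/-- Coordinates of `ℚ^m` over `K`: a basis `w` and the dual coordinates `γ`. -/
structure Coo (D : Dat K m) (n : ℕ) where
  w : Fin n → Fin m → ℚ
  γ : Fin n → Fin m → K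
  dual : ∀ a b, ∑ i, γ a i * (w b i : K) = if a = b then 1 else 0
  lin : ∀ a y j, ∑ i, γ a i * (D.ρ y i j : K) = y * γ a j
  exp : ∀ i j, ∑ b, (D.ρ (γ b j) *ᵥ w b) i = if i = j then 1 else 0

theorem exists_coo (D : Dat K m) : ∃ n, Nonempty (Coo D n) := by
  classical
  -- the module structure
  let f : K →+* Module.End ℚ (Fin m → ℚ) := (Matrix.toLinAlgEquiv' (R := ℚ) (n := Fin m)).toRingEquiv.toRingHom.comp D.ρ
  let _ : Module K (Fin m → ℚ) := Module.compHom (Fin m → ℚ) f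
  have hsm : ∀ (y : K) (v : Fin m → ℚ), y • v = D.ρ y *ᵥ v := fun y v => rfl
  have : IsScalarTower ℚ K (Fin m → ℚ) := ⟨fun q y v => by
    rw [hsm, hsm]
    have h : D.ρ (q • y) = q • D.ρ y := map_rat_smul D.ρ q y
    rw [h, smul_mulVec]⟩
  have : Module.Finite K (Fin m → ℚ) := Module.Finite.of_restrictScalars_finite ℚ K (Fin m → ℚ)
  set n := finrank K (Fin m → ℚ) with hn
  let bs : Basis (Fin n) K (Fin m → ℚ) := Module.finBasis K (Fin m → ℚ)
  have hcoord : ∀ a (v : Fin m → ℚ), bs.repr v a = ∑ i, bs.repr (Pi.single i 1) a * (v i : K) := by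
    intro a v
    have h1 : v = ∑ i, v i • (Pi.single i (1 : ℚ) : Fin m → ℚ) := by
      funext j
      rw [Finset.sum_apply, Finset.sum_eq_single j]
      · simp
      · intro i _ hi
        rw [Pi.smul_apply, Pi.single_eq_of_ne hi.symm, smul_zero]
      · intro h
        exact absurd (Finset.mem_univ j) h
    conv_lhs => rw [h1]
    rw [map_sum, Finsupp.finsetSum_apply]
    refine Finset.sum_congr rfl fun i _ => ?_
    have h2 : v i • (Pi.single i (1 : ℚ) : Fin m → ℚ) = (v i : K) • (Pi.single i (1 : ℚ) : Fin m → ℚ) := by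
      rw [← algebraMap_smul K (v i) (Pi.single i (1 : ℚ) : Fin m → ℚ)]
      simp
    rw [h2, map_smul, Finsupp.smul_apply, smul_eq_mul, mul_comm]
  refine ⟨n, ⟨⟨fun b => bs b, fun a i => bs.repr (Pi.single i 1) a, ?_, ?_, ?_⟩⟩⟩
  · intro a b
    rw [← hcoord, bs.repr_self, Finsupp.single_apply]
    simp only [eq_comm]
  · intro a y j
    have h1 := hcoord a (y • (Pi.single j (1 : ℚ) : Fin m → ℚ))
    rw [map_smul, Finsupp.smul_apply, smul_eq_mul] at h1
    rw [h1]
    refine Finset.sum_congr rfl fun i _ => ?_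
    rw [hsm, mulVec_single_one]
    rfl
  · intro i j
    have h1 := congrFun (bs.sum_repr (Pi.single j (1 : ℚ) : Fin m → ℚ)) i
    rw [Finset.sum_apply] at h1
    rw [← Pi.single_apply, ← h1]
    refine Finset.sum_congr rfl fun b _ => ?_
    rfl

namespace Coo

variable {D : Dat K m} {n : ℕ} (C : Coo D n)

/-- The coordinates of the `τ`-eigenspace. -/
def Γ (τ : K →+* ℂ) : Matrix (Fin n) (Fin m) ℂ := Matrix.of fun a i => τ (C.γ a i)

/-- The basis vectors as a matrix. -/
def W : Matrix (Fin m) (Fin n) ℂ := Matrix.of fun i b => (C.w b i : ℂ)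

theorem Γ_W (τ : K →+* ℂ) : C.Γ τ * C.W = 1 := by
  ext a b
  rw [Matrix.mul_apply, Matrix.one_apply]
  have h := congrArg τ (C.dual a b)
  rw [map_sum] at h
  have e : ∑ i, C.Γ τ a i * C.W i b = ∑ i, τ (C.γ a i * (C.w b i : K)) := by
    refine Finset.sum_congr rfl fun i _ => ?_
    rw [map_mul, map_ratCast]
    rfl
  rw [e, h]
  split_ifs <;> simp

theorem Γ_ρ (τ : K →+* ℂ) (y : K) : C.Γ τ * qc (D.ρ y) = τ y • C.Γ τ := by
  ext a j
  rw [Matrix.mul_apply, Matrix.smul_apply, smul_eq_mul]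
  have h := congrArg τ (C.lin a y j)
  rw [map_sum, map_mul] at h
  show _ = τ y * τ (C.γ a j)
  rw [← h]
  refine Finset.sum_congr rfl fun i _ => ?_
  rw [map_mul, map_ratCast]
  rfl

theorem Γ_e (τ : K →+* ℂ) : C.Γ τ * D.e τ = C.Γ τ := by
  classical
  unfold Dat.e
  rw [Matrix.mul_sum]
  have h : ∀ j, C.Γ τ * (τ ((Algebra.traceForm ℚ K).dualBasis (traceForm_nondegenerate ℚ K)
      (Module.finBasis ℚ K) j) • qc (D.ρ (Module.finBasis ℚ K j))) =
      (τ ((Algebra.traceForm ℚ K).dualBasis (traceForm_nondegenerate ℚ K)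
      (Module.finBasis ℚ K) j) * τ (Module.finBasis ℚ K j)) • C.Γ τ := by
    intro j
    rw [Matrix.mul_smul, C.Γ_ρ, smul_smul]
  rw [Finset.sum_congr rfl fun j _ => h j, ← Finset.sum_smul, dual_emb, if_pos rfl, one_smul]

theorem e_W_Γ (τ : K →+* ℂ) : D.e τ * C.W * C.Γ τ = D.e τ := by
  have h1 : D.e τ * C.W * C.Γ τ = D.e τ * 1 := by
    have h2 : ∀ j, (D.e τ * C.W * C.Γ τ) *ᵥ Pi.single j 1 = (D.e τ * 1) *ᵥ Pi.single j 1 := by
      intro j
      have h3 : (1 : Mat m ℂ) *ᵥ Pi.single j 1 =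
          ∑ b, qc (D.ρ (C.γ b j)) *ᵥ fun i => (C.w b i : ℂ) := by
        funext i
        rw [one_mulVec, Finset.sum_apply, Pi.single_apply]
        have h4 := congrArg (fun q : ℚ => (q : ℂ)) (C.exp i j)
        have h5 : ((∑ b, (D.ρ (C.γ b j) *ᵥ C.w b) i : ℚ) : ℂ) =
            ∑ b, (qc (D.ρ (C.γ b j)) *ᵥ fun i => (C.w b i : ℂ)) i := by
          push_cast
          refine Finset.sum_congr rfl fun b _ => ?_
          simp only [mulVec, dotProduct]
          push_cast
          rfl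
        rw [← h5]
        rw [h4]
        split_ifs <;> simp
      rw [← mulVec_mulVec, ← mulVec_mulVec (Pi.single j 1) (D.e τ) 1, h3, mulVec_sum]
      have h6 : ∀ b, D.e τ *ᵥ (qc (D.ρ (C.γ b j)) *ᵥ fun i => (C.w b i : ℂ)) =
          τ (C.γ b j) • D.e τ *ᵥ fun i => (C.w b i : ℂ) := by
        intro b
        rw [mulVec_mulVec, e_ρ, smul_mulVec]
      rw [Finset.sum_congr rfl fun b _ => h6 b]
      have h7 : C.Γ τ *ᵥ Pi.single j 1 = fun b => τ (C.γ b j) := by
        funext b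
        rw [mulVec_single_one]
        rfl
      rw [h7, ← mulVec_mulVec]
      have h8 : C.W *ᵥ (fun b => τ (C.γ b j)) = ∑ b, τ (C.γ b j) • fun i => (C.w b i : ℂ) := by
        funext i
        rw [Finset.sum_apply]
        simp only [mulVec, dotProduct, Pi.smul_apply, smul_eq_mul]
        exact Finset.sum_congr rfl fun b _ => mul_comm _ _
      rw [h8, mulVec_sum]
      exact Finset.sum_congr rfl fun b _ => mulVec_smul _ _ _
    ext i j
    have h3 := congrFun (h2 j) i
    rwa [mulVec_single_one, mulVec_single_one] at h3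
  rw [h1, mul_one]

/-- Matrices commuting with the projector descend to the coordinates. -/
theorem Γ_comm (τ : K →+* ℂ) {X : Mat m ℂ} (hX : X * D.e τ = D.e τ * X) :
    C.Γ τ * X * C.W * C.Γ τ = C.Γ τ * X := by
  calc C.Γ τ * X * C.W * C.Γ τ = C.Γ τ * D.e τ * X * C.W * C.Γ τ := by rw [C.Γ_e]
    _ = C.Γ τ * (D.e τ * X) * C.W * C.Γ τ := by rw [Matrix.mul_assoc (C.Γ τ) (D.e τ) X]
    _ = C.Γ τ * (X * D.e τ) * C.W * C.Γ τ := by rw [hX]
    _ = C.Γ τ * X * (D.e τ * C.W * C.Γ τ) := by simp only [Matrix.mul_assoc]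
    _ = C.Γ τ * X * D.e τ := by rw [C.e_W_Γ]
    _ = C.Γ τ * D.e τ * X := by rw [Matrix.mul_assoc, hX, ← Matrix.mul_assoc]
    _ = C.Γ τ * X := by rw [C.Γ_e]

theorem trace_comm (τ : K →+* ℂ) {X : Mat m ℂ} (hX : X * D.e τ = D.e τ * X) :
    (C.Γ τ * X * C.W).trace = (D.e τ * X).trace := by
  calc (C.Γ τ * X * C.W).trace = (C.Γ τ * D.e τ * X * C.W).trace := by rw [C.Γ_e]
    _ = (C.Γ τ * (X * D.e τ) * C.W).trace := by rw [Matrix.mul_assoc (C.Γ τ) (D.e τ) X, hX]
    _ = (C.Γ τ * (X * (D.e τ * C.W))).trace := by simp only [Matrix.mul_assoc]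
    _ = (X * (D.e τ * C.W) * C.Γ τ).trace := Matrix.trace_mul_comm _ _
    _ = (X * D.e τ).trace := by rw [Matrix.mul_assoc, C.e_W_Γ]
    _ = (D.e τ * X).trace := Matrix.trace_mul_comm _ _

include C in
/-- The number of coordinates. -/
theorem card (τ : K →+* ℂ) : n = D.mul τ + D.mul (cj τ) := by
  have h := C.trace_comm τ (X := 1) (by rw [one_mul, mul_one])
  rw [Matrix.mul_one, C.Γ_W, Matrix.mul_one, trace_e, Matrix.trace_one, Fintype.card_fin] at h
  exact_mod_cast h

end Coo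

end Pool.MP43e44c.PE
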