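import Pool.Agent.H.MP_43e44c_ag.PE.ConvB

/-!
Converse: determinants of rotations on the eigenspaces.
-/

set_option autoImplicit false

open NumberField Module Matrix

namespace Pool.MP43e44c.PE

/-- The determinant of `a P + b (1 - P)` for an idempotent `P` of trace `r`. -/
theorem conv_det_idem {n r s : ℕ} (P : Matrix (Fin n) (Fin n) ℂ) (hP : P * P = P) (ht : P.trace = r)
    (hs : n = r + s) (a b : ℂ) : (a • P + b • (1 - P)).det = a ^ r * b ^ s := by
  set f : Module.End ℂ (Fin n → ℂ) := toLin' P with hf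
  have hidem : IsIdempotentElem f := by
    show f * f = f
    rw [hf]
    show (toLin' P) ∘ₗ (toLin' P) = toLin' P
    rw [← toLin'_mul, hP]
  have hproj : LinearMap.IsProj (LinearMap.range f) f := LinearMap.IsIdempotentElem.isProj_range f hidem
  have htr : (finrank ℂ (LinearMap.range f) : ℂ) = r := by
    rw [← hproj.trace, hf, Matrix.trace_toLin'_eq, ht]
  have hr : finrank ℂ (LinearMap.range f) = r := by exact_mod_cast htr
  have hk : finrank ℂ (LinearMap.ker f) = s := by
    have h1 := LinearMap.finrank_range_add_finrank_ker f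
    rw [finrank_fin_fun] at h1
    omega
  set e := (LinearMap.range f).prodEquivOfIsCompl (LinearMap.ker f) hproj.isCompl with he
  have h1 : toLin' (a • P + b • (1 - P)) = e.toLinearMap ∘ₗ
      LinearMap.prodMap (a • LinearMap.id) (b • LinearMap.id) ∘ₗ e.symm.toLinearMap := by
    rw [← LinearMap.comp_assoc, LinearEquiv.eq_comp_toLinearMap_symm]
    apply LinearMap.ext
    rintro ⟨x, y⟩
    have hx : f x = x := hproj.map_id x x.2
    have hy : f y = 0 := y.2
    have e1 : e (x, y) = (x : Fin n → ℂ) + y := rfl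
    have e2 : ∀ u, toLin' (a • P + b • (1 - P)) u = a • f u + b • (u - f u) := by
      intro u
      rw [hf]
      simp only [toLin'_apply, add_mulVec, smul_mulVec, sub_mulVec, one_mulVec]
    rw [LinearMap.comp_apply, LinearMap.comp_apply, LinearEquiv.coe_coe, e1, e2, map_add, hx, hy,
      add_zero, add_sub_cancel_left]
    show a • (x : Fin n → ℂ) + b • (y : Fin n → ℂ) = e ((a • x, b • y) : _ × _)
    rfl
  rw [← LinearMap.det_toLin', h1, LinearMap.det_conj, LinearMap.det_prodMap, LinearMap.det_smul,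
    LinearMap.det_smul, LinearMap.det_id, LinearMap.det_id, mul_one, mul_one, hr, hk]

variable {m : ℕ} {K : Type*} [Field K] [NumberField K] [IsCMField K] {D : Dat K m} {n : ℕ}

/-- Real rotations. -/
noncomputable def rot (D : Dat K m) (z : ℂ) : Mat m ℝ := z.re • 1 + z.im • D.J

theorem rot_rc (D : Dat K m) (z : ℂ) :
    rc (rot D z) = z • D.P + (starRingEnd ℂ z) • (1 - D.P) := by
  have h1 : rc (rot D z) = (z.re : ℂ) • (1 : Mat m ℂ) + (z.im : ℂ) • rc D.J := by
    ext i j
    have h2 : (1 : Mat m ℂ) i j = (((1 : Mat m ℝ) i j : ℝ) : ℂ) := by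
      by_cases h : i = j
      · subst h
        simp
      · simp [h]
    rw [Matrix.add_apply, Matrix.smul_apply, Matrix.smul_apply, h2]
    simp [rot]
  have h3 : z - starRingEnd ℂ z = 2 * (z.im : ℂ) * Complex.I := by
    rw [Complex.sub_conj]
    push_cast
    ring
  have h4 : z + starRingEnd ℂ z = 2 * (z.re : ℂ) := by
    rw [Complex.add_conj]
    push_cast
    ring
  rw [h1]
  unfold Dat.P
  have e1 : z • ((1 / 2 : ℂ) • (1 - Complex.I • rc D.J)) +
      (starRingEnd ℂ z) • (1 - (1 / 2 : ℂ) • (1 - Complex.I • rc D.J)) =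
      ((z + starRingEnd ℂ z) / 2) • (1 : Mat m ℂ) +
      (-(z - starRingEnd ℂ z) / 2 * Complex.I) • rc D.J := by
    module
  rw [e1, h3, h4]
  congr 1
  · congr 1
    ring
  · congr 1
    have : Complex.I * Complex.I = -1 := Complex.I_mul_I
    linear_combination (z.im : ℂ) * this

theorem P_idem (D : Dat K m) : D.P * D.P = D.P := by
  have h := Sig_J_sq D
  unfold Dat.P
  rw [smul_mul_assoc, mul_smul_comm, sub_mul, mul_sub, mul_sub, one_mul, mul_one, one_mul,
    smul_mul_assoc, mul_smul_comm, h]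
  have h2 : Complex.I • Complex.I • (-1 : Mat m ℂ) = 1 := by
    rw [smul_smul, Complex.I_mul_I]
    module
  rw [h2]
  module

namespace Coo

variable (C : Coo D n)

/-- The determinant of a rotation on the `τ`-eigenspace. -/
theorem det_rot (τ : K →+* ℂ) (z : ℂ) :
    (C.Γ τ * rc (rot D z) * C.W).det = z ^ D.mul τ * (starRingEnd ℂ z) ^ D.mul (cj τ) := by
  set P' := C.Γ τ * D.P * C.W with hP'
  have hPe : D.P * D.e τ = D.e τ * D.P := Sig_P_e D τ
  have hidem : P' * P' = P' := by
    have h1 : C.Γ τ * D.P * C.W * C.Γ τ = C.Γ τ * D.P := C.Γ_comm τ hPe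
    calc P' * P' = (C.Γ τ * D.P * C.W * C.Γ τ) * (D.P * C.W) := by
          rw [hP']
          simp only [Matrix.mul_assoc]
      _ = C.Γ τ * (D.P * D.P) * C.W := by
          rw [h1]
          simp only [Matrix.mul_assoc]
      _ = P' := by rw [P_idem]
  have htr : P'.trace = D.mul τ := by
    rw [hP', C.trace_comm τ hPe, trace_eP]
  have h2 : C.Γ τ * rc (rot D z) * C.W = z • P' + (starRingEnd ℂ z) • (1 - P') := by
    rw [rot_rc, Matrix.mul_add, Matrix.add_mul, Matrix.mul_smul, Matrix.smul_mul, Matrix.mul_smul,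
      Matrix.smul_mul, Matrix.mul_sub, Matrix.sub_mul, Matrix.mul_one, C.Γ_W]
  rw [h2]
  exact conv_det_idem P' hidem htr (C.card τ) _ _

theorem Γ_rot (τ : K →+* ℂ) (z : ℂ) :
    (C.Γ τ * rc (rot D z) * C.W) * C.Γ τ = C.Γ τ * rc (rot D z) := by
  apply C.Γ_comm τ
  rw [rot_rc, add_mul, mul_add, smul_mul_assoc, mul_smul_comm, smul_mul_assoc, mul_smul_comm,
    sub_mul, mul_sub, one_mul, mul_one, Sig_P_e]

end Coo

end Pool.MP43e44c.PE
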