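import Pool.Agent.H.MP_43e44c_ag.PE.ConvB2
import Pool.Agent.H.MP_43e44c_ag.PE.ConvA2
import Pool.Agent.H.MP_43e44c_ag.PE.Set3

/-!
Converse: the determinant forms.
-/

set_option autoImplicit false

open NumberField Module Matrix

namespace Pool.MP43e44c.PE

variable {E : Type*} [AddCommGroup E] [Module ℂ E] [Module ℝ E] [IsScalarTower ℝ ℂ E]
variable {m : ℕ} {K : Type*} [Field K] [NumberField K] [IsCMField K] {D : Dat K m} {n k : ℕ}

/-- Complex coordinates of a vector. -/
noncomputable def cvec (b : Basis (Fin m) ℝ E) (x : E) : Fin m → ℂ := fun i => ((b.repr x i : ℝ) : ℂ)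

/-- The linear forms. -/
noncomputable def cL (b : Basis (Fin m) ℝ E) (C : Coo D n) (t : Fin k → K →+* ℂ) (u : Fin k → E) :
    Fin n × Fin k → ℂ := fun s => (C.Γ (t s.2) *ᵥ cvec b (u s.2)) s.1

omit [Module ℂ E] [IsScalarTower ℝ ℂ E] in
theorem cL_add (b : Basis (Fin m) ℝ E) (C : Coo D n) (t : Fin k → K →+* ℂ) (u v : Fin k → E) :
    cL b C t (u + v) = cL b C t u + cL b C t v := by
  funext s
  have h : cvec b ((u + v) s.2) = cvec b (u s.2) + cvec b (v s.2) := by
    funext i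
    simp [cvec]
  rw [cL, h, mulVec_add]
  rfl

omit [Module ℂ E] [IsScalarTower ℝ ℂ E] in
theorem cL_smul (b : Basis (Fin m) ℝ E) (C : Coo D n) (t : Fin k → K →+* ℂ) (c : ℝ) (u : Fin k → E) :
    cL b C t (c • u) = (c : ℂ) • cL b C t u := by
  funext s
  have h : cvec b ((c • u) s.2) = (c : ℂ) • cvec b (u s.2) := by
    funext i
    simp [cvec]
  rw [cL, h, mulVec_smul]
  rfl

omit [Module ℂ E] [IsScalarTower ℝ ℂ E] in
theorem cM_update [DecidableEq (Fin n × Fin k)] (b : Basis (Fin m) ℝ E) (C : Coo D n)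
    (t : Fin k → K →+* ℂ) (v : Fin n × Fin k → Fin k → E) (s₀ : Fin n × Fin k) (x : Fin k → E) :
    (Matrix.of fun s' => cL b C t (Function.update v s₀ x s')) =
      (Matrix.of fun s' => cL b C t (v s')).updateRow s₀ (cL b C t x) := by
  ext s' s
  by_cases h : s' = s₀
  · subst h
    rw [Matrix.updateRow_self, Matrix.of_apply, Function.update_self]
  · rw [Matrix.updateRow_ne h, Matrix.of_apply, Matrix.of_apply, Function.update_of_ne h]

/-- The determinant form of a list of embeddings. -/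
noncomputable def cM (b : Basis (Fin m) ℝ E) (C : Coo D n) (t : Fin k → K →+* ℂ) :
    (Fin k → E) [⋀^Fin n × Fin k]→ₗ[ℝ] ℂ where
  toFun v := (Matrix.of fun s' => cL b C t (v s')).det
  map_update_add' := by
    intro inst v s₀ x y
    obtain rfl : inst = instDecidableEqProd := Subsingleton.elim _ _
    rw [cM_update, cM_update, cM_update, cL_add, det_updateRow_add]
  map_update_smul' := by
    intro inst v s₀ c x
    obtain rfl : inst = instDecidableEqProd := Subsingleton.elim _ _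
    rw [cM_update, cM_update, cL_smul, det_updateRow_smul]
    rfl
  map_eq_zero_of_eq' v i j h hij := by
    apply det_zero_of_row_eq hij
    funext s
    rw [Matrix.of_apply, Matrix.of_apply, h]

omit [Module ℂ E] [IsScalarTower ℝ ℂ E] in
theorem cM_apply (b : Basis (Fin m) ℝ E) (C : Coo D n) (t : Fin k → K →+* ℂ)
    (v : Fin n × Fin k → Fin k → E) : cM b C t v = (Matrix.of fun s' => cL b C t (v s')).det := rfl

theorem cvec_smul {b : Basis (Fin m) ℝ E} {ψ : E →ₗ[ℝ] E →ₗ[ℝ] ℝ} {ι : K →+* Module.End ℂ E}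
    (hD : Repr b ψ ι D) (z : ℂ) (x : E) : cvec b (z • x) = rc (rot D z) *ᵥ cvec b x := by
  have h1 : b.equivFun (z • x) = rot D z *ᵥ b.equivFun x := by
    apply b.equivFun.symm.injective
    rw [LinearEquiv.symm_apply_apply]
    have h2 := hD.J (b.equivFun x)
    rw [LinearEquiv.symm_apply_apply] at h2
    unfold rot
    rw [add_mulVec, smul_mulVec, smul_mulVec, one_mulVec, map_add, map_smul, map_smul, h2,
      LinearEquiv.symm_apply_apply, ← Set3_smul]
  funext i
  have h3 := congrFun (Set3_rc_co (rot D z) (b.equivFun x)) i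
  have h4 : cvec b x = fun i => ((b.equivFun x i : ℝ) : ℂ) := rfl
  rw [h4, h3, ← h1]
  rfl

omit [IsScalarTower ℝ ℂ E] in
theorem cvec_ι {b : Basis (Fin m) ℝ E} {ψ : E →ₗ[ℝ] E →ₗ[ℝ] ℝ} {ι : K →+* Module.End ℂ E}
    (hD : Repr b ψ ι D) (y : K) (x : E) : cvec b (ι y x) = qc (D.ρ y) *ᵥ cvec b x := by
  have h1 : b.equivFun (ι y x) = qr (D.ρ y) *ᵥ b.equivFun x := by
    apply b.equivFun.symm.injective
    rw [LinearEquiv.symm_apply_apply, hD.ρ, LinearEquiv.symm_apply_apply]
  funext i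
  have h3 := congrFun (Set3_qc_co (D.ρ y) (b.equivFun x)) i
  have h4 : cvec b x = fun i => ((b.equivFun x i : ℝ) : ℂ) := rfl
  rw [h4, h3, ← h1]
  rfl

/-- Rotations. -/
theorem cM_rot {b : Basis (Fin m) ℝ E} {ψ : E →ₗ[ℝ] E →ₗ[ℝ] ℝ} {ι : K →+* Module.End ℂ E}
    (hD : Repr b ψ ι D) (C : Coo D n) (t : Fin k → K →+* ℂ)
    (ht : ∑ j, D.mul (t j) = ∑ j, D.mul (cj (t j))) (z : ℂ) (hz : ‖z‖ = 1)
    (v : Fin n × Fin k → Fin k → E) :
    cM b C t (fun s => z • v s) = cM b C t v := by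
  set Z : Matrix (Fin n × Fin k) (Fin n × Fin k) ℂ :=
    blockDiagonal fun j => C.Γ (t j) * rc (rot D z) * C.W with hZ
  have h1 : (Matrix.of fun s' => cL b C t (z • v s')) = (Matrix.of fun s' => cL b C t (v s')) * Zᵀ := by
    ext s' s
    rw [Matrix.mul_apply, Matrix.of_apply]
    have h2 : cL b C t (z • v s') s =
        ((C.Γ (t s.2) * rc (rot D z) * C.W) *ᵥ (C.Γ (t s.2) *ᵥ cvec b (v s' s.2))) s.1 := by
      rw [mulVec_mulVec, C.Γ_rot, ← mulVec_mulVec, ← cvec_smul hD]
      rfl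
    rw [h2, Fintype.sum_prod_type]
    simp only [mulVec, dotProduct]
    refine Finset.sum_congr rfl fun a _ => ?_
    rw [Finset.sum_eq_single s.2]
    · rw [Matrix.of_apply, transpose_apply, hZ]
      have h3 : s = (s.1, s.2) := rfl
      conv_rhs => rw [h3]
      rw [blockDiagonal_apply_eq, mul_comm]
      rfl
    · intro j _ hj
      rw [transpose_apply, hZ]
      have h3 : s = (s.1, s.2) := rfl
      conv_lhs => rw [h3]
      rw [blockDiagonal_apply_ne _ _ _ hj.symm, mul_zero]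
    · intro h
      exact absurd (Finset.mem_univ _) h
  rw [cM_apply, cM_apply, h1, det_mul, det_transpose, hZ, det_blockDiagonal]
  have h4 : ∏ j, (C.Γ (t j) * rc (rot D z) * C.W).det = 1 := by
    rw [Finset.prod_congr rfl fun j _ => C.det_rot (t j) z, Finset.prod_mul_distrib,
      Finset.prod_pow_eq_pow_sum, Finset.prod_pow_eq_pow_sum, ← ht, ← mul_pow, Complex.mul_conj,
      Complex.normSq_eq_norm_sq, hz]
    simp
  rw [h4, mul_one]

/-- The action of `K`. -/
theorem cM_ι {b : Basis (Fin m) ℝ E} {ψ : E →ₗ[ℝ] E →ₗ[ℝ] ℝ} {ι : K →+* Module.End ℂ E}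
    (hD : Repr b ψ ι D) (C : Coo D n) (t : Fin k → K →+* ℂ) (y : K)
    (v : Fin n × Fin k → Fin k → E) :
    cM b C t (fun s j => ι y (v s j)) = (∏ j, t j y) ^ n * cM b C t v := by
  have h1 : (Matrix.of fun s' => cL b C t (fun j => ι y (v s' j))) =
      Matrix.of fun s' s => t s.2 y * (Matrix.of fun s' => cL b C t (v s')) s' s := by
    ext s' s
    rw [Matrix.of_apply, Matrix.of_apply, Matrix.of_apply]
    show (C.Γ (t s.2) *ᵥ cvec b (ι y (v s' s.2))) s.1 = t s.2 y * (C.Γ (t s.2) *ᵥ cvec b (v s' s.2)) s.1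
    rw [cvec_ι hD, mulVec_mulVec, C.Γ_ρ, smul_mulVec]
    rfl
  rw [cM_apply, cM_apply, h1, det_mul_row, Fintype.prod_prod_type]
  congr 1
  show ∏ _x : Fin n, ∏ j, t j y = _
  rw [Finset.prod_const, Finset.card_univ, Fintype.card_fin]

omit [Module ℂ E] [IsScalarTower ℝ ℂ E] in
/-- The special vectors. -/
theorem cM_special (b : Basis (Fin m) ℝ E) (C : Coo D n) (t : Fin k → K →+* ℂ) :
    cM b C t (fun s => Pi.single s.2 (b.equivFun.symm fun i => (C.w s.1 i : ℝ))) = 1 := by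
  have h1 : (Matrix.of fun s' : Fin n × Fin k => cL b C t
      (Pi.single s'.2 (b.equivFun.symm fun i => (C.w s'.1 i : ℝ)))) = 1 := by
    ext s' s
    rw [Matrix.of_apply, Matrix.one_apply]
    unfold cL
    by_cases h : s'.2 = s.2
    · rw [← h, Pi.single_eq_same]
      have h2 : cvec b (b.equivFun.symm fun i => (C.w s'.1 i : ℝ)) = fun i => C.W i s'.1 := by
        funext i
        have h3 : b.repr (b.equivFun.symm fun i => (C.w s'.1 i : ℝ)) i = (C.w s'.1 i : ℝ) :=
          congrFun (b.equivFun.apply_symm_apply fun i => (C.w s'.1 i : ℝ)) i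
        rw [cvec, h3]
        show (((C.w s'.1 i : ℚ) : ℝ) : ℂ) = ((C.w s'.1 i : ℚ) : ℂ)
        norm_cast
      rw [h2]
      have h4 := congrFun (congrFun (C.Γ_W (t s'.2)) s.1) s'.1
      rw [Matrix.mul_apply, Matrix.one_apply] at h4
      show ∑ i, C.Γ (t s'.2) s.1 i * C.W i s'.1 = _
      rw [h4]
      congr 1
      apply propext
      constructor
      · intro h5
        exact Prod.ext h5.symm h
      · intro h5
        rw [h5]
    · rw [Pi.single_eq_of_ne (Ne.symm h), if_neg (fun h5 => h (by rw [h5]))]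
      have h2 : cvec b 0 = 0 := by
        funext i
        simp [cvec]
      rw [h2, mulVec_zero]
      rfl
  rw [cM_apply, h1, det_one]

omit [Module ℂ E] [IsScalarTower ℝ ℂ E] in
/-- Rational vectors. -/
theorem cM_rat (b : Basis (Fin m) ℝ E) (C : Coo D n) (t : Fin k → K →+* ℂ)
    (v : Fin n × Fin k → Fin k → E) (q : Fin n × Fin k → Fin k → Fin m → ℚ)
    (hq : ∀ s j i, b.repr (v s j) i = (q s j i : ℝ)) : ∃ Q : GC K, ∀ g : GG K,
    cM b C (fun j => g • t j) v = ((g Q : GC K) : ℂ) := by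
  refine ⟨(Matrix.of fun s' s : Fin n × Fin k =>
    lft (t s.2) (∑ i, C.γ s.1 i * (q s' s.2 i : K))).det, fun g => ?_⟩
  rw [cM_apply]
  have h1 : (g ((Matrix.of fun s' s : Fin n × Fin k =>
      lft (t s.2) (∑ i, C.γ s.1 i * (q s' s.2 i : K))).det) : GC K) =
      ((Matrix.of fun s' s : Fin n × Fin k =>
      g (lft (t s.2) (∑ i, C.γ s.1 i * (q s' s.2 i : K)))).det) := by
    have := RingHom.map_det (g : GC K →+* GC K) (Matrix.of fun s' s : Fin n × Fin k =>
      lft (t s.2) (∑ i, C.γ s.1 i * (q s' s.2 i : K)))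
    exact this
  rw [h1]
  have h2 := RingHom.map_det (algebraMap (GC K) ℂ) (Matrix.of fun s' s : Fin n × Fin k =>
      g (lft (t s.2) (∑ i, C.γ s.1 i * (q s' s.2 i : K))))
  refine Eq.trans ?_ h2.symm
  congr 1
  ext s' s
  rw [Matrix.of_apply]
  show (C.Γ (g • t s.2) *ᵥ cvec b (v s' s.2)) s.1 = ((g (lft (t s.2) (∑ i, C.γ s.1 i * (q s' s.2 i : K))) : GC K) : ℂ)
  rw [← smul_apply, map_sum]
  show ∑ i, (g • t s.2) (C.γ s.1 i) * cvec b (v s' s.2) i = _
  refine Finset.sum_congr rfl fun i _ => ?_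
  rw [map_mul, map_ratCast, cvec, hq]
  norm_cast

end Pool.MP43e44c.PE
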