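import Pool.Agent.H.MP_43e44c_ag.PE.CopE

/-!
# PE/Cop: the coprime lemma for a space with a positive definite Hermitian form (helper66)

`g` is a subspace of `End W`, closed under commutators and under adjoints with respect to a positive
definite Hermitian form, irreducible, and contains `α + β e`, `β ≠ 0`, `e` an orthogonal projection
whose rank and corank are coprime.  Then `g` contains all maps of trace zero.
-/

namespace Pool.MP43e44c.PE

open Module

/-- **Serre's coprime lemma.** -/
theorem coprime_sl {W : Type*} [AddCommGroup W] [Module ℂ W] [FiniteDimensional ℂ W]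
    (c : InnerProductSpace.Core ℂ W) (g : Submodule ℂ (Module.End ℂ W))
    (hg : ∀ x ∈ g, ∀ y ∈ g, x * y - y * x ∈ g)
    (hadj : ∀ x ∈ g, ∃ y ∈ g, ∀ u v, c.inner (x u) v = c.inner u (y v))
    (hirr : ∀ U : Submodule ℂ W, (∀ x ∈ g, ∀ u ∈ U, x u ∈ U) → U = ⊥ ∨ U = ⊤)
    (e : Module.End ℂ W) (he : e * e = e) (hes : ∀ u v, c.inner (e u) v = c.inner u (e v))
    (hc : Nat.Coprime (Module.finrank ℂ (LinearMap.range e)) (Module.finrank ℂ (LinearMap.ker e)))
    (α β : ℂ) (hβ : β ≠ 0) (hx : α • (1 : Module.End ℂ W) + β • e ∈ g)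
    (A : Module.End ℂ W) (hA : LinearMap.trace ℂ W A = 0) : A ∈ g := by
  let _ : NormedAddCommGroup W := c.toNormedAddCommGroup
  let _ : InnerProductSpace ℂ W := InnerProductSpace.ofCore c.toCore
  refine cop_main g hg ?_ hirr e he ?_ hc α β hβ hx A hA
  · intro x hx
    obtain ⟨y, hy, hxy⟩ := hadj x hx
    have h1 : y = star x := by
      rw [LinearMap.star_eq_adjoint, LinearMap.eq_adjoint_iff]
      intro a b
      rw [← inner_conj_symm (y a) b, ← inner_conj_symm a (x b)]
      exact congrArg _ (hxy b a).symm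
    rw [← h1]
    exact hy
  · rw [LinearMap.star_eq_adjoint]
    symm
    rw [LinearMap.eq_adjoint_iff]
    intro a b
    exact hes a b

end Pool.MP43e44c.PE
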