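import Mathlib

/-!
# PE/CopA: linear algebra for the coprime lemma (helper66)

W is a finite dimensional complex inner product space.  Positivity of the trace form, rank drop,
and the two idempotent corners of a bracket closed space containing an idempotent.
-/

namespace Pool.MP43e44c.PE

open Module

section RankDrop

variable {W : Type*} [AddCommGroup W] [Module ℂ W] [FiniteDimensional ℂ W]

/-- If `T` kills a nonzero vector of `S`, the image of `S` is smaller. -/
theorem cop_finrank_map_lt (S : Submodule ℂ W) (T : Module.End ℂ W) (v : W) (hv : v ∈ S)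
    (hv0 : v ≠ 0) (hT : T v = 0) : finrank ℂ (S.map T) < finrank ℂ S := by
  have h1 : S.map T = LinearMap.range (T.domRestrict S) := by
    ext x
    simp [Submodule.mem_map, LinearMap.mem_range]
  have h2 := LinearMap.finrank_range_add_finrank_ker (T.domRestrict S)
  have h3 : 0 < finrank ℂ (LinearMap.ker (T.domRestrict S)) := by
    rw [Module.finrank_pos_iff]
    refine ⟨⟨⟨⟨v, hv⟩, ?_⟩, 0, ?_⟩⟩
    · simp [LinearMap.mem_ker, hT]
    · intro h
      have := congrArg (fun z => ((z : LinearMap.ker (T.domRestrict S)) : S).1) h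
      exact hv0 (by simpa using this)
  rw [h1]
  omega

/-- Trace of an idempotent. -/
theorem cop_trace_idem (p : Module.End ℂ W) (hp : p * p = p) :
    LinearMap.trace ℂ W p = (finrank ℂ (LinearMap.range p) : ℂ) := by
  have h : LinearMap.IsProj (LinearMap.range p) p :=
    (LinearMap.isProj_range_iff_isIdempotentElem p).2 hp
  exact h.trace

theorem cop_trace_comm (a b : Module.End ℂ W) :
    LinearMap.trace ℂ W (a * b) = LinearMap.trace ℂ W (b * a) :=
  LinearMap.trace_mul_comm ℂ a b

end RankDrop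

section Corner

variable {W : Type*} [AddCommGroup W] [Module ℂ W]

/-- The corners of an element of a bracket closed space which contains the idempotent `e`. -/
theorem cop_corner (g : Submodule ℂ (Module.End ℂ W))
    (hbr : ∀ x ∈ g, ∀ y ∈ g, x * y - y * x ∈ g) (e : Module.End ℂ W) (he : e * e = e)
    (heg : e ∈ g) (x : Module.End ℂ W) (hx : x ∈ g) :
    e * x * (1 - e) ∈ g ∧ (1 - e) * x * e ∈ g ∧ e * x * e + (1 - e) * x * (1 - e) ∈ g := by
  have h1 := hbr e heg x hx
  have h2 := hbr e heg _ h1
  have hee : ∀ z : Module.End ℂ W, e * (e * z) = e * z := fun z => by rw [← mul_assoc, he]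
  have h3 : e * x * (1 - e) = (1/2 : ℂ) • ((e * x - x * e) + (e * (e * x - x * e) - (e * x - x * e) * e)) := by
    simp only [mul_sub, sub_mul, mul_one, mul_assoc, he, hee]
    module
  have h4 : (1 - e) * x * e = (1/2 : ℂ) • ((e * (e * x - x * e) - (e * x - x * e) * e) - (e * x - x * e)) := by
    simp only [mul_sub, sub_mul, one_mul, mul_assoc, he, hee]
    module
  have h5 : e * x * (1 - e) ∈ g := by
    rw [h3]; exact g.smul_mem _ (g.add_mem h1 h2)
  have h6 : (1 - e) * x * e ∈ g := by
    rw [h4]; exact g.smul_mem _ (g.sub_mem h2 h1)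
  refine ⟨h5, h6, ?_⟩
  have h7 : e * x * e + (1 - e) * x * (1 - e) = x - e * x * (1 - e) - (1 - e) * x * e := by
    simp only [mul_sub, sub_mul, one_mul, mul_one, mul_assoc]
    abel
  rw [h7]
  exact g.sub_mem (g.sub_mem hx h5) h6

/-- **Schur for the corner**: if `z` commutes with all elements of `g` which commute with `e`, then
`z` acts on the range of `e` as a scalar. -/
theorem cop_schur [FiniteDimensional ℂ W] (g : Submodule ℂ (Module.End ℂ W))
    (hbr : ∀ x ∈ g, ∀ y ∈ g, x * y - y * x ∈ g)
    (hirr : ∀ U : Submodule ℂ W, (∀ x ∈ g, ∀ w ∈ U, x w ∈ U) → U = ⊥ ∨ U = ⊤)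
    (e : Module.End ℂ W) (he : e * e = e) (heg : e ∈ g) (he0 : e ≠ 0)
    (z : Module.End ℂ W) (hz : ∀ y ∈ g, e * y = y * e → z * y = y * z) :
    ∃ ν : ℂ, z * e = ν • e := by
  have hze : z * e = e * z := hz e heg rfl
  have heew : ∀ w, e (e w) = e w := fun w => congrArg (fun f : Module.End ℂ W => f w) he
  have hzew : ∀ w, z (e w) = e (z w) := fun w => congrArg (fun f : Module.End ℂ W => f w) hze
  -- an eigenvector of z in the range of e
  obtain ⟨ν, v, hv0, hev, hzv⟩ : ∃ ν : ℂ, ∃ v : W, v ≠ 0 ∧ e v = v ∧ z v = ν • v := by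
    have hstab : ∀ w ∈ LinearMap.range e, z w ∈ LinearMap.range e := by
      rintro w ⟨w', rfl⟩
      exact ⟨z w', (hzew w').symm⟩
    have hnt : Nontrivial (LinearMap.range e) := by
      rw [Submodule.nontrivial_iff_ne_bot]
      intro h
      exact he0 (LinearMap.range_eq_bot.1 h)
    obtain ⟨ν, hν⟩ := Module.End.exists_eigenvalue (z.restrict hstab)
    obtain ⟨v, hv⟩ := hν.exists_hasEigenvector
    refine ⟨ν, v.1, ?_, ?_, ?_⟩
    · intro h
      exact hv.2 (Subtype.ext h)
    · obtain ⟨w', hw'⟩ := v.2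
      rw [← hw', heew]
    · have := congrArg Subtype.val hv.apply_eq_smul
      simpa using this
  refine ⟨ν, ?_⟩
  -- the stable subspace
  have hU : ∀ y ∈ g, e * y = y * e → ∀ w, e w = w → z w = ν • w → e (y w) = y w ∧ z (y w) = ν • y w := by
    intro y hy hye w hw hzw
    have h1 : e (y w) = y (e w) := congrArg (fun f : Module.End ℂ W => f w) hye
    have h2 : z (y w) = y (z w) := congrArg (fun f : Module.End ℂ W => f w) (hz y hy hye)
    rw [h1, h2, hw, hzw, map_smul]
    exact ⟨rfl, rfl⟩
  let U : Submodule ℂ W :=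
    { carrier := {w | e w = w ∧ z w = ν • w}
      add_mem' := by
        rintro a b ⟨h1, h2⟩ ⟨h3, h4⟩
        exact ⟨by rw [map_add, h1, h3], by rw [map_add, h2, h4, smul_add]⟩
      zero_mem' := by simp
      smul_mem' := by
        rintro c a ⟨h1, h2⟩
        exact ⟨by rw [map_smul, h1], by rw [map_smul, h2, smul_comm]⟩ }
  have hUmem : ∀ w, w ∈ U ↔ (e w = w ∧ z w = ν • w) := fun w => Iff.rfl
  let S : Submodule ℂ W :=
    { carrier := {w | e w ∈ U ∧ ∀ x ∈ g, e * x = x → x * e = 0 → x w ∈ U}
      add_mem' := by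
        rintro a b ⟨h1, h2⟩ ⟨h3, h4⟩
        refine ⟨by rw [map_add]; exact U.add_mem h1 h3, fun x hx h5 h6 => ?_⟩
        rw [map_add]; exact U.add_mem (h2 x hx h5 h6) (h4 x hx h5 h6)
      zero_mem' := by
        refine ⟨by rw [map_zero]; exact U.zero_mem, fun x _ _ _ => by rw [map_zero]; exact U.zero_mem⟩
      smul_mem' := by
        rintro c a ⟨h1, h2⟩
        refine ⟨by rw [map_smul]; exact U.smul_mem c h1, fun x hx h5 h6 => ?_⟩
        rw [map_smul]; exact U.smul_mem c (h2 x hx h5 h6) }
  have hSmem : ∀ w, w ∈ S ↔ (e w ∈ U ∧ ∀ x ∈ g, e * x = x → x * e = 0 → x w ∈ U) := fun w => Iff.rfl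
  have hstab : ∀ x ∈ g, ∀ w ∈ S, x w ∈ S := by
    intro x hx w hw
    obtain ⟨hw1, hw2⟩ := (hSmem w).1 hw
    obtain ⟨h1, h2, h3⟩ := cop_corner g hbr e he heg x hx
    have hee : ∀ z : Module.End ℂ W, e * (e * z) = e * z := fun z => by rw [← mul_assoc, he]
    have hx0e : e * (e * x * e + (1 - e) * x * (1 - e)) = (e * x * e + (1 - e) * x * (1 - e)) * e := by
      simp only [mul_sub, sub_mul, mul_add, add_mul, one_mul, mul_one, mul_assoc, he, hee]
      abel
    have hx1a : e * (e * x * (1 - e)) = e * x * (1 - e) := by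
      simp only [mul_sub, sub_mul, mul_one, mul_assoc, hee]
    have hx1b : (e * x * (1 - e)) * e = 0 := by
      simp only [mul_sub, sub_mul, mul_one, mul_assoc, he]
      abel
    rw [hSmem]
    constructor
    · have h4 : e (x w) = (e * x * e + (1 - e) * x * (1 - e)) (e w) + (e * x * (1 - e)) w := by
        have : e * x = (e * x * e + (1 - e) * x * (1 - e)) * e + (e * x * (1 - e)) := by
          simp only [mul_sub, sub_mul, mul_add, add_mul, one_mul, mul_one, mul_assoc, he, hee]
          abel
        exact congrArg (fun f : Module.End ℂ W => f w) this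
      rw [h4]
      refine U.add_mem ?_ (hw2 _ h1 hx1a hx1b)
      exact (hUmem _).2 (hU _ h3 hx0e _ ((hUmem _).1 hw1).1 ((hUmem _).1 hw1).2)
    · intro c hc hc1 hc2
      have hc1' : ∀ y : Module.End ℂ W, e * (c * y) = c * y := fun y => by rw [← mul_assoc, hc1]
      have hc2' : ∀ y : Module.End ℂ W, c * (e * y) = 0 := fun y => by rw [← mul_assoc, hc2, zero_mul]
      -- the three parts
      set x0 := e * x * e + (1 - e) * x * (1 - e) with hx0
      set xm := (1 - e) * x * e with hxm
      have hcx0 : c * x0 - x0 * c ∈ g := hbr c hc x0 h3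
      have hcx0a : e * (c * x0 - x0 * c) = c * x0 - x0 * c := by
        rw [mul_sub, hc1', ← mul_assoc e x0 c, hx0e, mul_assoc, hc1]
      have hcx0b : (c * x0 - x0 * c) * e = 0 := by
        rw [sub_mul, mul_assoc, ← hx0e, hc2', mul_assoc, hc2, mul_zero, sub_zero]
      have hcxm : c * xm - xm * c ∈ g := hbr c hc xm h2
      have hexm : e * xm = 0 := by
        rw [hxm]; simp only [mul_sub, sub_mul, one_mul, mul_assoc, hee]; abel
      have hxme : xm * e = xm := by
        rw [hxm]; simp only [mul_assoc, he]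
      have hcxme : e * (c * xm - xm * c) = (c * xm - xm * c) * e := by
        rw [mul_sub, hc1', ← mul_assoc e xm c, hexm, zero_mul, sub_mul, mul_assoc, hxme, mul_assoc,
          hc2, mul_zero]
      have hcx : c * x = x0 * c + (c * x0 - x0 * c) + (c * xm - xm * c) * e := by
        have h8 : c * x = c * x0 + c * xm := by
          rw [hx0, hxm]
          simp only [mul_sub, sub_mul, mul_add, one_mul, mul_one, mul_assoc, hc2']
          abel
        have h9 : (c * xm - xm * c) * e = c * xm := by
          rw [sub_mul, mul_assoc, hxme, mul_assoc, hc2, mul_zero, sub_zero]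
        rw [h8, h9]
        abel
      have h10 : c (x w) = x0 (c w) + (c * x0 - x0 * c) w + (c * xm - xm * c) (e w) :=
        congrArg (fun f : Module.End ℂ W => f w) hcx
      rw [h10]
      have hcw := (hUmem _).1 (hw2 c hc hc1 hc2)
      refine U.add_mem (U.add_mem ?_ (hw2 _ hcx0 hcx0a hcx0b)) ?_
      · exact (hUmem _).2 (hU _ h3 hx0e _ hcw.1 hcw.2)
      · exact (hUmem _).2 (hU _ hcxm hcxme _ ((hUmem _).1 hw1).1 ((hUmem _).1 hw1).2)
  have hvS : v ∈ S := by
    rw [hSmem]
    refine ⟨by rw [hev]; exact (hUmem v).2 ⟨hev, hzv⟩, fun x _ _ hx2 => ?_⟩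
    have : x v = (x * e) v := by
      change x v = x (e v)
      rw [hev]
    rw [this, hx2]
    exact U.zero_mem
  have hStop : S = ⊤ := by
    rcases hirr S hstab with h | h
    · exfalso
      rw [h] at hvS
      exact hv0 ((Submodule.mem_bot ℂ).1 hvS)
    · exact h
  ext w
  have hw : w ∈ S := by rw [hStop]; trivial
  have := ((hUmem _).1 ((hSmem w).1 hw).1).2
  simpa using this

end Corner

section Pos

variable {W : Type*} [NormedAddCommGroup W] [InnerProductSpace ℂ W] [FiniteDimensional ℂ W]

/-- The trace of `x x*` is a nonnegative real, zero only for `x = 0`. -/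
theorem cop_pos (x : Module.End ℂ W) :
    ∃ s : ℝ, 0 ≤ s ∧ LinearMap.trace ℂ W (x * star x) = (s : ℂ) ∧ (s = 0 → x = 0) := by
  classical
  let b := stdOrthonormalBasis ℂ W
  refine ⟨∑ i, ‖(star x) (b i)‖ ^ 2, ?_, ?_, ?_⟩
  · exact Finset.sum_nonneg fun i _ => by positivity
  · rw [LinearMap.trace_eq_sum_inner _ b]
    push_cast
    refine Finset.sum_congr rfl fun i _ => ?_
    rw [Module.End.mul_apply]
    have h1 : inner ℂ (b i) (x ((star x) (b i))) = inner ℂ ((star x) (b i)) ((star x) (b i)) := by
      rw [LinearMap.star_eq_adjoint, LinearMap.adjoint_inner_left]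
    rw [h1, inner_self_eq_norm_sq_to_K]
    rfl
  · intro h
    have h1 : ∀ i, (star x) (b i) = 0 := by
      intro i
      have := (Finset.sum_eq_zero_iff_of_nonneg (fun i _ => by positivity)).1 h i (Finset.mem_univ i)
      have h2 : ‖(star x) (b i)‖ = 0 := by
        exact pow_eq_zero_iff (two_ne_zero) |>.1 this
      exact norm_eq_zero.1 h2
    have h2 : star x = 0 := by
      apply b.toBasis.ext
      intro i
      simpa using h1 i
    have := congrArg star h2
    simpa using this

theorem cop_pos_zero (x : Module.End ℂ W) (h : LinearMap.trace ℂ W (x * star x) = 0) : x = 0 := by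
  obtain ⟨s, _, h2, h3⟩ := cop_pos x
  rw [h] at h2
  exact h3 (by exact_mod_cast h2.symm)

theorem cop_pos_zero2 (x y : Module.End ℂ W)
    (h : LinearMap.trace ℂ W (x * star x) + LinearMap.trace ℂ W (y * star y) = 0) :
    x = 0 ∧ y = 0 := by
  obtain ⟨s, hs, h2, h3⟩ := cop_pos x
  obtain ⟨t, ht, h4, h5⟩ := cop_pos y
  rw [h2, h4] at h
  have h6 : s + t = 0 := by exact_mod_cast h
  exact ⟨h3 (by linarith), h5 (by linarith)⟩

end Pos

end Pool.MP43e44c.PE
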