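import Pool.Agent.H.MP_43e44c_ag.PE.CopA

/-!
# PE/CopB: the minimal tripotent (helper66)

`g` is a subspace of `End W`, closed under brackets and adjoints, and contains the orthogonal
projection `e`.  `copG1 g e` is the upper right corner `g ∩ Hom(ker e, range e)`.
-/

namespace Pool.MP43e44c.PE

open Module

variable {W : Type*} [NormedAddCommGroup W] [InnerProductSpace ℂ W] [FiniteDimensional ℂ W]

/-- The upper right corner of `g`. -/
def copG1 (g : Submodule ℂ (Module.End ℂ W)) (e : Module.End ℂ W) :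
    Submodule ℂ (Module.End ℂ W) where
  carrier := {x | x ∈ g ∧ e * x = x ∧ x * e = 0}
  add_mem' := by
    rintro a b ⟨h1, h2, h3⟩ ⟨h4, h5, h6⟩
    exact ⟨g.add_mem h1 h4, by rw [mul_add, h2, h5], by rw [add_mul, h3, h6, add_zero]⟩
  zero_mem' := ⟨g.zero_mem, by simp, by simp⟩
  smul_mem' := by
    rintro c a ⟨h1, h2, h3⟩
    exact ⟨g.smul_mem c h1, by rw [mul_smul_comm, h2], by rw [smul_mul_assoc, h3, smul_zero]⟩

theorem mem_copG1 {g : Submodule ℂ (Module.End ℂ W)} {e x : Module.End ℂ W} :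
    x ∈ copG1 g e ↔ (x ∈ g ∧ e * x = x ∧ x * e = 0) := Iff.rfl

/-- The triple product. -/
theorem cop_triple {g : Submodule ℂ (Module.End ℂ W)}
    (hbr : ∀ x ∈ g, ∀ y ∈ g, x * y - y * x ∈ g) (hst : ∀ x ∈ g, star x ∈ g)
    {e : Module.End ℂ W} {a b c : Module.End ℂ W}
    (ha : a ∈ copG1 g e) (hb : b ∈ copG1 g e) (hc : c ∈ copG1 g e) :
    a * star b * c + c * star b * a ∈ copG1 g e := by
  obtain ⟨ha1, ha2, ha3⟩ := mem_copG1.1 ha
  obtain ⟨hb1, hb2, hb3⟩ := mem_copG1.1 hb
  obtain ⟨hc1, hc2, hc3⟩ := mem_copG1.1 hc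
  have hac : a * c = 0 := by rw [← hc2, ← mul_assoc, ha3, zero_mul]
  have hca : c * a = 0 := by rw [← ha2, ← mul_assoc, hc3, zero_mul]
  have h1 := hbr _ (hbr a ha1 (star b) (hst b hb1)) c hc1
  have h2 : (a * star b - star b * a) * c - c * (a * star b - star b * a) =
      a * star b * c + c * star b * a := by
    have h3 : star b * a * c = 0 := by rw [mul_assoc, hac, mul_zero]
    have h4 : c * (a * star b) = 0 := by rw [← mul_assoc, hca, zero_mul]
    rw [sub_mul, mul_sub, h3, h4, ← mul_assoc c (star b) a]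
    abel
  rw [h2] at h1
  refine mem_copG1.2 ⟨h1, ?_, ?_⟩
  · rw [mul_add, ← mul_assoc, ← mul_assoc, ha2, ← mul_assoc, ← mul_assoc, hc2]
  · rw [add_mul, mul_assoc, hc3, mul_zero, mul_assoc, ha3, mul_zero, add_zero]

/-- The half triple product `a b* a`. -/
theorem cop_half {g : Submodule ℂ (Module.End ℂ W)}
    (hbr : ∀ x ∈ g, ∀ y ∈ g, x * y - y * x ∈ g) (hst : ∀ x ∈ g, star x ∈ g)
    {e : Module.End ℂ W} {a b : Module.End ℂ W}
    (ha : a ∈ copG1 g e) (hb : b ∈ copG1 g e) :
    a * star b * a ∈ copG1 g e := by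
  have h := (copG1 g e).smul_mem (1/2 : ℂ) (cop_triple hbr hst ha hb ha)
  have h2 : (1/2 : ℂ) • (a * star b * a + a * star b * a) = a * star b * a := by module
  rwa [h2] at h

theorem cop_G1_ne {g : Submodule ℂ (Module.End ℂ W)}
    (hbr : ∀ x ∈ g, ∀ y ∈ g, x * y - y * x ∈ g) (hst : ∀ x ∈ g, star x ∈ g)
    (hirr : ∀ U : Submodule ℂ W, (∀ x ∈ g, ∀ w ∈ U, x w ∈ U) → U = ⊥ ∨ U = ⊤)
    {e : Module.End ℂ W} (he : e * e = e) (hes : star e = e) (heg : e ∈ g)
    (he0 : e ≠ 0) (he1 : e ≠ 1) : ∃ a ∈ copG1 g e, a ≠ 0 := by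
  by_contra hcon
  push Not at hcon
  have hee : ∀ z : Module.End ℂ W, e * (e * z) = e * z := fun z => by rw [← mul_assoc, he]
  have h1 : ∀ x ∈ g, e * x * (1 - e) = 0 := by
    intro x hx
    refine hcon _ (mem_copG1.2 ⟨(cop_corner g hbr e he heg x hx).1, ?_, ?_⟩)
    · simp only [mul_sub, mul_one, mul_assoc, hee]
    · simp only [mul_sub, sub_mul, mul_one, mul_assoc, he]
      abel
  have h2 : ∀ x ∈ g, (1 - e) * x * e = 0 := by
    intro x hx
    have h3 := congrArg star (h1 _ (hst x hx))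
    simpa only [star_mul, star_sub, star_one, star_star, hes, star_zero, ← mul_assoc] using h3
  have hstab : ∀ x ∈ g, ∀ w ∈ LinearMap.range e, x w ∈ LinearMap.range e := by
    rintro x hx w ⟨w', rfl⟩
    have h3 : x * e = e * (x * e) := by
      have := h2 x hx
      rw [mul_assoc, sub_mul, one_mul, sub_eq_zero] at this
      exact this
    exact ⟨x (e w'), (congrArg (fun f : Module.End ℂ W => f w') h3).symm⟩
  rcases hirr _ hstab with h | h
  · exact he0 (LinearMap.range_eq_bot.1 h)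
  · apply he1
    ext w
    have hw : w ∈ LinearMap.range e := by rw [h]; trivial
    obtain ⟨w', rfl⟩ := hw
    exact congrArg (fun f : Module.End ℂ W => f w') he

/-- A nonzero element of `copG1 g e` of minimal rank can be rescaled to a tripotent. -/
theorem cop_tripotent {g : Submodule ℂ (Module.End ℂ W)}
    (hbr : ∀ x ∈ g, ∀ y ∈ g, x * y - y * x ∈ g) (hst : ∀ x ∈ g, star x ∈ g)
    {e : Module.End ℂ W} (hne : ∃ a ∈ copG1 g e, a ≠ 0) :
    ∃ u ∈ copG1 g e, u ≠ 0 ∧ u * star u * u = u ∧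
      ∀ y ∈ copG1 g e, y ≠ 0 → finrank ℂ (LinearMap.range u) ≤ finrank ℂ (LinearMap.range y) := by
  classical
  -- minimal rank
  have hex : ∃ k : ℕ, ∃ a ∈ copG1 g e, a ≠ 0 ∧ finrank ℂ (LinearMap.range a) = k := by
    obtain ⟨a, ha, ha0⟩ := hne
    exact ⟨_, a, ha, ha0, rfl⟩
  obtain ⟨a, ha, ha0, hak⟩ := Nat.find_spec hex
  have hmin : ∀ y ∈ copG1 g e, y ≠ 0 →
      finrank ℂ (LinearMap.range a) ≤ finrank ℂ (LinearMap.range y) := by
    intro y hy hy0
    rw [hak]
    exact Nat.find_min' hex ⟨y, hy, hy0, rfl⟩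
  -- an eigenvector of a a* in the range of a
  set A : Module.End ℂ W := a * star a with hA
  obtain ⟨lam, v, hv0, hvr, hAv⟩ : ∃ lam : ℂ, ∃ v : W, v ≠ 0 ∧ v ∈ LinearMap.range a ∧
      A v = lam • v := by
    have hstab : ∀ w ∈ LinearMap.range a, A w ∈ LinearMap.range a := by
      rintro w -
      exact ⟨(star a) w, rfl⟩
    have hnt : Nontrivial (LinearMap.range a) := by
      rw [Submodule.nontrivial_iff_ne_bot]
      intro h
      exact ha0 (LinearMap.range_eq_bot.1 h)
    obtain ⟨ν, hν⟩ := Module.End.exists_eigenvalue (A.restrict hstab)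
    obtain ⟨v, hv⟩ := hν.exists_hasEigenvector
    refine ⟨ν, v.1, ?_, v.2, ?_⟩
    · intro h
      exact hv.2 (Subtype.ext h)
    · have := congrArg Subtype.val hv.apply_eq_smul
      simpa using this
  have hbm : a * star a * a - lam • a ∈ copG1 g e :=
    (copG1 g e).sub_mem (cop_half hbr hst ha ha) ((copG1 g e).smul_mem lam ha)
  have hb0 : a * star a * a - lam • a = 0 := by
    by_contra hne0
    have h1 := hmin _ hbm hne0
    have h2 : LinearMap.range (a * star a * a - lam • a) =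
        (LinearMap.range a).map (A - lam • (1 : Module.End ℂ W)) := by
      rw [← LinearMap.range_comp]
      rfl
    have h3 := cop_finrank_map_lt (LinearMap.range a) (A - lam • (1 : Module.End ℂ W)) v hvr hv0
      (by simp [hAv])
    rw [← h2] at h3
    omega
  have haaa : a * star a * a = lam • a := sub_eq_zero.1 hb0
  -- lam is a positive real
  obtain ⟨s, hs0, hs, hsz⟩ := cop_pos (a * star a)
  obtain ⟨t, ht0, ht, htz⟩ := cop_pos a
  have hAA : (a * star a) * star (a * star a) = lam • (a * star a) := by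
    rw [star_mul, star_star, ← mul_assoc, haaa, smul_mul_assoc]
  have hlam : (s : ℂ) = lam * (t : ℂ) := by
    rw [← hs, hAA, map_smul, ht, smul_eq_mul]
  have ht1 : 0 < t := lt_of_le_of_ne ht0 fun h => ha0 (htz h.symm)
  have hs1 : 0 < s := by
    refine lt_of_le_of_ne hs0 fun h => ?_
    have h1 := hsz h.symm
    have h2 : LinearMap.trace ℂ W (a * star a) = 0 := by rw [h1, map_zero]
    exact ha0 (cop_pos_zero a h2)
  have hlam2 : lam = ((s / t : ℝ) : ℂ) := by
    have : (t : ℂ) ≠ 0 := by exact_mod_cast ht1.ne'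
    rw [Complex.ofReal_div, hlam]
    field_simp
  have hst' : 0 < s / t := div_pos hs1 ht1
  set q : ℝ := Real.sqrt (s / t) with hq
  have hq0 : 0 < q := Real.sqrt_pos.2 hst'
  have hqq : q * q = s / t := Real.mul_self_sqrt hst'.le
  have hqc : (q : ℂ) ≠ 0 := by exact_mod_cast hq0.ne'
  have hlamq : lam = (q : ℂ) * (q : ℂ) := by rw [hlam2, ← hqq]; push_cast; ring
  refine ⟨(q : ℂ)⁻¹ • a, (copG1 g e).smul_mem _ ha, ?_, ?_, ?_⟩
  · exact smul_ne_zero (inv_ne_zero hqc) ha0
  · rw [star_smul]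
    have h1 : star ((q : ℂ)⁻¹) = (q : ℂ)⁻¹ := by simp
    rw [h1]
    simp only [smul_mul_assoc, mul_smul_comm, smul_smul]
    rw [haaa, smul_smul, hlamq]
    congr 1
    field_simp
  · intro y hy hy0
    rw [LinearMap.range_smul _ _ (inv_ne_zero hqc)]
    exact hmin y hy hy0

/-- The two projections of a tripotent. -/
theorem cop_dim_one {g : Submodule ℂ (Module.End ℂ W)}
    {e : Module.End ℂ W} {u : Module.End ℂ W} (hu : u ∈ copG1 g e) (hu0 : u ≠ 0)
    (huuu : u * star u * u = u)
    (hmin : ∀ y ∈ copG1 g e, y ≠ 0 →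
      finrank ℂ (LinearMap.range u) ≤ finrank ℂ (LinearMap.range y))
    (y : Module.End ℂ W) (hy : y ∈ copG1 g e) (hyp : u * star u * y * (star u * u) = y) :
    ∃ lam : ℂ, y = lam • u := by
  set T : Module.End ℂ W := y * star u with hT
  have hyr : ∀ w, y w ∈ LinearMap.range u := by
    intro w
    have := congrArg (fun f : Module.End ℂ W => f w) hyp
    change u ((star u) (y ((star u) (u w)))) = y w at this
    rw [← this]
    exact ⟨_, rfl⟩
  obtain ⟨lam, v, hv0, hvr, hTv⟩ : ∃ lam : ℂ, ∃ v : W, v ≠ 0 ∧ v ∈ LinearMap.range u ∧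
      T v = lam • v := by
    have hstab : ∀ w ∈ LinearMap.range u, T w ∈ LinearMap.range u := by
      rintro w -
      exact hyr _
    have hnt : Nontrivial (LinearMap.range u) := by
      rw [Submodule.nontrivial_iff_ne_bot]
      intro h
      exact hu0 (LinearMap.range_eq_bot.1 h)
    obtain ⟨ν, hν⟩ := Module.End.exists_eigenvalue (T.restrict hstab)
    obtain ⟨v, hv⟩ := hν.exists_hasEigenvector
    refine ⟨ν, v.1, ?_, v.2, ?_⟩
    · intro h
      exact hv.2 (Subtype.ext h)
    · have := congrArg Subtype.val hv.apply_eq_smul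
      simpa using this
  refine ⟨lam, ?_⟩
  by_contra hne
  have hne0 : y - lam • u ≠ 0 := sub_ne_zero.2 hne
  have h1 := hmin _ ((copG1 g e).sub_mem hy ((copG1 g e).smul_mem lam hu)) hne0
  have hyu : y = T * u := by
    rw [hT, mul_assoc]
    have h4 : y * (star u * u) = y := by
      conv_lhs => rw [← hyp]
      have h5 : star u * u * (star u * u) = star u * u := by
        rw [mul_assoc, ← mul_assoc u, huuu]
      rw [mul_assoc _ (star u * u) (star u * u), h5, hyp]
    exact h4.symm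
  have h2 : LinearMap.range (y - lam • u) =
      (LinearMap.range u).map (T - lam • (1 : Module.End ℂ W)) := by
    rw [← LinearMap.range_comp]
    congr 1
    ext w
    have := congrArg (fun f : Module.End ℂ W => f w) hyu
    simp only [Module.End.mul_apply] at this
    simp [this]
  have h3 := cop_finrank_map_lt (LinearMap.range u) (T - lam • (1 : Module.End ℂ W)) v hvr hv0
    (by simp [hTv])
  rw [← h2] at h3
  omega

end Pool.MP43e44c.PE
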