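import Pool.Agent.H.MP_43e44c_ag.PE.CopB

/-!
# PE/CopC: the counting identity `(2 + m) r s = k d (r + s)` (helper66)

`r = rank e`, `s = corank e`, `d = dim (copG1 g e)`, `k` = rank of the minimal tripotent `u`,
`m` = dimension of the 1-eigenspace of `ad [u, u*]` on `copG1 g e`.  The functional
`y ↦ tr (ad y | copG1)` on the centraliser of `e` in `g` is `y ↦ tr (z y)` with `z` central there, hence
`z = ν e + ν' (1 - e)` by `cop_schur`.
-/

namespace Pool.MP43e44c.PE

open Module

variable {W : Type*} [NormedAddCommGroup W] [InnerProductSpace ℂ W] [FiniteDimensional ℂ W]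

theorem cop_trace_br {V : Type*} [AddCommGroup V] [Module ℂ V] (a b : Module.End ℂ V) :
    LinearMap.trace ℂ V (a * b - b * a) = 0 := by
  rw [map_sub, LinearMap.trace_mul_comm, sub_self]

/-- The centraliser of `e` in `g`. -/
def copG0 (g : Submodule ℂ (Module.End ℂ W)) (e : Module.End ℂ W) :
    Submodule ℂ (Module.End ℂ W) where
  carrier := {x | x ∈ g ∧ e * x = x * e}
  add_mem' := by
    rintro a b ⟨h1, h2⟩ ⟨h4, h5⟩
    exact ⟨g.add_mem h1 h4, by rw [mul_add, h2, h5, add_mul]⟩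
  zero_mem' := ⟨g.zero_mem, by simp⟩
  smul_mem' := by
    rintro c a ⟨h1, h2⟩
    exact ⟨g.smul_mem c h1, by rw [mul_smul_comm, h2, smul_mul_assoc]⟩

theorem mem_copG0 {g : Submodule ℂ (Module.End ℂ W)} {e x : Module.End ℂ W} :
    x ∈ copG0 g e ↔ (x ∈ g ∧ e * x = x * e) := Iff.rfl

theorem cop_ad_mem {g : Submodule ℂ (Module.End ℂ W)}
    (hbr : ∀ x ∈ g, ∀ y ∈ g, x * y - y * x ∈ g) {e y x : Module.End ℂ W}
    (hy : y ∈ copG0 g e) (hx : x ∈ copG1 g e) : y * x - x * y ∈ copG1 g e := by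
  obtain ⟨hy1, hy2⟩ := mem_copG0.1 hy
  obtain ⟨hx1, hx2, hx3⟩ := mem_copG1.1 hx
  refine mem_copG1.2 ⟨hbr y hy1 x hx1, ?_, ?_⟩
  · rw [mul_sub, ← mul_assoc, hy2, mul_assoc, hx2, ← mul_assoc, hx2]
  · rw [sub_mul, mul_assoc, hx3, mul_zero, mul_assoc, ← hy2, ← mul_assoc, hx3, zero_mul, sub_zero]

theorem cop_star_G0 {g : Submodule ℂ (Module.End ℂ W)} (hst : ∀ x ∈ g, star x ∈ g)
    {e x : Module.End ℂ W} (hes : star e = e) (hx : x ∈ copG0 g e) : star x ∈ copG0 g e := by
  obtain ⟨h1, h2⟩ := mem_copG0.1 hx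
  refine mem_copG0.2 ⟨hst x h1, ?_⟩
  have := congrArg star h2
  rw [star_mul, star_mul, hes] at this
  exact this.symm

theorem cop_br_G0 {g : Submodule ℂ (Module.End ℂ W)}
    (hbr : ∀ x ∈ g, ∀ y ∈ g, x * y - y * x ∈ g) {e x y : Module.End ℂ W}
    (hx : x ∈ copG0 g e) (hy : y ∈ copG0 g e) : x * y - y * x ∈ copG0 g e := by
  obtain ⟨h1, h2⟩ := mem_copG0.1 hx
  obtain ⟨h3, h4⟩ := mem_copG0.1 hy
  refine mem_copG0.2 ⟨hbr x h1 y h3, ?_⟩
  rw [mul_sub, sub_mul, ← mul_assoc, h2, mul_assoc, h4, ← mul_assoc, ← mul_assoc e y x, h4,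
    mul_assoc y e x, h2, ← mul_assoc]

/-- The adjoint action of the centraliser on the corner. -/
noncomputable def copAd (g : Submodule ℂ (Module.End ℂ W)) (e : Module.End ℂ W)
    (hbr : ∀ x ∈ g, ∀ y ∈ g, x * y - y * x ∈ g) :
    ↥(copG0 g e) →ₗ[ℂ] Module.End ℂ ↥(copG1 g e) where
  toFun y :=
    { toFun := fun x => ⟨y.1 * x.1 - x.1 * y.1, cop_ad_mem hbr y.2 x.2⟩
      map_add' := fun a b => by
        ext1
        simp only [Submodule.coe_add, mul_add, add_mul]
        abel
      map_smul' := fun c a => by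
        ext1
        simp only [Submodule.coe_smul, mul_smul_comm, smul_mul_assoc, RingHom.id_apply, smul_sub] }
  map_add' := fun a b => by
    refine LinearMap.ext fun x => Subtype.ext ?_
    simp only [LinearMap.coe_mk, AddHom.coe_mk, LinearMap.add_apply, Submodule.coe_add, add_mul,
      mul_add]
    abel
  map_smul' := fun c a => by
    refine LinearMap.ext fun x => Subtype.ext ?_
    simp only [LinearMap.coe_mk, AddHom.coe_mk, LinearMap.smul_apply, Submodule.coe_smul,
      mul_smul_comm, smul_mul_assoc, RingHom.id_apply, smul_sub]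

theorem copAd_apply (g : Submodule ℂ (Module.End ℂ W)) (e : Module.End ℂ W)
    (hbr : ∀ x ∈ g, ∀ y ∈ g, x * y - y * x ∈ g) (y : ↥(copG0 g e)) (x : ↥(copG1 g e)) :
    ((copAd g e hbr y x : ↥(copG1 g e)) : Module.End ℂ W) = y.1 * x.1 - x.1 * y.1 := rfl

/-- Representation of the trace functional, the representing element is central. -/
theorem cop_riesz {g : Submodule ℂ (Module.End ℂ W)}
    (hbr : ∀ x ∈ g, ∀ y ∈ g, x * y - y * x ∈ g) (hst : ∀ x ∈ g, star x ∈ g)
    {e : Module.End ℂ W} (hes : star e = e) :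
    ∃ z ∈ copG0 g e, (∀ y : ↥(copG0 g e), LinearMap.trace ℂ W (z * y.1) =
      LinearMap.trace ℂ _ (copAd g e hbr y)) ∧ (∀ y ∈ copG0 g e, z * y = y * z) := by
  let B : ↥(copG0 g e) →ₗ[ℂ] Module.Dual ℂ ↥(copG0 g e) :=
    LinearMap.mk₂ ℂ (fun z y => LinearMap.trace ℂ W (z.1 * y.1))
      (fun a b c => by simp only [Submodule.coe_add, add_mul, map_add])
      (fun c a b => by simp only [Submodule.coe_smul, smul_mul_assoc, map_smul])
      (fun a b c => by simp only [Submodule.coe_add, mul_add, map_add])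
      (fun c a b => by simp only [Submodule.coe_smul, mul_smul_comm, map_smul])
  have hBapp : ∀ z y, B z y = LinearMap.trace ℂ W (z.1 * y.1) := fun z y => rfl
  have hinj : Function.Injective B := by
    rw [injective_iff_map_eq_zero]
    intro z hz
    have h1 : B z ⟨star z.1, cop_star_G0 hst hes z.2⟩ = 0 := by rw [hz]; rfl
    rw [hBapp] at h1
    exact Subtype.ext (cop_pos_zero z.1 h1)
  have hsurj : Function.Surjective B :=
    (LinearMap.injective_iff_surjective_of_finrank_eq_finrank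
      (Subspace.dual_finrank_eq (K := ℂ) (V := ↥(copG0 g e))).symm).1 hinj
  obtain ⟨z, hz⟩ := hsurj ((LinearMap.trace ℂ _) ∘ₗ (copAd g e hbr))
  have hzt : ∀ y : ↥(copG0 g e), LinearMap.trace ℂ W (z.1 * y.1) =
      LinearMap.trace ℂ _ (copAd g e hbr y) := by
    intro y
    rw [← hBapp, hz]
    rfl
  refine ⟨z.1, z.2, hzt, ?_⟩
  intro x hx
  have hw : z.1 * x - x * z.1 ∈ copG0 g e := cop_br_G0 hbr z.2 hx
  have hwy : ∀ y ∈ copG0 g e, LinearMap.trace ℂ W ((z.1 * x - x * z.1) * y) = 0 := by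
    intro y hy
    have h1 : LinearMap.trace ℂ W ((z.1 * x - x * z.1) * y) =
        LinearMap.trace ℂ W (z.1 * (x * y - y * x)) := by
      rw [sub_mul, mul_sub, map_sub, map_sub, mul_assoc, mul_assoc x z.1 y,
        cop_trace_comm x (z.1 * y), mul_assoc z.1 y x]
    rw [h1, hzt ⟨x * y - y * x, cop_br_G0 hbr hx hy⟩]
    have h2 : copAd g e hbr ⟨x * y - y * x, cop_br_G0 hbr hx hy⟩ =
        copAd g e hbr ⟨x, hx⟩ * copAd g e hbr ⟨y, hy⟩ -
          copAd g e hbr ⟨y, hy⟩ * copAd g e hbr ⟨x, hx⟩ := by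
      refine LinearMap.ext fun t => Subtype.ext ?_
      simp only [copAd_apply, LinearMap.sub_apply, Module.End.mul_apply, Submodule.coe_sub,
        mul_sub, sub_mul, mul_assoc]
      abel
    rw [h2]
    exact cop_trace_br _ _
  have h0 := cop_pos_zero _ (hwy _ (cop_star_G0 hst hes hw))
  exact sub_eq_zero.1 h0

section Tri

variable {g : Submodule ℂ (Module.End ℂ W)}
  (hbr : ∀ x ∈ g, ∀ y ∈ g, x * y - y * x ∈ g) (hst : ∀ x ∈ g, star x ∈ g)
  {e : Module.End ℂ W} {u : Module.End ℂ W} (hu : u ∈ copG1 g e)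

include hbr hst hu in
theorem cop_P2_mem {x : Module.End ℂ W} (hx : x ∈ copG1 g e) :
    u * star u * x * (star u * u) ∈ copG1 g e := by
  have h := cop_half hbr hst hu (cop_half hbr hst hu hx)
  simpa only [star_mul, star_star, ← mul_assoc] using h

include hbr hst hu in
theorem cop_P1_mem {x : Module.End ℂ W} (hx : x ∈ copG1 g e) :
    u * star u * x + x * (star u * u) - (2 : ℂ) • (u * star u * x * (star u * u)) ∈ copG1 g e := by
  refine (copG1 g e).sub_mem ?_ ((copG1 g e).smul_mem _ (cop_P2_mem hbr hst hu hx))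
  have h := cop_triple hbr hst hu hu hx
  rwa [mul_assoc x (star u) u] at h

/-- The component of `ad [u,u*]`-degree two. -/
noncomputable def copP2 : Module.End ℂ ↥(copG1 g e) where
  toFun x := ⟨u * star u * x.1 * (star u * u), cop_P2_mem hbr hst hu x.2⟩
  map_add' a b := by
    ext1
    simp only [Submodule.coe_add, mul_add, add_mul]
  map_smul' c a := by
    ext1
    simp only [Submodule.coe_smul, mul_smul_comm, smul_mul_assoc, RingHom.id_apply]

/-- The component of `ad [u,u*]`-degree one. -/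
noncomputable def copP1 : Module.End ℂ ↥(copG1 g e) where
  toFun x := ⟨u * star u * x.1 + x.1 * (star u * u) -
    (2 : ℂ) • (u * star u * x.1 * (star u * u)), cop_P1_mem hbr hst hu x.2⟩
  map_add' a b := by
    ext1
    simp only [Submodule.coe_add, mul_add, add_mul, smul_add]
    abel
  map_smul' c a := by
    ext1
    simp only [Submodule.coe_smul, mul_smul_comm, smul_mul_assoc, RingHom.id_apply, smul_sub,
      smul_add]
    rw [smul_comm (2 : ℂ) c]

theorem copP2_apply (x : ↥(copG1 g e)) :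
    ((copP2 hbr hst hu x : ↥(copG1 g e)) : Module.End ℂ W) = u * star u * x.1 * (star u * u) := rfl

theorem copP1_apply (x : ↥(copG1 g e)) :
    ((copP1 hbr hst hu x : ↥(copG1 g e)) : Module.End ℂ W) = u * star u * x.1 + x.1 * (star u * u) -
    (2 : ℂ) • (u * star u * x.1 * (star u * u)) := rfl

theorem cop_p1p1 (huuu : u * star u * u = u) : (u * star u) * (u * star u) = u * star u := by
  rw [← mul_assoc, huuu]

theorem cop_p0p0 (huuu : u * star u * u = u) : (star u * u) * (star u * u) = star u * u := by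
  rw [mul_assoc, ← mul_assoc u (star u) u, huuu]

theorem copP2_idem (huuu : u * star u * u = u) :
    copP2 hbr hst hu * copP2 hbr hst hu = copP2 hbr hst hu := by
  have h1 := cop_p1p1 huuu
  have h0 := cop_p0p0 huuu
  refine LinearMap.ext fun x => Subtype.ext ?_
  simp only [Module.End.mul_apply, copP2_apply]
  generalize u * star u = p1 at h1 ⊢
  generalize star u * u = p0 at h0 ⊢
  rw [← mul_assoc, ← mul_assoc, h1, mul_assoc _ p0 p0, h0]

theorem copP1_idem (huuu : u * star u * u = u) :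
    copP1 hbr hst hu * copP1 hbr hst hu = copP1 hbr hst hu := by
  have h1 := cop_p1p1 huuu
  have h0 := cop_p0p0 huuu
  refine LinearMap.ext fun x => Subtype.ext ?_
  simp only [Module.End.mul_apply, copP1_apply]
  generalize u * star u = p1 at h1 ⊢
  generalize star u * u = p0 at h0 ⊢
  have h1' : ∀ y : Module.End ℂ W, p1 * (p1 * y) = p1 * y := fun y => by rw [← mul_assoc, h1]
  have h2 : p1 * (p1 * x.1 + x.1 * p0 - (2 : ℂ) • (p1 * x.1 * p0)) = p1 * x.1 - p1 * x.1 * p0 := by
    simp only [mul_sub, mul_add, mul_smul_comm, mul_assoc, h1']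
    module
  have h3 : (p1 * x.1 + x.1 * p0 - (2 : ℂ) • (p1 * x.1 * p0)) * p0 = x.1 * p0 - p1 * x.1 * p0 := by
    simp only [sub_mul, add_mul, smul_mul_assoc, mul_assoc, h0]
    module
  rw [h2, h3, sub_mul, mul_assoc _ p0 p0, h0, sub_self, smul_zero, sub_zero]
  module

theorem copP2_range (hu0 : u ≠ 0) (huuu : u * star u * u = u)
    (hmin : ∀ y ∈ copG1 g e, y ≠ 0 →
      finrank ℂ (LinearMap.range u) ≤ finrank ℂ (LinearMap.range y)) :
    finrank ℂ (LinearMap.range (copP2 hbr hst hu)) = 1 := by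
  have h1 : LinearMap.range (copP2 hbr hst hu) = Submodule.span ℂ {(⟨u, hu⟩ : ↥(copG1 g e))} := by
    apply le_antisymm
    · rintro y ⟨x, rfl⟩
      obtain ⟨lam, hlam⟩ := cop_dim_one hu hu0 huuu hmin (copP2 hbr hst hu x).1
        (copP2 hbr hst hu x).2 (by
          have h := congrArg (fun f => ((f x : ↥(copG1 g e)) : Module.End ℂ W))
            (copP2_idem hbr hst hu huuu)
          simpa only [Module.End.mul_apply, copP2_apply] using h)
      rw [Submodule.mem_span_singleton]
      exact ⟨lam, Subtype.ext hlam.symm⟩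
    · rw [Submodule.span_singleton_le_iff_mem]
      refine ⟨⟨u, hu⟩, Subtype.ext ?_⟩
      rw [copP2_apply]
      rw [huuu, ← mul_assoc, huuu]
  rw [h1, finrank_span_singleton]
  intro h
  exact hu0 (congrArg Subtype.val h)

end Tri

section Count

variable {g : Submodule ℂ (Module.End ℂ W)}
  (hbr : ∀ x ∈ g, ∀ y ∈ g, x * y - y * x ∈ g) (hst : ∀ x ∈ g, star x ∈ g)
  {e : Module.End ℂ W} {u : Module.End ℂ W} (hu : u ∈ copG1 g e)

theorem cop_eu (hes : star e = e) (hu : u ∈ copG1 g e) :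
    e * (u * star u) = u * star u ∧ u * star u * e = u * star u ∧ e * (star u * u) = 0 ∧
      star u * u * e = 0 ∧ star u * e = star u ∧ e * star u = 0 := by
  obtain ⟨h1, h2, h3⟩ := mem_copG1.1 hu
  have h4 : star u * e = star u := by
    have := congrArg star h2
    rwa [star_mul, hes] at this
  have h5 : e * star u = 0 := by
    have := congrArg star h3
    rwa [star_mul, hes, star_zero] at this
  refine ⟨by rw [← mul_assoc, h2], by rw [mul_assoc, h4], by rw [← mul_assoc, h5, zero_mul],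
    by rw [mul_assoc, h3, mul_zero], h4, h5⟩

include hbr hst hu in
/-- The element `h = [u, u*]` of the centraliser. -/
theorem cop_h_mem (hes : star e = e) : u * star u - star u * u ∈ copG0 g e := by
  obtain ⟨h1, h2, h3⟩ := mem_copG1.1 hu
  obtain ⟨a1, a2, a3, a4, _, _⟩ := cop_eu hes hu
  refine mem_copG0.2 ⟨hbr u h1 _ (hst u h1), ?_⟩
  rw [mul_sub, sub_mul, a1, a2, a3, a4]

/-- **The counting identity.** -/
theorem cop_count
    (hirr : ∀ U : Submodule ℂ W, (∀ x ∈ g, ∀ w ∈ U, x w ∈ U) → U = ⊥ ∨ U = ⊤)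
    (he : e * e = e) (hes : star e = e) (heg : e ∈ g) (h1g : (1 : Module.End ℂ W) ∈ g)
    (he0 : e ≠ 0) (he1 : e ≠ 1) (hu0 : u ≠ 0) (huuu : u * star u * u = u)
    (hmin : ∀ y ∈ copG1 g e, y ≠ 0 →
      finrank ℂ (LinearMap.range u) ≤ finrank ℂ (LinearMap.range y)) :
    (2 + finrank ℂ (LinearMap.range (copP1 hbr hst hu))) *
      (finrank ℂ (LinearMap.range e) * finrank ℂ (LinearMap.ker e)) =
    finrank ℂ (LinearMap.range u) * finrank ℂ ↥(copG1 g e) *
      (finrank ℂ (LinearMap.range e) + finrank ℂ (LinearMap.ker e)) := by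
  obtain ⟨z, hz, hzt, hzc⟩ := cop_riesz hbr hst (g := g) (e := e) hes
  obtain ⟨hug, hu1, hu2⟩ := mem_copG1.1 hu
  obtain ⟨a1, a2, a3, a4, a5, a6⟩ := cop_eu hes hu
  obtain ⟨ν, hν⟩ := cop_schur g hbr hirr e he heg he0 z
    (fun y hy hey => hzc y (mem_copG0.2 ⟨hy, hey⟩))
  have he' : (1 - e) * (1 - e) = 1 - e := by
    rw [mul_sub, sub_mul, sub_mul, one_mul, one_mul, mul_one, he]
    abel
  obtain ⟨ν', hν'⟩ := cop_schur g hbr hirr (1 - e) he' (g.sub_mem h1g heg)
    (sub_ne_zero.2 he1.symm) z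
    (fun y hy hey => hzc y (mem_copG0.2 ⟨hy, by
      rw [sub_mul, mul_sub, one_mul, mul_one] at hey
      exact sub_right_injective hey⟩))
  -- traces on W
  have tr_e : LinearMap.trace ℂ W e = (finrank ℂ (LinearMap.range e) : ℂ) := cop_trace_idem e he
  have hN : finrank ℂ (LinearMap.range e) + finrank ℂ (LinearMap.ker e) = finrank ℂ W :=
    LinearMap.finrank_range_add_finrank_ker e
  have tr_1e : LinearMap.trace ℂ W (1 - e) = (finrank ℂ (LinearMap.ker e) : ℂ) := by
    rw [map_sub, tr_e, LinearMap.trace_one, ← hN]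
    push_cast
    ring
  have hk1 : LinearMap.range (u * star u) = LinearMap.range u := by
    apply le_antisymm
    · rintro w ⟨w', rfl⟩
      exact ⟨(star u) w', rfl⟩
    · rintro w ⟨w', rfl⟩
      refine ⟨u w', ?_⟩
      exact congrArg (fun f : Module.End ℂ W => f w') huuu
  have tr_p1 : LinearMap.trace ℂ W (u * star u) = (finrank ℂ (LinearMap.range u) : ℂ) := by
    rw [cop_trace_idem _ (cop_p1p1 huuu), hk1]
  have tr_p0 : LinearMap.trace ℂ W (star u * u) = (finrank ℂ (LinearMap.range u) : ℂ) := by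
    rw [cop_trace_comm, tr_p1]
  -- (E1)
  have hone : (1 : Module.End ℂ W) ∈ copG0 g e := mem_copG0.2 ⟨h1g, by rw [mul_one, one_mul]⟩
  have E1 : ν * (finrank ℂ (LinearMap.range e) : ℂ) + ν' * (finrank ℂ (LinearMap.ker e) : ℂ) = 0 := by
    have h := hzt ⟨1, hone⟩
    have h0 : copAd g e hbr ⟨1, hone⟩ = 0 := by
      refine LinearMap.ext fun x => Subtype.ext ?_
      rw [copAd_apply]
      simp
    rw [h0, map_zero] at h
    have hz1 : z * 1 = z * e + z * (1 - e) := by rw [← mul_add, add_sub_cancel]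
    simp only at h
    rw [hz1, hν, hν', map_add, map_smul, map_smul, tr_e, tr_1e, smul_eq_mul, smul_eq_mul] at h
    exact h
  -- (E2)
  have hee0 : e ∈ copG0 g e := mem_copG0.2 ⟨heg, rfl⟩
  have E2 : ν * (finrank ℂ (LinearMap.range e) : ℂ) = (finrank ℂ ↥(copG1 g e) : ℂ) := by
    have h := hzt ⟨e, hee0⟩
    have h0 : copAd g e hbr ⟨e, hee0⟩ = 1 := by
      refine LinearMap.ext fun x => Subtype.ext ?_
      rw [copAd_apply]
      obtain ⟨_, h2, h3⟩ := mem_copG1.1 x.2
      simp only [h2, h3, sub_zero]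
      rfl
    rw [h0, LinearMap.trace_one] at h
    simp only at h
    rw [hν, map_smul, tr_e, smul_eq_mul] at h
    exact h
  -- (E3)
  have hhm := cop_h_mem hbr hst hu hes
  have E3 : (ν - ν') * (finrank ℂ (LinearMap.range u) : ℂ) =
      (finrank ℂ (LinearMap.range (copP1 hbr hst hu)) : ℂ) + 2 := by
    have h := hzt ⟨_, hhm⟩
    have h0 : copAd g e hbr ⟨_, hhm⟩ = copP1 hbr hst hu + (2 : ℂ) • copP2 hbr hst hu := by
      refine LinearMap.ext fun x => Subtype.ext ?_
      obtain ⟨hx1, hx2, hx3⟩ := mem_copG1.1 x.2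
      have h5 : star u * u * x.1 = 0 := by
        rw [← hx2, mul_assoc, ← mul_assoc u e x.1, hu2, zero_mul, mul_zero]
      have h6 : x.1 * (u * star u) = 0 := by
        rw [← hu1, ← mul_assoc x.1, ← mul_assoc x.1, hx3, zero_mul, zero_mul]
      rw [copAd_apply]
      simp only [LinearMap.add_apply, LinearMap.smul_apply, Submodule.coe_add, Submodule.coe_smul,
        copP1_apply, copP2_apply]
      rw [sub_mul, mul_sub, h5, h6]
      module
    rw [h0, map_add, map_smul, cop_trace_idem _ (copP1_idem hbr hst hu huuu),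
      cop_trace_idem _ (copP2_idem hbr hst hu huuu),
      copP2_range hbr hst hu hu0 huuu hmin] at h
    have h7 : z * (u * star u - star u * u) = ν • (u * star u) - ν' • (star u * u) := by
      have h8 : z * (u * star u) = ν • (u * star u) := by
        rw [← a1, ← mul_assoc, hν, smul_mul_assoc]
      have h9 : z * (star u * u) = ν' • (star u * u) := by
        have h10 : (1 - e) * (star u * u) = star u * u := by rw [sub_mul, one_mul, a3, sub_zero]
        rw [← h10, ← mul_assoc, hν', smul_mul_assoc]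
      rw [mul_sub, h8, h9]
    simp only at h
    rw [h7, map_sub, map_smul, map_smul, tr_p1, tr_p0, smul_eq_mul, smul_eq_mul] at h
    rw [sub_mul, h]
    simp
  -- conclusion
  have key : (2 + (finrank ℂ (LinearMap.range (copP1 hbr hst hu)) : ℂ)) *
      ((finrank ℂ (LinearMap.range e) : ℂ) * (finrank ℂ (LinearMap.ker e) : ℂ)) =
      (finrank ℂ (LinearMap.range u) : ℂ) * (finrank ℂ ↥(copG1 g e) : ℂ) *
      ((finrank ℂ (LinearMap.range e) : ℂ) + (finrank ℂ (LinearMap.ker e) : ℂ)) := by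
    have E4 : -ν' * (finrank ℂ (LinearMap.ker e) : ℂ) = (finrank ℂ ↥(copG1 g e) : ℂ) := by
      linear_combination E2 - E1
    linear_combination (-(finrank ℂ (LinearMap.range e) : ℂ) * (finrank ℂ (LinearMap.ker e) : ℂ)) * E3 +
      ((finrank ℂ (LinearMap.range u) : ℂ) * (finrank ℂ (LinearMap.ker e) : ℂ)) * E2 +
      ((finrank ℂ (LinearMap.range u) : ℂ) * (finrank ℂ (LinearMap.range e) : ℂ)) * E4
  exact_mod_cast key

end Count

end Pool.MP43e44c.PE
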