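import Pool.Agent.H.MP_43e44c_ag.PE.CopC

/-!
# PE/CopD: the Heisenberg bound `m + 2 k ≤ r + s` (helper66)
-/

namespace Pool.MP43e44c.PE

open Module

variable {W : Type*} [NormedAddCommGroup W] [InnerProductSpace ℂ W] [FiniteDimensional ℂ W]

section

variable {g : Submodule ℂ (Module.End ℂ W)}
  (hbr : ∀ x ∈ g, ∀ y ∈ g, x * y - y * x ∈ g) (hst : ∀ x ∈ g, star x ∈ g)
  {e : Module.End ℂ W} {u : Module.End ℂ W} (hu : u ∈ copG1 g e)

/-- Elements of degree one: `p1 x p0 = 0` and `x = p1 x + x p0`. -/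
theorem cop_deg_one (huuu : u * star u * u = u) (x : ↥(copG1 g e))
    (hx : x ∈ LinearMap.range (copP1 hbr hst hu)) :
    u * star u * x.1 * (star u * u) = 0 ∧ x.1 = u * star u * x.1 + x.1 * (star u * u) := by
  obtain ⟨y, hy⟩ := hx
  have h1 : copP1 hbr hst hu x = x := by
    rw [← hy]
    exact congrArg (fun f : Module.End ℂ _ => f y) (copP1_idem hbr hst hu huuu)
  have h2 := congrArg Subtype.val h1
  rw [copP1_apply] at h2
  have q1 := cop_p1p1 huuu
  have q0 := cop_p0p0 huuu
  generalize u * star u = p1 at h2 q1 ⊢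
  generalize star u * u = p0 at h2 q0 ⊢
  have h3 : p1 * x.1 * p0 = 0 := by
    have h4 : p1 * (p1 * x.1 + x.1 * p0 - (2 : ℂ) • (p1 * x.1 * p0)) * p0 = 0 := by
      have q1' : ∀ y : Module.End ℂ W, p1 * (p1 * y) = p1 * y := fun y => by rw [← mul_assoc, q1]
      simp only [mul_sub, mul_add, sub_mul, add_mul, mul_smul_comm, smul_mul_assoc, mul_assoc, q1', q0]
      module
    rwa [h2] at h4
  refine ⟨h3, ?_⟩
  rw [h3, smul_zero, sub_zero] at h2
  exact h2.symm

include hbr hst hu in
/-- The key injectivity. -/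
theorem cop_deg_inj (hu0 : u ≠ 0) (huuu : u * star u * u = u)
    (hmin : ∀ y ∈ copG1 g e, y ≠ 0 →
      finrank ℂ (LinearMap.range u) ≤ finrank ℂ (LinearMap.range y))
    (x : Module.End ℂ W) (hx : x ∈ copG1 g e) (hx0 : u * star u * x * (star u * u) = 0)
    (hxx : x = u * star u * x + x * (star u * u)) (w : W) (ψ : W →ₗ[ℂ] ℂ) (hψ : ψ (u w) ≠ 0)
    (h1 : x w = 0) (h2 : ψ ∘ₗ x = 0) : x = 0 := by
  obtain ⟨hug, hu1, hu2⟩ := mem_copG1.1 hu
  obtain ⟨hxg, hx1, hx2⟩ := mem_copG1.1 hx
  obtain ⟨p1, hp1⟩ : ∃ p1, p1 = u * star u := ⟨_, rfl⟩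
  obtain ⟨p0, hp0⟩ : ∃ p0, p0 = star u * u := ⟨_, rfl⟩
  rw [← hp1, ← hp0] at hx0 hxx
  have hsp1 : star p1 = p1 := by rw [hp1, star_mul, star_star]
  have hsp0 : star p0 = p0 := by rw [hp0, star_mul, star_star]
  have q1 : p1 * p1 = p1 := by rw [hp1]; exact cop_p1p1 huuu
  have q0 : p0 * p0 = p0 := by rw [hp0]; exact cop_p0p0 huuu
  have hp1u : p1 * u = u := by rw [hp1]; exact huuu
  have hup0 : u * p0 = u := by rw [hp0, ← mul_assoc, huuu]
  -- stars
  have hsx : star x = star x * p1 + p0 * star x := by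
    have := congrArg star hxx
    rwa [star_add, star_mul, star_mul, hsp1, hsp0] at this
  have hsx0 : p0 * star x * p1 = 0 := by
    have := congrArg star hx0
    rwa [star_mul, star_mul, hsp1, hsp0, star_zero, ← mul_assoc] at this
  set y := x * star x * u + u * star x * x with hy
  have hymem : y ∈ copG1 g e := cop_triple hbr hst hx hx hu
  have hA : p1 * (x * star x * u) = x * star x * u := by
    -- x x* p1 = p1 x x* p1
    have h3 : x * star x * p1 = p1 * (x * star x * p1) := by
      have e1 : star x * p1 = star x * p1 * p1 + 0 := by rw [mul_assoc, q1, add_zero]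
      have h4 : x * (star x * p1) = p1 * (x * (star x * p1)) + x * (p0 * (star x * p1)) := by
        have := congrArg (fun f => f * (star x * p1)) hxx
        simpa only [add_mul, mul_assoc] using this
      have h5 : p0 * (star x * p1) = 0 := by rw [← mul_assoc, hsx0]
      rw [h5, mul_zero, add_zero] at h4
      rw [mul_assoc]
      exact h4
    have h6 : x * star x * u = x * star x * p1 * u := by rw [mul_assoc _ p1 u, hp1u]
    rw [h6, ← mul_assoc, ← h3]
  have hB : u * star x * x * p0 = u * star x * x := by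
    have h3 : p0 * star x * x * p0 = p0 * star x * x := by
      have h4 : p0 * star x * x = p0 * star x * p1 * x + p0 * star x * x * p0 := by
        have := congrArg (fun f => p0 * star x * f) hxx
        simpa only [mul_add, ← mul_assoc] using this
      rw [hsx0, zero_mul, zero_add] at h4
      exact h4.symm
    have h6 : u * star x * x = u * (p0 * star x * x) := by
      rw [← mul_assoc, ← mul_assoc, hup0]
    rw [h6, mul_assoc u, h3]
  have hyp : p1 * y * p0 = y := by
    have e1 : p1 * (u * star x * x) = u * star x * x := by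
      rw [← mul_assoc, ← mul_assoc, hp1u]
    have e2 : x * star x * u * p0 = x * star x * u := by rw [mul_assoc, hup0]
    rw [hy, mul_add, hA, e1, add_mul, e2, hB]
  obtain ⟨ω, hω⟩ := cop_dim_one hu hu0 huuu hmin y hymem (by rw [← hp1, ← hp0]; exact hyp)
  -- evaluate
  have h3 : ψ (y w) = 0 := by
    have e1 : y w = x ((star x) (u w)) + u ((star x) (x w)) := rfl
    rw [e1, h1, map_zero, map_zero, add_zero]
    exact congrArg (fun f : W →ₗ[ℂ] ℂ => f ((star x) (u w))) h2
  rw [hω] at h3
  have h4 : ω * ψ (u w) = 0 := by simpa using h3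
  have h5 : ω = 0 := by
    rcases mul_eq_zero.1 h4 with h | h
    · exact h
    · exact absurd h hψ
  rw [h5, zero_smul] at hω
  -- trace
  have h6 : LinearMap.trace ℂ W ((star u * x) * star (star u * x)) +
      LinearMap.trace ℂ W ((x * star u) * star (x * star u)) = 0 := by
    have e1 : LinearMap.trace ℂ W ((star u * x) * star (star u * x)) =
        LinearMap.trace ℂ W (star u * (x * star x * u)) := by
      rw [star_mul, star_star]
      congr 1
    have e2 : LinearMap.trace ℂ W ((x * star u) * star (x * star u)) =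
        LinearMap.trace ℂ W (star u * (u * star x * x)) := by
      rw [star_mul, star_star, mul_assoc, cop_trace_comm]
      congr 1
    rw [e1, e2, ← map_add, ← mul_add, ← hy, hω, mul_zero, map_zero]
  obtain ⟨h7, h8⟩ := cop_pos_zero2 _ _ h6
  rw [hxx, hp1, hp0, mul_assoc u (star u) x, h7, mul_zero, ← mul_assoc x, h8, zero_mul, add_zero]

include hbr hst hu in
/-- **The Heisenberg bound.** -/
theorem cop_bound (he : e * e = e) (hes : star e = e) (hu0 : u ≠ 0) (huuu : u * star u * u = u)
    (hmin : ∀ y ∈ copG1 g e, y ≠ 0 →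
      finrank ℂ (LinearMap.range u) ≤ finrank ℂ (LinearMap.range y)) :
    finrank ℂ (LinearMap.range (copP1 hbr hst hu)) + 2 * finrank ℂ (LinearMap.range u) ≤
      finrank ℂ (LinearMap.range e) + finrank ℂ (LinearMap.ker e) := by
  obtain ⟨hug, hu1, hu2⟩ := mem_copG1.1 hu
  obtain ⟨a1, a2, a3, a4, a5, a6⟩ := cop_eu hes hu
  have q1 := cop_p1p1 huuu
  have q0 := cop_p0p0 huuu
  -- the vector and the functional
  obtain ⟨v0, hv0⟩ : ∃ v0, u v0 ≠ 0 := by
    by_contra hcon
    push Not at hcon
    exact hu0 (LinearMap.ext hcon)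
  have huuuv : ∀ v, u ((star u) (u v)) = u v := fun v => congrArg (fun f : Module.End ℂ W => f v) huuu
  set w : W := (star u) (u v0) with hw
  have huw : u w = u v0 := huuuv v0
  have hp0w : (star u * u) w = w := by
    rw [hw]
    change (star u) (u ((star u) (u v0))) = (star u) (u v0)
    rw [huuuv]
  let ψ : W →ₗ[ℂ] ℂ := (innerₛₗ ℂ (u w))
  have hψapp : ∀ y, ψ y = inner ℂ (u w) y := fun y => rfl
  have hψ0 : ψ (u w) ≠ 0 := by
    rw [hψapp, huw]
    exact inner_self_ne_zero.2 hv0
  have hψp1 : ∀ y, ψ ((u * star u) y) = ψ y := by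
    intro y
    rw [hψapp, hψapp]
    have h1 : (u * star u) (u w) = u w := congrArg (fun f : Module.End ℂ W => f w) huuu
    have h2 : inner ℂ ((u * star u) (u w)) y = inner ℂ (u w) ((u * star u) y) := by
      have h3 : star (u * star u) = u * star u := by rw [star_mul, star_star]
      conv_lhs => rw [← h3]
      rw [LinearMap.star_eq_adjoint, LinearMap.adjoint_inner_left]
    rw [← h2, h1]
  have hp1p0 : ∀ x ∈ LinearMap.range (copP1 hbr hst hu),
      u * star u * x.1 * (star u * u) = 0 ∧ x.1 = u * star u * x.1 + x.1 * (star u * u) :=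
    fun x hx => cop_deg_one hbr hst hu huuu x hx
  -- the targets
  set f0 : Module.End ℂ W := 1 - e - star u * u with hf0
  have hf0f0 : f0 * f0 = f0 := by
    rw [hf0]
    simp only [mul_sub, sub_mul, one_mul, mul_one, he, a3, a4, q0]
    abel
  have he1 : (e - u * star u) * (e - u * star u) = e - u * star u := by
    simp only [mul_sub, sub_mul, he, a1, a2, q1]
    abel
  -- dimensions
  have tr_e : LinearMap.trace ℂ W e = (finrank ℂ (LinearMap.range e) : ℂ) := cop_trace_idem e he
  have hN : finrank ℂ (LinearMap.range e) + finrank ℂ (LinearMap.ker e) = finrank ℂ W :=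
    LinearMap.finrank_range_add_finrank_ker e
  have hk1 : LinearMap.range (u * star u) = LinearMap.range u := by
    apply le_antisymm
    · rintro w ⟨w', rfl⟩
      exact ⟨(star u) w', rfl⟩
    · rintro w ⟨w', rfl⟩
      exact ⟨u w', huuuv w'⟩
  have tr_p1 : LinearMap.trace ℂ W (u * star u) = (finrank ℂ (LinearMap.range u) : ℂ) := by
    rw [cop_trace_idem _ q1, hk1]
  have tr_p0 : LinearMap.trace ℂ W (star u * u) = (finrank ℂ (LinearMap.range u) : ℂ) := by
    rw [cop_trace_comm, tr_p1]
  have d1 : finrank ℂ (LinearMap.range (e - u * star u)) + finrank ℂ (LinearMap.range u) =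
      finrank ℂ (LinearMap.range e) := by
    have h := cop_trace_idem _ he1
    rw [map_sub, tr_e, tr_p1] at h
    have h2 : (finrank ℂ (LinearMap.range (e - u * star u)) : ℂ) +
        (finrank ℂ (LinearMap.range u) : ℂ) = (finrank ℂ (LinearMap.range e) : ℂ) := by
      rw [← h]; ring
    exact_mod_cast h2
  have d0 : finrank ℂ (LinearMap.range f0) + finrank ℂ (LinearMap.range u) =
      finrank ℂ (LinearMap.ker e) := by
    have h := cop_trace_idem _ hf0f0
    rw [hf0, map_sub, map_sub, LinearMap.trace_one, tr_e, tr_p0, ← hN, ← hf0] at h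
    push_cast at h
    have h2 : (finrank ℂ (LinearMap.range f0) : ℂ) +
        (finrank ℂ (LinearMap.range u) : ℂ) = (finrank ℂ (LinearMap.ker e) : ℂ) := by
      rw [← h]; ring
    exact_mod_cast h2
  -- membership in the targets
  have hmem1 : ∀ x ∈ LinearMap.range (copP1 hbr hst hu),
      x.1 w ∈ LinearMap.range (e - u * star u) := by
    intro x hx
    obtain ⟨h1, h2⟩ := hp1p0 x hx
    obtain ⟨_, hx1, _⟩ := mem_copG1.1 x.2
    refine ⟨x.1 w, ?_⟩
    have e1 : e (x.1 w) = x.1 w := congrArg (fun f : Module.End ℂ W => f w) hx1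
    have e2 : (u * star u) (x.1 w) = 0 := by
      have h3 : (u * star u * x.1 * (star u * u)) w = (u * star u) (x.1 ((star u * u) w)) := rfl
      rw [h1, hp0w] at h3
      rw [← h3]
      rfl
    rw [LinearMap.sub_apply, e1, e2, sub_zero]
  have hmem2 : ∀ x ∈ LinearMap.range (copP1 hbr hst hu),
      (ψ ∘ₗ x.1 : Module.Dual ℂ W) ∈ LinearMap.range (LinearMap.dualMap f0) := by
    intro x hx
    obtain ⟨h1, h2⟩ := hp1p0 x hx
    obtain ⟨_, _, hx2⟩ := mem_copG1.1 x.2
    refine ⟨ψ ∘ₗ x.1, ?_⟩
    refine LinearMap.ext fun y => ?_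
    rw [LinearMap.dualMap_apply]
    change ψ (x.1 (f0 y)) = ψ (x.1 y)
    have e1 : x.1 (e y) = 0 := congrArg (fun f : Module.End ℂ W => f y) hx2
    have e2 : ψ (x.1 ((star u * u) y)) = 0 := by
      rw [← hψp1]
      have h3 : (u * star u * x.1 * (star u * u)) y = (u * star u) (x.1 ((star u * u) y)) := rfl
      rw [← h3, h1]
      simp
    have e3 : f0 y = y - e y - (star u * u) y := rfl
    rw [e3, map_sub, map_sub, map_sub, map_sub, e1, e2, map_zero, sub_zero, sub_zero]
  -- the linear map
  let F : ↥(LinearMap.range (copP1 hbr hst hu)) →ₗ[ℂ]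
      ↥(LinearMap.range (e - u * star u)) × ↥(LinearMap.range (LinearMap.dualMap f0)) :=
    { toFun := fun x => (⟨x.1.1 w, hmem1 x.1 x.2⟩, ⟨ψ ∘ₗ x.1.1, hmem2 x.1 x.2⟩)
      map_add' := fun a b => by
        refine Prod.ext (Subtype.ext ?_) (Subtype.ext ?_)
        · simp
        · simp [LinearMap.comp_add]
      map_smul' := fun c a => by
        refine Prod.ext (Subtype.ext ?_) (Subtype.ext ?_)
        · simp
        · simp [LinearMap.comp_smul] }
  have hF : Function.Injective F := by
    rw [injective_iff_map_eq_zero]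
    intro x hx
    have h1 : x.1.1 w = 0 := congrArg (fun z => (z.1 : W)) hx
    have h2 : ψ ∘ₗ x.1.1 = 0 := congrArg (fun z => (z.2 : Module.Dual ℂ W)) hx
    obtain ⟨h3, h4⟩ := hp1p0 x.1 x.2
    have h5 := cop_deg_inj hbr hst hu hu0 huuu hmin x.1.1 x.1.2 h3 h4 w ψ hψ0 h1 h2
    exact Subtype.ext (Subtype.ext h5)
  have h := LinearMap.finrank_le_finrank_of_injective hF
  rw [Module.finrank_prod, LinearMap.finrank_range_dualMap_eq_finrank_range] at h
  omega

end

end Pool.MP43e44c.PE
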