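import Pool.Agent.H.MP_43e44c_ag.PE.CopD

/-!
# PE/CopE: the coprime lemma (helper66)
-/

namespace Pool.MP43e44c.PE

open Module

section Arith

/-- The arithmetic of the coprime lemma. -/
theorem cop_arith (m k d r s : ℕ) (hc : (2 + m) * (r * s) = k * d * (r + s))
    (hb : m + 2 * k ≤ r + s) (hk : 1 ≤ k) (hrs : Nat.Coprime r s) (hr : 0 < r) (hs : 0 < s) :
    d = r * s := by
  have h1 : Nat.Coprime (r + s) (r * s) := by
    refine Nat.Coprime.mul_right ?_ ?_
    · rw [Nat.coprime_self_add_left]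
      exact hrs.symm
    · rw [Nat.coprime_add_self_left]
      exact hrs
  have h2 : (r + s) ∣ (2 + m) := by
    have h3 : (r + s) ∣ (2 + m) * (r * s) := by
      rw [hc]
      exact Dvd.intro_left _ rfl
    exact h1.dvd_of_dvd_mul_right h3
  have h3 : r + s ≤ 2 + m := Nat.le_of_dvd (by omega) h2
  have hk1 : k = 1 := by omega
  have hm : 2 + m = r + s := by omega
  rw [hk1, hm, one_mul, mul_comm] at hc
  exact (Nat.eq_of_mul_eq_mul_right (by omega) hc).symm

end Arith

section Full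

variable {W : Type*} [AddCommGroup W] [Module ℂ W] [FiniteDimensional ℂ W]

/-- All maps from `ker e` to `range e`. -/
def copAll (e : Module.End ℂ W) : Submodule ℂ (Module.End ℂ W) where
  carrier := {x | e * x = x ∧ x * e = 0}
  add_mem' := by
    rintro a b ⟨h2, h3⟩ ⟨h5, h6⟩
    exact ⟨by rw [mul_add, h2, h5], by rw [add_mul, h3, h6, add_zero]⟩
  zero_mem' := ⟨by simp, by simp⟩
  smul_mem' := by
    rintro c a ⟨h2, h3⟩
    exact ⟨by rw [mul_smul_comm, h2], by rw [smul_mul_assoc, h3, smul_zero]⟩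

theorem cop_all_finrank (e : Module.End ℂ W) (he : e * e = e) :
    finrank ℂ ↥(copAll e) ≤ finrank ℂ (LinearMap.range e) * finrank ℂ (LinearMap.ker e) := by
  have hmem : ∀ x ∈ copAll e, ∀ w, x w ∈ LinearMap.range e := by
    rintro x ⟨h1, h2⟩ w
    exact ⟨x w, congrArg (fun f : Module.End ℂ W => f w) h1⟩
  let F : ↥(copAll e) →ₗ[ℂ] (↥(LinearMap.ker e) →ₗ[ℂ] ↥(LinearMap.range e)) :=
    { toFun := fun x => (LinearMap.codRestrict (LinearMap.range e) x.1 (hmem x.1 x.2)).domRestrict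
        (LinearMap.ker e)
      map_add' := fun a b => by
        refine LinearMap.ext fun w => Subtype.ext ?_
        simp
      map_smul' := fun c a => by
        refine LinearMap.ext fun w => Subtype.ext ?_
        simp }
  have hF : Function.Injective F := by
    rw [injective_iff_map_eq_zero]
    intro x hx
    refine Subtype.ext (LinearMap.ext fun w => ?_)
    obtain ⟨_, h2⟩ := x.2
    have h3 : x.1 (e w) = 0 := congrArg (fun f : Module.End ℂ W => f w) h2
    have h4 : e (w - e w) = 0 := by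
      rw [map_sub]
      have : e (e w) = e w := congrArg (fun f : Module.End ℂ W => f w) he
      rw [this, sub_self]
    have h5 : x.1 (w - e w) = 0 := by
      have := congrArg (fun f => ((f ⟨w - e w, h4⟩ : ↥(LinearMap.range e)) : W)) hx
      exact this
    have h6 : x.1 w = x.1 (w - e w) + x.1 (e w) := by rw [← map_add, sub_add_cancel]
    rw [h6, h5, h3, add_zero]
    rfl
  have h := LinearMap.finrank_le_finrank_of_injective hF
  rw [Module.finrank_linearMap, mul_comm] at h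
  exact h

/-- A bracket closed space containing both off diagonal corners contains all trace zero maps. -/
theorem cop_corners (g : Submodule ℂ (Module.End ℂ W))
    (hbr : ∀ x ∈ g, ∀ y ∈ g, x * y - y * x ∈ g) (e : Module.End ℂ W) (he : e * e = e)
    (he0 : e ≠ 0) (he1 : e ≠ 1)
    (h10 : ∀ x : Module.End ℂ W, e * x = x → x * e = 0 → x ∈ g)
    (h01 : ∀ x : Module.End ℂ W, e * x = 0 → x * e = x → x ∈ g)
    (A : Module.End ℂ W) (hA : LinearMap.trace ℂ W A = 0) : A ∈ g := by
  classical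
  by_contra hAg
  -- a functional which vanishes on g but not at A
  obtain ⟨f, hf1, hf2⟩ : ∃ f : Module.Dual ℂ (Module.End ℂ W), (∀ x ∈ g, f x = 0) ∧ f A ≠ 0 := by
    obtain ⟨f, hf⟩ := Submodule.exists_dual_map_eq_bot_of_notMem hAg inferInstance
    refine ⟨f, ?_, hf.1⟩
    intro x hx
    have h1 : f x ∈ g.map f := ⟨x, hx, rfl⟩
    rw [hf.2] at h1
    exact (Submodule.mem_bot ℂ).1 h1
  have heew : ∀ w, e (e w) = e w := fun w => congrArg (fun f : Module.End ℂ W => f w) he
  let R : W → Module.Dual ℂ W → Module.End ℂ W := fun v φ => φ.smulRight v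
  have hR : ∀ v φ w, R v φ w = φ w • v := fun v φ w => rfl
  -- w0 in the kernel, ψ0 killing the range
  obtain ⟨x0, hx0⟩ : ∃ x0, x0 - e x0 ≠ 0 := by
    by_contra hcon
    push Not at hcon
    exact he1 (LinearMap.ext fun w => (sub_eq_zero.1 (hcon w)).symm)
  obtain ⟨x1, hx1⟩ : ∃ x1, e x1 ≠ 0 := by
    by_contra hcon
    push Not at hcon
    exact he0 (LinearMap.ext hcon)
  set w0 := x0 - e x0 with hw0
  have hew0 : e w0 = 0 := by rw [hw0, map_sub, heew, sub_self]
  obtain ⟨χ, hχ⟩ : ∃ χ : Module.Dual ℂ W, χ w0 = 1 := Module.Projective.exists_dual_eq_one ℂ hx0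
  obtain ⟨χ1, hχ1⟩ : ∃ χ : Module.Dual ℂ W, χ (e x1) = 1 :=
    Module.Projective.exists_dual_eq_one ℂ hx1
  set ψ0 : Module.Dual ℂ W := χ - χ ∘ₗ e with hψ0
  have hψ0w : ψ0 w0 = 1 := by
    rw [hψ0]
    simp [hew0, hχ]
  have hψ0e : ∀ w, ψ0 (e w) = 0 := by
    intro w
    rw [hψ0]
    simp [heew]
  set φ1 : Module.Dual ℂ W := χ1 ∘ₗ e with hφ1
  have hφ1v : φ1 (e x1) = 1 := by
    rw [hφ1]
    simp [heew, hχ1]
  have hφ1e : ∀ w, φ1 (e w) = φ1 w := by
    intro w
    rw [hφ1]
    simp [heew]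
  set c := f (R w0 ψ0) with hc
  -- elements of g
  have m10 : ∀ v ψ, e v = v → (∀ w, ψ (e w) = 0) → R v ψ ∈ g := by
    intro v ψ h1 h2
    refine h10 _ (LinearMap.ext fun w => ?_) (LinearMap.ext fun w => ?_)
    · rw [Module.End.mul_apply, hR, map_smul, h1]
    · rw [Module.End.mul_apply, hR, h2, zero_smul]
      rfl
  have m01 : ∀ v ψ, e v = 0 → (∀ w, ψ (e w) = ψ w) → R v ψ ∈ g := by
    intro v ψ h1 h2
    refine h01 _ (LinearMap.ext fun w => ?_) (LinearMap.ext fun w => ?_)
    · rw [Module.End.mul_apply, hR, map_smul, h1, smul_zero]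
      rfl
    · rw [Module.End.mul_apply, hR, hR, h2]
  have hswap : ∀ (v : W) (ψ : Module.Dual ℂ W) (w : W) (φ : Module.Dual ℂ W), R v ψ ∈ g → R w φ ∈ g →
      ψ w * f (R v φ) = φ v * f (R w ψ) := by
    intro v ψ w φ h1 h2
    have h3 := hf1 _ (hbr _ h1 _ h2)
    have h4 : R v ψ * R w φ - R w φ * R v ψ = ψ w • R v φ - φ v • R w ψ := by
      refine LinearMap.ext fun y => ?_
      simp only [LinearMap.sub_apply, Module.End.mul_apply, LinearMap.smul_apply, hR, map_smul,
        smul_eq_mul, smul_smul]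
      rw [mul_comm (φ y), mul_comm (ψ y)]
    rw [h4, map_sub, map_smul, map_smul, smul_eq_mul, smul_eq_mul] at h3
    exact sub_eq_zero.1 h3
  have hA1 : ∀ v φ, e v = v → (∀ w, φ (e w) = φ w) → f (R v φ) = φ v * c := by
    intro v φ h1 h2
    have h3 := hswap v ψ0 w0 φ (m10 v ψ0 h1 hψ0e) (m01 w0 φ hew0 h2)
    rw [hψ0w, one_mul] at h3
    exact h3
  have hB1 : ∀ w ψ, e w = 0 → (∀ v, ψ (e v) = 0) → f (R w ψ) = ψ w * c := by
    intro w ψ h1 h2
    have h3 := hswap (e x1) ψ w φ1 (m10 _ ψ (heew x1) h2) (m01 w φ1 h1 hφ1e)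
    rw [hφ1v, one_mul, hA1 (e x1) φ1 (heew x1) hφ1e, hφ1v, one_mul] at h3
    exact h3.symm
  have hall : ∀ (v : W) (φ : Module.Dual ℂ W), f (R v φ) = φ v * c := by
    intro v φ
    have h1 : R v φ = R (e v) (φ ∘ₗ e) + R (e v) (φ - φ ∘ₗ e) + R (v - e v) (φ ∘ₗ e) +
        R (v - e v) (φ - φ ∘ₗ e) := by
      refine LinearMap.ext fun y => ?_
      simp only [LinearMap.add_apply, hR, LinearMap.sub_apply, LinearMap.comp_apply]
      module
    have h2 : f (R (e v) (φ - φ ∘ₗ e)) = 0 :=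
      hf1 _ (m10 _ _ (heew v) (fun w => by simp [heew]))
    have hev : e (v - e v) = 0 := by rw [map_sub, heew, sub_self]
    have h3 : f (R (v - e v) (φ ∘ₗ e)) = 0 :=
      hf1 _ (m01 _ _ hev (fun w => by simp [heew]))
    have h4 := hA1 (e v) (φ ∘ₗ e) (heew v) (fun w => by simp [heew])
    have h5 := hB1 (v - e v) (φ - φ ∘ₗ e) hev (fun w => by simp [heew])
    rw [h1, map_add, map_add, map_add, h2, h3, h4, h5]
    simp only [LinearMap.comp_apply, LinearMap.sub_apply, hev, heew, map_zero, sub_zero, map_sub]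
    ring
  -- f is a multiple of the trace
  let b := Module.finBasis ℂ W
  have hsum : A = ∑ i, R (A (b i)) (b.coord i) := by
    apply b.ext
    intro j
    simp only [LinearMap.sum_apply, hR, Basis.coord_apply, Basis.repr_self]
    rw [Finset.sum_eq_single j]
    · simp
    · intro i _ hij
      simp [Finsupp.single_apply, hij.symm]
    · simp
  apply hf2
  have h1 : f A = ∑ i, b.coord i (A (b i)) * c := by
    conv_lhs => rw [hsum]
    rw [map_sum]
    exact Finset.sum_congr rfl fun i _ => hall _ _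
  have h2 : LinearMap.trace ℂ W A = ∑ i, b.coord i (A (b i)) := by
    conv_lhs => rw [hsum]
    rw [map_sum]
    exact Finset.sum_congr rfl fun i _ => LinearMap.trace_smulRight _ _
  rw [h1, ← Finset.sum_mul, ← h2, hA, zero_mul]

end Full

section Main

variable {W : Type*} [NormedAddCommGroup W] [InnerProductSpace ℂ W] [FiniteDimensional ℂ W]

/-- The case `1, e ∈ g`: the corner is full. -/
theorem cop_full (g : Submodule ℂ (Module.End ℂ W))
    (hbr : ∀ x ∈ g, ∀ y ∈ g, x * y - y * x ∈ g) (hst : ∀ x ∈ g, star x ∈ g)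
    (hirr : ∀ U : Submodule ℂ W, (∀ x ∈ g, ∀ w ∈ U, x w ∈ U) → U = ⊥ ∨ U = ⊤)
    (e : Module.End ℂ W) (he : e * e = e) (hes : star e = e) (heg : e ∈ g)
    (h1g : (1 : Module.End ℂ W) ∈ g) (he0 : e ≠ 0) (he1 : e ≠ 1)
    (hcop : Nat.Coprime (finrank ℂ (LinearMap.range e)) (finrank ℂ (LinearMap.ker e))) :
    ∀ x : Module.End ℂ W, e * x = x → x * e = 0 → x ∈ g := by
  obtain ⟨u, hu, hu0, huuu, hmin⟩ :=
    cop_tripotent hbr hst (cop_G1_ne hbr hst hirr he hes heg he0 he1)
  have hc := cop_count hbr hst hu hirr he hes heg h1g he0 he1 hu0 huuu hmin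
  have hb := cop_bound hbr hst hu he hes hu0 huuu hmin
  have hk : 1 ≤ finrank ℂ (LinearMap.range u) := by
    rw [Nat.one_le_iff_ne_zero]
    intro h
    exact hu0 (LinearMap.range_eq_bot.1 (Submodule.finrank_eq_zero.1 h))
  have hr : 0 < finrank ℂ (LinearMap.range e) := by
    rw [Nat.pos_iff_ne_zero]
    intro h
    exact he0 (LinearMap.range_eq_bot.1 (Submodule.finrank_eq_zero.1 h))
  have hs : 0 < finrank ℂ (LinearMap.ker e) := by
    rw [Nat.pos_iff_ne_zero]
    intro h
    have h1 : LinearMap.ker e = ⊥ := Submodule.finrank_eq_zero.1 h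
    apply he1
    refine LinearMap.ext fun w => ?_
    have h2 : w - e w ∈ LinearMap.ker e := by
      rw [LinearMap.mem_ker, map_sub]
      have : e (e w) = e w := congrArg (fun f : Module.End ℂ W => f w) he
      rw [this, sub_self]
    rw [h1] at h2
    exact (sub_eq_zero.1 ((Submodule.mem_bot ℂ).1 h2)).symm
  have hd := cop_arith _ _ _ _ _ hc hb hk hcop hr hs
  have hle : copG1 g e ≤ copAll e := fun x hx => (mem_copG1.1 hx).2
  have hfin := cop_all_finrank e he
  rw [← hd] at hfin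
  have heq : copG1 g e = copAll e := Submodule.eq_of_le_of_finrank_le hle hfin
  intro x h1 h2
  have hx : x ∈ copAll e := ⟨h1, h2⟩
  rw [← heq] at hx
  exact (mem_copG1.1 hx).1

/-- **Serre's coprime lemma**, adjoint form. -/
theorem cop_main (g : Submodule ℂ (Module.End ℂ W))
    (hbr : ∀ x ∈ g, ∀ y ∈ g, x * y - y * x ∈ g) (hst : ∀ x ∈ g, star x ∈ g)
    (hirr : ∀ U : Submodule ℂ W, (∀ x ∈ g, ∀ w ∈ U, x w ∈ U) → U = ⊥ ∨ U = ⊤)
    (e : Module.End ℂ W) (he : e * e = e) (hes : star e = e)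
    (hcop : Nat.Coprime (finrank ℂ (LinearMap.range e)) (finrank ℂ (LinearMap.ker e)))
    (α β : ℂ) (hβ : β ≠ 0) (hx : α • (1 : Module.End ℂ W) + β • e ∈ g)
    (A : Module.End ℂ W) (hA : LinearMap.trace ℂ W A = 0) : A ∈ g := by
  have hN : finrank ℂ (LinearMap.range e) + finrank ℂ (LinearMap.ker e) = finrank ℂ W :=
    LinearMap.finrank_range_add_finrank_ker e
  -- dimension one
  have hone : finrank ℂ W = 1 → A = 0 := by
    intro h
    obtain ⟨c, hc⟩ : ∃ c : ℂ, A = c • (1 : Module.End ℂ W) := by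
      obtain ⟨v, hv, hspan⟩ := finrank_eq_one_iff'.1 h
      obtain ⟨c, hc⟩ := hspan (A v)
      refine ⟨c, LinearMap.ext fun w => ?_⟩
      obtain ⟨a, rfl⟩ := hspan w
      rw [map_smul, ← hc, LinearMap.smul_apply, Module.End.one_apply, smul_comm]
    rw [hc, map_smul, LinearMap.trace_one, h] at hA
    simp at hA
    rw [hc, hA, zero_smul]
  by_cases he0 : e = 0
  · have h1 : finrank ℂ (LinearMap.range e) = 0 := by
      rw [he0, LinearMap.range_zero, finrank_bot]
    rw [h1, Nat.coprime_zero_left] at hcop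
    rw [hone (by omega)]
    exact g.zero_mem
  by_cases he1 : e = 1
  · have h1 : finrank ℂ (LinearMap.ker e) = 0 := by
      rw [he1]
      have : LinearMap.ker (1 : Module.End ℂ W) = ⊥ := LinearMap.ker_id
      rw [this, finrank_bot]
    rw [h1, Nat.coprime_zero_right] at hcop
    rw [hone (by omega)]
    exact g.zero_mem
  -- enlarge g by the scalars
  set g' : Submodule ℂ (Module.End ℂ W) := g ⊔ Submodule.span ℂ {(1 : Module.End ℂ W)} with hg'
  have hmem' : ∀ x, x ∈ g' ↔ ∃ y ∈ g, ∃ c : ℂ, x = y + c • (1 : Module.End ℂ W) := by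
    intro x
    rw [hg', Submodule.mem_sup]
    constructor
    · rintro ⟨y, hy, z, hz, rfl⟩
      obtain ⟨c, rfl⟩ := Submodule.mem_span_singleton.1 hz
      exact ⟨y, hy, c, rfl⟩
    · rintro ⟨y, hy, c, rfl⟩
      exact ⟨y, hy, _, Submodule.mem_span_singleton.2 ⟨c, rfl⟩, rfl⟩
  have hbr0 : ∀ x ∈ g', ∀ y ∈ g', x * y - y * x ∈ g := by
    intro x hx y hy
    obtain ⟨x', hx', c, rfl⟩ := (hmem' x).1 hx
    obtain ⟨y', hy', d, rfl⟩ := (hmem' y).1 hy
    have h1 : (x' + c • (1 : Module.End ℂ W)) * (y' + d • (1 : Module.End ℂ W)) -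
        (y' + d • (1 : Module.End ℂ W)) * (x' + c • (1 : Module.End ℂ W)) = x' * y' - y' * x' := by
      simp only [mul_add, add_mul, mul_smul_comm, smul_mul_assoc, mul_one, one_mul]
      module
    rw [h1]
    exact hbr x' hx' y' hy'
  have hle : g ≤ g' := le_sup_left
  have hbr' : ∀ x ∈ g', ∀ y ∈ g', x * y - y * x ∈ g' := fun x hx y hy => hle (hbr0 x hx y hy)
  have hst' : ∀ x ∈ g', star x ∈ g' := by
    intro x hx
    obtain ⟨x', hx', c, rfl⟩ := (hmem' x).1 hx
    rw [star_add, star_smul, star_one]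
    exact (hmem' _).2 ⟨_, hst x' hx', _, rfl⟩
  have hirr' : ∀ U : Submodule ℂ W, (∀ x ∈ g', ∀ w ∈ U, x w ∈ U) → U = ⊥ ∨ U = ⊤ :=
    fun U hU => hirr U fun x hx => hU x (hle hx)
  have h1g' : (1 : Module.End ℂ W) ∈ g' := (hmem' _).2 ⟨0, g.zero_mem, 1, by rw [zero_add, one_smul]⟩
  have heg' : e ∈ g' := by
    have h1 : e = β⁻¹ • (α • (1 : Module.End ℂ W) + β • e) + (-(β⁻¹ * α)) • (1 : Module.End ℂ W) := by
      rw [smul_add, smul_smul, smul_smul, inv_mul_cancel₀ hβ]
      module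
    exact (hmem' e).2 ⟨_, g.smul_mem _ hx, _, h1⟩
  have hfull := cop_full g' hbr' hst' hirr' e he hes heg' h1g' he0 he1 hcop
  have h10 : ∀ x : Module.End ℂ W, e * x = x → x * e = 0 → x ∈ g := by
    intro x h1 h2
    have h3 := hbr0 e heg' x (hfull x h1 h2)
    rwa [h1, h2, sub_zero] at h3
  have h01 : ∀ x : Module.End ℂ W, e * x = 0 → x * e = x → x ∈ g := by
    intro x h1 h2
    have h3 : e * star x = star x := by
      have := congrArg star h2
      rwa [star_mul, hes] at this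
    have h4 : star x * e = 0 := by
      have := congrArg star h1
      rwa [star_mul, hes, star_zero] at this
    have h5 := hst _ (h10 _ h3 h4)
    rwa [star_star] at h5
  exact cop_corners g hbr e he he0 he1 h10 h01 A hA

end Main

end Pool.MP43e44c.PE
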