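import Pool.Agent.H.MP_43e44c_ag.PE.Def

/-!
Multilinearity of `prodT`.
-/

set_option autoImplicit false

open NumberField Module Matrix

namespace Pool.MP43e44c.PE

variable {m : ℕ} {K : Type*} [Field K] [NumberField K] [IsCMField K] (D : Dat K m)

/-- `prodT` after changing one matrix. -/
theorem Core1_upd {p : ℕ} (e : Equiv.Perm (Fin p × Fin 2)) (β : Fin p → Mat m ℂ) (q0 : Fin p)
    (X : Mat m ℂ) (x : Fin p × Fin 2 → Fin m) :
    prodT e (Function.update β q0 X) x = X (x (e.symm (q0, 0))) (x (e.symm (q0, 1))) *
      ∏ q ∈ Finset.univ.erase q0, β q (x (e.symm (q, 0))) (x (e.symm (q, 1))) := by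
  unfold prodT
  rw [← Finset.mul_prod_erase Finset.univ _ (Finset.mem_univ q0), Function.update_self]
  congr 1
  refine Finset.prod_congr rfl fun q hq => ?_
  rw [Function.update_of_ne (Finset.ne_of_mem_erase hq)]

/-- `prodT` as a linear function of one matrix. -/
noncomputable def Core1_lin {p : ℕ} (e : Equiv.Perm (Fin p × Fin 2)) (β : Fin p → Mat m ℂ)
    (q0 : Fin p) : Mat m ℂ →ₗ[ℂ] ((Fin p × Fin 2 → Fin m) → ℂ) where
  toFun X := prodT e (Function.update β q0 X)
  map_add' X Y := by
    funext x
    rw [Pi.add_apply, Core1_upd, Core1_upd, Core1_upd, Matrix.add_apply, add_mul]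
  map_smul' c X := by
    funext x
    rw [Pi.smul_apply, Core1_upd, Core1_upd, Matrix.smul_apply, smul_mul_assoc,
      RingHom.id_apply]

/-- `prodT` is multilinear in the matrices: if every `β q` is in the span of a set of rational matrices, the
product is in the span of the rational products. -/
theorem prodT_mem_span {p : ℕ} (e : Equiv.Perm (Fin p × Fin 2)) (V : Set (Mat m ℚ)) (β : Fin p → Mat m ℂ)
    (hβ : ∀ q, β q ∈ Submodule.span ℂ (qc '' V)) :
    prodT e β ∈ Submodule.span ℂ {f | ∃ a : Fin p → Mat m ℚ, (∀ q, a q ∈ V) ∧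
      f = fun x => ((prodT e a x : ℚ) : ℂ)} := by
  classical
  set Sp := Submodule.span ℂ {f : (Fin p × Fin 2 → Fin m) → ℂ | ∃ a : Fin p → Mat m ℚ,
    (∀ q, a q ∈ V) ∧ f = fun x => ((prodT e a x : ℚ) : ℂ)} with hSp
  have key : ∀ T : Finset (Fin p), ∀ β : Fin p → Mat m ℂ,
      (∀ q ∈ T, β q ∈ Submodule.span ℂ (qc '' V)) → (∀ q, q ∉ T → β q ∈ qc '' V) →
      prodT e β ∈ Sp := by
    intro T
    induction T using Finset.induction_on with
    | empty =>
      intro β _ h
      choose a ha using fun q => h q (Finset.notMem_empty q)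
      refine Submodule.subset_span ⟨a, fun q => (ha q).1, ?_⟩
      funext x
      unfold prodT
      rw [Rat.cast_prod]
      refine Finset.prod_congr rfl fun q _ => ?_
      rw [← (ha q).2]
      rfl
    | insert q0 T hq0 ih =>
      intro β h1 h2
      have h3 : β q0 ∈ Submodule.span ℂ (qc '' V) := h1 q0 (Finset.mem_insert_self _ _)
      have h4 : Submodule.span ℂ (qc '' V) ≤ Sp.comap (Core1_lin e β q0) := by
        rw [Submodule.span_le]
        intro X hX
        show prodT e (Function.update β q0 X) ∈ Sp
        apply ih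
        · intro q hq
          have hne : q ≠ q0 := fun h => hq0 (h ▸ hq)
          rw [Function.update_of_ne hne]
          exact h1 q (Finset.mem_insert_of_mem hq)
        · intro q hq
          by_cases hqq : q = q0
          · subst hqq
            rw [Function.update_self]
            exact hX
          · rw [Function.update_of_ne hqq]
            exact h2 q (by rw [Finset.mem_insert]; tauto)
      have h5 := h4 h3
      have h6 : Core1_lin e β q0 (β q0) = prodT e β := by
        show prodT e (Function.update β q0 (β q0)) = _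
        rw [Function.update_eq_self]
      rw [Submodule.mem_comap, h6] at h5
      exact h5
  exact key Finset.univ β (fun q _ => hβ q) (fun q hq => absurd (Finset.mem_univ q) hq)

end Pool.MP43e44c.PE
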