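import Pool.Agent.H.MP_43e44c_ag.PE.Tor

/-!
Hodge classes of degree two from endomorphisms.
-/

set_option autoImplicit false

open NumberField Module Matrix

namespace Pool.MP43e44c.PE

variable {E : Type*} [AddCommGroup E] [Module ℂ E] [Module ℝ E] [IsScalarTower ℝ ℂ E]
variable {K : Type*} [Field K] [NumberField K] [IsCMField K]

theorem Cup1_smul (z : ℂ) (x : E) : z • x = z.re • x + z.im • (Complex.I • x) := by
  have h1 : ∀ (r : ℝ) (y : E), (r : ℂ) • y = r • y := fun r y => by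
    have h := smul_assoc r (1 : ℂ) y
    rw [one_smul] at h
    rw [← h]
    congr 1
    simp
  rw [← h1, ← h1, smul_smul, ← add_smul, Complex.re_add_im]

theorem Cup1_inv {Λ : AddSubgroup E} {ψ : E →ₗ[ℝ] E →ₗ[ℝ] ℝ} (hψ : IsPolarisation Λ ψ) (z : ℂ)
    (hz : ‖z‖ = 1) (x y : E) : ψ (z • x) (z • y) = ψ x y := by
  have h1 := hψ.inv x (Complex.I • y)
  rw [smul_smul, Complex.I_mul_I, neg_one_smul, map_neg] at h1
  have h2 : z.re * z.re + z.im * z.im = 1 := by
    have h3 := Complex.normSq_eq_norm_sq z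
    rw [hz, Complex.normSq_apply] at h3
    linarith
  rw [Cup1_smul z x, Cup1_smul z y]
  simp only [map_add, map_smul, LinearMap.add_apply, LinearMap.smul_apply, smul_eq_mul, hψ.inv]
  have h4 : ψ x (Complex.I • y) = - ψ (Complex.I • x) y := by linarith
  rw [h4]
  linear_combination (ψ x y) * h2

/-- The two form attached to an endomorphism. -/
noncomputable def Cup1_form (ψ : E →ₗ[ℝ] E →ₗ[ℝ] ℝ) (T : Module.End ℂ E) {k : ℕ} (i j : Fin k) :
    (Fin k → E) [⋀^Fin 2]→ₗ[ℝ] ℝ where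
  toFun v := ψ (v 0 i) (T (v 1 j)) - ψ (v 1 i) (T (v 0 j))
  map_update_add' := by
    intro _ v l x y
    have h01 : ∀ z : Fin k → E, Function.update v 0 z 1 = v 1 := fun z =>
      Function.update_of_ne one_ne_zero _ _
    have h10 : ∀ z : Fin k → E, Function.update v 1 z 0 = v 0 := fun z =>
      Function.update_of_ne zero_ne_one _ _
    fin_cases l
    · simp only [Fin.zero_eta, Fin.isValue, Function.update_self, h01, Pi.add_apply, map_add,
        LinearMap.add_apply]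
      ring
    · simp only [Fin.mk_one, Fin.isValue, Function.update_self, h10, Pi.add_apply, map_add,
        LinearMap.add_apply]
      ring
  map_update_smul' := by
    intro _ v l c x
    have h01 : ∀ z : Fin k → E, Function.update v 0 z 1 = v 1 := fun z =>
      Function.update_of_ne one_ne_zero _ _
    have h10 : ∀ z : Fin k → E, Function.update v 1 z 0 = v 0 := fun z =>
      Function.update_of_ne zero_ne_one _ _
    have hT : ∀ y : E, T (c • y) = c • T y := fun y => LinearMap.map_smul_of_tower T c y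
    fin_cases l
    · simp only [Fin.zero_eta, Fin.isValue, Function.update_self, h01, Pi.smul_apply, map_smul,
        LinearMap.smul_apply, smul_eq_mul, hT]
      ring
    · simp only [Fin.mk_one, Fin.isValue, Function.update_self, h10, Pi.smul_apply, map_smul,
        LinearMap.smul_apply, smul_eq_mul, hT]
      ring
  map_eq_zero_of_eq' := by
    intro v l l' h hne
    have h2 : v 0 = v 1 := by
      fin_cases l <;> fin_cases l'
      · exact absurd rfl hne
      · exact h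
      · exact h.symm
      · exact absurd rfl hne
    change ψ (v 0 i) (T (v 1 j)) - ψ (v 1 i) (T (v 0 j)) = 0
    rw [h2, sub_self]

/-- The form `(u, w) ↦ ψ(u_i, a w_j) - ψ(w_i, a u_j)` on `E^k` is a Hodge class of degree two.
Rational: `n • ι a x ∈ Λ`.  Type: `ψ(z x, z y) = ψ(x,y)` for `‖z‖ = 1` from `ψ(ix,iy) = ψ(x,y)`, which
implies `ψ(ix,y) + ψ(x,iy) = 0`. -/
theorem exists_two_form {Λ : AddSubgroup E} {ψ : E →ₗ[ℝ] E →ₗ[ℝ] ℝ} (hψ : IsPolarisation Λ ψ)
    {ι : K →+* Module.End ℂ E}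
    (hι : ∀ φ : Module.End ℂ E, (∃ a, ι a = φ) ↔ ∃ n : ℕ, n ≠ 0 ∧ ∀ x ∈ Λ, n • φ x ∈ Λ)
    {k : ℕ} (i j : Fin k) (a : K) :
    ∃ θ : (Fin k → E) [⋀^Fin 2]→ₗ[ℝ] ℝ, IsHodgeClass (powLattice Λ k) θ ∧
      ∀ u w : Fin k → E, θ ![u, w] = ψ (u i) (ι a (w j)) - ψ (w i) (ι a (u j)) := by
  refine ⟨Cup1_form ψ (ι a) i j, ⟨?_, ?_⟩, fun u w => rfl⟩
  · intro v hv
    obtain ⟨n, hn, hn2⟩ := (hι (ι a)).1 ⟨a, rfl⟩
    have key : ∀ x ∈ Λ, ∀ y ∈ Λ, ∃ q : ℚ, ψ x (ι a y) = q := by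
      intro x hx y hy
      obtain ⟨m, hm⟩ := hψ.int x hx _ (hn2 y hy)
      refine ⟨(m : ℚ) / n, ?_⟩
      rw [map_nsmul, nsmul_eq_mul] at hm
      have hn3 : (n : ℝ) ≠ 0 := Nat.cast_ne_zero.2 hn
      push_cast
      rw [eq_div_iff hn3, mul_comm, hm]
    obtain ⟨q1, h1⟩ := key _ (hv 0 i) _ (hv 1 j)
    obtain ⟨q2, h2⟩ := key _ (hv 1 i) _ (hv 0 j)
    refine ⟨q1 - q2, ?_⟩
    change ψ (v 0 i) (ι a (v 1 j)) - ψ (v 1 i) (ι a (v 0 j)) = _
    rw [h1, h2]
    push_cast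
    rfl
  · intro z hz v
    change ψ (z • v 0 i) (ι a (z • v 1 j)) - ψ (z • v 1 i) (ι a (z • v 0 j)) =
      ψ (v 0 i) (ι a (v 1 j)) - ψ (v 1 i) (ι a (v 0 j))
    rw [(ι a).map_smul, (ι a).map_smul, Cup1_inv hψ z hz, Cup1_inv hψ z hz]

end Pool.MP43e44c.PE
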