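import Pool.Agent.H.MP_43e44c_ag.Cup

/-!
Abelian varieties with `End⁰(A) = K`: matrix data, rational envelope of the complex structure,
projectors, skew elements, tensors.
-/

set_option autoImplicit false

open NumberField Module Matrix

namespace Pool.MP43e44c.PE

/-- Square matrices of size `m` over `F`. -/
abbrev Mat (m : ℕ) (F : Type*) := Matrix (Fin m) (Fin m) F

/-- A complex subspace of an associative algebra closed under commutators. -/
def LieClosed {A : Type*} [Ring A] [Algebra ℂ A] (g : Submodule ℂ A) : Prop :=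
  ∀ x ∈ g, ∀ y ∈ g, x * y - y * x ∈ g

variable {m : ℕ}

/-- Rational matrices as complex matrices. -/
noncomputable abbrev qc : Mat m ℚ →+* Mat m ℂ := (algebraMap ℚ ℂ).mapMatrix

/-- Rational matrices as real matrices. -/
noncomputable abbrev qr : Mat m ℚ →+* Mat m ℝ := (algebraMap ℚ ℝ).mapMatrix

/-- Real matrices as complex matrices. -/
noncomputable abbrev rc : Mat m ℝ →+* Mat m ℂ := (algebraMap ℝ ℂ).mapMatrix

/-- The complex conjugate embedding. -/
abbrev cj {K : Type*} [Field K] (τ : K →+* ℂ) : K →+* ℂ := ComplexEmbedding.conjugate τ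

/-- Entrywise action of a field automorphism of `ℂ`. -/
noncomputable abbrev act (σ : ℂ ≃+* ℂ) (X : Mat m ℂ) : Mat m ℂ := X.map σ

/-- The action of an automorphism of `ℂ` on embeddings. -/
abbrev tw {K : Type*} [Field K] (σ : ℂ ≃+* ℂ) (τ : K →+* ℂ) : K →+* ℂ := (σ : ℂ →+* ℂ).comp τ

/-- The commutator with `x`. -/
def adm {A : Type*} [Ring A] [Algebra ℂ A] (x : A) : A →ₗ[ℂ] A :=
  LinearMap.mulLeft ℂ x - LinearMap.mulRight ℂ x

/-- An abelian variety with endomorphism algebra `K`, in coordinates of a basis of the lattice: `J` is the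
complex structure, `ρ` the action of `K`, `Ψ` the matrix of the polarisation `ψ(u,v) = uᵀ Ψ v`. -/
structure Dat (K : Type*) [Field K] [NumberField K] [IsCMField K] (m : ℕ) where
  J : Mat m ℝ
  ρ : K →+* Mat m ℚ
  Ψ : Mat m ℚ
  J_sq : J * J = -1
  J_ρ : ∀ a, J * qr (ρ a) = qr (ρ a) * J
  comm : ∀ M : Mat m ℚ, J * qr M = qr M * J → ∃ a, ρ a = M
  Ψ_alt : Ψᵀ = -Ψ
  Ψ_J : Jᵀ * qr Ψ * J = qr Ψ
  Ψ_pos : ∀ v : Fin m → ℝ, v ≠ 0 → 0 < v ⬝ᵥ ((qr Ψ * J) *ᵥ v)

variable {K : Type*} [Field K] [NumberField K] [IsCMField K] (D : Dat K m)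

namespace Dat

/-- The rational matrix obtained from `J` by applying a `ℚ`-linear functional `l : ℝ → ℚ` to the entries. -/
noncomputable def Jl (l : ℝ →ₗ[ℚ] ℚ) : Mat m ℚ := D.J.map l

/-- The complex Lie algebra generated by the rational matrices `l(J)`. -/
def G : Submodule ℂ (Mat m ℂ) :=
  sInf {g | LieClosed g ∧ ∀ l : ℝ →ₗ[ℚ] ℚ, qc (D.Jl l) ∈ g}

theorem G_lie : LieClosed D.G := by
  intro x hx y hy
  simp only [G, Submodule.mem_sInf, Set.mem_ofPred_eq] at hx hy ⊢
  exact fun g hg => hg.1 x (hx g hg) y (hy g hg)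

theorem Jl_mem (l : ℝ →ₗ[ℚ] ℚ) : qc (D.Jl l) ∈ D.G := by
  simp only [G, Submodule.mem_sInf, Set.mem_ofPred_eq]
  exact fun g hg => hg.2 l

theorem G_le {g : Submodule ℂ (Mat m ℂ)} (hg : LieClosed g) (h : ∀ l : ℝ →ₗ[ℚ] ℚ, qc (D.Jl l) ∈ g) :
    D.G ≤ g :=
  sInf_le ⟨hg, h⟩

/-- The projector to the `τ`-eigenspace of `K`: `∑_j τ(b_j^∨) ρ(b_j)`. -/
noncomputable def e (τ : K →+* ℂ) : Mat m ℂ :=
  ∑ j, τ ((Algebra.traceForm ℚ K).dualBasis (traceForm_nondegenerate ℚ K) (Module.finBasis ℚ K) j) •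
    qc (D.ρ (Module.finBasis ℚ K j))

/-- The projector to the `i`-eigenspace of the complex structure. -/
noncomputable def P : Mat m ℂ := (1 / 2 : ℂ) • (1 - Complex.I • rc D.J)

/-- The vectors `v` with `J v = i v` and `a v = τ(a) v` for all `a` in `K`. -/
def eig (τ : K →+* ℂ) : Submodule ℂ (Fin m → ℂ) where
  carrier := {v | rc D.J *ᵥ v = Complex.I • v ∧ ∀ a, qc (D.ρ a) *ᵥ v = τ a • v}
  add_mem' := by
    rintro u v ⟨hu, hu'⟩ ⟨hv, hv'⟩
    refine ⟨by rw [mulVec_add, hu, hv, smul_add], fun a => by rw [mulVec_add, hu', hv', smul_add]⟩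
  zero_mem' := ⟨by simp, fun a => by simp⟩
  smul_mem' := by
    rintro c v ⟨hv, hv'⟩
    refine ⟨by rw [mulVec_smul, hv, smul_comm], fun a => by rw [mulVec_smul, hv', smul_comm]⟩

/-- The multiplicity of `τ` on the tangent space. -/
noncomputable def mul (τ : K →+* ℂ) : ℕ := finrank ℂ (D.eig τ)

/-- The `τ`-eigenspace of `K` in `ℂ^m`. -/
noncomputable def W (τ : K →+* ℂ) : Submodule ℂ (Fin m → ℂ) := LinearMap.range (toLin' (D.e τ))

/-- Compression of a matrix to the `τ`-eigenspace: `v ↦ e_τ X v`. -/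
noncomputable def cp (τ : K →+* ℂ) : Mat m ℂ →ₗ[ℂ] Module.End ℂ (D.W τ) where
  toFun X := LinearMap.codRestrict (D.W τ) ((toLin' (D.e τ * X)).comp (D.W τ).subtype)
    (fun v => ⟨X *ᵥ (v : Fin m → ℂ), by simp⟩)
  map_add' X Y := by
    refine LinearMap.ext fun v => Subtype.ext ?_
    simp [mul_add]
  map_smul' c X := by
    refine LinearMap.ext fun v => Subtype.ext ?_
    simp

theorem cp_apply (τ : K →+* ℂ) (X : Mat m ℂ) (v : D.W τ) :
    (D.cp τ X v : Fin m → ℂ) = D.e τ *ᵥ (X *ᵥ (v : Fin m → ℂ)) := by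
  simp [cp, mulVec_mulVec]

/-- Skew matrices commuting with `K`: the complexified unitary Lie algebra. -/
def Sk (X : Mat m ℂ) : Prop :=
  (∀ τ, X * D.e τ = D.e τ * X) ∧ Xᵀ * qc D.Ψ + qc D.Ψ * X = 0

end Dat

section Tensors

variable {S : Type*} [Fintype S] [DecidableEq S] {F : Type*} [CommRing F]

/-- A matrix `M` acts on a multilinear form `T` on `F^m` (given by its values on basis vectors) as a
derivation: `(M T)(v) = ∑_s T(…, M v_s, …)`. -/
def der (M : Mat m F) (T : (S → Fin m) → F) : (S → Fin m) → F :=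
  fun x => ∑ s, ∑ i, M i (x s) * T (Function.update x s i)

/-- The product over a perfect matching of the slots of bilinear forms with matrices `β p`. -/
def prodT {Q : Type*} [Fintype Q] (e : S ≃ Q × Fin 2) (β : Q → Mat m F) : (S → Fin m) → F :=
  fun x => ∏ q, β q (x (e.symm (q, 0))) (x (e.symm (q, 1)))

end Tensors

end Pool.MP43e44c.PE
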