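import Pool.Agent.H.MP_43e44c_ag.PE.Dens1

/-!
The associative algebra generated by the rational envelope is the commutant of `K`.
-/

set_option autoImplicit false

open NumberField Module Matrix

namespace Pool.MP43e44c.PE

variable {m : ℕ} {K : Type*} [Field K] [NumberField K] [IsCMField K] (D : Dat K m)

section Aux

/-- The algebra generated by the `l(J)`, as an algebra of endomorphisms. -/
noncomputable def Dens_R : Subalgebra ℚ (Module.End ℚ (Fin m → ℚ)) :=
  (Algebra.adjoin ℚ (Set.range D.Jl)).map (Matrix.toLinAlgEquiv' : Mat m ℚ ≃ₐ[ℚ] _).toAlgHom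

theorem Dens_mem {A : Mat m ℚ} (hA : A ∈ Algebra.adjoin ℚ (Set.range D.Jl)) :
    Matrix.toLin' A ∈ Dens_R D :=
  ⟨A, hA, rfl⟩

theorem Dens_Jl (l : ℝ →ₗ[ℚ] ℚ) : Matrix.toLin' (D.Jl l) ∈ Dens_R D :=
  Dens_mem D (Algebra.subset_adjoin ⟨l, rfl⟩)

theorem Dens_smul (r : Dens_R D) (v : Fin m → ℚ) : r • v = (r : Module.End ℚ (Fin m → ℚ)) v := rfl

theorem Dens_simple (hm : 0 < m) : IsSimpleModule (Dens_R D) (Fin m → ℚ) := by
  have hne : Nonempty (Fin m) := ⟨⟨0, hm⟩⟩
  have hnt : Nontrivial (Fin m → ℚ) := inferInstance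
  refine { toNontrivial := inferInstance, eq_bot_or_eq_top := fun U => ?_ }
  have h0 : ∀ l, ∀ u ∈ U.restrictScalars ℚ, D.Jl l *ᵥ u ∈ U.restrictScalars ℚ := by
    intro l u hu
    have h1 := U.smul_mem (⟨Matrix.toLin' (D.Jl l), Dens_Jl D l⟩ : Dens_R D) hu
    rw [Dens_smul, Matrix.toLin'_apply] at h1
    exact h1
  rcases stable_bot_or_top D (U.restrictScalars ℚ) h0 with h | h
  · left
    rwa [Submodule.restrictScalars_eq_bot_iff] at h
  · right
    rwa [Submodule.restrictScalars_eq_top_iff] at h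

/-- An endomorphism commuting with the `l(J)` commutes with the matrices which commute with `K`. -/
theorem Dens_comm {M : Mat m ℚ} (hM : ∀ a, M * D.ρ a = D.ρ a * M)
    (φ : Module.End (Dens_R D) (Fin m → ℚ)) (v : Fin m → ℚ) :
    M *ᵥ φ v = φ (M *ᵥ v) := by
  set N : Mat m ℚ := LinearMap.toMatrix' (φ.restrictScalars ℚ) with hN
  have hφ : ∀ v, φ v = N *ᵥ v := by
    intro v
    rw [hN, LinearMap.toMatrix'_mulVec]
    rfl
  have h1 : ∀ l, D.Jl l * N = N * D.Jl l := by
    intro l
    refine Matrix.toLin'.injective (LinearMap.ext fun v => ?_)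
    rw [Matrix.toLin'_apply, Matrix.toLin'_apply, ← Matrix.mulVec_mulVec, ← Matrix.mulVec_mulVec,
      ← hφ, ← hφ]
    have h2 := φ.map_smul (⟨Matrix.toLin' (D.Jl l), Dens_Jl D l⟩ : Dens_R D) v
    rw [Dens_smul, Dens_smul, Matrix.toLin'_apply, Matrix.toLin'_apply] at h2
    exact h2.symm
  obtain ⟨a, ha⟩ := D.comm N ((comm_Jl D N).1 h1)
  rw [hφ, hφ, Matrix.mulVec_mulVec, Matrix.mulVec_mulVec, ← ha, hM a]

/-- Multiplication by `M` as a map linear over the commutant. -/
noncomputable def Dens_f {M : Mat m ℚ} (hM : ∀ a, M * D.ρ a = D.ρ a * M) :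
    Module.End (Module.End (Dens_R D) (Fin m → ℚ)) (Fin m → ℚ) where
  toFun v := M *ᵥ v
  map_add' := Matrix.mulVec_add M
  map_smul' φ v := Dens_comm D hM φ v |>.symm ▸ rfl

end Aux

/-- Density: a rational matrix commuting with `ρ(K)` lies in the algebra generated by the `l(J)`.
Proof: `R` = this algebra acting on `V = ℚ^m` (a simple module by `stable_bot_or_top` if `m > 0`); its
endomorphisms are rational matrices commuting with `J`, so they are `ρ(a)`; by the density theorem
(`Module.Finite.toModuleEnd_moduleEnd_surjective` or `jacobson_density`) every endomorphism commuting with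
`ρ(K)` comes from `R`. -/
theorem denseQ {M : Mat m ℚ} (hM : ∀ a, M * D.ρ a = D.ρ a * M) :
    M ∈ Algebra.adjoin ℚ (Set.range D.Jl) := by
  rcases Nat.eq_zero_or_pos m with hm | hm
  · subst hm
    have : M = 0 := Subsingleton.elim _ _
    rw [this]
    exact zero_mem _
  have hs := Dens_simple D hm
  obtain ⟨⟨r, A, hA, hr⟩, h1⟩ := jacobson_density (R := Dens_R D) (Dens_f D hM)
    (Finset.univ.image fun i : Fin m => (Pi.single i (1 : ℚ) : Fin m → ℚ))
  have h2 : M = A := by
    refine Matrix.ext fun i j => ?_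
    have h3 := h1 (Pi.single j 1) (Finset.mem_image_of_mem _ (Finset.mem_univ j))
    have h4 : M *ᵥ Pi.single j 1 = A *ᵥ Pi.single j 1 := by
      rw [Dens_smul] at h3
      refine h3.trans ?_
      show r (Pi.single j 1) = _
      rw [← hr]
      rfl
    have h5 := congrFun h4 i
    simpa using h5
  rw [h2]
  exact hA

/-- The complexification of the algebra. -/
theorem Dens_qc {M : Mat m ℚ} (hM : M ∈ Algebra.adjoin ℚ (Set.range D.Jl)) :
    qc M ∈ Algebra.adjoin ℂ (D.G : Set (Mat m ℂ)) := by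
  induction hM using Algebra.adjoin_induction with
  | mem x hx =>
    obtain ⟨l, rfl⟩ := hx
    exact Algebra.subset_adjoin (D.Jl_mem l)
  | algebraMap r =>
    have h : qc (algebraMap ℚ (Mat m ℚ) r) = algebraMap ℂ (Mat m ℂ) (r : ℂ) := by
      ext i j
      by_cases hij : i = j
      · subst hij
        simp [Matrix.algebraMap_matrix_apply]
      · simp [Matrix.algebraMap_matrix_apply, hij]
    rw [h]
    exact Subalgebra.algebraMap_mem _ _
  | add x y _ _ hx hy => rw [map_add]; exact add_mem hx hy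
  | mul x y _ _ hx hy => rw [map_mul]; exact mul_mem hx hy

/-- The same over `ℂ`: decompose the entries of `Y` with `exists_rat_decomp`; the rational matrices
`l_j(Y)` commute with `ρ(K)`, apply `denseQ` and map `Algebra.adjoin ℚ` into `Algebra.adjoin ℂ` of `G`. -/
theorem dens {Y : Mat m ℂ} (hY : ∀ a, Y * qc (D.ρ a) = qc (D.ρ a) * Y) :
    Y ∈ Algebra.adjoin ℂ (D.G : Set (Mat m ℂ)) := by
  obtain ⟨r, c, l, h⟩ := exists_rat_decomp (F := ℂ) (fun q : Fin m × Fin m => Y q.1 q.2)
  have h1 : ∀ k a, Y.map (l k) * D.ρ a = D.ρ a * Y.map (l k) := by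
    intro k a
    refine Matrix.ext fun i j => ?_
    have h2 := congrArg (l k) (congrFun (congrFun (hY a) i) j)
    rw [Matrix.mul_apply, Matrix.mul_apply, map_sum, map_sum] at h2
    rw [Matrix.mul_apply, Matrix.mul_apply]
    have h3 : ∀ (y : ℂ) (q : ℚ), l k (y * algebraMap ℚ ℂ q) = l k y * q := by
      intro y q
      rw [mul_comm, ← Algebra.smul_def, map_smul, smul_eq_mul, mul_comm]
    have h4 : ∀ (y : ℂ) (q : ℚ), l k (algebraMap ℚ ℂ q * y) = q * l k y := by
      intro y q
      rw [← Algebra.smul_def, map_smul, smul_eq_mul]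
    calc ∑ p, Y.map (l k) i p * D.ρ a p j = ∑ p, l k (Y i p * qc (D.ρ a) p j) := by
          refine Finset.sum_congr rfl fun p _ => ?_
          exact (h3 _ _).symm
      _ = ∑ p, l k (qc (D.ρ a) i p * Y p j) := h2
      _ = ∑ p, D.ρ a i p * Y.map (l k) p j := Finset.sum_congr rfl fun p _ => h4 _ _
  have h5 : Y = ∑ k, c k • qc (Y.map (l k)) := by
    refine Matrix.ext fun i j => ?_
    rw [Matrix.sum_apply]
    exact h (i, j)
  rw [h5]
  exact sum_mem fun k _ => Subalgebra.smul_mem _ (Dens_qc D (denseQ D (h1 k))) _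

end Pool.MP43e44c.PE
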