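import Pool.Agent.H.MP_43e44c_ag.PE.Set2
import Pool.Agent.H.MP_43e44c_ag.PE.Set3
import Pool.Agent.H.MP_43e44c_ag.PE.Env

/-!
Stable rational subspaces.
-/

set_option autoImplicit false

open NumberField Module Matrix

namespace Pool.MP43e44c.PE

variable {m : ℕ} {K : Type*} [Field K] [NumberField K] [IsCMField K] (D : Dat K m)

/-- The rational bilinear form `uᵀ Ψ v`. -/
noncomputable def dens1B : LinearMap.BilinForm ℚ (Fin m → ℚ) := Matrix.toBilin' D.Ψ

theorem dens1B_apply (u v : Fin m → ℚ) : dens1B D u v = u ⬝ᵥ (D.Ψ *ᵥ v) :=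
  Matrix.toBilin'_apply' _ _ _

theorem dens1B_swap (u v : Fin m → ℚ) : dens1B D v u = - dens1B D u v := by
  rw [dens1B_apply, dens1B_apply, dotProduct_mulVec, ← mulVec_transpose, D.Ψ_alt, neg_mulVec,
    neg_dotProduct, dotProduct_comm]

theorem dens1B_refl : (dens1B D).IsRefl := fun u v h => by
  rw [dens1B_swap, h, neg_zero]

theorem dens1B_Jl (l : ℝ →ₗ[ℚ] ℚ) (u v : Fin m → ℚ) :
    dens1B D u (D.Jl l *ᵥ v) = - dens1B D (D.Jl l *ᵥ u) v := by
  have h := Jl_skew D l
  have h1 : D.Ψ * D.Jl l = -((D.Jl l)ᵀ * D.Ψ) := eq_neg_of_add_eq_zero_right h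
  rw [dens1B_apply, dens1B_apply, mulVec_mulVec, h1, neg_mulVec, dotProduct_neg, ← mulVec_mulVec,
    dotProduct_mulVec, vecMul_transpose]

/-- A real vector with rational coordinates: `uᵀ Ψ J u` is a real combination of the `uᵀ Ψ l(J) u`. -/
theorem dens1_pos (u : Fin m → ℚ) (hu : u ≠ 0) : ∃ l, dens1B D u (D.Jl l *ᵥ u) ≠ 0 := by
  by_contra hcon
  push Not at hcon
  obtain ⟨r, c, l, hl⟩ := exists_rat_decomp (fun p : Fin m × Fin m => D.J p.1 p.2)
  have hJ : D.J = ∑ j, c j • qr (D.Jl (l j)) := by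
    ext a b
    have h1 := hl (a, b)
    simp only at h1
    rw [Matrix.sum_apply, h1]
    refine Finset.sum_congr rfl fun j _ => ?_
    rw [Matrix.smul_apply, smul_eq_mul]
    congr 2
  set v : Fin m → ℝ := fun i => ((u i : ℚ) : ℝ) with hv
  have hv0 : v ≠ 0 := by
    intro h
    apply hu
    funext i
    have := congrFun h i
    simpa [hv] using this
  have hpos := D.Ψ_pos v hv0
  have hq : ∀ l, v ⬝ᵥ ((qr D.Ψ * qr (D.Jl l)) *ᵥ v) = ((dens1B D u (D.Jl l *ᵥ u) : ℚ) : ℝ) := by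
    intro l
    rw [dens1B_apply, mulVec_mulVec]
    rw [← map_mul]
    simp only [dotProduct, mulVec, hv, RingHom.mapMatrix_apply, Matrix.map_apply]
    push_cast
    rfl
  have h0 : v ⬝ᵥ ((qr D.Ψ * D.J) *ᵥ v) = 0 := by
    rw [hJ, Finset.mul_sum, Matrix.sum_mulVec, dotProduct_sum]
    refine Finset.sum_eq_zero fun j _ => ?_
    rw [Matrix.mul_smul, smul_mulVec, dotProduct_smul, hq, hcon, Rat.cast_zero, smul_zero]
  rw [h0] at hpos
  exact lt_irrefl _ hpos

theorem dens1_compl (U : Submodule ℚ (Fin m → ℚ)) (hU : ∀ l, ∀ u ∈ U, D.Jl l *ᵥ u ∈ U) :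
    IsCompl U ((dens1B D).orthogonal U) := by
  rw [LinearMap.BilinForm.isCompl_orthogonal_iff_disjoint (dens1B_refl D), Submodule.disjoint_def]
  intro u hu hu'
  by_contra h0
  obtain ⟨l, hl⟩ := dens1_pos D u h0
  apply hl
  rw [LinearMap.BilinForm.mem_orthogonal_iff] at hu'
  have h1 : dens1B D (D.Jl l *ᵥ u) u = 0 := hu' _ (hU l u hu)
  rw [dens1B_Jl, h1, neg_zero]

/-- A rational subspace `U` of `ℚ^m` stable under all `l(J)` is `⊥` or `⊤`.  Proof: `U' = {v | ∀ u ∈ U,
uᵀ Ψ v = 0}` is stable by `Jl_skew`, `U ∩ U' = 0`: for `u` in it the real vector `J u` is a real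
combination of elements of `U` (`exists_rat_decomp`), so `uᵀ Ψ J u = 0`, against `Ψ_pos`; so `U'` is a
complement (`Ψ` is nondegenerate, dimension count).  The projection to `U` along `U'` is a rational matrix
commuting with all `l(J)`, hence with `J` (`comm_Jl`), hence it is `ρ a` (`D.comm`) with `a² = a`
(`ρ` injective if `m > 0`), so `a = 0` or `a = 1`. -/
theorem stable_bot_or_top (U : Submodule ℚ (Fin m → ℚ)) (hU : ∀ l, ∀ u ∈ U, D.Jl l *ᵥ u ∈ U) :
    U = ⊥ ∨ U = ⊤ := by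
  rcases Nat.eq_zero_or_pos m with hm | hm
  · subst hm
    left
    exact Subsingleton.elim _ _
  have hne : Nonempty (Fin m) := ⟨⟨0, hm⟩⟩
  set U' := (dens1B D).orthogonal U with hU'
  have hc : IsCompl U U' := dens1_compl D U hU
  have hU's : ∀ l, ∀ v ∈ U', D.Jl l *ᵥ v ∈ U' := by
    intro l v hv
    rw [hU', LinearMap.BilinForm.mem_orthogonal_iff] at hv ⊢
    intro u hu
    have h1 : dens1B D (D.Jl l *ᵥ u) v = 0 := hv _ (hU l u hu)
    show dens1B D u (D.Jl l *ᵥ v) = 0
    rw [dens1B_Jl, h1, neg_zero]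
  set π : (Fin m → ℚ) →ₗ[ℚ] (Fin m → ℚ) := U.projection U' hc with hπ
  set M : Mat m ℚ := LinearMap.toMatrix' π with hM
  have hMv : ∀ v, M *ᵥ v = π v := fun v => LinearMap.toMatrix'_mulVec π v
  have hcomm : ∀ l, D.Jl l * M = M * D.Jl l := by
    intro l
    apply Matrix.toLin'.injective
    refine LinearMap.ext fun v => ?_
    rw [toLin'_apply, toLin'_apply, ← mulVec_mulVec, ← mulVec_mulVec, hMv, hMv]
    have hv : v = π v + (v - π v) := by abel
    have h1 : π v ∈ U := Submodule.projection_apply_mem hc v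
    have h2 : v - π v ∈ U' := by
      rw [← Submodule.projection_apply_eq_zero_iff hc, map_sub, sub_eq_zero]
      exact (Submodule.projection_apply_of_mem_left hc h1).symm
    have h3 : π (D.Jl l *ᵥ (π v)) = D.Jl l *ᵥ (π v) :=
      Submodule.projection_apply_of_mem_left hc (hU l _ h1)
    have h4 : π (D.Jl l *ᵥ (v - π v)) = 0 :=
      (Submodule.projection_apply_eq_zero_iff hc).2 (hU's l _ h2)
    have h5 : D.Jl l *ᵥ v = D.Jl l *ᵥ (π v) + D.Jl l *ᵥ (v - π v) := by
      rw [← mulVec_add]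
      congr 1
    rw [h5, map_add, h3, h4, add_zero]
  obtain ⟨a, ha⟩ := D.comm M ((comm_Jl D M).1 hcomm)
  have hMM : M * M = M := by
    apply Matrix.toLin'.injective
    refine LinearMap.ext fun v => ?_
    rw [toLin'_apply, toLin'_apply, ← mulVec_mulVec, hMv, hMv]
    exact Submodule.projection_apply_of_mem_left hc (Submodule.projection_apply_mem hc v)
  have haa : a * a = a := D.ρ.injective (by rw [map_mul, ha, hMM])
  have hrange : LinearMap.range π = U := Submodule.range_projection hc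
  have hor : a = 0 ∨ a = 1 := by
    have h1 : a * (a - 1) = 0 := by rw [mul_sub, haa, mul_one, sub_self]
    rcases mul_eq_zero.1 h1 with h | h
    · exact Or.inl h
    · exact Or.inr (sub_eq_zero.1 h)
  rcases hor with h | h
  · left
    rw [← hrange, eq_bot_iff]
    rintro _ ⟨v, rfl⟩
    rw [← hMv, ← ha, h, map_zero, zero_mulVec]
    exact Submodule.zero_mem _
  · right
    rw [← hrange, eq_top_iff]
    intro v _
    refine ⟨v, ?_⟩
    rw [← hMv, ← ha, h, map_one, one_mulVec]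

end Pool.MP43e44c.PE
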