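import Pool.Agent.H.MP_43e44c_ag.PE.FFTa2

/-!
First fundamental theorem with colours, III.
-/

set_option autoImplicit false

open Module Matrix

namespace Pool.MP43e44c.PE

variable {S ι C : Type*} [Fintype S] [DecidableEq S] [Fintype ι] [DecidableEq ι]

/-- A matrix commuting with all colour preserving permutations is in the algebra generated by the `Dk`:
it is the average of its conjugates `Pm σ M Pm σ⁻¹`; write `M` as a combination of matrix units
`E_{x,y} = Tp (fun s => E_{x s, y s})`, conjugation by `Pm σ` maps `Tp Y` to `Tp (Y ∘ σ^{±1})`; use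
`sym_mem`. -/
theorem comm_perm_mem [DecidableEq C] (c : S → C) (M : Matrix (S → ι) (S → ι) ℂ)
    (hM : ∀ σ : Equiv.Perm S, (∀ s, c (σ s) = c s) → M * Pm σ = Pm σ * M) :
    M ∈ Algebra.adjoin ℂ {M | ∃ j Z, M = Dk c j Z} := by
  classical
  set P := (Finset.univ : Finset (Equiv.Perm S)).filter (fun σ => ∀ s, c (σ s) = c s) with hP
  have h1P : (1 : Equiv.Perm S) ∈ P := by simp [hP]
  have hcard : (P.card : ℂ) ≠ 0 := by
    rw [Nat.cast_ne_zero]
    exact Finset.card_ne_zero_of_mem h1P
  -- invariance of the entries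
  have hinv : ∀ σ ∈ P, ∀ a b : S → ι, M (a ∘ σ) (b ∘ σ) = M a b := by
    intro σ hσ a b
    have h1 := congrFun (congrFun (hM σ (by simpa [hP] using hσ)) (a ∘ σ)) b
    rw [Matrix.mul_apply, Matrix.mul_apply] at h1
    have h2 : ∑ u, M (a ∘ σ) u * Pm σ u b = M (a ∘ σ) (b ∘ σ) := by
      rw [Finset.sum_eq_single (b ∘ σ)]
      · simp [Pm]
      · intro u _ hu
        simp [Pm, hu]
      · simp
    have h3 : ∑ u, Pm σ (a ∘ σ) u * M u b = M a b := by
      rw [Finset.sum_eq_single a]
      · simp [Pm]
      · intro u _ hu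
        have : ¬ (a ∘ σ = u ∘ σ) := by
          intro h
          apply hu
          funext s
          have := congrFun h (σ.symm s)
          simpa using this.symm
        simp [Pm, this]
      · simp
    rw [h2, h3] at h1
    exact h1
  have key : (P.card : ℂ) • M = ∑ x : S → ι, ∑ y : S → ι, M x y •
      ∑ σ ∈ P, Tp ((fun s => Matrix.single (x s) (y s) (1 : ℂ)) ∘ σ) := by
    ext a b
    have h0 : ∀ (σ : Equiv.Perm S) (x y : S → ι),
        Tp ((fun s => Matrix.single (x s) (y s) (1 : ℂ)) ∘ σ) a b =
          if x ∘ σ = a ∧ y ∘ σ = b then 1 else 0 := by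
      intro σ x y
      unfold Tp
      simp only [Function.comp_apply, Matrix.single_apply]
      rw [Finset.prod_boole]
      congr 1
      simp only [Finset.mem_univ, forall_true_left, eq_iff_iff, funext_iff, Function.comp_apply]
      exact forall_and
    simp only [Matrix.smul_apply, Matrix.sum_apply, smul_eq_mul, h0]
    have h1 : ∀ σ ∈ P, ∑ x : S → ι, ∑ y : S → ι, M x y * (if x ∘ σ = a ∧ y ∘ σ = b then 1 else 0) =
        M a b := by
      intro σ hσ
      have ha : ∀ x : S → ι, x ∘ σ = a ↔ x = a ∘ σ.symm := by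
        intro x
        constructor
        · rintro rfl
          funext s; simp
        · rintro rfl
          funext s; simp
      have hb : ∀ x : S → ι, x ∘ σ = b ↔ x = b ∘ σ.symm := by
        intro x
        constructor
        · rintro rfl
          funext s; simp
        · rintro rfl
          funext s; simp
      simp only [ha, hb]
      rw [Finset.sum_eq_single (a ∘ σ.symm)]
      · rw [Finset.sum_eq_single (b ∘ σ.symm)]
        · simp only [and_self, if_true, mul_one]
          have := hinv σ hσ (a ∘ σ.symm) (b ∘ σ.symm)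
          rw [← this]
          congr 1
          · funext s; simp
          · funext s; simp
        · intro y _ hy
          simp [hy]
        · simp
      · intro x _ hx
        simp [hx]
      · simp
    have h2 : ∑ x : S → ι, ∑ y : S → ι, M x y * ∑ σ ∈ P, (if x ∘ σ = a ∧ y ∘ σ = b then (1 : ℂ) else 0)
        = ∑ σ ∈ P, ∑ x : S → ι, ∑ y : S → ι, M x y * (if x ∘ σ = a ∧ y ∘ σ = b then 1 else 0) := by
      simp only [Finset.mul_sum]
      have h5 : ∀ x : S → ι, ∑ y : S → ι, ∑ σ ∈ P,
          M x y * (if x ∘ σ = a ∧ y ∘ σ = b then (1 : ℂ) else 0) =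
          ∑ σ ∈ P, ∑ y : S → ι, M x y * (if x ∘ σ = a ∧ y ∘ σ = b then (1 : ℂ) else 0) :=
        fun x => Finset.sum_comm
      rw [Finset.sum_congr rfl fun x _ => h5 x]
      exact Finset.sum_comm
    rw [h2, Finset.sum_congr rfl h1]
    simp
  have h3 : M = (P.card : ℂ)⁻¹ • ((P.card : ℂ) • M) := by
    rw [smul_smul, inv_mul_cancel₀ hcard, one_smul]
  rw [h3, key]
  refine Subalgebra.smul_mem _ (Subalgebra.sum_mem _ fun x _ => Subalgebra.sum_mem _ fun y _ =>
    Subalgebra.smul_mem _ ?_ _) _
  exact sym_mem c _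

end Pool.MP43e44c.PE
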