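import Pool.Agent.H.MP_43e44c_ag.PE.FFTd

/-!
First fundamental theorem with colours, I.
-/

set_option autoImplicit false
set_option linter.unusedSectionVars false

open Module Matrix

namespace Pool.MP43e44c.PE

variable {S ι C : Type*} [Fintype S] [DecidableEq S] [Fintype ι] [DecidableEq ι]

/-- the factors of a product over an injection -/
noncomputable def FFTa1_A {n : ℕ} (φ : Fin n ↪ S) (Y : Fin n → Matrix ι ι ℂ) (s : S) :
    Matrix ι ι ℂ :=
  if h : ∃ i, φ i = s then Y h.choose else 1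

theorem FFTa1_A_apply {n : ℕ} (φ : Fin n ↪ S) (Y : Fin n → Matrix ι ι ℂ) (i : Fin n) :
    FFTa1_A φ Y (φ i) = Y i := by
  have h : ∃ i', φ i' = φ i := ⟨i, rfl⟩
  unfold FFTa1_A
  rw [dif_pos h]
  congr 1
  exact φ.injective h.choose_spec

theorem FFTa1_A_not {n : ℕ} (φ : Fin n ↪ S) (Y : Fin n → Matrix ι ι ℂ) {s : S}
    (hs : s ∉ Set.range φ) : FFTa1_A φ Y s = 1 := by
  unfold FFTa1_A
  exact dif_neg hs

/-- the identity at all slots except `s` -/
def FFTa1_U (s : S) (Z : Matrix ι ι ℂ) : S → Matrix ι ι ℂ :=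
  Function.update (fun _ => (1 : Matrix ι ι ℂ)) s Z

theorem FFTa1_U_self (s : S) (Z : Matrix ι ι ℂ) : FFTa1_U s Z s = Z := by
  unfold FFTa1_U
  rw [Function.update_self]

theorem FFTa1_U_ne {s s' : S} (h : s' ≠ s) (Z : Matrix ι ι ℂ) : FFTa1_U s Z s' = 1 := by
  unfold FFTa1_U
  rw [Function.update_of_ne h]

/-- product of tensor products -/
theorem FFTa1_tp_mul (A B : S → Matrix ι ι ℂ) : Tp A * Tp B = Tp fun s => A s * B s := by
  ext x y
  rw [Matrix.mul_apply]
  unfold Tp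
  simp_rw [Matrix.mul_apply, Finset.prod_univ_sum, Fintype.piFinset_univ, Finset.prod_mul_distrib]

/-- the operators `Dk` as sums of tensor products -/
theorem FFTa1_dk_eq [DecidableEq C] (c : S → C) (j : C) (Z : Matrix ι ι ℂ) :
    Dk c j Z = ∑ s ∈ Finset.univ.filter (fun s => c s = j),
      Tp (FFTa1_U s Z) := by
  ext x y
  rw [Matrix.sum_apply, Finset.sum_filter]
  unfold Dk Tp
  refine Finset.sum_congr rfl fun s _ => ?_
  by_cases hc : c s = j
  · rw [if_pos hc, ← Finset.mul_prod_erase Finset.univ _ (Finset.mem_univ s),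
      FFTa1_U_self]
    by_cases h : ∀ s', s' ≠ s → x s' = y s'
    · rw [if_pos ⟨hc, h⟩, Finset.prod_eq_one, mul_one]
      intro s' hs'
      have hne := (Finset.mem_erase.1 hs').1
      rw [FFTa1_U_ne hne, h s' hne, Matrix.one_apply_eq]
    · rw [if_neg (fun h' => h h'.2)]
      push Not at h
      obtain ⟨s', hne, hxy⟩ := h
      rw [Finset.prod_eq_zero (Finset.mem_erase.2 ⟨hne, Finset.mem_univ s'⟩), mul_zero]
      rw [FFTa1_U_ne hne, Matrix.one_apply_ne hxy]
  · rw [if_neg hc, if_neg (fun h' => hc h'.1)]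

/-- the new slot -/
theorem FFTa1_new {n : ℕ} (φ : Fin n ↪ S) (Y : Fin n → Matrix ι ι ℂ) (Z : Matrix ι ι ℂ) (s : S)
    (ψ : Fin (n + 1) ↪ S) (h1 : ∀ i : Fin n, ψ i.castSucc = φ i) (h2 : ψ (Fin.last n) = s) :
    (fun s' => FFTa1_A φ Y s' * FFTa1_U s Z s') =
      FFTa1_A ψ (Fin.snoc (α := fun _ => Matrix ι ι ℂ) Y Z) := by
  have hs : s ∉ Set.range φ := by
    rintro ⟨i, hi⟩
    rw [← h1 i, ← h2] at hi
    exact (Fin.castSucc_lt_last i).ne (ψ.injective hi)
  funext s'
  by_cases h : s' ∈ Set.range ψ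
  · obtain ⟨i, rfl⟩ := h
    rw [FFTa1_A_apply]
    refine Fin.lastCases ?_ (fun i => ?_) i
    · rw [h2, FFTa1_U_self, FFTa1_A_not φ Y hs, one_mul, Fin.snoc_last]
    · have hne : ψ i.castSucc ≠ s := by
        rw [h1]
        exact fun hc => hs ⟨i, hc⟩
      rw [FFTa1_U_ne hne, mul_one, h1, FFTa1_A_apply, Fin.snoc_castSucc]
  · have hφ : s' ∉ Set.range φ := by
      rintro ⟨i, rfl⟩
      exact h ⟨i.castSucc, h1 i⟩
    have hne : s' ≠ s := by
      rintro rfl
      exact h ⟨Fin.last n, h2⟩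
    rw [FFTa1_A_not ψ _ h, FFTa1_A_not φ Y hφ, FFTa1_U_ne hne, one_mul]

/-- an old slot -/
theorem FFTa1_old {n : ℕ} (φ : Fin n ↪ S) (Y : Fin n → Matrix ι ι ℂ) (Z : Matrix ι ι ℂ)
    (i : Fin n) :
    (fun s' => FFTa1_A φ Y s' * FFTa1_U (φ i) Z s') =
      FFTa1_A φ (Function.update Y i (Y i * Z)) := by
  funext s'
  by_cases h : s' ∈ Set.range φ
  · obtain ⟨i', rfl⟩ := h
    rw [FFTa1_A_apply, FFTa1_A_apply]
    by_cases hi : i' = i
    · subst hi
      rw [Function.update_self, FFTa1_U_self]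
    · rw [Function.update_of_ne hi, FFTa1_U_ne (fun hc => hi (φ.injective hc)), mul_one]
  · have hne : s' ≠ φ i := by
      rintro rfl
      exact h ⟨i, rfl⟩
    rw [FFTa1_A_not φ _ h, FFTa1_A_not φ _ h, FFTa1_U_ne hne, one_mul]

theorem FFTa1_Sn_eq [DecidableEq C] (c : S → C) {n : ℕ} (k : Fin n → C)
    (Y : Fin n → Matrix ι ι ℂ) :
    Sn c k Y = ∑ φ ∈ (Finset.univ : Finset (Fin n ↪ S)).filter (fun φ => ∀ i, c (φ i) = k i),
      Tp (FFTa1_A φ Y) := rfl

/-- the recursion -/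
theorem FFTa1_rec [DecidableEq C] (c : S → C) {n : ℕ} (k : Fin (n + 1) → C)
    (Y : Fin (n + 1) → Matrix ι ι ℂ) :
    Sn c (fun i => k i.castSucc) (fun i => Y i.castSucc) * Dk c (k (Fin.last n)) (Y (Fin.last n)) =
      ∑ i ∈ Finset.univ.filter (fun i : Fin n => k i.castSucc = k (Fin.last n)),
        Sn c (fun i => k i.castSucc) (Function.update (fun i => Y i.castSucc) i
          (Y i.castSucc * Y (Fin.last n))) + Sn c k Y := by
  classical
  set k' : Fin n → C := fun i => k i.castSucc with hk'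
  set Y' : Fin n → Matrix ι ι ℂ := fun i => Y i.castSucc with hY'
  set j := k (Fin.last n) with hj
  set Z := Y (Fin.last n) with hZ
  have hY : Fin.snoc (α := fun _ => Matrix ι ι ℂ) Y' Z = Y := by
    funext i
    refine Fin.lastCases ?_ (fun i => ?_) i
    · rw [Fin.snoc_last]
    · rw [Fin.snoc_castSucc]
  rw [FFTa1_Sn_eq, FFTa1_dk_eq, Finset.sum_mul_sum]
  simp_rw [FFTa1_tp_mul]
  have h1 : ∀ φ ∈ (Finset.univ : Finset (Fin n ↪ S)).filter (fun φ => ∀ i, c (φ i) = k' i),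
      ∑ s ∈ Finset.univ.filter (fun s => c s = j),
        Tp (fun s' => FFTa1_A φ Y' s' * FFTa1_U s Z s') =
      ∑ i ∈ Finset.univ.filter (fun i : Fin n => k' i = j),
        Tp (FFTa1_A φ (Function.update Y' i (Y' i * Z))) +
      ∑ s ∈ (Finset.univ.filter (fun s => c s = j)).filter (fun s => s ∉ Set.range φ),
        Tp (fun s' => FFTa1_A φ Y' s' * FFTa1_U s Z s') := by
    intro φ hφ
    rw [Finset.mem_filter] at hφ
    rw [← Finset.sum_filter_add_sum_filter_not (Finset.univ.filter (fun s => c s = j))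
      (fun s => s ∈ Set.range φ)]
    congr 1
    symm
    refine Finset.sum_bij (fun i _ => φ i) ?_ ?_ ?_ ?_
    · intro i hi
      rw [Finset.mem_filter] at hi
      rw [Finset.mem_filter, Finset.mem_filter]
      exact ⟨⟨Finset.mem_univ _, by rw [hφ.2 i, hi.2]⟩, ⟨i, rfl⟩⟩
    · intro i _ i' _ h
      exact φ.injective h
    · intro s hs
      rw [Finset.mem_filter, Finset.mem_filter] at hs
      obtain ⟨⟨_, hs1⟩, i, rfl⟩ := hs
      refine ⟨i, ?_, rfl⟩
      rw [Finset.mem_filter]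
      exact ⟨Finset.mem_univ _, by rw [← hφ.2 i, hs1]⟩
    · intro i _
      rw [FFTa1_old]
  rw [Finset.sum_congr rfl h1, Finset.sum_add_distrib, Finset.sum_comm]
  congr 1
  rw [FFTa1_Sn_eq, Finset.sum_sigma']
  symm
  refine Finset.sum_bij (fun ψ _ => ⟨Fin.Embedding.init ψ, ψ (Fin.last n)⟩) ?_ ?_ ?_ ?_
  · intro ψ hψ
    rw [Finset.mem_filter] at hψ
    rw [Finset.mem_sigma, Finset.mem_filter, Finset.mem_filter, Finset.mem_filter]
    refine ⟨⟨Finset.mem_univ _, fun i => hψ.2 i.castSucc⟩, ⟨Finset.mem_univ _, hψ.2 _⟩, ?_⟩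
    rintro ⟨i, hi⟩
    exact (Fin.castSucc_lt_last i).ne (ψ.injective hi)
  · intro ψ _ ψ' _ h
    rw [Sigma.mk.injEq] at h
    have h3 : ∀ i : Fin n, ψ i.castSucc = ψ' i.castSucc := fun i => by
      have := DFunLike.congr_fun h.1 i
      exact this
    ext i
    refine Fin.lastCases ?_ (fun i => ?_) i
    · exact eq_of_heq h.2
    · exact h3 i
  · rintro ⟨φ, s⟩ hp
    rw [Finset.mem_sigma, Finset.mem_filter, Finset.mem_filter, Finset.mem_filter] at hp
    obtain ⟨⟨_, h3⟩, ⟨_, h4⟩, h5⟩ := hp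
    refine ⟨Fin.Embedding.snoc φ h5, ?_, ?_⟩
    · rw [Finset.mem_filter]
      refine ⟨Finset.mem_univ _, fun i => ?_⟩
      refine Fin.lastCases ?_ (fun i => ?_) i
      · rw [Fin.Embedding.snoc_last]
        exact h4
      · rw [Fin.Embedding.snoc_castSucc]
        exact h3 i
    · rw [Fin.Embedding.init_snoc, Fin.Embedding.snoc_last]
  · intro ψ _
    rw [FFTa1_new (Fin.Embedding.init ψ) Y' Z (ψ (Fin.last n)) ψ (fun i => rfl) rfl, hY]

/-- `Sn` is in the algebra generated by the `Dk`.  Proof by induction on `n`: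
`Sn (k, Y) * Dk j Z = Sn (snoc k j, snoc Y Z) + ∑_{i, k i = j} Sn (k, update Y i (Y i * Z))`
(distribute according to the slot of `Z`: new, or equal to `φ i`). -/
theorem Sn_mem [DecidableEq C] (c : S → C) {n : ℕ} (k : Fin n → C) (Y : Fin n → Matrix ι ι ℂ) :
    Sn c k Y ∈ Algebra.adjoin ℂ {M | ∃ j Z, M = Dk c j Z} := by
  induction n with
  | zero =>
    have h : Sn c k Y = 1 := by
      rw [FFTa1_Sn_eq]
      have hu : (Finset.univ : Finset (Fin 0 ↪ S)).filter (fun φ => ∀ i, c (φ i) = k i) =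
          {Function.Embedding.ofIsEmpty} := by
        ext φ
        simp only [Finset.mem_filter, Finset.mem_univ, true_and, Finset.mem_singleton]
        exact ⟨fun _ => Subsingleton.elim _ _, fun _ i => i.elim0⟩
      rw [hu, Finset.sum_singleton]
      ext x y
      unfold Tp
      have h1 : ∀ s : S, FFTa1_A (Function.Embedding.ofIsEmpty : Fin 0 ↪ S) Y s = 1 := fun s =>
        FFTa1_A_not _ _ (by rintro ⟨i, _⟩; exact i.elim0)
      simp_rw [h1]
      by_cases hxy : x = y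
      · subst hxy
        simp
      · rw [Matrix.one_apply_ne hxy]
        obtain ⟨s, hs⟩ := Function.ne_iff.1 hxy
        exact Finset.prod_eq_zero (Finset.mem_univ s) (Matrix.one_apply_ne hs)
    rw [h]
    exact Subalgebra.one_mem _
  | succ n ih =>
    have h := FFTa1_rec c k Y
    rw [← sub_eq_iff_eq_add'] at h
    rw [← h]
    refine Subalgebra.sub_mem _ (Subalgebra.mul_mem _ (ih _ _)
      (Algebra.subset_adjoin ⟨_, _, rfl⟩)) (Subalgebra.sum_mem _ fun i _ => ih _ _)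

end Pool.MP43e44c.PE
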