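import Pool.Agent.H.MP_43e44c_ag.PE.FFTa1

/-!
First fundamental theorem with colours, II.
-/

set_option autoImplicit false

open Module Matrix

namespace Pool.MP43e44c.PE

variable {S ι C : Type*} [Fintype S] [DecidableEq S] [Fintype ι] [DecidableEq ι]

/-- The symmetrisation of a tensor product over the colour preserving permutations is an `Sn` with
`n = |S|` (transport along `Fintype.equivFin S`: injections `Fin n ↪ S` with the colours `c ∘ e⁻¹` are the
`σ ∘ e⁻¹`, `σ` a colour preserving permutation). -/
theorem sym_mem [DecidableEq C] (c : S → C) (Y : S → Matrix ι ι ℂ) :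
    ∑ σ ∈ (Finset.univ : Finset (Equiv.Perm S)).filter (fun σ => ∀ s, c (σ s) = c s), Tp (Y ∘ σ) ∈
      Algebra.adjoin ℂ {M | ∃ j Z, M = Dk c j Z} := by
  classical
  have e : S ≃ Fin (Fintype.card S) := Fintype.equivFin S
  have key : ∑ σ ∈ (Finset.univ : Finset (Equiv.Perm S)).filter (fun σ => ∀ s, c (σ s) = c s),
      Tp (Y ∘ σ) = Sn c (fun i => c (e.symm i)) (fun i => Y (e.symm i)) := by
    unfold Sn
    refine Finset.sum_bij (fun σ _ => (e.symm.trans σ.symm).toEmbedding) ?_ ?_ ?_ ?_
    · intro σ hσ
      rw [Finset.mem_filter] at hσ ⊢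
      refine ⟨Finset.mem_univ _, fun i => ?_⟩
      have := hσ.2 (σ.symm (e.symm i))
      rw [Equiv.apply_symm_apply] at this
      exact this.symm
    · intro σ _ τ _ h
      have h1 : ∀ i, σ.symm (e.symm i) = τ.symm (e.symm i) := fun i => DFunLike.congr_fun h i
      have h2 : σ.symm = τ.symm := by
        ext s
        have := h1 (e s)
        rwa [Equiv.symm_apply_apply] at this
      exact Equiv.symm_bijective.injective h2
    · intro φ hφ
      rw [Finset.mem_filter] at hφ
      have hb : Function.Bijective φ := by
        rw [Fintype.bijective_iff_injective_and_card]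
        exact ⟨φ.injective, by simp⟩
      refine ⟨(e.trans (Equiv.ofBijective φ hb)).symm, ?_, ?_⟩
      · rw [Finset.mem_filter]
        refine ⟨Finset.mem_univ _, fun s => ?_⟩
        have h1 := hφ.2 ((Equiv.ofBijective φ hb).symm s)
        have h2 : φ ((Equiv.ofBijective φ hb).symm s) = s :=
          (Equiv.ofBijective φ hb).apply_symm_apply s
        rw [h2] at h1
        exact h1.symm
      · ext i
        simp
    · intro σ _
      congr 1
      funext s
      have hex : ∃ i, (e.symm.trans σ.symm).toEmbedding i = s := ⟨e (σ s), by simp⟩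
      rw [dif_pos hex]
      have h1 := hex.choose_spec
      simp only [Equiv.coe_toEmbedding, Equiv.trans_apply] at h1
      have h2 : e.symm hex.choose = σ s := by
        have h3 := congrArg σ h1
        rwa [Equiv.apply_symm_apply] at h3
      show Y (σ s) = Y (e.symm hex.choose)
      rw [h2]
  rw [key]
  exact Sn_mem c _ _

end Pool.MP43e44c.PE
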