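import Mathlib

/-!
Double centralizer theorem for a finite group.
-/

set_option autoImplicit false

open Module Matrix

namespace Pool.MP43e44c.PE

/-- the algebra homomorphism takes its values in the linear span of the group -/
theorem FFTb1_mem_span {H V : Type*} [Group H] [AddCommGroup V] [Module ℂ V]
    (π : Representation ℂ H V) (r : MonoidAlgebra ℂ H) :
    π.asAlgebraHom r ∈ Submodule.span ℂ (Set.range π) := by
  induction r using MonoidAlgebra.induction_linear with
  | zero => rw [map_zero]; exact Submodule.zero_mem _
  | add f g hf hg => rw [map_add]; exact Submodule.add_mem _ hf hg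
  | single a b =>
    rw [Representation.asAlgebraHom_single]
    exact Submodule.smul_mem _ _ (Submodule.subset_span ⟨a, rfl⟩)

/-- Double centralizer theorem for a finite group `H` acting on a finite dimensional complex vector space
`V`: an endomorphism commuting with all endomorphisms which commute with `H` is in the linear span of `H`.
Proof: `V` is a semisimple module over `ℂ[H]` (Maschke: `MonoidAlgebra.Submodule.complementedLattice`,
`IsSemisimpleModule`), finite over its endomorphism ring (it is finite over `ℂ`, which acts by
endomorphisms), so the density theorem (`Module.Finite.toModuleEnd_moduleEnd_surjective` or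
`jacobson_density`) says that the endomorphisms of `V` over `End_{ℂ[H]} V` come from `ℂ[H]`. -/
theorem double_centralizer {H V : Type*} [Group H] [Finite H] [AddCommGroup V] [Module ℂ V]
    [FiniteDimensional ℂ V] (π : H →* (V →ₗ[ℂ] V)) (T : V →ₗ[ℂ] V)
    (hT : ∀ M : V →ₗ[ℂ] V, (∀ h, M * π h = π h * M) → T * M = M * T) :
    T ∈ Submodule.span ℂ (Set.range π) := by
  classical
  let ρ : Representation ℂ H V := π
  have : NeZero (Nat.card H : ℂ) := ⟨Nat.cast_ne_zero.2 Nat.card_pos.ne'⟩
  have : IsSemisimpleModule (MonoidAlgebra ℂ H) ρ.asModule := inferInstance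
  -- a module endomorphism gives a linear map which commutes with the group
  have key : ∀ φ : Module.End (MonoidAlgebra ℂ H) ρ.asModule, ∀ v : ρ.asModule,
      T (ρ.asModuleEquiv (φ v)) = ρ.asModuleEquiv (φ (ρ.asModuleEquiv.symm
        (T (ρ.asModuleEquiv v)))) := by
    intro φ v
    let M : V →ₗ[ℂ] V :=
      { toFun := fun x => ρ.asModuleEquiv (φ (ρ.asModuleEquiv.symm x))
        map_add' := by intro x y; simp
        map_smul' := by
          intro c x
          have h1 : ρ.asModuleEquiv.symm (c • x) =
              algebraMap ℂ (MonoidAlgebra ℂ H) c • ρ.asModuleEquiv.symm x :=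
            ρ.asModuleEquiv_symm_map_smul c x
          rw [h1, map_smul, ρ.asModuleEquiv_map_smul]
          simp }
    have hM : ∀ h, M * π h = π h * M := by
      intro h
      ext x
      change ρ.asModuleEquiv (φ (ρ.asModuleEquiv.symm (ρ h x))) =
        ρ h (ρ.asModuleEquiv (φ (ρ.asModuleEquiv.symm x)))
      rw [ρ.asModuleEquiv_symm_map_rho, map_smul, ρ.asModuleEquiv_map_smul,
        Representation.asAlgebraHom_of]
    have h2 := LinearMap.congr_fun (hT M hM) (ρ.asModuleEquiv v)
    have h3 : T (M (ρ.asModuleEquiv v)) = M (T (ρ.asModuleEquiv v)) := h2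
    change T (ρ.asModuleEquiv (φ (ρ.asModuleEquiv.symm (ρ.asModuleEquiv v)))) = _ at h3
    rw [LinearEquiv.symm_apply_apply] at h3
    exact h3
  let f : Module.End (Module.End (MonoidAlgebra ℂ H) ρ.asModule) ρ.asModule :=
    { toFun := fun v => ρ.asModuleEquiv.symm (T (ρ.asModuleEquiv v))
      map_add' := by intro x y; simp
      map_smul' := by
        intro φ v
        simp only [Module.End.smul_def, RingHom.id_apply]
        rw [key φ v, LinearEquiv.symm_apply_apply] }
  let b := Module.finBasis ℂ V
  obtain ⟨r, hr⟩ := jacobson_density f (Finset.univ.image fun i => ρ.asModuleEquiv.symm (b i))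
  have h1 : T = ρ.asAlgebraHom r := by
    refine b.ext fun i => ?_
    have h2 := hr (ρ.asModuleEquiv.symm (b i)) (Finset.mem_image_of_mem _ (Finset.mem_univ i))
    change ρ.asModuleEquiv.symm (T (ρ.asModuleEquiv (ρ.asModuleEquiv.symm (b i)))) = _ at h2
    rw [LinearEquiv.apply_symm_apply] at h2
    have h3 := congrArg ρ.asModuleEquiv h2
    rw [LinearEquiv.apply_symm_apply, ρ.asModuleEquiv_map_smul, LinearEquiv.apply_symm_apply] at h3
    exact h3
  rw [h1]
  exact FFTb1_mem_span ρ r

variable {S ι C : Type*} [Fintype S] [DecidableEq S] [Fintype ι] [DecidableEq ι] [DecidableEq C]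

end Pool.MP43e44c.PE
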