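import Pool.Agent.H.MP_43e44c_ag.PE.FFTa
import Pool.Agent.H.MP_43e44c_ag.PE.FFTb1

/-!
First fundamental theorem with colours for endomorphisms.
-/

set_option autoImplicit false

open Module Matrix

namespace Pool.MP43e44c.PE

variable {S ι C : Type*} [Fintype S] [DecidableEq S] [Fintype ι] [DecidableEq ι] [DecidableEq C]

theorem Pm_mul_Pm (σ τ : Equiv.Perm S) : (Pm σ * Pm τ : Matrix (S → ι) (S → ι) ℂ) = Pm (τ * σ) := by
  ext x z
  rw [Matrix.mul_apply]
  unfold Pm
  rw [Finset.sum_eq_single (z ∘ τ)]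
  · rw [if_pos rfl, mul_one]
    rfl
  · intro y _ hy
    rw [if_neg hy, mul_zero]
  · intro h
    exact absurd (Finset.mem_univ _) h

omit [DecidableEq S] [Fintype ι] in
theorem Pm_one : (Pm 1 : Matrix (S → ι) (S → ι) ℂ) = 1 := by
  ext x y
  unfold Pm
  rw [Matrix.one_apply]
  rfl

/-- the group of colour preserving permutations -/
def colGrp (c : S → C) : Subgroup (Equiv.Perm S) where
  carrier := {σ | ∀ s, c (σ s) = c s}
  mul_mem' := by
    intro σ τ hσ hτ s
    show c (σ (τ s)) = c s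
    rw [hσ, hτ]
  one_mem' := fun _ => rfl
  inv_mem' := by
    intro σ hσ s
    have h : c (σ (σ.symm s)) = c (σ.symm s) := hσ (σ.symm s)
    rw [Equiv.apply_symm_apply] at h
    exact h.symm

/-- the action of the colour preserving permutations -/
noncomputable def colAct (c : S → C) : colGrp c →* ((S → ι) → ℂ) →ₗ[ℂ] ((S → ι) → ℂ) where
  toFun σ := Matrix.toLin' (Pm (σ : Equiv.Perm S)⁻¹)
  map_one' := by
    show Matrix.toLin' (Pm (1 : Equiv.Perm S)⁻¹) = 1
    rw [inv_one, Pm_one, Matrix.toLin'_one]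
    rfl
  map_mul' := by
    intro σ τ
    have h : (Pm ((σ : Equiv.Perm S) * (τ : Equiv.Perm S))⁻¹ : Matrix (S → ι) (S → ι) ℂ) =
        Pm (σ : Equiv.Perm S)⁻¹ * Pm (τ : Equiv.Perm S)⁻¹ := by
      rw [_root_.mul_inv_rev, Pm_mul_Pm]
    exact (congrArg Matrix.toLin' h).trans (Matrix.toLin'_mul _ _)

/-- FFT for endomorphisms: a matrix commuting with all `Dk c j Z` is a combination of colour preserving
permutations. -/
theorem fft1 (c : S → C) (T : Matrix (S → ι) (S → ι) ℂ) (hT : ∀ j Z, T * Dk c j Z = Dk c j Z * T) :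
    T ∈ Submodule.span ℂ {M | ∃ σ : Equiv.Perm S, (∀ s, c (σ s) = c s) ∧ M = Pm σ} := by
  have hadj : ∀ m ∈ Algebra.adjoin ℂ {M | ∃ j Z, M = Dk c j Z}, T * m = m * T := by
    intro m hm
    induction hm using Algebra.adjoin_induction with
    | mem x hx =>
      obtain ⟨j, Z, rfl⟩ := hx
      exact hT j Z
    | algebraMap r => exact (Algebra.commutes r T).symm
    | add x y _ _ hx hy => rw [mul_add, add_mul, hx, hy]
    | mul x y _ _ hx hy => rw [← mul_assoc, hx, mul_assoc, hy, mul_assoc]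
  have h1 := double_centralizer (colAct (ι := ι) c) (Matrix.toLin' T) (by
    intro M hM
    have hm : ∀ σ : Equiv.Perm S, (∀ s, c (σ s) = c s) →
        LinearMap.toMatrix' M * Pm σ = Pm σ * LinearMap.toMatrix' M := by
      intro σ hσ
      have h2 := hM ⟨σ⁻¹, (colGrp c).inv_mem hσ⟩
      have h3 : colAct (ι := ι) c ⟨σ⁻¹, (colGrp c).inv_mem hσ⟩ = Matrix.toLin' (Pm σ) := by
        show Matrix.toLin' (Pm (σ⁻¹)⁻¹) = _
        rw [inv_inv]
      rw [h3] at h2
      have h4 := congrArg LinearMap.toMatrix' h2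
      rw [LinearMap.toMatrix'_mul, LinearMap.toMatrix'_mul, LinearMap.toMatrix'_toLin'] at h4
      exact h4
    have h5 := hadj _ (comm_perm_mem c _ hm)
    have h6 := congrArg Matrix.toLin' h5
    rw [Matrix.toLin'_mul, Matrix.toLin'_mul, Matrix.toLin'_toMatrix'] at h6
    exact h6)
  have h7 := Submodule.mem_map_of_mem (f := (LinearMap.toMatrix' (R := ℂ)
    (n := S → ι) (m := S → ι)).toLinearMap) h1
  rw [Submodule.map_span] at h7
  have h8 : (LinearMap.toMatrix' (R := ℂ) (n := S → ι) (m := S → ι)).toLinearMap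
      (Matrix.toLin' T) = T := LinearMap.toMatrix'_toLin' T
  rw [h8] at h7
  refine Submodule.span_mono ?_ h7
  rintro _ ⟨_, ⟨σ, rfl⟩, rfl⟩
  refine ⟨(σ : Equiv.Perm S)⁻¹, (colGrp c).inv_mem σ.2, ?_⟩
  exact LinearMap.toMatrix'_toLin' _

end Pool.MP43e44c.PE
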