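import Pool.Agent.H.MP_43e44c_ag.PE.FFTb

/-!
First fundamental theorem with colours, III: covariant and contravariant slots.
-/

set_option autoImplicit false

open Module Matrix

namespace Pool.MP43e44c.PE

variable {S₁ S₀ ι C : Type*} [Fintype S₁] [DecidableEq S₁] [Fintype S₀] [DecidableEq S₀]
  [Fintype ι] [DecidableEq ι] [DecidableEq C]

omit [DecidableEq ι] in
/-- A sum over the functions which agree with `x` off `s`. -/
theorem FFTc_sum (x : S₁ → ι) (s : S₁) (f : (S₁ → ι) → ℂ)
    (hf : ∀ w : S₁ → ι, ¬ (∀ s', s' ≠ s → x s' = w s') → f w = 0) :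
    ∑ w, f w = ∑ v, f (Function.update x s v) := by
  symm
  refine Fintype.sum_of_injective (fun v => Function.update x s v)
    (Function.update_injective x s) _ _ ?_ fun _ => rfl
  intro w hw
  apply hf
  intro h
  apply hw
  refine ⟨w s, ?_⟩
  funext s'
  by_cases hs : s' = s
  · subst hs
    simp
  · simp only [Function.update_of_ne hs]
    exact h s' hs

/-- Left multiplication by `Dk`. -/
theorem FFTc_mul_left (c : S₁ → C) (k : C) (Z : Matrix ι ι ℂ) (T : Matrix (S₁ → ι) (S₁ → ι) ℂ)
    (x z : S₁ → ι) : (Dk c k Z * T) x z =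
      ∑ p, ∑ q, Z q p * ∑ s, (if c s = k ∧ x s = q then T (Function.update x s p) z else 0) := by
  rw [Matrix.mul_apply]
  unfold Dk
  simp only [Finset.sum_mul]
  rw [Finset.sum_comm]
  have h1 : ∀ s, ∑ w : S₁ → ι, (if c s = k ∧ ∀ s', s' ≠ s → x s' = w s' then Z (x s) (w s)
      else 0) * T w z = ∑ p, (if c s = k then Z (x s) p * T (Function.update x s p) z else 0) := by
    intro s
    rw [FFTc_sum x s]
    · refine Finset.sum_congr rfl fun v _ => ?_
      have h2 : ∀ s', s' ≠ s → x s' = Function.update x s v s' := by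
        intro s' hs
        rw [Function.update_of_ne hs]
      by_cases hk : c s = k
      · rw [if_pos ⟨hk, h2⟩, if_pos hk, Function.update_self]
      · rw [if_neg fun h => hk h.1, if_neg hk, zero_mul]
    · intro w hw
      rw [if_neg fun h => hw h.2, zero_mul]
  rw [Finset.sum_congr rfl fun s _ => h1 s, Finset.sum_comm]
  refine Finset.sum_congr rfl fun p _ => ?_
  have h3 : ∀ q, Z q p * ∑ s, (if c s = k ∧ x s = q then T (Function.update x s p) z else 0) =
      ∑ s, (if x s = q then (if c s = k then Z q p * T (Function.update x s p) z else 0) else 0) := by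
    intro q
    rw [Finset.mul_sum]
    refine Finset.sum_congr rfl fun s _ => ?_
    by_cases hk : c s = k <;> by_cases hq : x s = q <;> simp [hk, hq]
  rw [Finset.sum_congr rfl fun q _ => h3 q, Finset.sum_comm]
  refine Finset.sum_congr rfl fun s _ => ?_
  rw [Finset.sum_ite_eq Finset.univ (x s)]
  simp

/-- Right multiplication by `Dk`. -/
theorem FFTc_mul_right (c : S₁ → C) (k : C) (Z : Matrix ι ι ℂ) (T : Matrix (S₁ → ι) (S₁ → ι) ℂ)
    (x z : S₁ → ι) : (T * Dk c k Z) x z =
      ∑ p, ∑ q, Z q p * ∑ s, (if c s = k ∧ z s = p then T x (Function.update z s q) else 0) := by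
  rw [Matrix.mul_apply]
  unfold Dk
  simp only [Finset.mul_sum]
  rw [Finset.sum_comm]
  have h1 : ∀ s, ∑ w : S₁ → ι, T x w * (if c s = k ∧ ∀ s', s' ≠ s → w s' = z s' then
      Z (w s) (z s) else 0) =
      ∑ q, (if c s = k then Z q (z s) * T x (Function.update z s q) else 0) := by
    intro s
    rw [FFTc_sum z s]
    · refine Finset.sum_congr rfl fun v _ => ?_
      have h2 : ∀ s', s' ≠ s → Function.update z s v s' = z s' := by
        intro s' hs
        rw [Function.update_of_ne hs]
      by_cases hk : c s = k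
      · rw [if_pos ⟨hk, h2⟩, if_pos hk, Function.update_self, mul_comm]
      · rw [if_neg fun h => hk h.1, if_neg hk, mul_zero]
    · intro w hw
      rw [if_neg fun h => hw fun s' hs => (h.2 s' hs).symm, mul_zero]
  rw [Finset.sum_congr rfl fun s _ => h1 s]
  have h3 : ∀ p q, ∑ s, Z q p * (if c s = k ∧ z s = p then T x (Function.update z s q) else 0) =
      ∑ s, (if z s = p then (if c s = k then Z q p * T x (Function.update z s q) else 0) else 0) := by
    intro p q
    refine Finset.sum_congr rfl fun s _ => ?_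
    by_cases hk : c s = k <;> by_cases hq : z s = p <;> simp [hk, hq]
  simp only [h3]
  have h4 : ∀ p : ι, ∑ q : ι, ∑ s : S₁, (if z s = p then
      (if c s = k then Z q p * T x (Function.update z s q) else 0) else 0) =
      ∑ s : S₁, ∑ q : ι, (if z s = p then
      (if c s = k then Z q p * T x (Function.update z s q) else 0) else 0) := fun p =>
    Finset.sum_comm
  rw [Finset.sum_congr rfl fun p _ => h4 p]
  conv_rhs => rw [Finset.sum_comm]
  refine Finset.sum_congr rfl fun s _ => ?_
  conv_rhs => rw [Finset.sum_comm]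
  refine Finset.sum_congr rfl fun q _ => ?_
  rw [Finset.sum_ite_eq Finset.univ (z s)]
  simp

omit [DecidableEq S₁] [DecidableEq S₀] in
/-- A colour preserving bijection. -/
theorem FFTc_equiv (c₁ : S₁ → C) (c₀ : S₀ → C)
    (h : ∀ k, (Finset.univ.filter fun s => c₁ s = k).card =
      (Finset.univ.filter fun s => c₀ s = k).card) : ∃ θ : S₁ ≃ S₀, ∀ s, c₀ (θ s) = c₁ s := by
  have h1 : ∀ k, Nonempty ({s // c₁ s = k} ≃ {s // c₀ s = k}) := by
    intro k
    refine ⟨Fintype.equivOfCardEq ?_⟩
    rw [Fintype.card_subtype, Fintype.card_subtype]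
    exact h k
  let θ : S₁ ≃ S₀ := (Equiv.sigmaFiberEquiv c₁).symm.trans
    ((Equiv.sigmaCongrRight fun k => Classical.choice (h1 k)).trans (Equiv.sigmaFiberEquiv c₀))
  refine ⟨θ, fun s => ?_⟩
  exact ((Classical.choice (h1 (c₁ s))) ⟨s, rfl⟩).2

/-- Invariant tensors with slots `S₁` (vectors) and `S₀` (covectors), coloured by `c₁`, `c₀`: if for each
colour `k` the matrix unit `E_{pq}` of this colour kills `A`, then `A` is a combination of the colour
preserving contractions.
Proof: `A = 0` or the numbers of slots of colour `k` in `S₁` and `S₀` agree (put `p = q` and sum over `p`: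
`#S₁^k A = #S₀^k A`).  In this case there is a colour preserving bijection `θ : S₁ ≃ S₀`; the matrix
`T x y = A y (x ∘ θ⁻¹)` (or its transpose) on `S₁ → ι` commutes with all `Dk c₁ k (E_pq)`, hence with all
`Dk c₁ k Z` by linearity in `Z`; apply `fft1`. -/
theorem fft2 (c₁ : S₁ → C) (c₀ : S₀ → C) (A : (S₁ → ι) → (S₀ → ι) → ℂ)
    (hA : ∀ (k : C) (p q : ι) (x : S₁ → ι) (y : S₀ → ι),
      ∑ s, (if c₁ s = k ∧ x s = q then A (Function.update x s p) y else 0) =
      ∑ s, (if c₀ s = k ∧ y s = p then A x (Function.update y s q) else 0)) :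
    A ∈ Submodule.span ℂ {B | ∃ σ : S₁ ≃ S₀, (∀ s, c₀ (σ s) = c₁ s) ∧
      B = fun x y => if x = y ∘ σ then 1 else 0} := by
  by_cases h0 : A = 0
  · rw [h0]
    exact Submodule.zero_mem _
  -- the numbers of slots agree
  have hcard : ∀ k, (Finset.univ.filter fun s => c₁ s = k).card =
      (Finset.univ.filter fun s => c₀ s = k).card := by
    intro k
    obtain ⟨x, hx⟩ := Function.ne_iff.1 h0
    obtain ⟨y, hy⟩ := Function.ne_iff.1 hx
    have e1 : ∑ p, ∑ s, (if c₁ s = k ∧ x s = p then A (Function.update x s p) y else 0) =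
        ((Finset.univ.filter fun s => c₁ s = k).card : ℂ) * A x y := by
      rw [Finset.sum_comm, Finset.card_filter, Nat.cast_sum, Finset.sum_mul]
      refine Finset.sum_congr rfl fun s _ => ?_
      by_cases hk : c₁ s = k
      · rw [Finset.sum_eq_single (x s)]
        · simp [hk]
        · intro p _ hp
          rw [if_neg fun h => hp h.2.symm]
        · intro h
          exact absurd (Finset.mem_univ _) h
      · simp [hk]
    have e2 : ∑ p, ∑ s, (if c₀ s = k ∧ y s = p then A x (Function.update y s p) else 0) =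
        ((Finset.univ.filter fun s => c₀ s = k).card : ℂ) * A x y := by
      rw [Finset.sum_comm, Finset.card_filter, Nat.cast_sum, Finset.sum_mul]
      refine Finset.sum_congr rfl fun s _ => ?_
      by_cases hk : c₀ s = k
      · rw [Finset.sum_eq_single (y s)]
        · simp [hk]
        · intro p _ hp
          rw [if_neg fun h => hp h.2.symm]
        · intro h
          exact absurd (Finset.mem_univ _) h
      · simp [hk]
    rw [Finset.sum_congr rfl fun p _ => hA k p p x y, e2] at e1
    exact_mod_cast (mul_right_cancel₀ hy e1).symm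
  obtain ⟨θ, hθ⟩ := FFTc_equiv c₁ c₀ hcard
  let T : Matrix (S₁ → ι) (S₁ → ι) ℂ := fun x z => A x (z ∘ θ.symm)
  have hT : ∀ k Z, T * Dk c₁ k Z = Dk c₁ k Z * T := by
    intro k Z
    ext x z
    rw [FFTc_mul_left, FFTc_mul_right]
    refine Finset.sum_congr rfl fun p _ => Finset.sum_congr rfl fun q _ => ?_
    congr 1
    show ∑ s, (if c₁ s = k ∧ z s = p then A x (Function.update z s q ∘ θ.symm) else 0) =
      ∑ s, (if c₁ s = k ∧ x s = q then A (Function.update x s p) (z ∘ θ.symm) else 0)
    rw [hA k p q x (z ∘ θ.symm), ← Equiv.sum_comp θ]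
    refine Finset.sum_congr rfl fun s _ => ?_
    have e1 : Function.update (z ∘ θ.symm) (θ s) q = Function.update z s q ∘ θ.symm := by
      funext t
      by_cases ht : t = θ s
      · subst ht
        simp
      · rw [Function.update_of_ne ht, Function.comp_apply, Function.comp_apply,
          Function.update_of_ne]
        intro h
        apply ht
        rw [← h, Equiv.apply_symm_apply]
    rw [hθ, e1, Function.comp_apply, Equiv.symm_apply_apply]
  have h1 := fft1 c₁ T hT
  let Φ : Matrix (S₁ → ι) (S₁ → ι) ℂ →ₗ[ℂ] ((S₁ → ι) → (S₀ → ι) → ℂ) :=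
    { toFun := fun M x y => M x (y ∘ θ)
      map_add' := fun _ _ => rfl
      map_smul' := fun _ _ => rfl }
  have h2 : A = Φ T := by
    funext x y
    show A x y = A x ((y ∘ θ) ∘ θ.symm)
    congr 1
    funext s
    simp
  rw [h2]
  have h3 := Submodule.mem_map_of_mem (f := Φ) h1
  rw [Submodule.map_span] at h3
  refine Submodule.span_mono ?_ h3
  rintro _ ⟨M, ⟨σ, hσ, rfl⟩, rfl⟩
  refine ⟨σ.trans θ, fun s => ?_, ?_⟩
  · rw [Equiv.trans_apply, hθ, hσ]
  · funext x y
    rfl

end Pool.MP43e44c.PE
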