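import Mathlib

/-!
First fundamental theorem with colours: definitions.
-/

set_option autoImplicit false

open Module Matrix

namespace Pool.MP43e44c.PE

variable {S ι C : Type*} [Fintype S] [DecidableEq S] [Fintype ι] [DecidableEq ι]

/-- The operator `∑_{s, c s = k} (Y at the slot s)` on `(ℂ^ι)^{⊗ S}`. -/
noncomputable def Dk [DecidableEq C] (c : S → C) (k : C) (Y : Matrix ι ι ℂ) : Matrix (S → ι) (S → ι) ℂ :=
  fun x y => ∑ s, if c s = k ∧ ∀ s', s' ≠ s → x s' = y s' then Y (x s) (y s) else 0

/-- The permutation of the slots, as a matrix. -/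
def Pm (σ : Equiv.Perm S) : Matrix (S → ι) (S → ι) ℂ := fun x y => if x = y ∘ σ then 1 else 0

/-- The tensor product of the matrices `Y s`. -/
noncomputable def Tp (Y : S → Matrix ι ι ℂ) : Matrix (S → ι) (S → ι) ℂ := fun x y => ∏ s, Y s (x s) (y s)

/-- Products over injective colour preserving maps: for a list of coloured matrices (`k i`, `Y i`),
`i : Fin n`, the sum over all injections `φ : Fin n ↪ S` with `c (φ i) = k i` of the tensor product with `Y i`
at the slot `φ i` and the identity elsewhere. -/
noncomputable def Sn [DecidableEq C] (c : S → C) {n : ℕ} (k : Fin n → C) (Y : Fin n → Matrix ι ι ℂ) :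
    Matrix (S → ι) (S → ι) ℂ :=
  ∑ φ ∈ (Finset.univ : Finset (Fin n ↪ S)).filter (fun φ => ∀ i, c (φ i) = k i),
    Tp fun s => if h : ∃ i, φ i = s then Y h.choose else 1

end Pool.MP43e44c.PE
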