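import Pool.Agent.H.MP_43e44c_ag.PE.Slid

/-!
Killing one component.
-/

set_option autoImplicit false

open Module

namespace Pool.MP43e44c.PE

variable {A : Type*} [Ring A] [Algebra ℂ A]
  {W : Type*} [AddCommGroup W] [Module ℂ W] [FiniteDimensional ℂ W]
  {W' : Type*} [AddCommGroup W'] [Module ℂ W'] [FiniteDimensional ℂ W']

/-- Killing one more component.
Proof: `J = {x ∈ I | b x = 0}`.  For `x ∈ I`, `[z,x] ∈ J`, `a [z,x] = [a z, a x]`, and `a x` is any trace
zero endomorphism; one of these commutators is nonzero, hence (trace zero) not a scalar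
(`scalar_of_comm`).  `a(J)` is stable under brackets with all trace zero endomorphisms (`y ∈ I ≤ g`,
`x ∈ J` give `[y,x] ∈ J`).  By `slid`, `a(J)` contains all trace zero endomorphisms. -/
theorem kill (g I : Submodule ℂ A) (hIg : I ≤ g)
    (hI : ∀ x ∈ g, ∀ y ∈ I, x * y - y * x ∈ I)
    (a : A →ₗ[ℂ] Module.End ℂ W) (b : A →ₗ[ℂ] Module.End ℂ W')
    (ha : ∀ x ∈ g, ∀ y ∈ g, a (x * y - y * x) = a x * a y - a y * a x)
    (hb : ∀ x ∈ g, ∀ y ∈ g, b (x * y - y * x) = b x * b y - b y * b x)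
    (hsa : ∀ Y : Module.End ℂ W, LinearMap.trace ℂ W Y = 0 → ∃ x ∈ I, a x = Y)
    {z : A} (hz : z ∈ g) (hzb : ∃ c : ℂ, b z = c • 1) (hza : ¬ ∃ c : ℂ, a z = c • 1)
    (Y : Module.End ℂ W) (hY : LinearMap.trace ℂ W Y = 0) : ∃ x ∈ I, b x = 0 ∧ a x = Y := by
  -- a noncommuting trace zero endomorphism
  have h1 : ∃ B, LinearMap.trace ℂ W B = 0 ∧ B * a z ≠ a z * B := by
    by_contra hcon
    push Not at hcon
    exact hza (scalar_of_comm hcon)
  obtain ⟨B, hB, hBz⟩ := h1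
  obtain ⟨x, hx, hxB⟩ := hsa B hB
  have hIz := hI z hz x hx
  have hbz : b (z * x - x * z) = 0 := by
    obtain ⟨c, hc⟩ := hzb
    rw [hb z hz x (hIg hx), hc]
    simp
  have haz : a (z * x - x * z) = a z * B - B * a z := by
    rw [ha z hz x (hIg hx), hxB]
  have hne : a z * B - B * a z ≠ 0 := by
    intro h
    exact hBz (sub_eq_zero.1 h).symm
  have htr : LinearMap.trace ℂ W (a z * B - B * a z) = 0 := by
    rw [map_sub, LinearMap.trace_mul_comm, sub_self]
  have hns : ¬ ∃ c : ℂ, a z * B - B * a z = c • 1 := by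
    rintro ⟨c, hc⟩
    rw [hc, map_smul, LinearMap.trace_one, smul_eq_mul, mul_eq_zero] at htr
    rcases htr with h0 | h0
    · rw [h0, zero_smul] at hc
      exact hne hc
    · have h2 : finrank ℂ W = 0 := by exact_mod_cast h0
      have h3 : Subsingleton W := finrank_zero_iff.1 h2
      exact hne (LinearMap.ext fun w => Subsingleton.elim _ _)
  have hmem := slid (Submodule.map a (I ⊓ LinearMap.ker b))
    (by
      rintro C hC _ ⟨y, ⟨hy, hyb⟩, rfl⟩
      obtain ⟨u, hu, huC⟩ := hsa C hC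
      refine ⟨u * y - y * u, ⟨hI u (hIg hu) y hy, ?_⟩, ?_⟩
      · rw [SetLike.mem_coe, LinearMap.mem_ker] at hyb ⊢
        rw [hb u (hIg hu) y (hIg hy), hyb]
        simp
      · rw [ha u (hIg hu) y (hIg hy), huC])
    (x := a z * B - B * a z)
    ⟨z * x - x * z, ⟨hIz, LinearMap.mem_ker.2 hbz⟩, haz⟩ hns Y hY
  obtain ⟨y, ⟨hy, hyb⟩, hyY⟩ := hmem
  exact ⟨y, hy, LinearMap.mem_ker.1 hyb, hyY⟩

end Pool.MP43e44c.PE
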