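import Pool.Agent.H.MP_43e44c_ag.PE.Sep
import Pool.Agent.H.MP_43e44c_ag.PE.Kill

/-!
`G` contains the trace zero part of the unitary Lie algebra at every place.
-/

set_option autoImplicit false

open NumberField Module Matrix

namespace Pool.MP43e44c.PE

variable {m : ℕ} {K : Type*} [Field K] [NumberField K] [IsCMField K] (D : Dat K m)

theorem Full_e_comm {X : Mat m ℂ} (hX : X ∈ D.G) (t : K →+* ℂ) : X * D.e t = D.e t * X :=
  (comm_iff D X).1 (G_comm D hX) t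

theorem Full_cp_comm {x y : Mat m ℂ} (hx : x ∈ D.G) (hy : y ∈ D.G) (t : K →+* ℂ) :
    D.cp t (x * y - y * x) = D.cp t x * D.cp t y - D.cp t y * D.cp t x := by
  rw [map_sub, cp_mul D t x y (Full_e_comm D hy t), cp_mul D t y x (Full_e_comm D hx t)]

/-- The elements of `G` with vanishing components at the embeddings of a finite set. -/
noncomputable def Full_I (T : Finset (K →+* ℂ)) : Submodule ℂ (Mat m ℂ) :=
  D.G ⊓ ⨅ t ∈ T, LinearMap.ker (D.cp t)

theorem Full_mem {T : Finset (K →+* ℂ)} {x : Mat m ℂ} :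
    x ∈ Full_I D T ↔ x ∈ D.G ∧ ∀ t ∈ T, D.cp t x = 0 := by
  unfold Full_I
  rw [Submodule.mem_inf, Submodule.mem_iInf]
  refine and_congr_right fun _ => forall_congr' fun t => ?_
  rw [Submodule.mem_iInf]
  exact forall_congr' fun _ => LinearMap.mem_ker

/-- Skewness determines the component at the conjugate embedding. -/
theorem Full_skew (hm : 0 < m) (τ : K →+* ℂ) {X : Mat m ℂ}
    (hc : X * D.e (cj τ) = D.e (cj τ) * X) (hs : Xᵀ * qc D.Ψ + qc D.Ψ * X = 0) :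
    (D.e τ * X)ᵀ * qc D.Ψ = -(qc D.Ψ * (D.e (cj τ) * X)) := by
  have h1 : Xᵀ * qc D.Ψ = -(qc D.Ψ * X) := eq_neg_of_add_eq_zero_left hs
  rw [transpose_mul, Matrix.mul_assoc, e_ros D hm τ, ← Matrix.mul_assoc, h1, Matrix.neg_mul,
    Matrix.mul_assoc, hc]

/-- The induction over the finite set of embeddings. -/
theorem Full_ind
    (hpr : ∀ τ, ∀ Y : Module.End ℂ (D.W τ), LinearMap.trace ℂ (D.W τ) Y = 0 → ∃ X ∈ D.G, D.cp τ X = Y)
    (hsep : ∀ τ t : K →+* ℂ, t ≠ τ → t ≠ cj τ →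
      ∃ Z ∈ D.G, (∃ c : ℂ, D.cp t Z = c • 1) ∧ ¬ ∃ c : ℂ, D.cp τ Z = c • 1)
    (τ : K →+* ℂ) (T : Finset (K →+* ℂ)) (hT : ∀ t ∈ T, t ≠ τ ∧ t ≠ cj τ) :
    ∀ Y : Module.End ℂ (D.W τ), LinearMap.trace ℂ (D.W τ) Y = 0 →
      ∃ x ∈ Full_I D T, D.cp τ x = Y := by
  classical
  induction T using Finset.induction_on with
  | empty =>
    intro Y hY
    obtain ⟨X, hX, hXY⟩ := hpr τ Y hY
    exact ⟨X, (Full_mem D).2 ⟨hX, fun t ht => absurd ht (Finset.notMem_empty t)⟩, hXY⟩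
  | insert t T htT ih =>
    intro Y hY
    have ih' := ih fun s hs => hT s (Finset.mem_insert_of_mem hs)
    obtain ⟨h1, h2⟩ := hT t (Finset.mem_insert_self t T)
    obtain ⟨Z, hZ, hZt, hZτ⟩ := hsep τ t h1 h2
    obtain ⟨x, hxI, hxt, hxY⟩ := kill D.G (Full_I D T) (fun x hx => ((Full_mem D).1 hx).1)
      (fun x hx y hy => by
        have hy' := (Full_mem D).1 hy
        refine (Full_mem D).2 ⟨D.G_lie x hx y hy'.1, fun s hs => ?_⟩
        have h5 : D.cp s (x * y - y * x) = 0 := by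
          rw [Full_cp_comm D hx hy'.1 s, hy'.2 s hs, mul_zero, zero_mul]
          exact sub_self (0 : Module.End ℂ (D.W s))
        exact h5)
      (D.cp τ) (D.cp t)
      (fun x hx y hy => Full_cp_comm D hx hy τ) (fun x hx y hy => Full_cp_comm D hx hy t)
      ih' hZ hZt hZτ Y hY
    refine ⟨x, (Full_mem D).2 ⟨((Full_mem D).1 hxI).1, fun s hs => ?_⟩, hxY⟩
    rcases Finset.mem_insert.1 hs with rfl | hs
    · exact hxt
    · exact ((Full_mem D).1 hxI).2 s hs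

/-- Proof: for a finite set `T` of embeddings different from `τ, conj τ` every trace zero `Y` is `cp τ x` for
some `x ∈ I_T = {x ∈ G | cp t x = 0 for t ∈ T}` (induction on `T`: `T = ∅` is `hpr`; the step is `kill` with
`g = G`, `I = I_T`, `a = cp τ`, `b = cp t` and `Z` from `hsep`; `I_T` is an ideal by `cp_mul`).  For
`T` = all embeddings `≠ τ, conj τ` and `Y = cp τ X` we get `x ∈ G` with `e_τ x = e_τ X`, `e_t x = 0 = e_t X`
(`cp_eq_iff`).  Skewness gives `e_{conj τ} x = e_{conj τ} X`: from `(e_τ x)ᵀ Ψ = xᵀ Ψ e_{conj τ} =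
-Ψ x e_{conj τ}` (`e_ros`, `G_skew`) and the same for `X`; `Ψ` is invertible (`isUnit_Ψ`).  As `∑ e = 1`,
`x = X`. -/
theorem full (hm : 0 < m)
    (hpr : ∀ τ, ∀ Y : Module.End ℂ (D.W τ), LinearMap.trace ℂ (D.W τ) Y = 0 → ∃ X ∈ D.G, D.cp τ X = Y)
    (hsep : ∀ τ t : K →+* ℂ, t ≠ τ → t ≠ cj τ →
      ∃ Z ∈ D.G, (∃ c : ℂ, D.cp t Z = c • 1) ∧ ¬ ∃ c : ℂ, D.cp τ Z = c • 1)
    (τ : K →+* ℂ) {X : Mat m ℂ} (hX : D.Sk X) (h0 : ∀ t, t ≠ τ → t ≠ cj τ → D.e t * X = 0)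
    (htr : (D.e τ * X).trace = 0) : X ∈ D.G := by
  classical
  obtain ⟨x, hxI, hxX⟩ := Full_ind D hpr hsep τ
    (Finset.univ.filter fun t : K →+* ℂ => t ≠ τ ∧ t ≠ cj τ)
    (fun t ht => (Finset.mem_filter.1 ht).2) (D.cp τ X) (by rw [trace_cp, htr])
  obtain ⟨hxG, hxT⟩ := (Full_mem D).1 hxI
  have h1 : D.e τ * x = D.e τ * X := (cp_eq_iff D τ (Full_e_comm D hxG τ) (hX.1 τ)).1 hxX
  have h2 : D.e (cj τ) * x = D.e (cj τ) * X := by
    have h3 := Full_skew D hm τ (Full_e_comm D hxG (cj τ)) (G_skew D hxG)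
    have h4 := Full_skew D hm τ (hX.1 (cj τ)) hX.2
    rw [h1, h4, neg_inj] at h3
    have hu : IsUnit (qc D.Ψ) := (isUnit_Ψ D).map qc
    exact (hu.mul_left_cancel h3).symm
  have h3 : ∀ t, D.e t * x = D.e t * X := by
    intro t
    by_cases ht : t = τ
    · rw [ht, h1]
    by_cases ht' : t = cj τ
    · rw [ht', h2]
    have h4 : D.cp t x = D.cp t 0 := by
      rw [map_zero]
      exact hxT t (Finset.mem_filter.2 ⟨Finset.mem_univ t, ht, ht'⟩)
    have h5 := (cp_eq_iff D t (Full_e_comm D hxG t) (by rw [zero_mul, mul_zero])).1 h4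
    rw [h5, mul_zero, h0 t ht ht']
  have h4 : x = X := by
    calc x = (∑ t, D.e t) * x := by rw [e_sum, one_mul]
      _ = (∑ t, D.e t) * X := by
        rw [Finset.sum_mul, Finset.sum_mul]
        exact Finset.sum_congr rfl fun t _ => h3 t
      _ = X := by rw [e_sum, one_mul]
  rw [← h4]
  exact hxG

end Pool.MP43e44c.PE
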