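import Pool.Agent.H.MP_43e44c_ag.PE.Tor

/-!
Derivation form of the type condition.
-/

set_option autoImplicit false

open NumberField Module Matrix

namespace Pool.MP43e44c.PE

theorem Hdg1_expand {V : Type*} [AddCommGroup V] [Module ℂ V] [Module ℝ V]
    {ι : Type*} [Fintype ι] [DecidableEq ι] (ω : V [⋀^ι]→ₗ[ℝ] ℝ) (v : ι → V) (t : ℝ) :
    ω (fun l => t • (Complex.I • v l) + v l) =
      ∑ s : Finset ι, t ^ s.card * ω (s.piecewise (fun l => Complex.I • v l) v) := by
  have h1 := ω.toMultilinearMap.map_add_univ (fun l => t • (Complex.I • v l)) v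
  have h2 : ω (fun l => t • (Complex.I • v l) + v l) =
      ω.toMultilinearMap ((fun l => t • (Complex.I • v l)) + v) := rfl
  rw [h2, h1]
  refine Finset.sum_congr rfl fun s _ => ?_
  set m : ι → V := s.piecewise (fun l => Complex.I • v l) v with hm
  have h3 : s.piecewise (fun l => t • (Complex.I • v l)) v = s.piecewise (fun l => t • m l) m := by
    funext l
    by_cases hl : l ∈ s
    · rw [Finset.piecewise_eq_of_mem _ _ _ hl, Finset.piecewise_eq_of_mem _ _ _ hl, hm,
        Finset.piecewise_eq_of_mem _ _ _ hl]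
    · rw [Finset.piecewise_eq_of_notMem _ _ _ hl, Finset.piecewise_eq_of_notMem _ _ _ hl, hm,
        Finset.piecewise_eq_of_notMem _ _ _ hl]
  rw [h3, ω.toMultilinearMap.map_piecewise_smul (fun _ => t) m s, Finset.prod_const, smul_eq_mul]
  rfl

theorem Hdg1_sum {ι : Type*} [Fintype ι] [DecidableEq ι] (c : Finset ι → ℝ) :
    ∑ s : Finset ι, ((s.card : ℝ) * 0 ^ (s.card - 1)) * c s = ∑ l, c {l} := by
  let f : ι ↪ Finset ι := ⟨fun l => {l}, Finset.singleton_injective⟩
  have h1 : ∑ l, c {l} = ∑ s ∈ Finset.univ.map f, ((s.card : ℝ) * 0 ^ (s.card - 1)) * c s := by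
    rw [Finset.sum_map]
    refine Finset.sum_congr rfl fun l _ => ?_
    simp [f]
  rw [h1]
  symm
  refine Finset.sum_subset (Finset.subset_univ _) ?_
  intro s _ hs
  have hs1 : s.card ≠ 1 := by
    intro h
    obtain ⟨a, ha⟩ := Finset.card_eq_one.1 h
    exact hs (Finset.mem_map.2 ⟨a, Finset.mem_univ _, ha.symm⟩)
  rcases Nat.eq_zero_or_pos s.card with h0 | h0
  · rw [h0]
    simp
  · have h2 : s.card - 1 ≠ 0 := by omega
    rw [zero_pow h2]
    simp

/-- A real multilinear form invariant under simultaneous multiplication by unit complex numbers is killed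
by `i` acting as a derivation.
Proof: for real `t`, `(1 + i t) = u (1 - i t)` with `‖u‖ = 1`, so `t ↦ ω((1 + i t) v)` is even; expand
`ω(v_s + t i v_s)` by multilinearity (`MultilinearMap.map_add_univ`, finite sum over subsets) and
differentiate at `t = 0`. -/
theorem type_der {V : Type*} [AddCommGroup V] [Module ℂ V] [Module ℝ V] [IsScalarTower ℝ ℂ V]
    {ι : Type*} [Fintype ι] [DecidableEq ι] (ω : V [⋀^ι]→ₗ[ℝ] ℝ)
    (h : ∀ z : ℂ, ‖z‖ = 1 → ∀ v : ι → V, ω (fun l => z • v l) = ω v) (v : ι → V) :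
    ∑ l, ω (Function.update v l (Complex.I • v l)) = 0 := by
  set c : Finset ι → ℝ := fun s => ω (s.piecewise (fun l => Complex.I • v l) v) with hc
  set P : ℝ → ℝ := fun t => ∑ s : Finset ι, t ^ s.card * c s with hP
  -- the function is even
  have hlin : ∀ (t : ℝ) (x : V), ((1 : ℂ) + t * Complex.I) • x = t • (Complex.I • x) + x := by
    intro t x
    rw [add_smul, one_smul, mul_smul, add_comm]
    congr 1
    exact algebraMap_smul ℂ t (Complex.I • x)
  have hev : ∀ t, P (-t) = P t := by
    intro t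
    have h1 : P t = ω (fun l => ((1 : ℂ) + t * Complex.I) • v l) := by
      simp only [hP, hc, hlin]
      exact (Hdg1_expand ω v t).symm
    have h2 : P (-t) = ω (fun l => ((1 : ℂ) + ((-t : ℝ) : ℂ) * Complex.I) • v l) := by
      simp only [hP, hc, hlin]
      exact (Hdg1_expand ω v (-t)).symm
    have hn : ∀ s : ℝ, ‖(1 : ℂ) + s * Complex.I‖ = Real.sqrt (1 + s ^ 2) := by
      intro s
      have := Complex.norm_add_mul_I 1 s
      rw [Complex.ofReal_one] at this
      rw [this, one_pow]
    have hne : (1 : ℂ) + t * Complex.I ≠ 0 := by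
      intro h0
      have := congrArg Complex.re h0
      simp at this
    set u : ℂ := ((1 : ℂ) + ((-t : ℝ) : ℂ) * Complex.I) / ((1 : ℂ) + t * Complex.I) with hu
    have hun : ‖u‖ = 1 := by
      rw [hu, norm_div, hn, hn, neg_sq]
      exact div_self (by positivity)
    have h3 := h u hun (fun l => ((1 : ℂ) + t * Complex.I) • v l)
    rw [h1, h2, ← h3]
    congr 1
    funext l
    rw [smul_smul, hu, div_mul_cancel₀ _ hne]
  have hder : HasDerivAt P (∑ s : Finset ι, ((s.card : ℝ) * 0 ^ (s.card - 1)) * c s) 0 := by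
    rw [hP]
    have := HasDerivAt.fun_sum (u := (Finset.univ : Finset (Finset ι)))
      (A := fun s t => t ^ s.card * c s) (A' := fun s => ((s.card : ℝ) * 0 ^ (s.card - 1)) * c s)
      (x := (0 : ℝ)) (fun s _ => (hasDerivAt_pow s.card (0 : ℝ)).mul_const (c s))
    exact this
  have hder2 : HasDerivAt (fun t => P (-t)) (-(∑ s : Finset ι, ((s.card : ℝ) * 0 ^ (s.card - 1)) * c s)) 0 := by
    have h0 : HasDerivAt P (∑ s : Finset ι, ((s.card : ℝ) * 0 ^ (s.card - 1)) * c s) (-(0 : ℝ)) := by
      rw [neg_zero]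
      exact hder
    have := HasDerivAt.comp (h₂ := P) (h := fun t : ℝ => -t) (0 : ℝ) h0 (hasDerivAt_neg (0 : ℝ))
    rw [mul_neg_one] at this
    exact this
  have hfun : (fun t => P (-t)) = P := funext hev
  rw [hfun] at hder2
  have huniq := hder.unique hder2
  rw [Hdg1_sum] at huniq
  have hz : ∑ l, c {l} = 0 := by linarith
  rw [← hz]
  refine Finset.sum_congr rfl fun l _ => ?_
  simp only [hc]
  congr 1
  funext k
  by_cases hk : k = l
  · subst hk
    rw [Function.update_self, Finset.piecewise_eq_of_mem _ _ _ (Finset.mem_singleton_self _)]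
  · rw [Function.update_of_ne hk, Finset.piecewise_eq_of_notMem _ _ _ (by simpa using hk)]

variable {E : Type*} [AddCommGroup E] [Module ℂ E] [Module ℝ E] [IsScalarTower ℝ ℂ E]

variable {K : Type*} [Field K] [NumberField K] [IsCMField K]

end Pool.MP43e44c.PE
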