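import Pool.Agent.H.MP_43e44c_ag.PE.Tor
import Pool.Agent.H.MP_43e44c_ag.PE.Def

/-!
Coordinates: definition.
-/

set_option autoImplicit false

open NumberField Module Matrix

namespace Pool.MP43e44c.PE

variable {E : Type*} [AddCommGroup E] [Module ℂ E] [Module ℝ E] [IsScalarTower ℝ ℂ E]
variable {K : Type*} [Field K] [NumberField K] [IsCMField K]

/-- The matrices `D` describe the torus in the basis `b` of the lattice. -/
structure Repr {m : ℕ} (b : Basis (Fin m) ℝ E) (ψ : E →ₗ[ℝ] E →ₗ[ℝ] ℝ) (ι : K →+* Module.End ℂ E)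
    (D : Dat K m) : Prop where
  J : ∀ v : Fin m → ℝ, b.equivFun.symm (D.J *ᵥ v) = Complex.I • b.equivFun.symm v
  ρ : ∀ (a : K) (v : Fin m → ℝ), b.equivFun.symm (qr (D.ρ a) *ᵥ v) = ι a (b.equivFun.symm v)
  ψ : ∀ u v : Fin m → ℝ, ψ (b.equivFun.symm u) (b.equivFun.symm v) = u ⬝ᵥ (qr D.Ψ *ᵥ v)

end Pool.MP43e44c.PE
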