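import Pool.Agent.H.MP_43e44c_ag.PE.Hdg1
import Pool.Agent.H.MP_43e44c_ag.PE.Set0

/-!
Hodge classes as rational tensors killed by the complex structure.
-/

set_option autoImplicit false

open NumberField Module Matrix

namespace Pool.MP43e44c.PE

variable {E : Type*} [AddCommGroup E] [Module ℂ E] [Module ℝ E] [IsScalarTower ℝ ℂ E]

variable {K : Type*} [Field K] [NumberField K] [IsCMField K]

omit [IsScalarTower ℝ ℂ E] in
/-- `i b_j = ∑_i J_ij b_i`. -/
theorem Hdg2_J {m : ℕ} {b : Basis (Fin m) ℝ E} {ψ : E →ₗ[ℝ] E →ₗ[ℝ] ℝ} {ι : K →+* Module.End ℂ E}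
    {D : Dat K m} (hD : Repr b ψ ι D) (j : Fin m) : Complex.I • b j = ∑ i, D.J i j • b i := by
  have h1 := hD.J (Pi.single j 1)
  have h2 : b.equivFun.symm (Pi.single j 1) = b j := by
    rw [Basis.equivFun_symm_apply]
    rw [Finset.sum_eq_single j]
    · rw [Pi.single_eq_same, one_smul]
    · intro i _ hi
      rw [Pi.single_eq_of_ne hi, zero_smul]
    · intro h
      exact absurd (Finset.mem_univ j) h
  rw [h2] at h1
  rw [← h1, Basis.equivFun_symm_apply]
  refine Finset.sum_congr rfl fun i _ => ?_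
  rw [mulVec_single_one]
  rfl

/-- The coordinates of a Hodge class on `A^k` for a choice `κ` of copies are rational, and killed by `J`.
`J` acts by `i • b j = ∑_i J i j • b i` (from `Repr.J` at `Pi.single j 1`); `type_der` at
`v s = Pi.single (κ s) (b (x s))`. -/
theorem coords {m : ℕ} {b : Basis (Fin m) ℝ E} {Λ : AddSubgroup E}
    (hΛ : Λ = AddSubgroup.closure (Set.range b)) {ψ : E →ₗ[ℝ] E →ₗ[ℝ] ℝ} {ι : K →+* Module.End ℂ E}
    {D : Dat K m} (hD : Repr b ψ ι D) {k p : ℕ} (ω : (Fin k → E) [⋀^Fin p × Fin 2]→ₗ[ℝ] ℝ)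
    (hω : IsHodgeClass (powLattice Λ k) ω) (κ : Fin p × Fin 2 → Fin k) :
    ∃ T : (Fin p × Fin 2 → Fin m) → ℚ,
      (∀ x, ω (fun s => Pi.single (κ s) (b (x s))) = T x) ∧
      der (rc D.J) (fun x => (T x : ℂ)) = 0 := by
  classical
  have hmem : ∀ x : Fin p × Fin 2 → Fin m, ∃ q : ℚ,
      ω (fun s => Pi.single (κ s) (b (x s))) = q := by
    intro x
    refine hω.rational _ fun s => ?_
    intro i
    by_cases h : i = κ s
    · subst h
      rw [Pi.single_eq_same, hΛ]
      exact AddSubgroup.subset_closure ⟨x s, rfl⟩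
    · rw [Pi.single_eq_of_ne h]
      exact Λ.zero_mem
  choose T hT using hmem
  refine ⟨T, hT, ?_⟩
  funext x
  have h1 := type_der ω hω.type_pp (fun s => Pi.single (κ s) (b (x s)))
  have h2 : ∀ s, ω (Function.update (fun s => Pi.single (κ s) (b (x s))) s
      (Complex.I • (Pi.single (κ s) (b (x s)) : Fin k → E))) =
      ∑ i, D.J i (x s) * (T (Function.update x s i) : ℝ) := by
    intro s
    have h3 : Complex.I • (Pi.single (κ s) (b (x s)) : Fin k → E) =
        ∑ i, D.J i (x s) • (Pi.single (κ s) (b i) : Fin k → E) := by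
      rw [← Pi.single_smul, Hdg2_J hD (x s), ← LinearMap.single_apply ℝ (fun _ => E), map_sum]
      refine Finset.sum_congr rfl fun i _ => ?_
      rw [map_smul, LinearMap.single_apply]
    rw [h3, AlternatingMap.map_update_sum]
    refine Finset.sum_congr rfl fun i _ => ?_
    rw [AlternatingMap.map_update_smul, smul_eq_mul, ← hT]
    congr 2
    funext l
    by_cases hl : l = s
    · subst hl
      rw [Function.update_self, Function.update_self]
    · rw [Function.update_of_ne hl, Function.update_of_ne hl]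
  have h4 : ∑ s, ∑ i, D.J i (x s) * (T (Function.update x s i) : ℝ) = 0 := by
    rw [← h1]
    exact Finset.sum_congr rfl fun s _ => (h2 s).symm
  have h5 := congrArg (fun t : ℝ => (t : ℂ)) h4
  simp only [Complex.ofReal_sum, Complex.ofReal_mul, Complex.ofReal_zero,
    Complex.ofReal_ratCast] at h5
  change ∑ s, ∑ i, rc D.J i (x s) * ((T (Function.update x s i) : ℚ) : ℂ) = 0
  exact h5

end Pool.MP43e44c.PE
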