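import Pool.Agent.H.MP_43e44c_ag.PE.Main
import Pool.Agent.H.MP_43e44c_ag.PE.Conv

/-!
The criterion as an equivalence.
-/

set_option autoImplicit false

open NumberField Module Matrix

namespace Pool.MP43e44c.PE

variable {E : Type*} [AddCommGroup E] [Module ℂ E] [Module ℝ E] [IsScalarTower ℝ ℂ E]
variable {K : Type*} [Field K] [NumberField K] [IsCMField K]

/-- Necessity of nondegeneracy. -/
theorem nondeg_of_generated {Λ : AddSubgroup E} {ι : K →+* Module.End ℂ E} (h : HasEndK Λ ι)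
    (h0 : ∃ τ, mult ι τ ≠ 0) (hgen : ∀ k p, GeneratedByDivisors (powLattice Λ k) p) :
    NondegMult (mult ι) := by
  by_contra hnd
  obtain ⟨k, p, hkp⟩ := conv h h0 hnd
  exact hkp (hgen k p)

/-- The criterion. -/
theorem main_iff {Λ : AddSubgroup E} {ι : K →+* Module.End ℂ E} (h : HasEndK Λ ι)
    (h1 : ∃ τ, Nat.Coprime (mult ι τ) (mult ι (ComplexEmbedding.conjugate τ)))
    (h3 : ∀ τ t : K →+* ℂ, t ≠ τ → t ≠ ComplexEmbedding.conjugate τ → ∃ σ : ℂ ≃+* ℂ,
      mult ι ((σ : ℂ →+* ℂ).comp τ) ≠ mult ι ((σ : ℂ →+* ℂ).comp t) ∧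
      ¬ (mult ι ((σ : ℂ →+* ℂ).comp τ) * mult ι (ComplexEmbedding.conjugate ((σ : ℂ →+* ℂ).comp τ)) = 0 ∧
        mult ι ((σ : ℂ →+* ℂ).comp t) * mult ι (ComplexEmbedding.conjugate ((σ : ℂ →+* ℂ).comp t)) = 0)) :
    (∀ k p : ℕ, GeneratedByDivisors (powLattice Λ k) p) ↔ NondegMult (mult ι) := by
  constructor
  · intro hgen
    obtain ⟨τ, hτ⟩ := h1
    refine nondeg_of_generated h ?_ hgen
    by_contra h0
    push Not at h0
    rw [h0, h0] at hτ
    exact absurd hτ (by decide)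
  · intro h2 k p
    exact main h h1 h2 h3 k p

/-- All places indefinite. -/
theorem main_indef_iff {Λ : AddSubgroup E} {ι : K →+* Module.End ℂ E} (h : HasEndK Λ ι)
    (h1 : ∃ τ, Nat.Coprime (mult ι τ) (mult ι (ComplexEmbedding.conjugate τ)))
    (h3 : ∀ τ, 0 < mult ι τ) :
    (∀ k p : ℕ, GeneratedByDivisors (powLattice Λ k) p) ↔ NondegMult (mult ι) := by
  constructor
  · intro hgen
    obtain ⟨τ, _⟩ := h1
    exact nondeg_of_generated h ⟨τ, (h3 τ).ne'⟩ hgen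
  · intro h2 k p
    exact main_indef h h1 h2 h3 k p

end Pool.MP43e44c.PE
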