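import Pool.Agent.H.MP_43e44c_ag.PE.BlkJ
import Pool.Agent.H.MP_43e44c_ag.PE.Env
import Pool.Agent.H.MP_43e44c_ag.PE.Ros

/-!
The Hermitian inner product on `W τ`.
-/

set_option autoImplicit false

open NumberField Module Matrix

namespace Pool.MP43e44c.PE

variable {m : ℕ} {K : Type*} [Field K] [NumberField K] [IsCMField K] (D : Dat K m)

/-- The Hermitian form. -/
noncomputable def Inn_H : Mat m ℂ := rc (qr D.Ψ * D.J)

theorem Inn_skew : (D.J)ᵀ * qr D.Ψ = - (qr D.Ψ * D.J) := by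
  have h2 : D.Jᵀ * qr D.Ψ * D.J * D.J = qr D.Ψ * D.J := by rw [D.Ψ_J]
  rw [mul_assoc, D.J_sq] at h2
  have h3 : -(D.Jᵀ * qr D.Ψ) = qr D.Ψ * D.J := by simpa using h2
  rw [← h3, neg_neg]

theorem Inn_rcqr (M : Mat m ℚ) : rc (qr M) = qc M := by
  ext i j
  simp

theorem Inn_H_eq : Inn_H D = qc D.Ψ * rc D.J := by
  rw [Inn_H, map_mul, Inn_rcqr]

theorem Inn_symm : (qr D.Ψ * D.J)ᵀ = qr D.Ψ * D.J := by
  have h : (qr D.Ψ)ᵀ = - qr D.Ψ := by
    have := congrArg qr D.Ψ_alt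
    rw [map_neg] at this
    rw [← this]
    ext i j
    simp
  rw [transpose_mul, h, mul_neg, Inn_skew, neg_neg]

theorem Inn_herm : (Inn_H D)ᴴ = Inn_H D := by
  have h : ∀ S : Mat m ℝ, Sᵀ = S → (rc S)ᴴ = rc S := by
    intro S hS
    ext i j
    have hij : S j i = S i j := by
      have := congrFun (congrFun hS i) j
      simpa using this
    simp [conjTranspose_apply, hij]
  exact h _ (Inn_symm D)

theorem Inn_re (S : Mat m ℝ) (u : Fin m → ℂ) :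
    (star u ⬝ᵥ (rc S *ᵥ u)).re = (fun i => (u i).re) ⬝ᵥ (S *ᵥ (fun i => (u i).re)) +
      (fun i => (u i).im) ⬝ᵥ (S *ᵥ (fun i => (u i).im)) := by
  simp only [dotProduct, mulVec, Complex.re_sum, ← Finset.sum_add_distrib]
  refine Finset.sum_congr rfl fun i _ => ?_
  simp only [Pi.star_apply, RingHom.mapMatrix_apply, map_apply, Complex.mul_re, Complex.re_sum,
    Complex.im_sum, Complex.mul_im]
  simp

theorem Inn_nonneg (v : Fin m → ℝ) : 0 ≤ v ⬝ᵥ ((qr D.Ψ * D.J) *ᵥ v) := by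
  by_cases h : v = 0
  · simp [h]
  · exact (D.Ψ_pos v h).le

theorem Inn_adj {X Y : Mat m ℂ} (h : Xᴴ * Inn_H D = Inn_H D * Y) (u v : Fin m → ℂ) :
    star (X *ᵥ u) ⬝ᵥ (Inn_H D *ᵥ v) = star u ⬝ᵥ (Inn_H D *ᵥ (Y *ᵥ v)) := by
  rw [star_mulVec, ← dotProduct_mulVec, mulVec_mulVec, mulVec_mulVec, h]

theorem Inn_tw (τ : K →+* ℂ) : tw starRingAut τ = cj τ := by
  ext a
  simp [tw, cj]

theorem Inn_cjcj (τ : K →+* ℂ) : cj (cj τ) = τ := by
  ext a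
  simp [cj]

theorem Inn_star (X : Mat m ℂ) : Xᴴ = (act starRingAut X)ᵀ := by
  ext i j
  simp [conjTranspose_apply]

theorem Inn_eJ (τ : K →+* ℂ) : rc D.J * D.e τ = D.e τ * rc D.J := by
  apply (comm_iff D (rc D.J)).1
  intro a
  have := congrArg rc (D.J_ρ a)
  rw [map_mul, map_mul, Inn_rcqr] at this
  exact this

theorem Inn_e (hm : 0 < m) (τ : K →+* ℂ) : (D.e τ)ᴴ * Inn_H D = Inn_H D * D.e τ := by
  rw [Inn_star, act_e, Inn_tw, Inn_H_eq, ← mul_assoc, e_ros D hm, Inn_cjcj, mul_assoc, ← Inn_eJ,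
    mul_assoc]

theorem Inn_Jsq : rc D.J * rc D.J = -1 := by
  rw [← map_mul, D.J_sq, map_neg, map_one]

theorem Inn_J : (rc D.J)ᴴ * Inn_H D = Inn_H D * (-rc D.J) := by
  have h1 : (rc D.J)ᴴ * qc D.Ψ = - (qc D.Ψ * rc D.J) := by
    have := congrArg rc (Inn_skew D)
    rw [map_mul, map_neg, map_mul, Inn_rcqr] at this
    rw [← this]
    congr 1
    ext i j
    simp [conjTranspose_apply]
  rw [Inn_H_eq, ← mul_assoc, h1]
  simp [mul_assoc]

theorem Inn_G {X : Mat m ℂ} (hX : X ∈ D.G) : ∃ Y ∈ D.G, Xᴴ * Inn_H D = Inn_H D * Y := by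
  set Z := act starRingAut X with hZdef
  have hZ : Z ∈ D.G := G_act D starRingAut hX
  have hJ := J_mem D
  have hl := D.G_lie
  refine ⟨rc D.J * Z * rc D.J, ?_, ?_⟩
  · have h1 := hl _ hJ _ (hl _ hJ _ hZ)
    have h2 : rc D.J * Z * rc D.J = -Z - (1 / 2 : ℂ) •
        (rc D.J * (rc D.J * Z - Z * rc D.J) - (rc D.J * Z - Z * rc D.J) * rc D.J) := by
      have e1 : rc D.J * (rc D.J * Z - Z * rc D.J) - (rc D.J * Z - Z * rc D.J) * rc D.J =
          (-2 : ℂ) • Z - (2 : ℂ) • (rc D.J * Z * rc D.J) := by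
        have a1 : rc D.J * (rc D.J * Z) = - Z := by
          rw [← mul_assoc, Inn_Jsq, neg_one_mul]
        have a2 : Z * rc D.J * rc D.J = - Z := by
          rw [mul_assoc, Inn_Jsq, mul_neg_one]
        rw [mul_sub, sub_mul, a1, a2, ← mul_assoc, neg_smul, two_smul, two_smul]
        abel
      rw [e1, smul_sub, smul_smul, smul_smul]
      norm_num
    rw [h2]
    exact D.G.sub_mem (D.G.neg_mem hZ) (D.G.smul_mem _ h1)
  · have h3 := G_skew D hZ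
    have h4 : Xᴴ * qc D.Ψ = - (qc D.Ψ * Z) := by
      rw [Inn_star X]
      exact eq_neg_of_add_eq_zero_left h3
    rw [Inn_H_eq, ← mul_assoc, h4]
    have h5 : qc D.Ψ * rc D.J * (rc D.J * Z * rc D.J) = qc D.Ψ * (rc D.J * rc D.J) * Z * rc D.J := by
      simp only [mul_assoc]
    rw [h5, Inn_Jsq]
    simp

theorem Inn_mem (τ : K →+* ℂ) (u : D.W τ) : D.e τ *ᵥ (u : Fin m → ℂ) = u := by
  obtain ⟨w, hw⟩ := u.2
  rw [← hw, toLin'_apply, mulVec_mulVec, e_idem]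

/-- The inner product. -/
@[reducible] noncomputable def Inn_core (τ : K →+* ℂ) : InnerProductSpace.Core ℂ (D.W τ) where
  inner u v := star (u : Fin m → ℂ) ⬝ᵥ (Inn_H D *ᵥ (v : Fin m → ℂ))
  conj_inner_symm x y := by
    change star (star (y : Fin m → ℂ) ⬝ᵥ (Inn_H D *ᵥ (x : Fin m → ℂ))) = _
    rw [← star_dotProduct, star_mulVec, ← dotProduct_mulVec, Inn_herm]
  re_inner_nonneg x := by
    change 0 ≤ (star (x : Fin m → ℂ) ⬝ᵥ (Inn_H D *ᵥ (x : Fin m → ℂ))).re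
    rw [Inn_H, Inn_re]
    exact add_nonneg (Inn_nonneg D _) (Inn_nonneg D _)
  add_left x y z := by
    simp [add_dotProduct]
  smul_left x y r := by
    simp
  definite x hx := by
    have h : (star (x : Fin m → ℂ) ⬝ᵥ (Inn_H D *ᵥ (x : Fin m → ℂ))).re = 0 := by
      rw [hx]; rfl
    rw [Inn_H, Inn_re] at h
    have h1 := Inn_nonneg D (fun i => ((x : Fin m → ℂ) i).re)
    have h2 := Inn_nonneg D (fun i => ((x : Fin m → ℂ) i).im)
    have h3 : (fun i => ((x : Fin m → ℂ) i).re) = 0 := by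
      by_contra hne
      have := D.Ψ_pos _ hne
      linarith
    have h4 : (fun i => ((x : Fin m → ℂ) i).im) = 0 := by
      by_contra hne
      have := D.Ψ_pos _ hne
      linarith
    apply Subtype.ext
    funext i
    exact Complex.ext (congrFun h3 i) (congrFun h4 i)

theorem Inn_cp (hm : 0 < m) (τ : K →+* ℂ) {X Y : Mat m ℂ} (h : Xᴴ * Inn_H D = Inn_H D * Y)
    (u v : D.W τ) : (Inn_core D τ).inner (D.cp τ X u) v = (Inn_core D τ).inner u (D.cp τ Y v) := by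
  change star ((D.cp τ X u : D.W τ) : Fin m → ℂ) ⬝ᵥ (Inn_H D *ᵥ (v : Fin m → ℂ)) =
    star (u : Fin m → ℂ) ⬝ᵥ (Inn_H D *ᵥ ((D.cp τ Y v : D.W τ) : Fin m → ℂ))
  rw [D.cp_apply, D.cp_apply, Inn_adj D (Inn_e D hm τ), Inn_mem, Inn_adj D h]
  conv_lhs => rw [← Inn_mem D τ u]
  rw [Inn_adj D (Inn_e D hm τ)]

/-- The Hermitian form `h(u,v) = ūᵀ Ψ J v` on `ℂ^m` is positive definite (`Ψ J` is real symmetric by
`Ψ_J`, `J_sq`, `Ψ_alt`, and positive definite on `ℝ^m` by `Ψ_pos`; `h(a+ib,a+ib) = S(a,a)+S(b,b)`).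
Restrict it to `W τ`.  For a matrix `X` the adjoint is `X* = (ΨJ)⁻¹ X̄ᵀ ΨJ`.  For `X ∈ G`, `X̄ ∈ G`
(`G_act` for the complex conjugation `starRingAut`/`Complex.conjAe`), `X̄ᵀ Ψ = -Ψ X̄`, so `X* = J X̄ J
= -X̄ - ½ [J,[J,X̄]]` (`J² = -1`), which is in `G` (`G_lie`, `J_mem`).  `e_τ` is self-adjoint:
`ē_τ = e_{conj τ}` (`act_e`), `e_{conj τ}ᵀ Ψ = Ψ e_τ` (`e_ros`), `e_τ` commutes with `J`; so
`h(e_τ X u, v) = h(X u, e_τ v) = h(X u, v) = h(u, X* v) = h(u, e_τ X* v)` for `u, v ∈ W τ`.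
For `X = J`: `X* = J J J = -J`. -/
theorem inn (hm : 0 < m) (τ : K →+* ℂ) : ∃ c : InnerProductSpace.Core ℂ (D.W τ),
    (∀ X ∈ D.G, ∃ Y ∈ D.G, ∀ u v, c.inner (D.cp τ X u) v = c.inner u (D.cp τ Y v)) ∧
    (∀ u v, c.inner (D.cp τ (rc D.J) u) v = - c.inner u (D.cp τ (rc D.J) v)) := by
  refine ⟨Inn_core D τ, ?_, ?_⟩
  · intro X hX
    obtain ⟨Y, hY, h⟩ := Inn_G D hX
    exact ⟨Y, hY, fun u v => Inn_cp D hm τ h u v⟩
  · intro u v
    rw [Inn_cp D hm τ (Inn_J D) u v, map_neg]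
    change star (u : Fin m → ℂ) ⬝ᵥ (Inn_H D *ᵥ (((-D.cp τ (rc D.J)) v : D.W τ) : Fin m → ℂ)) =
      - (star (u : Fin m → ℂ) ⬝ᵥ (Inn_H D *ᵥ ((D.cp τ (rc D.J) v : D.W τ) : Fin m → ℂ)))
    rw [LinearMap.neg_apply, Submodule.coe_neg, mulVec_neg, dotProduct_neg]

end Pool.MP43e44c.PE
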