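import Pool.Agent.H.MP_43e44c_ag.PE.Iso2

/-!
Isomorphisms of the Lie algebras of endomorphisms: the two types.
-/

set_option autoImplicit false

open Module

namespace Pool.MP43e44c.PE

variable {W : Type*} [AddCommGroup W] [Module ℂ W] [FiniteDimensional ℂ W]
  {W' : Type*} [AddCommGroup W'] [Module ℂ W'] [FiniteDimensional ℂ W']

/-- The maps `v ⊗ ξ` with `ξ v = 0`, `v` fixed. -/
noncomputable def IsoL (v : W) : Submodule ℂ (Module.End ℂ W) :=
  ((Submodule.span ℂ {v}).dualAnnihilator : Submodule ℂ (Module.Dual ℂ W)).map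
    ((LinearMap.smulRightₗ (R := ℂ) (M := W) (M₂ := W)).flip v)

/-- The maps `v ⊗ ξ` with `ξ v = 0`, `ξ` fixed. -/
noncomputable def IsoR (ξ : W →ₗ[ℂ] ℂ) : Submodule ℂ (Module.End ℂ W) :=
  (LinearMap.ker ξ).map (LinearMap.smulRightₗ ξ)

/-- The eigenspace of the commutator with `q` for the eigenvalue one. -/
def IsoG (q : Module.End ℂ W) : Submodule ℂ (Module.End ℂ W) where
  carrier := {x | q * x - x * q = x}
  add_mem' := by
    intro x y hx hy
    simp only [Set.mem_ofPred_eq] at hx hy ⊢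
    calc q * (x + y) - (x + y) * q = (q * x - x * q) + (q * y - y * q) := by
          rw [mul_add, add_mul]; abel
      _ = x + y := by rw [hx, hy]
  zero_mem' := by simp
  smul_mem' := by
    intro c x hx
    simp only [Set.mem_ofPred_eq] at hx ⊢
    rw [mul_smul_comm, smul_mul_assoc, ← smul_sub, hx]

theorem Iso_mem_L {v : W} {x : Module.End ℂ W} :
    x ∈ IsoL v ↔ ∃ ξ : W →ₗ[ℂ] ℂ, ξ v = 0 ∧ x = ξ.smulRight v := by
  unfold IsoL
  rw [Submodule.mem_map]
  constructor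
  · rintro ⟨ξ, hξ, rfl⟩
    rw [Submodule.mem_dualAnnihilator] at hξ
    exact ⟨ξ, hξ v (Submodule.mem_span_singleton_self v), rfl⟩
  · rintro ⟨ξ, hξ, rfl⟩
    refine ⟨ξ, ?_, rfl⟩
    rw [Submodule.mem_dualAnnihilator]
    intro w hw
    rw [Submodule.mem_span_singleton] at hw
    obtain ⟨c, rfl⟩ := hw
    rw [map_smul, hξ, smul_zero]

theorem Iso_mem_R {ξ : W →ₗ[ℂ] ℂ} {x : Module.End ℂ W} :
    x ∈ IsoR ξ ↔ ∃ v : W, ξ v = 0 ∧ x = ξ.smulRight v := by
  unfold IsoR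
  rw [Submodule.mem_map]
  constructor
  · rintro ⟨v, hv, rfl⟩
    exact ⟨v, hv, rfl⟩
  · rintro ⟨v, hv, rfl⟩
    exact ⟨v, hv, rfl⟩

theorem Iso_mem_G {q x : Module.End ℂ W} : x ∈ IsoG q ↔ q * x - x * q = x := Iff.rfl

theorem Iso_injL {v : W} (hv : v ≠ 0) : Function.Injective
    ((LinearMap.smulRightₗ (R := ℂ) (M := W) (M₂ := W)).flip v) := by
  rw [← LinearMap.ker_eq_bot, LinearMap.ker_eq_bot']
  intro ξ hξ
  refine LinearMap.ext fun u => ?_
  have h1 : ξ u • v = 0 := LinearMap.congr_fun hξ u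
  rw [smul_eq_zero] at h1
  rcases h1 with h1 | h1
  · rw [h1, LinearMap.zero_apply]
  · exact absurd h1 hv

theorem Iso_injR {ξ : W →ₗ[ℂ] ℂ} (hξ : ξ ≠ 0) : Function.Injective
    (LinearMap.smulRightₗ (R := ℂ) (M := W) (M₂ := W) ξ) := by
  rw [← LinearMap.ker_eq_bot, LinearMap.ker_eq_bot']
  intro v hv
  obtain ⟨w, hw⟩ : ∃ w, ξ w ≠ 0 := by
    by_contra hc
    push Not at hc
    exact hξ (LinearMap.ext hc)
  have h1 : ξ w • v = 0 := LinearMap.congr_fun hv w
  rw [smul_eq_zero] at h1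
  exact h1.resolve_left hw

theorem Iso_finrank_map {V V' : Type*} [AddCommGroup V] [Module ℂ V] [AddCommGroup V']
    [Module ℂ V'] (f : V →ₗ[ℂ] V') (hf : Function.Injective f) (S : Submodule ℂ V) :
    finrank ℂ (S.map f) = finrank ℂ S :=
  (Submodule.equivMapOfInjective f hf S).finrank_eq.symm

theorem Iso_finrank_L {v : W} (hv : v ≠ 0) : finrank ℂ (IsoL v) + 1 = finrank ℂ W := by
  unfold IsoL
  rw [Iso_finrank_map _ (Iso_injL hv)]
  have h1 := Subspace.finrank_add_finrank_dualAnnihilator_eq (Submodule.span ℂ {v})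
  rw [finrank_span_singleton hv] at h1
  exact (add_comm _ _).trans h1

theorem Iso_finrank_ker {ξ : W →ₗ[ℂ] ℂ} (hξ : ξ ≠ 0) :
    finrank ℂ (LinearMap.ker ξ) + 1 = finrank ℂ W := by
  have h1 := LinearMap.finrank_range_add_finrank_ker ξ
  have h2 : finrank ℂ (LinearMap.range ξ) = 1 := by
    rw [LinearMap.range_eq_top.2 (LinearMap.surjective hξ), finrank_top, finrank_self]
  omega

theorem Iso_finrank_R {ξ : W →ₗ[ℂ] ℂ} (hξ : ξ ≠ 0) : finrank ℂ (IsoR ξ) + 1 = finrank ℂ W := by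
  unfold IsoR
  rw [Iso_finrank_map _ (Iso_injR hξ)]
  exact Iso_finrank_ker hξ

/-- The eigenspace for an idempotent. -/
theorem Iso_G_iff {q : Module.End ℂ W} (hq : q * q = q) {x : Module.End ℂ W} :
    x ∈ IsoG q ↔ q * x = x ∧ x * q = 0 := by
  rw [Iso_mem_G]
  constructor
  · intro h
    have h1 : q * x * q = 0 := by
      have h2 : q * (q * x - x * q) = q * x := by rw [h]
      rw [mul_sub, ← mul_assoc, hq, ← mul_assoc] at h2
      have h3 : q * x * q = q * x - (q * x - q * x * q) := by abel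
      rw [h3, h2, sub_self]
    have h4 : x * q = 0 := by
      have h5 : (q * x - x * q) * q = x * q := by rw [h]
      rw [sub_mul, h1, mul_assoc, hq, zero_sub] at h5
      have h6 : (2 : ℂ) • (x * q) = 0 := by
        rw [two_smul]
        nth_rw 1 [← h5]
        abel
      exact (smul_eq_zero.1 h6).resolve_left two_ne_zero
    refine ⟨?_, h4⟩
    rw [h4, sub_zero] at h
    exact h
  · rintro ⟨h1, h2⟩
    rw [h1, h2, sub_zero]

/-- The intersection with the eigenspace of an idempotent, first kind. -/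
theorem Iso_finrank_LG {q : Module.End ℂ W} (hq : q * q = q) {v : W} (hv : v ≠ 0)
    (hqv : q v = v) : finrank ℂ ↥(IsoL v ⊓ IsoG q) = finrank ℂ (LinearMap.ker q) := by
  have h1 : IsoL v ⊓ IsoG q = ((LinearMap.range q).dualAnnihilator :
      Submodule ℂ (Module.Dual ℂ W)).map
        ((LinearMap.smulRightₗ (R := ℂ) (M := W) (M₂ := W)).flip v) := by
    ext x
    rw [Submodule.mem_inf, Iso_mem_L, Iso_G_iff hq, Submodule.mem_map]
    constructor
    · rintro ⟨⟨ξ, hξ, rfl⟩, h2, h3⟩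
      refine ⟨ξ, ?_, rfl⟩
      rw [Submodule.mem_dualAnnihilator]
      rintro _ ⟨w, rfl⟩
      have h4 := LinearMap.congr_fun h3 w
      simp only [Module.End.mul_apply, LinearMap.smulRight_apply, LinearMap.zero_apply,
        smul_eq_zero] at h4
      exact h4.resolve_right hv
    · rintro ⟨ξ, hξ, rfl⟩
      rw [Submodule.mem_dualAnnihilator] at hξ
      refine ⟨⟨ξ, ?_, rfl⟩, ?_, ?_⟩
      · exact hξ v ⟨v, hqv⟩
      · refine LinearMap.ext fun w => ?_
        change q (ξ w • v) = ξ w • v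
        rw [map_smul, hqv]
      · refine LinearMap.ext fun w => ?_
        change ξ (q w) • v = 0
        rw [hξ (q w) ⟨w, rfl⟩, zero_smul]
  rw [h1, Iso_finrank_map _ (Iso_injL hv)]
  have h2 := Subspace.finrank_add_finrank_dualAnnihilator_eq (LinearMap.range q)
  have h3 := LinearMap.finrank_range_add_finrank_ker q
  exact Nat.add_left_cancel (h2.trans h3.symm)

/-- The intersection with the eigenspace of an idempotent, second kind. -/
theorem Iso_finrank_RG {p : Module.End ℂ W} (hp : p * p = p) {ξ : W →ₗ[ℂ] ℂ} (hξ : ξ ≠ 0)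
    (hpξ : ∀ w, ξ (p w) = 0) : finrank ℂ ↥(IsoR ξ ⊓ IsoG p) = finrank ℂ (LinearMap.range p) := by
  have h1 : IsoR ξ ⊓ IsoG p = (LinearMap.range p).map (LinearMap.smulRightₗ ξ) := by
    ext x
    rw [Submodule.mem_inf, Iso_mem_R, Iso_G_iff hp, Submodule.mem_map]
    constructor
    · rintro ⟨⟨v, hv, rfl⟩, h2, h3⟩
      obtain ⟨w, hw⟩ : ∃ w, ξ w ≠ 0 := by
        by_contra hc
        push Not at hc
        exact hξ (LinearMap.ext hc)
      have h4 : p (ξ w • v) = ξ w • v := LinearMap.congr_fun h2 w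
      rw [map_smul] at h4
      have h5 : p v = v := by
        have h6 := congrArg (fun z => (ξ w)⁻¹ • z) h4
        simpa only [smul_smul, inv_mul_cancel₀ hw, one_smul] using h6
      exact ⟨v, ⟨v, h5⟩, rfl⟩
    · rintro ⟨v, ⟨u, rfl⟩, rfl⟩
      have hpu : p (p u) = p u := by
        have := LinearMap.congr_fun hp u
        exact this
      refine ⟨⟨p u, hpξ u, rfl⟩, ?_, ?_⟩
      · refine LinearMap.ext fun w => ?_
        change p (ξ w • p u) = ξ w • p u
        rw [map_smul, hpu]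
      · refine LinearMap.ext fun w => ?_
        change ξ (p w) • p u = 0
        rw [hpξ w, zero_smul]
  rw [h1, Iso_finrank_map _ (Iso_injR hξ)]

/-- If the first intersection is not zero, `v` is fixed. -/
theorem Iso_fix {p : Module.End ℂ W} (hp : p * p = p) {v : W}
    (h : IsoL v ⊓ IsoG p ≠ ⊥) : p v = v := by
  rw [Submodule.ne_bot_iff] at h
  obtain ⟨x, hx, hne⟩ := h
  rw [Submodule.mem_inf, Iso_mem_L, Iso_G_iff hp] at hx
  obtain ⟨⟨ξ, -, rfl⟩, h2, -⟩ := hx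
  obtain ⟨w, hw⟩ : ∃ w, ξ w ≠ 0 := by
    by_contra hc
    push Not at hc
    exact hne (LinearMap.ext fun w => by simp [hc w])
  have h4 : p (ξ w • v) = ξ w • v := LinearMap.congr_fun h2 w
  rw [map_smul] at h4
  have h6 := congrArg (fun z => (ξ w)⁻¹ • z) h4
  simpa only [smul_smul, inv_mul_cancel₀ hw, one_smul] using h6

/-- If the second intersection is not zero, `ξ` vanishes on the range. -/
theorem Iso_fixR {p : Module.End ℂ W} (hp : p * p = p) {ξ : W →ₗ[ℂ] ℂ}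
    (h : IsoR ξ ⊓ IsoG p ≠ ⊥) : ∀ w, ξ (p w) = 0 := by
  rw [Submodule.ne_bot_iff] at h
  obtain ⟨x, hx, hne⟩ := h
  rw [Submodule.mem_inf, Iso_mem_R, Iso_G_iff hp] at hx
  obtain ⟨⟨v, -, rfl⟩, -, h3⟩ := hx
  intro w
  have h4 : ξ (p w) • v = 0 := LinearMap.congr_fun h3 w
  rw [smul_eq_zero] at h4
  refine h4.resolve_right ?_
  rintro rfl
  exact hne (LinearMap.ext fun w => by simp)

/-- For `dim W ≥ 3` (in fact `≥ 2` is enough) `R_ξ` is not contained in `L_v`. -/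
theorem Iso_not_le (hd : 3 ≤ finrank ℂ W) {ξ : W →ₗ[ℂ] ℂ} (hξ : ξ ≠ 0) (v : W) :
    ¬ IsoR ξ ≤ IsoL v := by
  intro h
  have h1 : LinearMap.ker ξ ≤ Submodule.span ℂ {v} := by
    intro u hu
    have h2 : ξ.smulRight u ∈ IsoL v := h (Iso_mem_R.2 ⟨u, hu, rfl⟩)
    obtain ⟨η, -, hη⟩ := Iso_mem_L.1 h2
    obtain ⟨w, hw⟩ : ∃ w, ξ w ≠ 0 := by
      by_contra hc
      push Not at hc
      exact hξ (LinearMap.ext hc)
    have h3 : ξ w • u = η w • v := LinearMap.congr_fun hη w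
    rw [Submodule.mem_span_singleton]
    refine ⟨(ξ w)⁻¹ * η w, ?_⟩
    rw [← smul_smul, ← h3, smul_smul, inv_mul_cancel₀ hw, one_smul]
  have h2 := Submodule.finrank_mono h1
  have h3 := Iso_finrank_ker hξ
  have h4 : finrank ℂ (Submodule.span ℂ {v}) ≤ 1 := by
    have := finrank_span_le_card (R := ℂ) ({v} : Set W)
    simpa using this
  omega

/-- The isomorphism preserves the square zero elements of rank one. -/
theorem Iso_nil1 (φ : Module.End ℂ W' ≃ₗ[ℂ] Module.End ℂ W) (h1 : φ 1 = 1)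
    (hφ : ∀ X Y, φ (X * Y - Y * X) = φ X * φ Y - φ Y * φ X) {x : Module.End ℂ W'} (hx : Nil1 x) :
    Nil1 (φ x) := by
  by_cases h0 : x = 0
  · refine ⟨0, 0, by simp, ?_⟩
    rw [h0, map_zero]
    ext
    simp
  refine nil1_of_ext ?_ ?_
  · intro y
    obtain ⟨y', rfl⟩ := φ.surjective y
    obtain ⟨c, hc⟩ := ext_of_nil1 hx y'
    refine ⟨c, ?_⟩
    rw [← hφ, ← hφ, hc, map_smul]
  · rintro ⟨c, hc⟩
    have h2 : x = c • 1 := by
      apply φ.injective
      rw [hc, map_smul, h1]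
    obtain ⟨v, ξ, hξ, e⟩ := hx
    have h3 : x * x = 0 := by
      rw [e]
      refine LinearMap.ext fun u => ?_
      simp [hξ]
    have h4 : c • x = 0 := by
      have : x * x = c • x := by
        nth_rw 1 [h2]
        rw [smul_mul_assoc, one_mul]
      rw [← this, h3]
    rcases smul_eq_zero.1 h4 with h5 | h5
    · exact h0 (by rw [h2, h5, zero_smul])
    · exact h0 h5

/-- The image of a maximal linear space of square zero elements of rank one. -/
theorem Iso_img (φ : Module.End ℂ W' ≃ₗ[ℂ] Module.End ℂ W) (h1 : φ 1 = 1)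
    (hφ : ∀ X Y, φ (X * Y - Y * X) = φ X * φ Y - φ Y * φ X) (hd : 2 ≤ finrank ℂ W)
    (M : Submodule ℂ (Module.End ℂ W')) (hM : ∀ x ∈ M, Nil1 x)
    (hMd : finrank ℂ M + 1 = finrank ℂ W) :
    (∃ v : W, v ≠ 0 ∧ M.map (φ : Module.End ℂ W' →ₗ[ℂ] Module.End ℂ W) = IsoL v) ∨
    (∃ ξ : W →ₗ[ℂ] ℂ, ξ ≠ 0 ∧ M.map (φ : Module.End ℂ W' →ₗ[ℂ] Module.End ℂ W) = IsoR ξ) := by
  have h2 : finrank ℂ (M.map (φ : Module.End ℂ W' →ₗ[ℂ] Module.End ℂ W)) = finrank ℂ M :=
    LinearEquiv.finrank_map_eq φ M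
  rcases nil1_space hd (M.map (φ : Module.End ℂ W' →ₗ[ℂ] Module.End ℂ W)) (by
    rintro _ ⟨x, hx, rfl⟩
    exact Iso_nil1 φ h1 hφ (hM x hx)) with ⟨v, hv, h⟩ | ⟨ξ, hξ, h⟩
  · refine Or.inl ⟨v, hv, ?_⟩
    apply Submodule.eq_of_le_of_finrank_eq
    · intro x hx
      exact Iso_mem_L.2 (h x hx)
    · have := Iso_finrank_L hv
      omega
  · refine Or.inr ⟨ξ, hξ, ?_⟩
    apply Submodule.eq_of_le_of_finrank_eq
    · intro x hx
      exact Iso_mem_R.2 (h x hx)
    · have := Iso_finrank_R hξ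
      omega

/-- Two spaces of the first kind with a common nonzero element are equal. -/
theorem Iso_LL {v w : W} (h : IsoL v ⊓ IsoL w ≠ ⊥) : IsoL v ≤ IsoL w := by
  rw [Submodule.ne_bot_iff] at h
  obtain ⟨x, hx, hne⟩ := h
  rw [Submodule.mem_inf, Iso_mem_L, Iso_mem_L] at hx
  obtain ⟨⟨ξ, -, e1⟩, η, -, e2⟩ := hx
  obtain ⟨u, hu⟩ : ∃ u, ξ u ≠ 0 := by
    by_contra hc
    push Not at hc
    exact hne (by rw [e1]; exact LinearMap.ext fun w => by simp [hc w])
  have h3 : ξ u • v = η u • w := by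
    have := LinearMap.congr_fun (e1.symm.trans e2) u
    exact this
  have h4 : v = ((ξ u)⁻¹ * η u) • w := by
    rw [← smul_smul, ← h3, smul_smul, inv_mul_cancel₀ hu, one_smul]
  intro y hy
  obtain ⟨ζ, hζ, rfl⟩ := Iso_mem_L.1 hy
  set c := (ξ u)⁻¹ * η u with hc
  refine Iso_mem_L.2 ⟨c • ζ, ?_, ?_⟩
  · rw [h4, map_smul] at hζ
    exact hζ
  · refine LinearMap.ext fun t => ?_
    change ζ t • v = (c * ζ t) • w
    rw [h4, smul_smul, mul_comm]

/-- Two spaces of the second kind with a common nonzero element are equal. -/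
theorem Iso_RR {ξ η : W →ₗ[ℂ] ℂ} (h : IsoR ξ ⊓ IsoR η ≠ ⊥) : IsoR ξ ≤ IsoR η := by
  rw [Submodule.ne_bot_iff] at h
  obtain ⟨x, hx, hne⟩ := h
  rw [Submodule.mem_inf, Iso_mem_R, Iso_mem_R] at hx
  obtain ⟨⟨v, -, e1⟩, w, -, e2⟩ := hx
  have hv : v ≠ 0 := by
    rintro rfl
    exact hne (by rw [e1]; exact LinearMap.ext fun w => by simp)
  obtain ⟨f, hf⟩ : ∃ f : W →ₗ[ℂ] ℂ, f v = 1 := by
    obtain ⟨f, hf⟩ : ∃ f : Module.Dual ℂ W, f v ≠ 0 := by
      by_contra hc
      push Not at hc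
      exact hv ((Module.forall_dual_apply_eq_zero_iff ℂ v).1 hc)
    exact ⟨(f v)⁻¹ • f, by rw [LinearMap.smul_apply, smul_eq_mul, inv_mul_cancel₀ hf]⟩
  have h4 : ∀ t, ξ t = f w * η t := by
    intro t
    have h3 : ξ t • v = η t • w := LinearMap.congr_fun (e1.symm.trans e2) t
    have h5 := congrArg f h3
    rw [map_smul, map_smul, hf, smul_eq_mul, smul_eq_mul, mul_one] at h5
    rw [h5, mul_comm]
  intro y hy
  obtain ⟨z, hz, rfl⟩ := Iso_mem_R.1 hy
  have hfw : f w ≠ 0 := by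
    intro hc
    apply hne
    rw [e1]
    refine LinearMap.ext fun t => ?_
    change ξ t • v = 0
    rw [h4 t, hc, zero_mul, zero_smul]
  refine Iso_mem_R.2 ⟨f w • z, ?_, ?_⟩
  · rw [h4 z] at hz
    rw [map_smul, smul_eq_mul]
    exact hz
  · refine LinearMap.ext fun t => ?_
    change ξ t • z = η t • f w • z
    rw [h4 t, smul_smul, mul_comm]

/-- The images of the spaces of the first kind are all of the same kind. -/
theorem Iso_type (φ : Module.End ℂ W' ≃ₗ[ℂ] Module.End ℂ W) (h1 : φ 1 = 1)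
    (hφ : ∀ X Y, φ (X * Y - Y * X) = φ X * φ Y - φ Y * φ X) (hd : 3 ≤ finrank ℂ W)
    (hd' : finrank ℂ W' = finrank ℂ W) {v u : W'} (hv : v ≠ 0) (hu : u ≠ 0) {v' : W}
    (hvv : (IsoL v).map (φ : Module.End ℂ W' →ₗ[ℂ] Module.End ℂ W) = IsoL v')
    {η : W →ₗ[ℂ] ℂ}
    (huu : (IsoL u).map (φ : Module.End ℂ W' →ₗ[ℂ] Module.End ℂ W) = IsoR η) : False := by
  classical
  have hinj : Function.Injective (φ : Module.End ℂ W' →ₗ[ℂ] Module.End ℂ W) := φ.injective
  -- a functional vanishing at both vectors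
  obtain ⟨ξ, hξ, hle⟩ : ∃ ξ : W' →ₗ[ℂ] ℂ, ξ ≠ 0 ∧ Submodule.span ℂ {v, u} ≤ LinearMap.ker ξ := by
    apply Submodule.exists_le_ker_of_lt_top
    rw [lt_top_iff_ne_top]
    intro hc
    have h2 := finrank_span_le_card (R := ℂ) ({v, u} : Set W')
    rw [hc, finrank_top] at h2
    have h3 : (({v, u} : Set W').toFinset).card ≤ 2 := by
      rw [Set.toFinset_insert, Set.toFinset_singleton]
      exact Finset.card_le_two
    omega
  have hξv : ξ v = 0 := hle (Submodule.subset_span (by simp))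
  have hξu : ξ u = 0 := hle (Submodule.subset_span (by simp))
  have hdR := Iso_finrank_R hξ
  have hx : ∀ {w : W'}, w ≠ 0 → ξ.smulRight w ≠ 0 := by
    intro w hw hc
    exact hw (Iso_injR hξ (hc.trans (map_zero (LinearMap.smulRightₗ (R := ℂ) ξ)).symm))
  have himg := Iso_img φ h1 hφ (by omega) (IsoR ξ) (by
    intro x hx
    obtain ⟨w, hw, e⟩ := Iso_mem_R.1 hx
    exact ⟨w, ξ, hw, e⟩) (by omega)
  rcases himg with ⟨w, hw, h⟩ | ⟨ζ, hζ, h⟩
  · have h2 : IsoL w ⊓ IsoL v' ≠ ⊥ := by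
      rw [Submodule.ne_bot_iff]
      refine ⟨φ (ξ.smulRight v), ⟨?_, ?_⟩, ?_⟩
      · rw [← h]
        exact ⟨_, Iso_mem_R.2 ⟨v, hξv, rfl⟩, rfl⟩
      · rw [← hvv]
        exact ⟨_, Iso_mem_L.2 ⟨ξ, hξv, rfl⟩, rfl⟩
      · intro hc
        rw [map_eq_zero_iff _ φ.injective] at hc
        exact hx hv hc
    have h3 := Iso_LL h2
    rw [← h, ← hvv] at h3
    exact Iso_not_le (by omega) hξ v ((Submodule.map_le_map_iff_of_injective hinj _ _).1 h3)
  · have h2 : IsoR ζ ⊓ IsoR η ≠ ⊥ := by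
      rw [Submodule.ne_bot_iff]
      refine ⟨φ (ξ.smulRight u), ⟨?_, ?_⟩, ?_⟩
      · rw [← h]
        exact ⟨_, Iso_mem_R.2 ⟨u, hξu, rfl⟩, rfl⟩
      · rw [← huu]
        exact ⟨_, Iso_mem_L.2 ⟨ξ, hξu, rfl⟩, rfl⟩
      · intro hc
        rw [map_eq_zero_iff _ φ.injective] at hc
        exact hx hu hc
    have h3 := Iso_RR h2
    rw [← h, ← huu] at h3
    exact Iso_not_le (by omega) hξ u ((Submodule.map_le_map_iff_of_injective hinj _ _).1 h3)

/-- The image of the eigenspace of an idempotent. -/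
theorem Iso_mapG (φ : Module.End ℂ W' ≃ₗ[ℂ] Module.End ℂ W)
    (hφ : ∀ X Y, φ (X * Y - Y * X) = φ X * φ Y - φ Y * φ X) {p : Module.End ℂ W}
    {q : Module.End ℂ W'} {c : ℂ} (hc : φ q = p + c • 1) :
    (IsoG q).map (φ : Module.End ℂ W' →ₗ[ℂ] Module.End ℂ W) = IsoG p := by
  have key : ∀ x, φ (q * x - x * q) = p * φ x - φ x * p := by
    intro x
    rw [hφ, hc, add_mul, mul_add, smul_mul_assoc, mul_smul_comm, one_mul, mul_one]
    abel
  ext y
  rw [Submodule.mem_map]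
  constructor
  · rintro ⟨x, hx, rfl⟩
    rw [Iso_mem_G] at hx ⊢
    change p * φ x - φ x * p = φ x
    rw [← key, hx]
  · intro hy
    obtain ⟨x, rfl⟩ := φ.surjective y
    refine ⟨x, ?_, rfl⟩
    rw [Iso_mem_G] at hy ⊢
    apply φ.injective
    rw [key, hy]

/-- Ranks of idempotents. -/
theorem Iso_idem {p : Module.End ℂ W} (hp : p * p = p) (h0 : p ≠ 0) (h1 : p ≠ 1) :
    1 ≤ finrank ℂ (LinearMap.range p) ∧ 1 ≤ finrank ℂ (LinearMap.ker p) := by
  constructor
  · rw [Nat.one_le_iff_ne_zero]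
    intro hc
    rw [Submodule.finrank_eq_zero, LinearMap.range_eq_bot] at hc
    exact h0 hc
  · rw [Nat.one_le_iff_ne_zero]
    intro hc
    rw [Submodule.finrank_eq_zero] at hc
    apply h1
    refine LinearMap.ext fun w => ?_
    have h2 : p (p w - w) = 0 := by
      rw [map_sub, sub_eq_zero]
      exact LinearMap.congr_fun hp w
    have h3 : p w - w ∈ LinearMap.ker p := h2
    rw [hc, Submodule.mem_bot, sub_eq_zero] at h3
    exact h3

/-- The two types.  Let `φ` be an isomorphism of the Lie algebras of endomorphisms with `φ 1 = 1`.  Then for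
all idempotents `q` of `W'`, `p` of `W`, `p ≠ 0, 1`, with `φ q - p` scalar, the ranks are equal, or for all
such pairs the rank of `p` is the corank of `q`.
Proof: dimensions of `W, W'` are equal (`N`).  If `N ≤ 2` the ranks and coranks of idempotents `≠ 0, 1` are
all one (`q ≠ 0, 1` since `φ 1 = 1`, `φ` injective).  Let `N ≥ 3`.  `L_v = {v ⊗ ξ | ξ v = 0}` (`v ≠ 0`) and
`R_ξ = {v ⊗ ξ | ξ v = 0}` (`ξ ≠ 0`) have dimension `N - 1 ≥ 2`, `L_v ∩ L_v' = 0` unless `v ∥ v'`, and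
`L_v ∩ R_ξ ≠ 0` if `ξ v = 0`.  By `ext_of_nil1`, `nil1_of_ext` (a nonzero `Nil1` element is not scalar) `φ`
maps `Nil1` to `Nil1`, so by `nil1_space` and dimensions `φ(L_v)` is some `L_v'` or some `R_ξ'`, the same for
`φ(R_ξ)`.  If `φ(L_v) = L_{v'}` and `φ(L_u) = R_η` choose `ξ ≠ 0` with `ξ v = ξ u = 0`; `R_ξ` meets `L_v` and
`L_u` nontrivially; `φ(R_ξ) ≠ L_{v'}` (else `R_ξ = L_v`, impossible for `N ≥ 3`: dimension of the
intersection is one) and it meets `L_{v'}` nontrivially, so it is not another `L`, hence it is an `R`;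
similarly it is not `R_η` and meets `R_η`, so it is an `L`; an `L` is never an `R`.  So all `φ(L_v)` are of
the same type.
For an idempotent `p` let `g(p) = {x | [p,x] = x} = {x | p x = x, x p = 0}`; if `p v = v`, `v ≠ 0`, then
`L_v ∩ g(p) = {v ⊗ ξ | ξ p = 0}` has dimension the corank of `p`; otherwise it is zero (for `v ≠ 0`).
`R_ξ ∩ g(p)` has dimension the rank of `p` if `ξ p = 0` and is zero otherwise.  `φ(g(q)) = g(p)` if `φ q - p`
is scalar.  Take `v ≠ 0` with `q v = v`: `φ(L_v ∩ g(q)) = φ(L_v) ∩ g(p)` has dimension the corank of `q`, which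
is positive, and it is the corank of `p` in the first case and the rank of `p` in the second. -/
theorem dich (φ : Module.End ℂ W' ≃ₗ[ℂ] Module.End ℂ W) (h1 : φ 1 = 1)
    (hφ : ∀ X Y, φ (X * Y - Y * X) = φ X * φ Y - φ Y * φ X) :
    (∀ (p : Module.End ℂ W) (q : Module.End ℂ W'), p * p = p → q * q = q → p ≠ 0 → p ≠ 1 →
      (∃ c : ℂ, φ q = p + c • 1) →
      finrank ℂ (LinearMap.range p) = finrank ℂ (LinearMap.range q)) ∨
    (∀ (p : Module.End ℂ W) (q : Module.End ℂ W'), p * p = p → q * q = q → p ≠ 0 → p ≠ 1 →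
      (∃ c : ℂ, φ q = p + c • 1) →
      finrank ℂ (LinearMap.range p) = finrank ℂ (LinearMap.ker q)) := by
  have hinj : Function.Injective (φ : Module.End ℂ W' →ₗ[ℂ] Module.End ℂ W) := φ.injective
  have hdd : finrank ℂ W' = finrank ℂ W := by
    have h2 := φ.finrank_eq
    rw [Module.finrank_linearMap, Module.finrank_linearMap] at h2
    exact Nat.mul_self_inj.1 h2
  -- the idempotent `q` is not trivial
  have hq01 : ∀ (p : Module.End ℂ W) (q : Module.End ℂ W'), p * p = p → p ≠ 0 → p ≠ 1 →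
      (∃ c : ℂ, φ q = p + c • 1) → q ≠ 0 ∧ q ≠ 1 := by
    intro p q hp hp0 hp1 hc
    obtain ⟨c, hc⟩ := hc
    have hns : ¬ ∃ d : ℂ, p = d • 1 := by
      rintro ⟨d, hd⟩
      have h2 : (d * d - d) • (1 : Module.End ℂ W) = 0 := by
        have h3 := hp
        rw [hd, smul_mul_assoc, one_mul, smul_smul] at h3
        rw [sub_smul, h3, sub_self]
      rcases smul_eq_zero.1 h2 with h3 | h3
      · have h4 : d * (d - 1) = 0 := by rw [mul_sub, mul_one, h3]
        rcases mul_eq_zero.1 h4 with h5 | h5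
        · exact hp0 (by rw [hd, h5, zero_smul])
        · exact hp1 (by rw [hd, sub_eq_zero.1 h5, one_smul])
      · exact hp0 (by rw [hd, h3, smul_zero])
    constructor
    · rintro rfl
      rw [map_zero] at hc
      exact hns ⟨-c, by rw [neg_smul]; exact eq_neg_of_add_eq_zero_left hc.symm⟩
    · rintro rfl
      rw [h1] at hc
      exact hns ⟨1 - c, by rw [sub_smul, one_smul]; exact eq_sub_of_add_eq hc.symm⟩
  by_cases hd : 3 ≤ finrank ℂ W
  swap
  · left
    intro p q hp hq hp0 hp1 hc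
    obtain ⟨hq0, hq1⟩ := hq01 p q hp hp0 hp1 hc
    obtain ⟨a1, a2⟩ := Iso_idem hp hp0 hp1
    obtain ⟨b1, b2⟩ := Iso_idem hq hq0 hq1
    have a3 := LinearMap.finrank_range_add_finrank_ker p
    have b3 := LinearMap.finrank_range_add_finrank_ker q
    omega
  have himg : ∀ v : W', v ≠ 0 →
      (∃ v' : W, v' ≠ 0 ∧
        (IsoL v).map (φ : Module.End ℂ W' →ₗ[ℂ] Module.End ℂ W) = IsoL v') ∨
      (∃ ξ : W →ₗ[ℂ] ℂ, ξ ≠ 0 ∧
        (IsoL v).map (φ : Module.End ℂ W' →ₗ[ℂ] Module.End ℂ W) = IsoR ξ) := by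
    intro v hv
    have h2 := Iso_finrank_L hv
    refine Iso_img φ h1 hφ (by omega) (IsoL v) ?_ (by omega)
    intro x hx
    obtain ⟨ξ, hξ, e⟩ := Iso_mem_L.1 hx
    exact ⟨v, ξ, hξ, e⟩
  -- a fixed vector of `q` and the dimension of the intersection
  have hfix : ∀ (p : Module.End ℂ W) (q : Module.End ℂ W'), p * p = p → q * q = q → p ≠ 0 →
      p ≠ 1 → (∃ c : ℂ, φ q = p + c • 1) → ∃ v : W', v ≠ 0 ∧ q v = v ∧
        1 ≤ finrank ℂ (LinearMap.ker q) ∧
        finrank ℂ ↥((IsoL v).map (φ : Module.End ℂ W' →ₗ[ℂ] Module.End ℂ W) ⊓ IsoG p) =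
          finrank ℂ (LinearMap.ker q) := by
    intro p q hp hq hp0 hp1 hc
    obtain ⟨hq0, hq1⟩ := hq01 p q hp hp0 hp1 hc
    obtain ⟨w, hw⟩ : ∃ w, q w ≠ 0 := by
      by_contra hc
      push Not at hc
      exact hq0 (LinearMap.ext hc)
    have hqw : q (q w) = q w := LinearMap.congr_fun hq w
    obtain ⟨c, hc⟩ := hc
    refine ⟨q w, hw, hqw, (Iso_idem hq hq0 hq1).2, ?_⟩
    rw [← Iso_mapG φ hφ hc, ← Submodule.map_inf _ hinj]
    exact (LinearEquiv.finrank_map_eq φ _).trans (Iso_finrank_LG hq hw hqw)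
  by_cases hty : ∃ v : W', v ≠ 0 ∧ ∃ v' : W, v' ≠ 0 ∧
      (IsoL v).map (φ : Module.End ℂ W' →ₗ[ℂ] Module.End ℂ W) = IsoL v'
  · left
    obtain ⟨v₀, hv₀, v₀', hv₀', h₀⟩ := hty
    intro p q hp hq hp0 hp1 hc
    obtain ⟨v, hv, hqv, hk, hf⟩ := hfix p q hp hq hp0 hp1 hc
    rcases himg v hv with ⟨v', hv', h⟩ | ⟨ξ, hξ, h⟩
    · rw [h] at hf
      have hne : IsoL v' ⊓ IsoG p ≠ ⊥ := by
        intro hb
        rw [hb, finrank_bot] at hf
        omega
      rw [Iso_finrank_LG hp hv' (Iso_fix hp hne)] at hf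
      have a3 := LinearMap.finrank_range_add_finrank_ker p
      have b3 := LinearMap.finrank_range_add_finrank_ker q
      omega
    · exact (Iso_type φ h1 hφ hd hdd hv₀ hv h₀ h).elim
  · right
    intro p q hp hq hp0 hp1 hc
    obtain ⟨v, hv, hqv, hk, hf⟩ := hfix p q hp hq hp0 hp1 hc
    rcases himg v hv with ⟨v', hv', h⟩ | ⟨ξ, hξ, h⟩
    · exact absurd ⟨v, hv, v', hv', h⟩ hty
    · rw [h] at hf
      have hne : IsoR ξ ⊓ IsoG p ≠ ⊥ := by
        intro hb
        rw [hb, finrank_bot] at hf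
        omega
      rw [Iso_finrank_RG hp hξ (Iso_fixR hp hne)] at hf
      exact hf

end Pool.MP43e44c.PE
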