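import Pool.Agent.H.MP_43e44c_ag.PE.Def

/-!
Square zero endomorphisms of rank one.
-/

set_option autoImplicit false

open Module

namespace Pool.MP43e44c.PE

variable {W : Type*} [AddCommGroup W] [Module ℂ W] [FiniteDimensional ℂ W]
  {W' : Type*} [AddCommGroup W'] [Module ℂ W'] [FiniteDimensional ℂ W']

/-- `x = v ⊗ ξ` with `ξ v = 0`. -/
def Nil1 (x : Module.End ℂ W) : Prop :=
  ∃ (v : W) (ξ : W →ₗ[ℂ] ℂ), ξ v = 0 ∧ x = ξ.smulRight v

/-- A non-scalar `x` with `[x,[x,y]] ∈ ℂ x` for all `y` is `v ⊗ ξ` with `ξ v = 0` (and conversely, see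
`ext_of_nil1`).  Proof: (1) `ad(x)³ = 0`; if `x u = a u`, `η x = b η` (right and left eigenvectors) then
`y = u ⊗ η` gives `(a-b)³ y = 0`, so all eigenvalues are equal: `x = λ + n`, `n` nilpotent.
(2) `n² y - 2 n y n + y n² = c(y) (λ + n)`; the trace gives `c(y) λ N = 0`; if `λ ≠ 0` then `c = 0`; with
`y = u ⊗ η`: if `n² = 0` then `n u ⊗ η n = 0` for all `u, η`, so `n = 0`, excluded; if `n² ≠ 0` take
`u ∈ ker n`, `u ≠ 0`, `η n² ≠ 0`: `u ⊗ η n² = 0`, excluded.  So `λ = 0`, `x = n`.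
(3) If `x` has rank `≥ 2`: for `u ∈ ker x`, `u ≠ 0`: `u ⊗ η x² ∈ ℂ x` has rank `≤ 1`, so is `0` for all `η`,
`x² = 0`; then `x u ⊗ η x ∈ ℂ x` for all `u, η`, and `x u ⊗ η x ≠ 0` has rank one, contradiction.
So `x = v ⊗ ξ`, and `ξ v = tr x = 0`. -/
theorem nil1_of_ext {x : Module.End ℂ W} (hx : ∀ y : Module.End ℂ W, ∃ c : ℂ,
    x * (x * y - y * x) - (x * y - y * x) * x = c • x) (hs : ¬ ∃ c : ℂ, x = c • 1) : Nil1 x := by
  have hW : Nontrivial W := by
    by_contra h
    rw [not_nontrivial_iff_subsingleton] at h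
    exact hs ⟨0, LinearMap.ext fun w => Subsingleton.elim _ _⟩
  obtain ⟨a, ha⟩ := Module.End.exists_eigenvalue x
  obtain ⟨u, hu⟩ := ha.exists_hasEigenvector
  have hu0 : u ≠ 0 := hu.2
  have hxu : x u = a • u := hu.apply_eq_smul
  obtain ⟨nn, hnn⟩ : ∃ nn : Module.End ℂ W, ∀ w, x w = nn w + a • w :=
    ⟨x - a • 1, fun w => by simp⟩
  have hnu : nn u = 0 := by
    have h := hnn u
    rw [hxu] at h
    have h' : nn u + a • u = 0 + a • u := by rw [zero_add]; exact h.symm
    exact add_right_cancel h'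
  have expand : ∀ (η : W →ₗ[ℂ] ℂ) (v w : W),
      (x * (x * η.smulRight v - η.smulRight v * x) -
        (x * η.smulRight v - η.smulRight v * x) * x) w =
      η w • x (x v) - (2 * η (x w)) • x v + η (x (x w)) • v := by
    intro η v w
    simp only [LinearMap.sub_apply, Module.End.mul_apply, LinearMap.smulRight_apply, map_sub,
      map_smul]
    module
  by_cases h : ∃ (η : W →ₗ[ℂ] ℂ) (w : W), η (nn (nn w)) ≠ 0
  · obtain ⟨η, w0, hw0⟩ := h
    obtain ⟨c, hc⟩ := hx (η.smulRight u)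
    have key : ∀ w, η (nn (nn w)) • u = c • x w := by
      intro w
      have h1 := LinearMap.congr_fun hc w
      rw [expand, LinearMap.smul_apply] at h1
      rw [← h1, hxu, map_smul, hxu, hnn (x w), hnn w]
      simp only [map_add, map_smul, smul_eq_mul]
      module
    have hc0 : c ≠ 0 := by
      rintro rfl
      have h1 := key w0
      rw [zero_smul] at h1
      exact (smul_ne_zero hw0 hu0) h1
    refine ⟨u, c⁻¹ • (η.comp (nn.comp nn)), ?_, ?_⟩
    · show c⁻¹ • η (nn (nn u)) = 0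
      rw [hnu, map_zero, map_zero, smul_zero]
    · refine LinearMap.ext fun w => ?_
      show x w = (c⁻¹ • η (nn (nn w))) • u
      rw [smul_assoc, key w, smul_smul, inv_mul_cancel₀ hc0, one_smul]
  · push Not at h
    have hn2 : ∀ w, nn (nn w) = 0 := fun w =>
      (Module.forall_dual_apply_eq_zero_iff ℂ _).1 fun η => h η w
    obtain ⟨w0, hw0⟩ : ∃ w0, nn w0 ≠ 0 := by
      by_contra hcon
      push Not at hcon
      refine hs ⟨a, LinearMap.ext fun w => ?_⟩
      rw [hnn w, hcon w, zero_add]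
      rfl
    obtain ⟨η, hη⟩ : ∃ η : W →ₗ[ℂ] ℂ, η (nn w0) ≠ 0 := by
      by_contra hcon
      push Not at hcon
      exact hw0 ((Module.forall_dual_apply_eq_zero_iff ℂ _).1 hcon)
    obtain ⟨c, hc⟩ := hx (η.smulRight w0)
    have key : ∀ w, (-2 * η (nn w)) • nn w0 = c • x w := by
      intro w
      have h1 := LinearMap.congr_fun hc w
      rw [expand, LinearMap.smul_apply] at h1
      rw [← h1, hnn (x w), hnn (x w0), hnn w, hnn w0]
      simp only [map_add, map_smul, smul_eq_mul, hn2, zero_add, smul_add]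
      module
    have hc0 : c ≠ 0 := by
      rintro rfl
      have h1 := key w0
      rw [zero_smul] at h1
      exact (smul_ne_zero (mul_ne_zero (by norm_num) hη) hw0) h1
    refine ⟨nn w0, (-2 * c⁻¹) • (η.comp nn), ?_, ?_⟩
    · show (-2 * c⁻¹) • η (nn (nn w0)) = 0
      rw [hn2, map_zero, smul_zero]
    · refine LinearMap.ext fun w => ?_
      show x w = ((-2 * c⁻¹) • η (nn w)) • nn w0
      have e : ((-2 * c⁻¹) • η (nn w)) • nn w0 = c⁻¹ • ((-2 * η (nn w)) • nn w0) := by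
        rw [smul_smul, smul_eq_mul]
        congr 1
        ring
      rw [e, key w, smul_smul, inv_mul_cancel₀ hc0, one_smul]

theorem ext_of_nil1 {x : Module.End ℂ W} (hx : Nil1 x) (y : Module.End ℂ W) : ∃ c : ℂ,
    x * (x * y - y * x) - (x * y - y * x) * x = c • x := by
  obtain ⟨v, ξ, hv, hx⟩ := hx
  have hxw : ∀ w, x w = ξ w • v := fun w => by rw [hx]; rfl
  refine ⟨-2 * ξ (y v), LinearMap.ext fun w => ?_⟩
  show x (x (y w) - y (x w)) - (x (y (x w)) - y (x (x w))) = (-2 * ξ (y v)) • x w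
  have h1 : ∀ u, x (x u) = 0 := fun u => by
    rw [hxw u, map_smul, hxw v, hv, zero_smul, smul_zero]
  have h2 : x (y (x w)) = (ξ w * ξ (y v)) • v := by
    rw [hxw w, map_smul, map_smul, hxw (y v), smul_smul]
  rw [map_sub, h1 (y w), h1 w, h2, map_zero, hxw w]
  module

end Pool.MP43e44c.PE
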