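import Pool.Agent.H.MP_43e44c_ag.PE.Iso1

/-!
Linear spaces of square zero endomorphisms of rank one.
-/

set_option autoImplicit false

open Module

namespace Pool.MP43e44c.PE

variable {W : Type*} [AddCommGroup W] [Module ℂ W] [FiniteDimensional ℂ W]
  {W' : Type*} [AddCommGroup W'] [Module ℂ W'] [FiniteDimensional ℂ W']

/-- If `ξ` is not a multiple of `ξ₀ ≠ 0`, there are `u` with `ξ₀ u = 0`, `ξ u = 1` and `u'` with
`ξ₀ u' = 1`, `ξ u' = 0`. -/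
theorem Iso2_dual {ξ₀ ξ : W →ₗ[ℂ] ℂ} (h0 : ξ₀ ≠ 0) (h : ¬ ∃ c : ℂ, ξ = c • ξ₀) :
    ∃ u u' : W, ξ₀ u = 0 ∧ ξ u = 1 ∧ ξ₀ u' = 1 ∧ ξ u' = 0 := by
  obtain ⟨w, hw⟩ : ∃ w, ξ₀ w ≠ 0 := by
    by_contra hc
    push Not at hc
    exact h0 (LinearMap.ext hc)
  obtain ⟨u, hu⟩ : ∃ u, ξ u ≠ (ξ w / ξ₀ w) * ξ₀ u := by
    by_contra hc
    push Not at hc
    exact h ⟨ξ w / ξ₀ w, LinearMap.ext fun u => by rw [hc u, LinearMap.smul_apply, smul_eq_mul]⟩
  have e1 : ξ₀ (u - (ξ₀ u / ξ₀ w) • w) = 0 := by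
    rw [map_sub, map_smul, smul_eq_mul, div_mul_cancel₀ _ hw, sub_self]
  have e2 : ξ (u - (ξ₀ u / ξ₀ w) • w) ≠ 0 := by
    rw [map_sub, map_smul, smul_eq_mul, sub_ne_zero]
    intro hc
    apply hu
    rw [hc]
    field_simp
  set t := u - (ξ₀ u / ξ₀ w) • w with ht
  have e3 : ξ₀ ((ξ t)⁻¹ • t) = 0 := by rw [map_smul, e1, smul_zero]
  have e4 : ξ ((ξ t)⁻¹ • t) = 1 := by rw [map_smul, smul_eq_mul, inv_mul_cancel₀ e2]
  refine ⟨(ξ t)⁻¹ • t, (ξ₀ w)⁻¹ • w - (ξ ((ξ₀ w)⁻¹ • w)) • ((ξ t)⁻¹ • t), e3, e4, ?_, ?_⟩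
  · rw [map_sub, map_smul ξ₀ (ξ ((ξ₀ w)⁻¹ • w)), e3, smul_zero, sub_zero, map_smul, smul_eq_mul,
      inv_mul_cancel₀ hw]
  · rw [map_sub, map_smul ξ (ξ ((ξ₀ w)⁻¹ • w)), e4, smul_eq_mul, mul_one, sub_self]

/-- Two elements whose sum has rank at most one. -/
theorem Iso2_pair {v₀ v : W} {ξ₀ ξ : W →ₗ[ℂ] ℂ} (hξ₀ : ξ₀ ≠ 0) (hv₀ : v₀ ≠ 0)
    (h : Nil1 (ξ₀.smulRight v₀ + ξ.smulRight v)) :
    (∃ η : W →ₗ[ℂ] ℂ, ξ.smulRight v = η.smulRight v₀) ∨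
      (∃ w : W, ξ.smulRight v = ξ₀.smulRight w) := by
  by_cases h1 : ∃ c : ℂ, ξ = c • ξ₀
  · obtain ⟨c, rfl⟩ := h1
    refine Or.inr ⟨c • v, LinearMap.ext fun u => ?_⟩
    simp only [LinearMap.smulRight_apply, LinearMap.smul_apply, smul_eq_mul]
    rw [smul_smul, mul_comm]
  · left
    obtain ⟨u, u', a1, a2, a3, a4⟩ := Iso2_dual hξ₀ h1
    obtain ⟨w, η, hη, hw⟩ := h
    have b1 : v = η u • w := by
      have := LinearMap.congr_fun hw u
      simpa [a1, a2] using this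
    have b2 : v₀ = η u' • w := by
      have := LinearMap.congr_fun hw u'
      simpa [a3, a4] using this
    have b3 : η u' ≠ 0 := by
      intro hc
      rw [hc, zero_smul] at b2
      exact hv₀ b2
    have b4 : w = (η u')⁻¹ • v₀ := by
      rw [b2, smul_smul, inv_mul_cancel₀ b3, one_smul]
    refine ⟨(η u * (η u')⁻¹) • ξ, LinearMap.ext fun t => ?_⟩
    simp only [LinearMap.smulRight_apply, LinearMap.smul_apply, smul_eq_mul]
    rw [b1, b4, smul_smul, smul_smul]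
    congr 1
    ring

/-- An element `v ⊗ ξ` which squares to zero has `ξ v = 0` (unless it is zero). -/
theorem Iso2_sq {v : W} {ξ : W →ₗ[ℂ] ℂ} (h : Nil1 (ξ.smulRight v)) : ξ v • ξ.smulRight v = 0 := by
  obtain ⟨w, η, hη, hw⟩ := h
  have h1 : ξ.smulRight v * ξ.smulRight v = 0 := by
    rw [hw]
    refine LinearMap.ext fun u => ?_
    simp [hη]
  have h2 : ξ.smulRight v * ξ.smulRight v = ξ v • ξ.smulRight v := by
    refine LinearMap.ext fun u => ?_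
    simp only [Module.End.mul_apply, LinearMap.smulRight_apply, map_smul, LinearMap.smul_apply,
      smul_eq_mul, smul_smul]
    rw [mul_comm]
  rw [← h2, h1]

/-- A linear space of endomorphisms `v ⊗ ξ`, `ξ v = 0`, is contained in `{v ⊗ ξ | ξ v = 0}` for a fixed
`v ≠ 0` or a fixed `ξ ≠ 0` (for `dim W ≥ 2`, to choose `v` or `ξ` when the space is `0`).  Proof: if
`v₁ ⊗ ξ₁`, `v₂ ⊗ ξ₂` are in it with `v₁, v₂` and `ξ₁, ξ₂` both linearly independent, the sum has rank two.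
So any two nonzero elements have proportional `v` or proportional `ξ`; if not all pairs are of the same
kind, three elements give a contradiction. -/
theorem nil1_space (hd : 2 ≤ finrank ℂ W) (L : Submodule ℂ (Module.End ℂ W)) (hL : ∀ x ∈ L, Nil1 x) :
    (∃ v : W, v ≠ 0 ∧ ∀ x ∈ L, ∃ ξ : W →ₗ[ℂ] ℂ, ξ v = 0 ∧ x = ξ.smulRight v) ∨
    (∃ ξ : W →ₗ[ℂ] ℂ, ξ ≠ 0 ∧ ∀ x ∈ L, ∃ v : W, ξ v = 0 ∧ x = ξ.smulRight v) := by
  by_cases h0 : ∀ x ∈ L, x = 0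
  · haveI : Nontrivial W := Module.nontrivial_of_finrank_pos (R := ℂ) (by omega)
    obtain ⟨v, hv⟩ := exists_ne (0 : W)
    exact Or.inl ⟨v, hv, fun x hx => ⟨0, by simp, by rw [h0 x hx]; ext; simp⟩⟩
  push Not at h0
  obtain ⟨x₀, hx₀, hne⟩ := h0
  obtain ⟨v₀, ξ₀, h00, e0⟩ := hL x₀ hx₀
  have hv₀ : v₀ ≠ 0 := by
    rintro rfl
    exact hne (by rw [e0]; ext; simp)
  have hξ₀ : ξ₀ ≠ 0 := by
    rintro rfl
    exact hne (by rw [e0]; ext; simp)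
  have key : ∀ x ∈ L, (∃ η : W →ₗ[ℂ] ℂ, x = η.smulRight v₀) ∨ (∃ w : W, x = ξ₀.smulRight w) := by
    intro x hx
    obtain ⟨v, ξ, -, e⟩ := hL x hx
    rw [e]
    refine Iso2_pair hξ₀ hv₀ ?_
    rw [← e, ← e0]
    exact hL _ (L.add_mem hx₀ hx)
  have alt : (∀ x ∈ L, ∃ η : W →ₗ[ℂ] ℂ, x = η.smulRight v₀) ∨
      (∀ x ∈ L, ∃ w : W, x = ξ₀.smulRight w) := by
    by_contra hc
    push Not at hc
    obtain ⟨⟨x, hx, hx'⟩, y, hy, hy'⟩ := hc
    obtain ⟨w, hw⟩ : ∃ w : W, x = ξ₀.smulRight w := by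
      rcases key x hx with ⟨η, hη⟩ | h
      · exact absurd hη (hx' η)
      · exact h
    obtain ⟨η, hη⟩ : ∃ η : W →ₗ[ℂ] ℂ, y = η.smulRight v₀ := by
      rcases key y hy with h | ⟨w, hw⟩
      · exact h
      · exact absurd hw (hy' w)
    rcases key (x + y) (L.add_mem hx hy) with ⟨ζ, hζ⟩ | ⟨z, hz⟩
    · apply hx' (ζ - η)
      have : x = (x + y) - y := by abel
      rw [this, hζ, hη]
      ext u
      simp [sub_smul]
    · apply hy' (z - w)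
      have : y = (x + y) - x := by abel
      rw [this, hz, hw]
      ext u
      simp [smul_sub]
  rcases alt with h | h
  · refine Or.inl ⟨v₀, hv₀, fun x hx => ?_⟩
    obtain ⟨η, hη⟩ := h x hx
    by_cases hη0 : η v₀ = 0
    · exact ⟨η, hη0, hη⟩
    · have h1 := hL x hx
      rw [hη] at h1
      have h2 := Iso2_sq h1
      rw [smul_eq_zero] at h2
      rcases h2 with h2 | h2
      · exact absurd h2 hη0
      · exact ⟨0, by simp, by rw [hη, h2]; ext; simp⟩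
  · refine Or.inr ⟨ξ₀, hξ₀, fun x hx => ?_⟩
    obtain ⟨w, hw⟩ := h x hx
    by_cases hw0 : ξ₀ w = 0
    · exact ⟨w, hw0, hw⟩
    · have h1 := hL x hx
      rw [hw] at h1
      have h2 := Iso2_sq h1
      rw [smul_eq_zero] at h2
      rcases h2 with h2 | h2
      · exact absurd h2 hw0
      · exact ⟨0, by simp, by rw [hw, h2]; ext; simp⟩

end Pool.MP43e44c.PE
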