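import Pool.Agent.H.MP_43e44c_ag.PE.Def

/-!
The isomorphism attached to a link of two components.
-/

set_option autoImplicit false

open Module

namespace Pool.MP43e44c.PE

variable {A : Type*} [Ring A] [Algebra ℂ A]
  {W : Type*} [AddCommGroup W] [Module ℂ W] [FiniteDimensional ℂ W]
  {W' : Type*} [AddCommGroup W'] [Module ℂ W'] [FiniteDimensional ℂ W']

/-- normalised to trace zero -/
noncomputable def Link_nrm (N : ℂ) (X : Module.End ℂ W) : Module.End ℂ W :=
  X - (LinearMap.trace ℂ W X / N) • 1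

theorem Link_nrm_add (N : ℂ) (X Y : Module.End ℂ W) :
    Link_nrm N (X + Y) = Link_nrm N X + Link_nrm N Y := by
  unfold Link_nrm
  rw [map_add, add_div, add_smul]
  abel

theorem Link_nrm_smul (N c : ℂ) (X : Module.End ℂ W) :
    Link_nrm N (c • X) = c • Link_nrm N X := by
  unfold Link_nrm
  rw [map_smul, smul_sub, smul_smul, smul_eq_mul, mul_div_assoc]

theorem Link_nrm_scalar {N : ℂ} (hN : N = finrank ℂ W) (h0 : N ≠ 0) (c : ℂ) :
    Link_nrm N (c • (1 : Module.End ℂ W)) = 0 := by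
  unfold Link_nrm
  rw [map_smul, LinearMap.trace_one, smul_eq_mul, ← hN, mul_div_assoc, div_self h0, mul_one,
    sub_self]

theorem Link_trace_nrm {N : ℂ} (hN : N = finrank ℂ W) (h0 : N ≠ 0) (X : Module.End ℂ W) :
    LinearMap.trace ℂ W (Link_nrm N X) = 0 := by
  unfold Link_nrm
  rw [map_sub, map_smul, LinearMap.trace_one, smul_eq_mul, ← hN, div_mul_cancel₀ _ h0, sub_self]

theorem Link_trace_comm (X Y : Module.End ℂ W) : LinearMap.trace ℂ W (X * Y - Y * X) = 0 := by
  rw [map_sub, LinearMap.trace_mul_comm, sub_self]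

theorem Link_comm_add (X Y : Module.End ℂ W) (s t : ℂ) :
    (X + s • 1) * (Y + t • 1) - (Y + t • 1) * (X + s • 1) = X * Y - Y * X := by
  simp only [mul_add, add_mul, mul_smul_comm, smul_mul_assoc, mul_one, one_mul, smul_add]
  rw [smul_comm s t]
  abel

/-- Two representations `a, b` of `g` whose images contain all trace zero endomorphisms, on spaces of the same
dimension `N`, such that `b x` scalar implies `a x` scalar, are linked by an isomorphism.
Proof: for `Y ∈ End W'` there are `x ∈ g`, `c` with `Y = b x + c` (if `N > 0`: `c = tr Y / N`; if `N = 0`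
everything is trivial); put `φ Y = a x + (tr Y - tr (a x))/N`.  Well defined: two choices differ by
`x` with `b x` scalar, so `a x` scalar, equal to its normalised trace.  Linear; brackets: `[Y,Y'] =
[b x, b x'] = b [x,x']` and the traces of commutators vanish.  Surjective: `X = a x + c`.  Injective by
dimension. -/
theorem link_iso (g : Submodule ℂ A) (hg : LieClosed g)
    (a : A →ₗ[ℂ] Module.End ℂ W) (b : A →ₗ[ℂ] Module.End ℂ W')
    (ha : ∀ x ∈ g, ∀ y ∈ g, a (x * y - y * x) = a x * a y - a y * a x)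
    (hb : ∀ x ∈ g, ∀ y ∈ g, b (x * y - y * x) = b x * b y - b y * b x)
    (hdim : finrank ℂ W = finrank ℂ W')
    (hsa : ∀ Y : Module.End ℂ W, LinearMap.trace ℂ W Y = 0 → ∃ x ∈ g, a x = Y)
    (hsb : ∀ Y : Module.End ℂ W', LinearMap.trace ℂ W' Y = 0 → ∃ x ∈ g, b x = Y)
    (hl : ∀ x ∈ g, (∃ c : ℂ, b x = c • 1) → ∃ c : ℂ, a x = c • 1) :
    ∃ φ : Module.End ℂ W' ≃ₗ[ℂ] Module.End ℂ W, φ 1 = 1 ∧
      (∀ X Y, φ (X * Y - Y * X) = φ X * φ Y - φ Y * φ X) ∧
      ∀ x ∈ g, ∃ c : ℂ, φ (b x) = a x + c • 1 := by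
  rcases Nat.eq_zero_or_pos (finrank ℂ W) with h0 | h0
  · have h0' : finrank ℂ W' = 0 := by rw [← hdim, h0]
    have s1 : Subsingleton W := finrank_zero_iff.1 h0
    have s2 : Subsingleton W' := finrank_zero_iff.1 h0'
    have s3 : Subsingleton (Module.End ℂ W) := ⟨fun X Y => LinearMap.ext fun v => Subsingleton.elim _ _⟩
    have s4 : Subsingleton (Module.End ℂ W') := ⟨fun X Y => LinearMap.ext fun v => Subsingleton.elim _ _⟩
    refine ⟨⟨0, fun _ => 0, fun _ => Subsingleton.elim _ _, fun _ => Subsingleton.elim _ _⟩,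
      Subsingleton.elim _ _, fun _ _ => Subsingleton.elim _ _,
      fun x _ => ⟨0, Subsingleton.elim _ _⟩⟩
  · obtain ⟨N, hN⟩ : ∃ N : ℂ, N = finrank ℂ W := ⟨_, rfl⟩
    have hN' : N = finrank ℂ W' := by rw [hN, hdim]
    have hN0 : N ≠ 0 := by
      rw [hN]
      exact_mod_cast h0.ne'
    have hex : ∀ Y : Module.End ℂ W', ∃ x ∈ g, b x = Link_nrm N Y :=
      fun Y => hsb _ (Link_trace_nrm hN' hN0 Y)
    choose s hsg hsY using hex
    obtain ⟨f, hf⟩ : ∃ f : Module.End ℂ W' → Module.End ℂ W,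
        ∀ Y, f Y = Link_nrm N (a (s Y)) + (LinearMap.trace ℂ W' Y / N) • 1 := ⟨_, fun _ => rfl⟩
    have hlin : ∀ x ∈ g, (∃ c : ℂ, b x = c • 1) → Link_nrm N (a x) = 0 := by
      intro x hx hc
      obtain ⟨c, hc⟩ := hl x hx hc
      rw [hc]
      exact Link_nrm_scalar hN hN0 c
    have key : ∀ (Y : Module.End ℂ W') (x : A), x ∈ g → (∃ c : ℂ, b x = Y + c • 1) →
        f Y = Link_nrm N (a x) + (LinearMap.trace ℂ W' Y / N) • 1 := by
      rintro Y x hx ⟨c, hc⟩
      have h1 : Link_nrm N (a (x - s Y)) = 0 := by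
        refine hlin _ (g.sub_mem hx (hsg Y)) ⟨c + LinearMap.trace ℂ W' Y / N, ?_⟩
        rw [map_sub, hc, hsY, Link_nrm, add_smul]
        abel
      have h2 : Link_nrm N (a x) = Link_nrm N (a (s Y)) := by
        have h3 : a x = a (x - s Y) + a (s Y) := by rw [← map_add, sub_add_cancel]
        rw [h3, Link_nrm_add, h1, zero_add]
      rw [hf, h2]
    have hdec : ∀ Y : Module.End ℂ W', b (s Y) = Y + (-(LinearMap.trace ℂ W' Y / N)) • 1 := by
      intro Y
      rw [hsY, Link_nrm, neg_smul, sub_eq_add_neg]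
    have hadd : ∀ Y Z, f (Y + Z) = f Y + f Z := by
      intro Y Z
      rw [key (Y + Z) (s Y + s Z) (g.add_mem (hsg Y) (hsg Z))
        ⟨-(LinearMap.trace ℂ W' Y / N) + -(LinearMap.trace ℂ W' Z / N), by
          rw [map_add, hdec, hdec, add_smul]
          abel⟩, hf Y, hf Z, map_add a, Link_nrm_add, map_add, add_div, add_smul]
      abel
    have hsmul : ∀ (c : ℂ) (Y), f (c • Y) = c • f Y := by
      intro c Y
      rw [key (c • Y) (c • s Y) (g.smul_mem c (hsg Y))
        ⟨c * -(LinearMap.trace ℂ W' Y / N), by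
          rw [map_smul, hdec, smul_add, smul_smul]⟩, hf Y, map_smul a, Link_nrm_smul, map_smul,
          smul_add, smul_smul, smul_eq_mul, mul_div_assoc]
    have hone : f 1 = 1 := by
      rw [key 1 0 g.zero_mem ⟨-1, by rw [map_zero, neg_smul, one_smul, add_neg_cancel]⟩, map_zero,
        LinearMap.trace_one, ← hN', div_self hN0, one_smul]
      simp [Link_nrm]
    have hbr : ∀ X Y, f (X * Y - Y * X) = f X * f Y - f Y * f X := by
      intro X Y
      rw [key (X * Y - Y * X) (s X * s Y - s Y * s X) (hg _ (hsg X) _ (hsg Y))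
        ⟨0, by rw [hb _ (hsg X) _ (hsg Y), hdec, hdec, Link_comm_add, zero_smul, add_zero]⟩,
        ha _ (hsg X) _ (hsg Y), Link_trace_comm, zero_div, zero_smul, add_zero, Link_nrm,
        Link_trace_comm, zero_div, zero_smul, sub_zero, hf X, hf Y]
      have h1 : ∀ Z : Module.End ℂ W', Link_nrm N (a (s Z)) + (LinearMap.trace ℂ W' Z / N) • 1 =
          a (s Z) + (LinearMap.trace ℂ W' Z / N - LinearMap.trace ℂ W (a (s Z)) / N) • 1 := by
        intro Z
        rw [Link_nrm, sub_smul]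
        abel
      rw [h1 X, h1 Y, Link_comm_add]
    have hact : ∀ x ∈ g, ∃ c : ℂ, f (b x) = a x + c • 1 := by
      intro x hx
      refine ⟨LinearMap.trace ℂ W' (b x) / N - LinearMap.trace ℂ W (a x) / N, ?_⟩
      rw [key (b x) x hx ⟨0, by rw [zero_smul, add_zero]⟩, Link_nrm, sub_smul]
      abel
    let F : Module.End ℂ W' →ₗ[ℂ] Module.End ℂ W :=
      { toFun := f, map_add' := hadd, map_smul' := hsmul }
    have hFf : ∀ Y, F Y = f Y := fun Y => rfl
    have hsurj : Function.Surjective F := by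
      intro X
      obtain ⟨x, hx, hxX⟩ := hsa _ (Link_trace_nrm hN hN0 X)
      obtain ⟨c, hc⟩ := hact x hx
      refine ⟨b x + (LinearMap.trace ℂ W X / N - c) • 1, ?_⟩
      rw [map_add, map_smul, hFf, hFf, hc, hone, hxX, Link_nrm, sub_smul]
      abel
    have hfr : finrank ℂ (Module.End ℂ W') = finrank ℂ (Module.End ℂ W) := by
      rw [Module.finrank_linearMap, Module.finrank_linearMap, hdim]
    have hinj : Function.Injective F :=
      (LinearMap.injective_iff_surjective_of_finrank_eq_finrank hfr).2 hsurj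
    exact ⟨LinearEquiv.ofBijective F ⟨hinj, hsurj⟩, hone, hbr, hact⟩

end Pool.MP43e44c.PE
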