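import Pool.Agent.H.MP_43e44c_ag.PE.AutC

/-!
Determinants and divisibility.
-/

set_option autoImplicit false

open NumberField Module

namespace Pool.MP43e44c.PE

variable {K : Type*} [Field K] [NumberField K] [IsCMField K]

/-- The exponent of a prime in an integer which is not divisible by `p^e`. -/
theorem PA1_exists_exp (p : ℕ) (x : ℤ) (e : ℕ) (h : ¬ (p : ℤ) ^ e ∣ x) :
    ∃ a < e, (p : ℤ) ^ a ∣ x ∧ ¬ (p : ℤ) ^ (a + 1) ∣ x := by
  classical
  have hex : ∃ n, ¬ (p : ℤ) ^ n ∣ x := ⟨e, h⟩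
  have h1 := Nat.find_spec hex
  have h2 : Nat.find hex ≤ e := Nat.find_min' hex h
  have h3 : Nat.find hex ≠ 0 := by
    intro h0
    rw [h0] at h1
    simp at h1
  obtain ⟨a, ha⟩ := Nat.exists_eq_succ_of_ne_zero h3
  refine ⟨a, by omega, ?_, ?_⟩
  · have h4 := Nat.find_min hex (m := a) (by omega)
    exact not_not.1 h4
  · rw [ha] at h1
    exact h1

/-- If an integer `d` divides `f τ` for all `τ ≠ τ₀, conj τ₀` but not `f τ₀` (`f` odd), then there are a prime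
`p` and `a` with `p^a ∣ f τ` for all `τ`, `p^(a+1) ∣ f τ` for `τ ≠ τ₀, conj τ₀` and `p^(a+1) ∤ f τ₀`.
Proof: if `d = 0` take any `p` and `a` = the exponent of `p` in `f τ₀ ≠ 0`; if `d ≠ 0` some prime power
`p^e ∣ d` does not divide `f τ₀`, `a < e` the exponent of `p` in `f τ₀`. -/
theorem exists_prime_pow (f : (K →+* ℂ) → ℤ) (hodd : ∀ τ, f (cj τ) = - f τ) (τ₀ : K →+* ℂ) (d : ℤ)
    (h : ∀ τ, τ ≠ τ₀ → τ ≠ cj τ₀ → d ∣ f τ) (h0 : ¬ d ∣ f τ₀) :
    ∃ (p a : ℕ), p.Prime ∧ (∀ τ, (p : ℤ) ^ a ∣ f τ) ∧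
      (∀ τ, τ ≠ τ₀ → τ ≠ cj τ₀ → (p : ℤ) ^ (a + 1) ∣ f τ) ∧ ¬ (p : ℤ) ^ (a + 1) ∣ f τ₀ := by
  have h1 : ¬ d.natAbs ∣ (f τ₀).natAbs := by
    rwa [Int.natAbs_dvd_natAbs]
  rw [Nat.dvd_iff_prime_pow_dvd_dvd] at h1
  push Not at h1
  obtain ⟨p, e, hp, hpd, hpf⟩ := h1
  have hpd' : (p : ℤ) ^ e ∣ d := by
    rw [← Int.natCast_pow, Int.natCast_dvd]
    exact hpd
  have hpf' : ¬ (p : ℤ) ^ e ∣ f τ₀ := by
    rw [← Int.natCast_pow, Int.natCast_dvd]
    exact hpf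
  obtain ⟨a, hae, ha1, ha2⟩ := PA1_exists_exp p (f τ₀) e hpf'
  refine ⟨p, a, hp, fun τ => ?_, fun τ h2 h3 => ?_, ha2⟩
  · by_cases h2 : τ = τ₀
    · rw [h2]
      exact ha1
    · by_cases h3 : τ = cj τ₀
      · rw [h3, hodd]
        exact (dvd_neg).2 ha1
      · exact (pow_dvd_pow _ hae.le).trans (hpd'.trans (h τ h2 h3))
  · exact (pow_dvd_pow _ hae).trans (hpd'.trans (h τ h2 h3))

/-- An integral square matrix whose entries are divisible by `p^a`, the off-diagonal ones by `p^(a+1)`, and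
whose diagonal entries are not divisible by `p^(a+1)` has nonzero determinant (divide by `p^a`, reduce
modulo `p`: a diagonal matrix with nonzero entries). -/
theorem det_ne_zero_of_padic {n : Type*} [Fintype n] [DecidableEq n] (M : Matrix n n ℤ) (p a : ℕ)
    (hp : p.Prime) (h1 : ∀ i j, (p : ℤ) ^ a ∣ M i j) (h2 : ∀ i j, i ≠ j → (p : ℤ) ^ (a + 1) ∣ M i j)
    (h3 : ∀ i, ¬ (p : ℤ) ^ (a + 1) ∣ M i i) : M.det ≠ 0 := by
  have hpa : (p : ℤ) ^ a ≠ 0 := pow_ne_zero _ (by exact_mod_cast hp.ne_zero)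
  choose N hN using h1
  have hM : M = (p : ℤ) ^ a • (Matrix.of N : Matrix n n ℤ) := by
    ext i j
    rw [Matrix.smul_apply, smul_eq_mul, Matrix.of_apply]
    exact hN i j
  rw [hM, Matrix.det_smul]
  refine mul_ne_zero (pow_ne_zero _ hpa) fun h0 => ?_
  have : Fact p.Prime := ⟨hp⟩
  have e1 := congrArg (Int.castRingHom (ZMod p)) h0
  rw [RingHom.map_det, map_zero] at e1
  have e2 : (Int.castRingHom (ZMod p)).mapMatrix (Matrix.of N) =
      Matrix.diagonal fun i => ((N i i : ℤ) : ZMod p) := by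
    ext i j
    rw [RingHom.mapMatrix_apply, Matrix.map_apply, Matrix.of_apply]
    by_cases hij : i = j
    · subst hij
      simp
    · rw [Matrix.diagonal_apply_ne _ hij]
      simp only [Int.coe_castRingHom]
      rw [ZMod.intCast_zmod_eq_zero_iff_dvd]
      have h4 := h2 i j hij
      rw [hN, pow_succ] at h4
      exact Int.dvd_of_mul_dvd_mul_left hpa h4
  rw [e2, Matrix.det_diagonal, Finset.prod_eq_zero_iff] at e1
  obtain ⟨i, -, hi⟩ := e1
  rw [ZMod.intCast_zmod_eq_zero_iff_dvd] at hi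
  apply h3 i
  rw [hN, pow_succ]
  exact mul_dvd_mul_left _ hi

end Pool.MP43e44c.PE
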