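import Pool.Agent.H.MP_43e44c_ag.PE.PA1

/-!
Nondegeneracy from divisibility.
-/

set_option autoImplicit false

open NumberField Module

namespace Pool.MP43e44c.PE

variable {K : Type*} [Field K] [NumberField K] [IsCMField K]

/-- A set with exactly one embedding from each conjugate pair. -/
theorem PA2_half : ∃ Φ : Set (K →+* ℂ), ∀ τ, τ ∈ Φ ↔ cj τ ∉ Φ := by
  classical
  let e := Fintype.equivFin (K →+* ℂ)
  refine ⟨{τ | e τ < e (cj τ)}, fun τ => ?_⟩
  have h1 : e (cj τ) ≠ e τ := fun h => cj_ne τ (e.injective h)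
  show e τ < e (cj τ) ↔ ¬ (e (cj τ) < e (cj (cj τ)))
  rw [cj_cj, not_lt]
  exact ⟨fun h => h.le, fun h => lt_of_le_of_ne h (Ne.symm h1)⟩

/-- Nondegeneracy from divisibility.  Proof: choose a set `Φ` with one embedding from each conjugate pair and
for `τ ∈ Φ` an automorphism `σ_τ` with `σ_τ τ = τ₀` (`exists_aut`).  The matrix `M(τ,t) = f(σ_τ t)`, `τ, t ∈ Φ`,
satisfies the hypotheses of `det_ne_zero_of_padic` (`σ_τ t ≠ τ₀, conj τ₀` for `t ≠ τ`, `t ∈ Φ`, by `tw_cj`).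
So its rows span `ℂ^Φ`; odd functions are determined by their values on `Φ`. -/
theorem nondeg_of_dvd (f : (K →+* ℂ) → ℤ) (hodd : ∀ τ, f (cj τ) = - f τ) (τ₀ : K →+* ℂ) (d : ℤ)
    (h : ∀ τ, τ ≠ τ₀ → τ ≠ cj τ₀ → d ∣ f τ) (h0 : ¬ d ∣ f τ₀)
    (z : (K →+* ℂ) → ℂ) (hz : ∀ τ, z (cj τ) = - z τ) :
    z ∈ Submodule.span ℂ (Set.range fun (σ : ℂ ≃+* ℂ) (τ : K →+* ℂ) => ((f (tw σ τ) : ℤ) : ℂ)) := by
  classical
  obtain ⟨p, a, hp, hd1, hd2, hd3⟩ := exists_prime_pow f hodd τ₀ d h h0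
  obtain ⟨Φ, hΦ⟩ := PA2_half (K := K)
  choose s hs using fun τ : K →+* ℂ => exists_aut τ τ₀
  let M : Matrix Φ Φ ℤ := Matrix.of fun τ t => f (tw (s τ) t)
  have hM : M.det ≠ 0 := by
    refine det_ne_zero_of_padic M p a hp (fun τ t => hd1 _) ?_ ?_
    · intro τ t hτt
      refine hd2 _ ?_ ?_
      · intro h1
        apply hτt
        apply Subtype.ext
        rw [← hs τ] at h1
        have h2 := congrArg (tw (s τ).symm) h1
        rw [tw_symm_tw, tw_symm_tw] at h2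
        exact h2.symm
      · intro h1
        rw [← hs τ, ← tw_cj] at h1
        have h2 := congrArg (tw (s τ).symm) h1
        rw [tw_symm_tw, tw_symm_tw] at h2
        have h3 := (hΦ τ).1 τ.2
        rw [← h2] at h3
        exact h3 t.2
    · intro τ
      show ¬ (p : ℤ) ^ (a + 1) ∣ f (tw (s τ) τ)
      rw [hs]
      exact hd3
  let Mc : Matrix Φ Φ ℂ := (Int.castRingHom ℂ).mapMatrix M
  have hMc : IsUnit Mc.det := by
    rw [← RingHom.map_det]
    exact isUnit_iff_ne_zero.2 (by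
      rw [eq_intCast]
      exact_mod_cast hM)
  let zr : Φ → ℂ := fun t => z t
  let c : Φ → ℂ := Matrix.vecMul zr Mc⁻¹
  have hc : Matrix.vecMul c Mc = zr := by
    show Matrix.vecMul (Matrix.vecMul zr Mc⁻¹) Mc = zr
    rw [Matrix.vecMul_vecMul, Matrix.nonsing_inv_mul _ hMc, Matrix.vecMul_one]
  have hsum : z = ∑ τ : Φ, c τ • fun (t : K →+* ℂ) => ((f (tw (s τ) t) : ℤ) : ℂ) := by
    have key : ∀ t : K →+* ℂ, t ∈ Φ → z t = ∑ τ : Φ, c τ * ((f (tw (s τ) t) : ℤ) : ℂ) := by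
      intro t ht
      have h1 := congrFun hc ⟨t, ht⟩
      have h2 : zr ⟨t, ht⟩ = z t := rfl
      rw [← h2, ← h1]
      rfl
    funext t
    rw [Finset.sum_apply]
    simp only [Pi.smul_apply, smul_eq_mul]
    by_cases ht : t ∈ Φ
    · exact key t ht
    · have ht' : cj t ∈ Φ := by
        by_contra h1
        exact ht ((hΦ t).2 h1)
      have h1 := key (cj t) ht'
      rw [hz] at h1
      have h2 : ∀ τ : Φ, c τ * ((f (tw (s τ) (cj t)) : ℤ) : ℂ) =
          - (c τ * ((f (tw (s τ) t) : ℤ) : ℂ)) := by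
        intro τ
        rw [tw_cj, hodd]
        push_cast
        ring
      rw [Finset.sum_congr rfl fun τ _ => h2 τ, Finset.sum_neg_distrib, neg_inj] at h1
      exact h1
  rw [hsum]
  exact Submodule.sum_mem _ fun τ _ => Submodule.smul_mem _ _ (Submodule.subset_span ⟨s τ, rfl⟩)

end Pool.MP43e44c.PE
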