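import Pool.Agent.H.MP_43e44c_ag.PE.Cop
import Pool.Agent.H.MP_43e44c_ag.PE.Dens
import Pool.Agent.H.MP_43e44c_ag.PE.Inn

/-!
The projection of `G` to every `End (W τ)` contains the trace zero endomorphisms.
-/

set_option autoImplicit false

open NumberField Module Matrix

namespace Pool.MP43e44c.PE

variable {m : ℕ} {K : Type*} [Field K] [NumberField K] [IsCMField K] (D : Dat K m)

theorem Pr_G_e {X : Mat m ℂ} (hX : X ∈ D.G) (τ : K →+* ℂ) : X * D.e τ = D.e τ * X :=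
  (comm_iff D X).1 (fun a => G_comm D hX a) τ

/-- Every endomorphism of `W τ` is `cp τ X` with `X` commuting with `ρ(K)` (`cp_surj`, `comm_iff`), so `X` is
in the associative algebra generated by `G` (`dens`) and `cp τ X` preserves `U` (`cp_mul`,
`Algebra.adjoin_induction`; elements of `G` commute with the projectors).  So `U` is stable under all
endomorphisms. -/
theorem irr (τ : K →+* ℂ) (U : Submodule ℂ (D.W τ))
    (hU : ∀ X ∈ D.G, ∀ u ∈ U, D.cp τ X u ∈ U) : U = ⊥ ∨ U = ⊤ := by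
  have key : ∀ X ∈ Algebra.adjoin ℂ (D.G : Set (Mat m ℂ)),
      X * D.e τ = D.e τ * X ∧ ∀ u ∈ U, D.cp τ X u ∈ U := by
    intro X hX
    induction hX using Algebra.adjoin_induction with
    | mem x hx => exact ⟨Pr_G_e D hx τ, hU x hx⟩
    | algebraMap r =>
      refine ⟨(Algebra.commutes r (D.e τ)), fun u hu => ?_⟩
      rw [Algebra.algebraMap_eq_smul_one, map_smul, cp_one]
      exact U.smul_mem r hu
    | add x y _ _ hx hy =>
      refine ⟨by rw [add_mul, mul_add, hx.1, hy.1], fun u hu => ?_⟩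
      rw [map_add]
      exact U.add_mem (hx.2 u hu) (hy.2 u hu)
    | mul x y _ _ hx hy =>
      refine ⟨by rw [mul_assoc, hy.1, ← mul_assoc, hx.1, mul_assoc], fun u hu => ?_⟩
      rw [cp_mul D τ x y hy.1]
      exact hx.2 _ (hy.2 u hu)
  have all : ∀ A : Module.End ℂ (D.W τ), ∀ u ∈ U, A u ∈ U := by
    intro A u hu
    obtain ⟨X, hX, -, rfl⟩ := cp_surj D τ A
    exact (key X (dens D ((comm_iff D X).2 hX))).2 u hu
  by_cases h : U = ⊥
  · exact Or.inl h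
  · right
    obtain ⟨u, hu, hu0⟩ := (Submodule.ne_bot_iff U).1 h
    obtain ⟨f, hf⟩ : ∃ f : Module.Dual ℂ (D.W τ), f u ≠ 0 := by
      by_contra hcon
      push Not at hcon
      exact hu0 ((Module.forall_dual_apply_eq_zero_iff ℂ u).1 hcon)
    rw [eq_top_iff]
    intro w _
    have h1 := all (f.smulRight ((f u)⁻¹ • w)) u hu
    rw [LinearMap.smulRight_apply, smul_smul, mul_inv_cancel₀ hf, one_smul] at h1
    exact h1

/-- `1/2 - i A / 2` is self-adjoint for a skew-adjoint `A`. -/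
theorem Pr_sa {W : Type*} [AddCommGroup W] [Module ℂ W] (c : InnerProductSpace.Core ℂ W)
    (A p : Module.End ℂ W) (hA : ∀ u v, c.inner (A u) v = - c.inner u (A v))
    (hp : p = (-Complex.I / 2) • A + (1 / 2 : ℂ) • (1 : Module.End ℂ W)) (u v : W) :
    c.inner (p u) v = c.inner u (p v) := by
  let _ : NormedAddCommGroup W := c.toNormedAddCommGroup
  let _ : InnerProductSpace ℂ W := InnerProductSpace.ofCore c.toCore
  have h2 : inner ℂ (A u) v = - inner ℂ u (A v) := hA u v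
  change inner ℂ (p u) v = inner ℂ u (p v)
  rw [hp]
  simp only [LinearMap.add_apply, LinearMap.smul_apply, Module.End.one_apply, inner_add_left,
    inner_add_right, inner_smul_left, inner_smul_right, h2, map_div₀, map_neg, Complex.conj_I,
    map_one, map_ofNat]
  ring

/-- `coprime_sl` for `g = (D.G).map (D.cp τ)` with the inner product of `inn` and the idempotent `p` of `cp_J`
(for `σ = 1`; `act 1 = id`): `p = (1 - i cp J)/2` is self-adjoint by `inn`; closed under brackets by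
`cp_mul` (`G_comm`, `comm_iff`). -/
theorem pr_one (τ : K →+* ℂ) (hc : Nat.Coprime (D.mul τ) (D.mul (cj τ)))
    (Y : Module.End ℂ (D.W τ)) (hY : LinearMap.trace ℂ (D.W τ) Y = 0) : ∃ X ∈ D.G, D.cp τ X = Y := by
  rcases Nat.eq_zero_or_pos m with hm | hm
  · subst hm
    refine ⟨0, D.G.zero_mem, LinearMap.ext fun v => Subtype.ext (Subsingleton.elim _ _)⟩
  obtain ⟨c, hc1, hc2⟩ := inn D hm τ
  obtain ⟨p, hp, hr, hk, hJ⟩ := cp_J D (RingEquiv.refl ℂ) τ
  have hact : act (RingEquiv.refl ℂ) (rc D.J) = rc D.J := by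
    ext i j
    rfl
  rw [hact] at hJ
  have htw : tw (RingEquiv.refl ℂ).symm τ = τ := by
    ext x
    rfl
  rw [htw] at hr hk
  have hI : (RingEquiv.refl ℂ) Complex.I = Complex.I := rfl
  rw [hI] at hJ
  have hpe : p = (-Complex.I / 2) • D.cp τ (rc D.J) + (1 / 2 : ℂ) • (1 : Module.End ℂ (D.W τ)) := by
    rw [hJ, smul_add, smul_smul, smul_smul]
    have h1 : -Complex.I / 2 * (2 * Complex.I) = 1 := by
      linear_combination (-1) * Complex.I_mul_I
    have h2 : -Complex.I / 2 * (-Complex.I) = -(1 / 2) := by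
      linear_combination (1 / 2) * Complex.I_mul_I
    rw [h1, h2]
    module
  have hps : ∀ u v, c.inner (p u) v = c.inner u (p v) := Pr_sa c _ p hc2 hpe
  have hmem : Y ∈ (D.G).map (D.cp τ) := by
    refine coprime_sl c ((D.G).map (D.cp τ)) ?_ ?_ ?_ p hp hps ?_ (-Complex.I) (2 * Complex.I) ?_ ?_ Y hY
    · rintro _ ⟨X, hX, rfl⟩ _ ⟨Z, hZ, rfl⟩
      refine ⟨X * Z - Z * X, D.G_lie X hX Z hZ, ?_⟩
      rw [map_sub, cp_mul D τ X Z (Pr_G_e D hZ τ), cp_mul D τ Z X (Pr_G_e D hX τ)]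
    · rintro _ ⟨X, hX, rfl⟩
      obtain ⟨Z, hZ, h⟩ := hc1 X hX
      exact ⟨D.cp τ Z, ⟨Z, hZ, rfl⟩, h⟩
    · intro U hU
      exact irr D τ U fun X hX => hU _ ⟨X, hX, rfl⟩
    · rw [hr, hk]
      exact hc
    · exact mul_ne_zero two_ne_zero Complex.I_ne_zero
    · rw [← hJ]
      exact ⟨rc D.J, J_mem D, rfl⟩
  obtain ⟨X, hX, h⟩ := hmem
  exact ⟨X, hX, h⟩

/-- Transport by an automorphism `σ` with `tw σ τ₁ = τ` (`exists_aut`): choose `X` with `cp τ X = Y`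
(`cp_surj`); `cp τ₁ (σ⁻¹ X)` has trace `σ⁻¹ (tr (e_τ X)) = 0` (`trace_cp`, `act_e`), so it is `cp τ₁ Z`,
`Z ∈ G`; by `cp_eq_iff`, `e_{τ₁} Z = e_{τ₁} σ⁻¹ X`; apply `σ`: `σ Z ∈ G` (`G_act`) and
`e_τ σ(Z) = e_τ X`. -/
theorem pr (τ₁ : K →+* ℂ) (hc : Nat.Coprime (D.mul τ₁) (D.mul (cj τ₁))) (τ : K →+* ℂ)
    (Y : Module.End ℂ (D.W τ)) (hY : LinearMap.trace ℂ (D.W τ) Y = 0) : ∃ X ∈ D.G, D.cp τ X = Y := by
  obtain ⟨σ, rfl⟩ := exists_aut τ₁ τ
  obtain ⟨X, hX, -, rfl⟩ := cp_surj D (tw σ τ₁) Y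
  have he : D.e τ₁ = act σ.symm (D.e (tw σ τ₁)) := by
    rw [act_e, tw_symm_tw]
  have he' : act σ (D.e τ₁) = D.e (tw σ τ₁) := act_e D σ τ₁
  have hss : ∀ Z : Mat m ℂ, act σ (act σ.symm Z) = Z := by
    intro Z
    ext i j
    simp [act]
  have hX1 : act σ.symm X * D.e τ₁ = D.e τ₁ * act σ.symm X := by
    rw [he, ← BlkJ_act_mul, ← BlkJ_act_mul, hX]
  have htr : LinearMap.trace ℂ (D.W τ₁) (D.cp τ₁ (act σ.symm X)) = 0 := by
    rw [trace_cp, he, ← BlkJ_act_mul, BlkJ_trace_act, ← trace_cp, hY, map_zero]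
  obtain ⟨Z, hZ, hZ2⟩ := pr_one D τ₁ hc _ htr
  have h1 := (cp_eq_iff D τ₁ (Pr_G_e D hZ τ₁) hX1).1 hZ2
  have h2 := congrArg (act σ) h1
  rw [BlkJ_act_mul, BlkJ_act_mul, he', hss] at h2
  refine ⟨act σ Z, G_act D σ hZ, ?_⟩
  exact (cp_eq_iff D (tw σ τ₁) (Pr_G_e D (G_act D σ hZ) _) (hX _)).2 h2

end Pool.MP43e44c.PE
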