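import Pool.Agent.H.MP_43e44c_ag.PE.Def

/-!
Rational decomposition of matrices and tensors.
-/

set_option autoImplicit false

namespace Pool.MP43e44c.PE

/-- A finite family of elements of a `ℚ`-algebra `F` (a field) is `∑_j c_j • l_j(y)` for finitely many
`c_j ∈ F` and `ℚ`-linear functionals `l_j`.  Proof: take a `ℚ`-basis `c_j` of the span of the `y i` and
extend the dual basis to `F` (`exists_extend` for a subspace, or a complement). -/
theorem exists_rat_decomp {F : Type*} [Field F] [Algebra ℚ F] {ι : Type*} [Finite ι] (y : ι → F) :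
    ∃ (r : ℕ) (c : Fin r → F) (l : Fin r → F →ₗ[ℚ] ℚ),
      ∀ i, y i = ∑ j, c j * algebraMap ℚ F (l j (y i)) := by
  classical
  let S : Submodule ℚ F := Submodule.span ℚ (Set.range y)
  have hfin : FiniteDimensional ℚ S := FiniteDimensional.span_of_finite ℚ (Set.finite_range y)
  let b := Module.finBasis ℚ S
  choose l hl using fun j => LinearMap.exists_extend (b.coord j)
  refine ⟨Module.finrank ℚ S, fun j => (b j : F), l, fun i => ?_⟩
  have hy : y i ∈ S := Submodule.subset_span ⟨i, rfl⟩
  have h1 : ∀ j, l j (y i) = b.repr ⟨y i, hy⟩ j := by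
    intro j
    have := LinearMap.congr_fun (hl j) ⟨y i, hy⟩
    simpa using this
  have h2 := congrArg (fun v : S => (v : F)) (b.sum_repr ⟨y i, hy⟩)
  simp only [Submodule.coe_sum, Submodule.coe_smul] at h2
  rw [← h2]
  refine Finset.sum_congr rfl fun j _ => ?_
  have h3 : ∑ k, (b.repr ⟨y i, hy⟩ k) • (b k : F) = y i := h2
  rw [h3, h1 j, Algebra.smul_def, mul_comm]

/-- A rational vector in the complex span of a set of rational vectors is in their rational span.
Proof: `Finite ι`, the rational span `U` is the intersection of the kernels of the rational functionals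
`φ` vanishing on it; the complexification of such a `φ` kills the complex span, hence kills `t`.
(Alternatively: `l : ℂ → ℚ` with `l 1 = 1` applied to the coefficients.) -/
theorem mem_span_rat {ι : Type*} [Finite ι] (V : Set (ι → ℚ)) (t : ι → ℚ)
    (h : (fun i => (t i : ℂ)) ∈ Submodule.span ℂ ((fun v i => ((v i : ℚ) : ℂ)) '' V)) :
    t ∈ Submodule.span ℚ V := by
  obtain ⟨l, hl⟩ : ∃ l : ℂ →ₗ[ℚ] ℚ, l 1 = 1 := by
    have hinj : LinearMap.ker (Algebra.linearMap ℚ ℂ) = ⊥ :=
      LinearMap.ker_eq_bot.2 (algebraMap ℚ ℂ).injective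
    obtain ⟨l, hl⟩ := LinearMap.exists_leftInverse_of_injective _ hinj
    refine ⟨l, ?_⟩
    have := LinearMap.congr_fun hl 1
    simpa using this
  have hlq : ∀ (q : ℚ) (c : ℂ), l (c * (q : ℂ)) = q * l c := by
    intro q c
    have : c * (q : ℂ) = q • c := by rw [Rat.smul_def, mul_comm]
    rw [this, map_smul, smul_eq_mul]
  have key : ∀ f ∈ Submodule.span ℂ ((fun (v : ι → ℚ) i => ((v i : ℚ) : ℂ)) '' V), ∀ c : ℂ,
      (fun i => l (c * f i)) ∈ Submodule.span ℚ V := by
    intro f hf
    induction hf using Submodule.span_induction with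
    | mem f hf =>
      obtain ⟨v, hv, rfl⟩ := hf
      intro c
      have e : (fun i => l (c * ((v i : ℚ) : ℂ))) = l c • v := by
        funext i
        rw [hlq, Pi.smul_apply, smul_eq_mul, mul_comm]
      rw [e]
      exact Submodule.smul_mem _ _ (Submodule.subset_span hv)
    | zero =>
      intro c
      have e : (fun i : ι => l (c * (0 : ι → ℂ) i)) = 0 := by
        funext i
        simp
      rw [e]
      exact Submodule.zero_mem _
    | add f g _ _ hf hg =>
      intro c
      have e : (fun i => l (c * (f + g) i)) = (fun i => l (c * f i)) + fun i => l (c * g i) := by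
        funext i
        simp [mul_add]
      rw [e]
      exact Submodule.add_mem _ (hf c) (hg c)
    | smul a f _ hf =>
      intro c
      have e : (fun i => l (c * (a • f) i)) = fun i => l ((c * a) * f i) := by
        funext i
        simp [mul_assoc]
      rw [e]
      exact hf (c * a)
  have h1 := key _ h 1
  have e : (fun i => l (1 * (t i : ℂ))) = t := by
    funext i
    rw [hlq, hl, mul_one]
  rwa [e] at h1

end Pool.MP43e44c.PE
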