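import Pool.Agent.H.MP_43e44c_ag.PE.Pr
import Pool.Agent.H.MP_43e44c_ag.PE.Link
import Pool.Agent.H.MP_43e44c_ag.PE.Iso

/-!
Separation of the components at two different places.
-/

set_option autoImplicit false

open NumberField Module Matrix

namespace Pool.MP43e44c.PE

variable {m : ℕ} {K : Type*} [Field K] [NumberField K] [IsCMField K] (D : Dat K m)

/-- The multiplicities of `τ` and `t` are different and not both places are definite. -/
def Dat.Dif (τ t : K →+* ℂ) : Prop :=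
  D.mul τ ≠ D.mul t ∧ ¬ (D.mul τ * D.mul (cj τ) = 0 ∧ D.mul t * D.mul (cj t) = 0)

/-- An idempotent which is scalar is zero or one. -/
theorem sep_idem {W : Type*} [AddCommGroup W] [Module ℂ W] {q : Module.End ℂ W} (hq : q * q = q)
    {c : ℂ} (h : q = c • 1) : q = 0 ∨ q = 1 := by
  have h1 : c • q = q := by
    conv_rhs => rw [← hq]
    conv_rhs => rw [h]
    rw [smul_mul_assoc, one_mul, ← h]
  have h2 : (c - 1) • q = 0 := by
    rw [sub_smul, h1, one_smul, sub_self]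
  rcases smul_eq_zero.1 h2 with h3 | h3
  · right
    rw [h, sub_eq_zero.1 h3, one_smul]
  · exact Or.inl h3

/-- If an idempotent is zero or one its rank or its nullity is zero. -/
theorem sep_rank {W : Type*} [AddCommGroup W] [Module ℂ W] {p : Module.End ℂ W}
    (h : p = 0 ∨ p = 1) : finrank ℂ (LinearMap.range p) * finrank ℂ (LinearMap.ker p) = 0 := by
  rcases h with h | h
  · rw [h, LinearMap.range_zero, finrank_bot, zero_mul]
  · have h1 : LinearMap.ker p = ⊥ := by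
      rw [h]
      exact LinearMap.ker_id
    rw [h1, finrank_bot, mul_zero]

/-- If the projections of `G` contain all trace zero endomorphisms and some Galois translates of `(τ,t)`
and of `(τ, conj t)` have different multiplicities, not both definite, some `Z ∈ G` is scalar on `W t` and
not on `W τ`. -/
theorem sep
    (hpr : ∀ τ, ∀ Y : Module.End ℂ (D.W τ), LinearMap.trace ℂ (D.W τ) Y = 0 → ∃ X ∈ D.G, D.cp τ X = Y)
    (τ t : K →+* ℂ) (h1 : ∃ s : ℂ ≃+* ℂ, D.Dif (tw s τ) (tw s t))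
    (h2 : ∃ s : ℂ ≃+* ℂ, D.Dif (tw s τ) (tw s (cj t))) :
    ∃ Z ∈ D.G, (∃ c : ℂ, D.cp t Z = c • 1) ∧ ¬ ∃ c : ℂ, D.cp τ Z = c • 1 := by
  by_contra hno
  push Not at hno
  have hl : ∀ x ∈ D.G, (∃ c : ℂ, D.cp t x = c • 1) → ∃ c : ℂ, D.cp τ x = c • 1 := by
    intro x hx hc
    by_contra hcon
    obtain ⟨c, hc'⟩ := hno x hx hc
    exact hcon ⟨c, hc'⟩
  have hGe : ∀ X ∈ D.G, ∀ τ', X * D.e τ' = D.e τ' * X := fun X hX =>
    (comm_iff D X).1 fun a => G_comm D hX a
  have hbr : ∀ τ' : K →+* ℂ, ∀ x ∈ D.G, ∀ y ∈ D.G,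
      D.cp τ' (x * y - y * x) = D.cp τ' x * D.cp τ' y - D.cp τ' y * D.cp τ' x := by
    intro τ' x hx y hy
    rw [map_sub, cp_mul D τ' x y (hGe y hy τ'), cp_mul D τ' y x (hGe x hx τ')]
  obtain ⟨φ, hφ1, hφb, hφg⟩ := link_iso D.G D.G_lie (D.cp τ) (D.cp t) (hbr τ) (hbr t)
    (by rw [finrank_W, finrank_W, mul_add_mul D τ t]) (hpr τ) (hpr t) hl
  have key : ∀ s : ℂ ≃+* ℂ, ∃ (p : Module.End ℂ (D.W τ)) (q : Module.End ℂ (D.W t)) (c : ℂ),
      p * p = p ∧ q * q = q ∧
      finrank ℂ (LinearMap.range p) = D.mul (tw s τ) ∧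
      finrank ℂ (LinearMap.ker p) = D.mul (cj (tw s τ)) ∧
      finrank ℂ (LinearMap.range q) = D.mul (tw s t) ∧
      finrank ℂ (LinearMap.ker q) = D.mul (cj (tw s t)) ∧ φ q = p + c • 1 := by
    intro s
    obtain ⟨p, hp, hpr', hpk, hpe⟩ := cp_J D s.symm τ
    obtain ⟨q, hq, hqr, hqk, hqe⟩ := cp_J D s.symm t
    rw [RingEquiv.symm_symm] at hpr' hpk hqr hqk
    obtain ⟨c, hc⟩ := hφg (act s.symm (rc D.J)) (G_act D s.symm (J_mem D))
    have hI : s.symm Complex.I ≠ 0 := by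
      intro h0
      exact Complex.I_ne_zero ((map_eq_zero s.symm).1 h0)
    have h2I : (2 * s.symm Complex.I) ≠ 0 := mul_ne_zero two_ne_zero hI
    rw [hpe, hqe, map_add, map_smul, map_smul, hφ1] at hc
    have hc2 : (2 * s.symm Complex.I) • φ q = (2 * s.symm Complex.I) • p + c • 1 := by
      have h3 : (-s.symm Complex.I) • (1 : Module.End ℂ (D.W τ)) + (2 * s.symm Complex.I) • φ q =
          (-s.symm Complex.I) • (1 : Module.End ℂ (D.W τ)) + ((2 * s.symm Complex.I) • p + c • 1) := by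
        rw [hc, add_assoc]
      refine LinearMap.ext fun w => ?_
      have h9 := LinearMap.congr_fun h3 w
      rw [LinearMap.add_apply, LinearMap.add_apply _ ((2 * s.symm Complex.I) • p + c • 1)] at h9
      exact add_left_cancel h9
    refine ⟨p, q, (2 * s.symm Complex.I)⁻¹ * c, hp, hq, hpr', hpk, hqr, hqk, ?_⟩
    have h4 : φ q = (2 * s.symm Complex.I)⁻¹ • ((2 * s.symm Complex.I) • φ q) := by
      rw [smul_smul, inv_mul_cancel₀ h2I, one_smul]
    rw [h4, hc2, smul_add, smul_smul, smul_smul, inv_mul_cancel₀ h2I, one_smul]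
  have hne : ∀ (s : ℂ ≃+* ℂ) (p : Module.End ℂ (D.W τ)) (q : Module.End ℂ (D.W t)) (c : ℂ),
      p * p = p → q * q = q →
      finrank ℂ (LinearMap.range p) = D.mul (tw s τ) →
      finrank ℂ (LinearMap.ker p) = D.mul (cj (tw s τ)) →
      finrank ℂ (LinearMap.range q) = D.mul (tw s t) →
      finrank ℂ (LinearMap.ker q) = D.mul (cj (tw s t)) → φ q = p + c • 1 →
      (p = 0 ∨ p = 1) →
      D.mul (tw s τ) * D.mul (cj (tw s τ)) = 0 ∧ D.mul (tw s t) * D.mul (cj (tw s t)) = 0 := by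
    intro s p q c hp hq hpr' hpk hqr hqk hφq h01
    have h5 := sep_rank h01
    rw [hpr', hpk] at h5
    refine ⟨h5, ?_⟩
    have h6 : ∃ d : ℂ, φ q = d • 1 := by
      rcases h01 with h0 | h0
      · exact ⟨c, by rw [hφq, h0, zero_add]⟩
      · exact ⟨1 + c, by rw [hφq, h0, add_smul, one_smul]⟩
    obtain ⟨d, hd⟩ := h6
    have h7 : q = d • 1 := by
      apply φ.injective
      rw [hd, map_smul, hφ1]
    have h8 := sep_rank (sep_idem hq h7)
    rwa [hqr, hqk] at h8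
  rcases dich φ hφ1 hφb with hd | hd
  · obtain ⟨s, hs1, hs2⟩ := h1
    obtain ⟨p, q, c, hp, hq, hpr', hpk, hqr, hqk, hφq⟩ := key s
    have h01 : ¬ (p = 0 ∨ p = 1) := fun h01 =>
      hs2 (hne s p q c hp hq hpr' hpk hqr hqk hφq h01)
    rw [not_or] at h01
    have h9 := hd p q hp hq h01.1 h01.2 ⟨c, hφq⟩
    rw [hpr', hqr] at h9
    exact hs1 h9
  · obtain ⟨s, hs1, hs2⟩ := h2
    obtain ⟨p, q, c, hp, hq, hpr', hpk, hqr, hqk, hφq⟩ := key s
    rw [tw_cj] at hs1 hs2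
    rw [cj_cj] at hs2
    have h01 : ¬ (p = 0 ∨ p = 1) := fun h01 => by
      obtain ⟨ha, hb⟩ := hne s p q c hp hq hpr' hpk hqr hqk hφq h01
      exact hs2 ⟨ha, by rw [mul_comm]; exact hb⟩
    rw [not_or] at h01
    have h9 := hd p q hp hq h01.1 h01.2 ⟨c, hφq⟩
    rw [hpr', hqk] at h9
    exact hs1 h9

end Pool.MP43e44c.PE
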