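import Pool.Agent.H.MP_43e44c_ag.PE.Set0

/-!
Rational matrices and endomorphisms.
-/

set_option autoImplicit false

open NumberField Module Matrix

namespace Pool.MP43e44c.PE

variable {E : Type*} [AddCommGroup E] [Module ℂ E] [Module ℝ E] [IsScalarTower ℝ ℂ E]
variable {K : Type*} [Field K] [NumberField K] [IsCMField K]

theorem Set1_mem {m : ℕ} (b : Basis (Fin m) ℝ E) (x : E) :
    x ∈ AddSubgroup.closure (Set.range b) ↔ ∀ j, ∃ z : ℤ, (z : ℝ) = b.repr x j := by
  have h : x ∈ AddSubgroup.closure (Set.range b) ↔ x ∈ Submodule.span ℤ (Set.range b) := by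
    rw [← Submodule.span_int_eq_addSubgroupClosure]
    rfl
  rw [h, Module.Basis.mem_span_iff_repr_mem]
  simp

/-- A complex linear `φ` with `n φ(Λ) ⊆ Λ`, `n ≥ 1`, has a rational matrix in a basis of the lattice `Λ`. -/
theorem exists_rat_matrix {m : ℕ} (b : Basis (Fin m) ℝ E) (φ : Module.End ℂ E) (n : ℕ) (hn : n ≠ 0)
    (h : ∀ x ∈ AddSubgroup.closure (Set.range b), n • φ x ∈ AddSubgroup.closure (Set.range b)) :
    ∃ M : Mat m ℚ, ∀ v : Fin m → ℝ, b.equivFun.symm (qr M *ᵥ v) = φ (b.equivFun.symm v) := by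
  have h1 : ∀ i j, ∃ z : ℤ, (z : ℝ) = b.repr (n • φ (b i)) j := fun i =>
    (Set1_mem b _).1 (h _ (AddSubgroup.subset_closure ⟨i, rfl⟩))
  choose z hz using h1
  have hn' : (n : ℝ) ≠ 0 := Nat.cast_ne_zero.2 hn
  have h2 : ∀ i j, b.repr (φ (b i)) j = (z i j : ℝ) / n := by
    intro i j
    rw [hz i j, map_nsmul, Finsupp.smul_apply, nsmul_eq_mul, mul_div_cancel_left₀ _ hn']
  refine ⟨Matrix.of fun j i => (z i j : ℚ) / n, fun v => ?_⟩
  have h3 : φ (b.equivFun.symm v) = ∑ i, v i • φ (b i) := by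
    rw [Basis.equivFun_symm_apply, map_sum]
    exact Finset.sum_congr rfl fun i _ => (φ.restrictScalars ℝ).map_smul (v i) (b i)
  have h4 : ∀ i, φ (b i) = ∑ j, ((z i j : ℝ) / n) • b j := by
    intro i
    conv_lhs => rw [← b.sum_repr (φ (b i))]
    exact Finset.sum_congr rfl fun j _ => by rw [h2]
  rw [h3, Basis.equivFun_symm_apply]
  simp only [h4, Finset.smul_sum]
  rw [Finset.sum_comm]
  refine Finset.sum_congr rfl fun j _ => ?_
  rw [Matrix.mulVec, dotProduct, Finset.sum_smul]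
  refine Finset.sum_congr rfl fun i _ => ?_
  rw [smul_smul]
  congr 1
  rw [RingHom.mapMatrix_apply, Matrix.map_apply, Matrix.of_apply, mul_comm]
  simp

/-- A common denominator. -/
theorem Set1_den {m : ℕ} (M : Mat m ℚ) :
    ∃ n : ℕ, n ≠ 0 ∧ ∀ i j, ∃ z : ℤ, (z : ℚ) = n * M i j := by
  refine ⟨∏ p : Fin m × Fin m, (M p.1 p.2).den, ?_, fun i j => ?_⟩
  · exact Finset.prod_ne_zero_iff.2 fun p _ => (M p.1 p.2).den_nz
  · obtain ⟨k, hk⟩ := Finset.dvd_prod_of_mem (fun p : Fin m × Fin m => (M p.1 p.2).den)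
      (Finset.mem_univ (i, j))
    refine ⟨k * (M i j).num, ?_⟩
    rw [hk]
    push_cast
    have h1 : ((M i j).den : ℚ) * M i j = (M i j).num := by
      rw [mul_comm]
      exact Rat.mul_den_eq_num (M i j)
    rw [mul_comm ((M i j).den : ℚ) k, mul_assoc, h1]

/-- The converse: a rational matrix commuting with the complex structure comes from such a `φ`. -/
theorem exists_end_of_matrix {m : ℕ} (b : Basis (Fin m) ℝ E) (J : Mat m ℝ)
    (hJ : ∀ v : Fin m → ℝ, b.equivFun.symm (J *ᵥ v) = Complex.I • b.equivFun.symm v)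
    (M : Mat m ℚ) (hM : J * qr M = qr M * J) :
    ∃ φ : Module.End ℂ E, (∃ n : ℕ, n ≠ 0 ∧ ∀ x ∈ AddSubgroup.closure (Set.range b),
      n • φ x ∈ AddSubgroup.closure (Set.range b)) ∧
      ∀ v : Fin m → ℝ, b.equivFun.symm (qr M *ᵥ v) = φ (b.equivFun.symm v) := by
  let f : E →ₗ[ℝ] E := b.equivFun.symm.toLinearMap ∘ₗ (Matrix.toLin' (qr M)) ∘ₗ
    b.equivFun.toLinearMap
  have hf : ∀ v : Fin m → ℝ, f (b.equivFun.symm v) = b.equivFun.symm (qr M *ᵥ v) := by
    intro v
    show b.equivFun.symm (Matrix.toLin' (qr M) (b.equivFun (b.equivFun.symm v))) = _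
    rw [LinearEquiv.apply_symm_apply, Matrix.toLin'_apply]
  have hI : ∀ x, f (Complex.I • x) = Complex.I • f x := by
    intro x
    obtain ⟨v, rfl⟩ := b.equivFun.symm.surjective x
    rw [← hJ, hf, hf, ← hJ, Matrix.mulVec_mulVec, Matrix.mulVec_mulVec, hM]
  have hc : ∀ (c : ℂ) (x : E), c • x = c.re • x + c.im • (Complex.I • x) := by
    intro c x
    conv_lhs => rw [← Complex.re_add_im c]
    rw [add_smul, mul_smul]
    have h1 : ∀ (r : ℝ) (y : E), (r : ℂ) • y = r • y := fun r y => by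
      rw [← algebraMap_smul ℂ r y]
      rfl
    rw [h1, h1]
  let φ : Module.End ℂ E :=
    { toFun := f
      map_add' := f.map_add
      map_smul' := fun c x => by
        show f (c • x) = c • f x
        rw [hc, hc c (f x), map_add, map_smul, map_smul, hI] }
  refine ⟨φ, ?_, fun v => (hf v).symm⟩
  obtain ⟨n, hn, hz⟩ := Set1_den M
  refine ⟨n, hn, fun x hx => ?_⟩
  rw [Set1_mem] at hx ⊢
  choose y hy using hx
  choose z hz using hz
  intro j
  refine ⟨∑ i, z j i * y i, ?_⟩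
  have h1 : x = b.equivFun.symm (fun i => (y i : ℝ)) := by
    rw [Basis.equivFun_symm_apply]
    conv_lhs => rw [← b.sum_repr x]
    exact Finset.sum_congr rfl fun i _ => by rw [← hy i]
  have h2 : φ x = b.equivFun.symm (qr M *ᵥ fun i => (y i : ℝ)) := by
    rw [h1]
    exact hf _
  have h3 : b.repr (φ x) j = (qr M *ᵥ fun i => (y i : ℝ)) j := by
    rw [h2, ← Basis.equivFun_apply, LinearEquiv.apply_symm_apply]
  rw [map_nsmul, Finsupp.smul_apply, h3, nsmul_eq_mul, Matrix.mulVec, dotProduct, Finset.mul_sum]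
  push_cast
  refine Finset.sum_congr rfl fun i _ => ?_
  have h4 : ((z j i : ℤ) : ℝ) = n * (M j i : ℝ) := by
    have := congrArg (fun q : ℚ => (q : ℝ)) (hz j i)
    simpa using this
  rw [h4, RingHom.mapMatrix_apply, Matrix.map_apply, eq_ratCast, mul_assoc]

end Pool.MP43e44c.PE
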