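import Pool.Agent.H.MP_43e44c_ag.PE.AutC
import Pool.Agent.H.MP_43e44c_ag.PE.Proj

/-!
Traces and multiplicities.
-/

set_option autoImplicit false

open NumberField Module Matrix

namespace Pool.MP43e44c.PE

variable {m : ℕ} {K : Type*} [Field K] [NumberField K] [IsCMField K] (D : Dat K m)

theorem Sig_rc_qr (M : Mat m ℚ) : rc (qr M) = qc M := by
  ext i j
  simp [RingHom.mapMatrix_apply]

theorem Sig_J_sq : rc D.J * rc D.J = -1 := by
  rw [← map_mul, D.J_sq, map_neg, map_one]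

theorem Sig_J_ρ (a : K) : rc D.J * qc (D.ρ a) = qc (D.ρ a) * rc D.J := by
  rw [← Sig_rc_qr, ← map_mul, ← map_mul, D.J_ρ a]

theorem Sig_J_e (τ : K →+* ℂ) : rc D.J * D.e τ = D.e τ * rc D.J :=
  (comm_iff D (rc D.J)).1 (Sig_J_ρ D) τ

theorem Sig_J_P : rc D.J * D.P = Complex.I • D.P := by
  unfold Dat.P
  rw [mul_smul_comm, mul_sub, mul_one, mul_smul_comm, Sig_J_sq, smul_comm Complex.I (1 / 2 : ℂ),
    smul_sub Complex.I (1 : Mat m ℂ), smul_smul, Complex.I_mul_I]
  congr 1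
  rw [smul_neg, sub_neg_eq_add, neg_smul, one_smul, sub_neg_eq_add, add_comm]

theorem Sig_P_e (τ : K →+* ℂ) : D.P * D.e τ = D.e τ * D.P := by
  unfold Dat.P
  rw [smul_mul_assoc, mul_smul_comm, sub_mul, mul_sub, one_mul, mul_one, smul_mul_assoc,
    mul_smul_comm, Sig_J_e]

theorem Sig_isProj (τ : K →+* ℂ) : LinearMap.IsProj (D.eig τ) (toLin' (D.e τ * D.P)) := by
  constructor
  · intro v
    rw [toLin'_apply]
    constructor
    · rw [mulVec_mulVec, ← mul_assoc, Sig_J_e, mul_assoc, Sig_J_P, mul_smul_comm, smul_mulVec]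
    · intro a
      rw [mulVec_mulVec, ← mul_assoc, ρ_e, smul_mul_assoc, smul_mulVec]
  · rintro v ⟨h1, h2⟩
    have hP : D.P *ᵥ v = v := by
      unfold Dat.P
      rw [smul_mulVec, sub_mulVec, one_mulVec, smul_mulVec, h1, smul_smul, Complex.I_mul_I,
        neg_smul, one_smul, sub_neg_eq_add, ← two_smul ℂ v, smul_smul]
      norm_num
    rw [toLin'_apply, ← mulVec_mulVec, hP]
    unfold Dat.e
    rw [sum_mulVec]
    simp only [smul_mulVec, h2, smul_smul]
    rw [← Finset.sum_smul]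
    classical
    rw [dual_emb, if_pos rfl, one_smul]

theorem Sig_isProj_W (τ : K →+* ℂ) : LinearMap.IsProj (D.W τ) (toLin' (D.e τ)) := by
  constructor
  · intro v
    exact ⟨v, rfl⟩
  · rintro _ ⟨v, rfl⟩
    rw [toLin'_apply, toLin'_apply, mulVec_mulVec, e_idem]

theorem Sig_tw_star (τ : K →+* ℂ) : tw (starRingAut : ℂ ≃+* ℂ) τ = cj τ := by
  ext x
  rfl

theorem Sig_act_P : act (starRingAut : ℂ ≃+* ℂ) D.P = 1 - D.P := by
  ext i j
  have h1 : (rc D.J i j : ℂ) = ((D.J i j : ℝ) : ℂ) := rfl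
  have h2 : (1 : Mat m ℂ) i j = (((1 : Mat m ℝ) i j : ℝ) : ℂ) := by
    by_cases h : i = j
    · subst h
      simp
    · simp [Matrix.one_apply_ne h]
  have h3 : D.P i j = 1 / 2 * ((((1 : Mat m ℝ) i j : ℝ) : ℂ) - Complex.I * ((D.J i j : ℝ) : ℂ)) := by
    rw [← h1, ← h2]
    simp only [Dat.P, Matrix.sub_apply, Matrix.smul_apply, smul_eq_mul]
  rw [Matrix.sub_apply, h2]
  show (starRingEnd ℂ) (D.P i j) = _
  rw [h3]
  simp only [map_mul, map_sub, map_div₀, map_one, Complex.conj_I, Complex.conj_ofReal, map_ofNat]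
  ring

theorem Sig_trace_act (σ : ℂ ≃+* ℂ) (X : Mat m ℂ) : (act σ X).trace = σ X.trace := by
  simp only [Matrix.trace, diag_apply, map_apply, map_sum]

/-- `e_τ P` is an idempotent (`J` commutes with `ρ(K)`, so with `e_τ`) with range `eig τ`; the trace of
an idempotent is its rank. -/
theorem trace_eP (τ : K →+* ℂ) : (D.e τ * D.P).trace = D.mul τ := by
  rw [← Matrix.trace_toLin'_eq, (Sig_isProj D τ).trace]
  rfl

/-- Complex conjugation maps `e_τ` to `e_{conj τ}` (`act_e`) and `P` to `1 - P`. -/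
theorem trace_e (τ : K →+* ℂ) : (D.e τ).trace = ((D.mul τ + D.mul (cj τ) : ℕ) : ℂ) := by
  have h1 : D.e τ = D.e τ * D.P + D.e τ * (1 - D.P) := by rw [mul_sub, mul_one]; abel
  have h2 : D.e τ * (1 - D.P) = act (starRingAut : ℂ ≃+* ℂ) (D.e (cj τ) * D.P) := by
    have h3 : act (starRingAut : ℂ ≃+* ℂ) (D.e (cj τ) * D.P) =
        act (starRingAut : ℂ ≃+* ℂ) (D.e (cj τ)) * act (starRingAut : ℂ ≃+* ℂ) D.P :=
      Matrix.map_mul (f := ((starRingAut : ℂ ≃+* ℂ) : ℂ →+* ℂ))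
    rw [h3, act_e, Sig_tw_star, cj_cj, Sig_act_P]
  have h4 : (D.e τ * (1 - D.P)).trace = D.mul (cj τ) := by
    rw [h2, Sig_trace_act, trace_eP, map_natCast]
  rw [h1, trace_add, trace_eP, h4, Nat.cast_add]

/-- All eigenspaces of `K` have the same dimension: `act σ (e τ) = e (tw σ τ)` and the traces are
natural numbers; transitivity `exists_aut`. -/
theorem mul_add_mul (τ t : K →+* ℂ) : D.mul τ + D.mul (cj τ) = D.mul t + D.mul (cj t) := by
  obtain ⟨σ, hσ⟩ := exists_aut τ t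
  have h1 : (D.e t).trace = σ (D.e τ).trace := by
    rw [← Sig_trace_act, act_e, hσ]
  rw [trace_e, trace_e, map_natCast] at h1
  exact (Nat.cast_injective h1).symm

theorem trace_eJ (τ : K →+* ℂ) :
    (D.e τ * rc D.J).trace = Complex.I * ((D.mul τ : ℂ) - D.mul (cj τ)) := by
  have h1 : rc D.J = Complex.I • ((2 : ℂ) • D.P - 1) := by
    unfold Dat.P
    rw [smul_smul, mul_one_div_cancel (two_ne_zero), one_smul, sub_sub_cancel_left, smul_neg,
      smul_smul, Complex.I_mul_I, neg_smul, one_smul, neg_neg]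
  rw [h1, mul_smul_comm, trace_smul, mul_sub, mul_one, mul_smul_comm, trace_sub, trace_smul,
    trace_eP, trace_e, smul_eq_mul, smul_eq_mul]
  push_cast
  ring

theorem finrank_W (τ : K →+* ℂ) : finrank ℂ (D.W τ) = D.mul τ + D.mul (cj τ) := by
  have h1 : ((finrank ℂ (D.W τ) : ℕ) : ℂ) = ((D.mul τ + D.mul (cj τ) : ℕ) : ℂ) := by
    rw [← trace_e, ← Matrix.trace_toLin'_eq, (Sig_isProj_W D τ).trace]
  exact Nat.cast_injective h1

end Pool.MP43e44c.PE
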