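import Pool.Agent.H.MP_43e44c_ag.PE.Def

/-!
Ideals of `sl(W)`.
-/

set_option autoImplicit false

open Module

namespace Pool.MP43e44c.PE

section Mat

variable {n : Type*} [Fintype n] [DecidableEq n] {I : Submodule ℂ (Matrix n n ℂ)}

theorem Slid_trace {i j : n} (h : i ≠ j) (c : ℂ) : (Matrix.single i j c).trace = 0 := by
  refine Finset.sum_eq_zero fun k _ => ?_
  rw [Matrix.diag_apply, Matrix.single_apply, if_neg]
  exact fun hh => h (hh.1.trans hh.2.symm)

theorem Slid_entry (hI : ∀ A : Matrix n n ℂ, A.trace = 0 → ∀ x ∈ I, A * x - x * A ∈ I)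
    {x : Matrix n n ℂ} (hx : x ∈ I) {i j : n} (hij : i ≠ j) (h : x j i ≠ 0) :
    Matrix.single i j (1 : ℂ) ∈ I := by
  have h1 := hI _ (Slid_trace hij 1) x hx
  have h2 := hI _ (Slid_trace hij 1) _ h1
  have hE : Matrix.single i j (1 : ℂ) * Matrix.single i j (1 : ℂ) = 0 :=
    Matrix.single_mul_single_of_ne _ _ _ _ hij.symm _
  have hE2 : Matrix.single i j (1 : ℂ) * x * Matrix.single i j (1 : ℂ) =
      x j i • Matrix.single i j (1 : ℂ) := by
    rw [Matrix.single_mul_mul_single, Matrix.smul_single]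
    simp
  have e : Matrix.single i j (1 : ℂ) * (Matrix.single i j 1 * x - x * Matrix.single i j 1) -
      (Matrix.single i j 1 * x - x * Matrix.single i j 1) * Matrix.single i j 1 =
      (-2 * x j i) • Matrix.single i j (1 : ℂ) := by
    have e1 : Matrix.single i j (1 : ℂ) * (Matrix.single i j 1 * x - x * Matrix.single i j 1) -
      (Matrix.single i j 1 * x - x * Matrix.single i j 1) * Matrix.single i j 1 =
      Matrix.single i j (1 : ℂ) * Matrix.single i j 1 * x -
        (Matrix.single i j (1 : ℂ) * x * Matrix.single i j (1 : ℂ)) -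
        (Matrix.single i j (1 : ℂ) * x * Matrix.single i j (1 : ℂ)) +
        x * (Matrix.single i j (1 : ℂ) * Matrix.single i j (1 : ℂ)) := by noncomm_ring
    rw [e1, hE, hE2, zero_mul, mul_zero, add_zero, zero_sub, ← neg_smul, ← sub_smul]
    congr 1
    ring
  rw [e] at h2
  have h3 := I.smul_mem (-2 * x j i)⁻¹ h2
  rwa [smul_smul, inv_mul_cancel₀ (mul_ne_zero (by norm_num) h), one_smul] at h3

theorem Slid_exists (hI : ∀ A : Matrix n n ℂ, A.trace = 0 → ∀ x ∈ I, A * x - x * A ∈ I)
    {x : Matrix n n ℂ} (hx : x ∈ I) (hx' : x ∉ Set.range (Matrix.scalar n)) :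
    ∃ i j : n, i ≠ j ∧ Matrix.single i j (1 : ℂ) ∈ I := by
  by_contra hno
  push Not at hno
  have off : ∀ i j, i ≠ j → x j i = 0 := by
    intro i j hij
    by_contra h
    exact hno i j hij (Slid_entry hI hx hij h)
  have eL : ∀ i j : n, Matrix.single i j (1 : ℂ) * x = x j j • Matrix.single i j (1 : ℂ) := by
    intro i j
    ext a b
    by_cases ha : a = i
    · subst ha
      rw [Matrix.single_mul_apply_same, Matrix.smul_apply]
      by_cases hb : b = j
      · subst hb
        simp
      · rw [off b j hb, Matrix.single_apply, if_neg (fun hh => hb hh.2.symm)]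
        simp
    · rw [Matrix.single_mul_apply_of_ne _ _ _ _ _ ha, Matrix.smul_apply,
        Matrix.single_apply, if_neg (fun hh => ha hh.1.symm)]
      simp
  have eR : ∀ i j : n, x * Matrix.single i j (1 : ℂ) = x i i • Matrix.single i j (1 : ℂ) := by
    intro i j
    ext a b
    by_cases hb : b = j
    · subst hb
      rw [Matrix.mul_single_apply_same, Matrix.smul_apply]
      by_cases ha : a = i
      · subst ha
        simp
      · rw [off i a (Ne.symm ha), Matrix.single_apply, if_neg (fun hh => ha hh.1.symm)]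
        simp
    · rw [Matrix.mul_single_apply_of_ne _ _ _ _ _ hb, Matrix.smul_apply,
        Matrix.single_apply, if_neg (fun hh => hb hh.2.symm)]
      simp
  apply hx'
  apply Matrix.mem_range_scalar_of_commute_single
  intro i j hij
  show Matrix.single i j (1 : ℂ) * x = x * Matrix.single i j (1 : ℂ)
  have hd : x j j = x i i := by
    by_contra h
    have h1 := hI _ (Slid_trace hij 1) x hx
    rw [eL, eR, ← sub_smul] at h1
    have h2 := I.smul_mem (x j j - x i i)⁻¹ h1
    rw [smul_smul, inv_mul_cancel₀ (sub_ne_zero.2 h), one_smul] at h2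
    exact hno i j hij h2
  rw [eL, eR, hd]

theorem Slid_all (hI : ∀ A : Matrix n n ℂ, A.trace = 0 → ∀ x ∈ I, A * x - x * A ∈ I)
    {i j : n} (hij : i ≠ j) (h : Matrix.single i j (1 : ℂ) ∈ I) (k l : n) (hkl : k ≠ l) :
    Matrix.single k l (1 : ℂ) ∈ I := by
  have flip : ∀ i j : n, i ≠ j → Matrix.single i j (1 : ℂ) ∈ I → Matrix.single j i (1 : ℂ) ∈ I := by
    intro i j hij h
    refine Slid_entry hI h hij.symm ?_
    rw [Matrix.single_apply_same]
    exact one_ne_zero
  have row : ∀ i j k : n, i ≠ j → k ≠ j → Matrix.single i j (1 : ℂ) ∈ I →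
      Matrix.single k j (1 : ℂ) ∈ I := by
    intro i j k hij hkj h
    by_cases hki : k = i
    · rwa [hki]
    have h1 := hI _ (Slid_trace hki 1) _ h
    rwa [Matrix.single_mul_single_same, Matrix.single_mul_single_of_ne _ _ _ _ hkj.symm, sub_zero,
      mul_one] at h1
  by_cases hkj : k = j
  · subst hkj
    exact flip l k hkl.symm (row i k l hij hkl.symm h)
  · have h1 : Matrix.single k j (1 : ℂ) ∈ I := row i j k hij hkj h
    have h2 : Matrix.single j k (1 : ℂ) ∈ I := flip k j hkj h1
    exact flip l k hkl.symm (row j k l (Ne.symm hkj) hkl.symm h2)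

theorem Slid_mat (hI : ∀ A : Matrix n n ℂ, A.trace = 0 → ∀ x ∈ I, A * x - x * A ∈ I)
    {x : Matrix n n ℂ} (hx : x ∈ I) (hx' : x ∉ Set.range (Matrix.scalar n))
    (A : Matrix n n ℂ) (hA : A.trace = 0) : A ∈ I := by
  obtain ⟨i, j, hij, h⟩ := Slid_exists hI hx hx'
  have hall := Slid_all hI hij h
  have hdiag : ∀ k, Matrix.single k k (1 : ℂ) - Matrix.single i i (1 : ℂ) ∈ I := by
    intro k
    by_cases hki : k = i
    · rw [hki, sub_self]
      exact I.zero_mem
    have h1 := hI _ (Slid_trace hki 1) _ (hall i k (Ne.symm hki))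
    rwa [Matrix.single_mul_single_same, Matrix.single_mul_single_same, mul_one] at h1
  have hA' : ∑ k, A k k = 0 := hA
  have e : A = ∑ k, ∑ l, (Matrix.single k l (A k l) - if k = l then A k k • Matrix.single i i (1 : ℂ) else 0) := by
    have e1 : ∑ k, ∑ l, (if k = l then A k k • Matrix.single i i (1 : ℂ) else 0) = 0 := by
      have e2 : ∀ k, ∑ l, (if k = l then A k k • Matrix.single i i (1 : ℂ) else 0) =
          A k k • Matrix.single i i (1 : ℂ) := fun k => by simp
      rw [Finset.sum_congr rfl fun k _ => e2 k, ← Finset.sum_smul, hA', zero_smul]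
    simp only [Finset.sum_sub_distrib]
    rw [e1, sub_zero]
    exact Matrix.matrix_eq_sum_single A
  rw [e]
  refine I.sum_mem fun k _ => I.sum_mem fun l _ => ?_
  by_cases hkl : k = l
  · subst hkl
    rw [if_pos rfl]
    have e3 : Matrix.single k k (A k k) - A k k • Matrix.single i i (1 : ℂ) =
        A k k • (Matrix.single k k (1 : ℂ) - Matrix.single i i (1 : ℂ)) := by
      rw [smul_sub, Matrix.smul_single (A k k) k k (1 : ℂ), smul_eq_mul, mul_one]
    rw [e3]
    exact I.smul_mem _ (hdiag k)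
  · rw [if_neg hkl, sub_zero]
    have e3 : Matrix.single k l (A k l) = A k l • Matrix.single k l (1 : ℂ) := by
      rw [Matrix.smul_single, smul_eq_mul, mul_one]
    rw [e3]
    exact I.smul_mem _ (hall k l hkl)

end Mat

variable {W : Type*} [AddCommGroup W] [Module ℂ W] [FiniteDimensional ℂ W]

/-- A subspace of `End W` stable under brackets with trace zero endomorphisms and containing a non-scalar
element contains all trace zero endomorphisms.
Proof: (1) `x` non-scalar: there are `w ∈ W`, `ξ ∈ W*` with `ξ w = 0`, `ξ (x w) ≠ 0`; with `n = w ⊗ ξ`,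
`[n,[n,x]] = -2 ξ(x w) n`, so `n ∈ I`.  (2) For `n = w ⊗ ξ ∈ I` and `k = u ⊗ η` (`η u = 0`):
`[k,[k,n]] = -2 η(w) ξ(u) k`, so `k ∈ I` if `η w ≠ 0` and `ξ u ≠ 0`.  (3) For arbitrary `k = u ⊗ η ≠ 0`
choose `u'` outside the two hyperplanes `ker ξ, ker η` and `η'` with `η' u' = 0`, `η' w ≠ 0`, `η' u ≠ 0`
(`w, u` are not multiples of `u'`), and apply (2) twice.  (4) The `u ⊗ η` with `η u = 0` span the trace
zero endomorphisms (`E_ii - E_ij + E_ji - E_jj = (e_i+e_j) ⊗ (e_i*-e_j*)`). -/
theorem slid (I : Submodule ℂ (Module.End ℂ W))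
    (hI : ∀ A, LinearMap.trace ℂ W A = 0 → ∀ x ∈ I, A * x - x * A ∈ I)
    {x : Module.End ℂ W} (hx : x ∈ I) (hx' : ¬ ∃ c : ℂ, x = c • 1)
    (A : Module.End ℂ W) (hA : LinearMap.trace ℂ W A = 0) : A ∈ I := by
  let b := Module.finBasis ℂ W
  let e := LinearMap.toMatrixAlgEquiv b
  let J : Submodule ℂ (Matrix (Fin (finrank ℂ W)) (Fin (finrank ℂ W)) ℂ) :=
    I.comap e.symm.toLinearMap
  have hJ : ∀ M, M ∈ J ↔ e.symm M ∈ I := fun M => Iff.rfl
  have htr : ∀ f : Module.End ℂ W, (e f).trace = LinearMap.trace ℂ W f := fun f =>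
    (LinearMap.trace_eq_matrix_trace ℂ b f).symm
  have h1 : e A ∈ J := by
    refine Slid_mat (x := e x) ?_ ?_ ?_ (e A) ?_
    · intro M hM y hy
      rw [hJ] at hy ⊢
      rw [map_sub, map_mul, map_mul]
      refine hI _ ?_ _ hy
      rw [← htr, AlgEquiv.apply_symm_apply]
      exact hM
    · rw [hJ, AlgEquiv.symm_apply_apply]
      exact hx
    · rintro ⟨c, hc⟩
      apply hx'
      refine ⟨c, e.injective ?_⟩
      rw [← hc, map_smul, map_one, Matrix.scalar_apply, Matrix.smul_one_eq_diagonal]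
    · rw [htr]
      exact hA
  rwa [hJ, AlgEquiv.symm_apply_apply] at h1

/-- An endomorphism commuting with all trace zero endomorphisms is a scalar. -/
theorem scalar_of_comm {x : Module.End ℂ W}
    (hx : ∀ A, LinearMap.trace ℂ W A = 0 → A * x = x * A) : ∃ c : ℂ, x = c • 1 := by
  let b := Module.finBasis ℂ W
  let e := LinearMap.toMatrixAlgEquiv b
  have htr : ∀ f : Module.End ℂ W, (e f).trace = LinearMap.trace ℂ W f := fun f =>
    (LinearMap.trace_eq_matrix_trace ℂ b f).symm
  have h1 : e x ∈ Set.range (Matrix.scalar (Fin (finrank ℂ W))) := by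
    apply Matrix.mem_range_scalar_of_commute_single
    intro i j hij
    show Matrix.single i j (1 : ℂ) * e x = e x * Matrix.single i j (1 : ℂ)
    have h2 := hx (e.symm (Matrix.single i j 1)) (by
      rw [← htr, AlgEquiv.apply_symm_apply]
      exact Slid_trace hij 1)
    have h3 := congrArg e h2
    rwa [map_mul, map_mul, AlgEquiv.apply_symm_apply] at h3
  obtain ⟨c, hc⟩ := h1
  refine ⟨c, e.injective ?_⟩
  rw [← hc, map_smul, map_one, Matrix.scalar_apply, Matrix.smul_one_eq_diagonal]

end Pool.MP43e44c.PE
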