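import Pool.Agent.H.MP_43e44c_ag.PE.FFTc
import Pool.Agent.H.MP_43e44c_ag.PE.Ext
import Pool.Agent.H.MP_43e44c_ag.PE.Adp

/-!
Tensors killed by the unitary Lie algebra: one colouring.
-/

set_option autoImplicit false

open NumberField Module Matrix

namespace Pool.MP43e44c.PE

variable {m : ℕ} {K : Type*} [Field K] [NumberField K] [IsCMField K] (D : Dat K m)

theorem Ten1_zero {S : Type*} [Fintype S] [DecidableEq S] (T : (S → Fin m) → ℂ)
    (v : S → Fin m → ℂ) (s : S) : extT T (Function.update v s 0) = 0 := by
  have h := extT_update_smul T v s 0 0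
  rw [smul_zero, zero_mul] at h
  exact h

theorem Ten1_neg {S : Type*} [Fintype S] [DecidableEq S] (T : (S → Fin m) → ℂ)
    (v : S → Fin m → ℂ) (s : S) (a : Fin m → ℂ) :
    extT T (Function.update v s (-a)) = -extT T (Function.update v s a) := by
  have h := extT_update_smul T v s (-1) a
  rw [neg_smul, one_smul, neg_mul, one_mul] at h
  exact h

theorem Ten1_cj {K : Type*} [Field K] (τ : K →+* ℂ) : cj (cj τ) = τ := by
  ext x
  simp [cj, ComplexEmbedding.conjugate]

/-- The values on the slots of both kinds, joined. -/
def Ten1_join {S R : Type*} (P : S → Prop) [DecidablePred P] (x : {s // P s} → R)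
    (y : {s // ¬ P s} → R) : S → R :=
  fun t => if h : P t then x ⟨t, h⟩ else y ⟨t, h⟩

theorem Ten1_join_left {S R : Type*} [DecidableEq S] (P : S → Prop) [DecidablePred P]
    (x : {s // P s} → R) (y : {s // ¬ P s} → R) (s : {s // P s}) (p : R) :
    Ten1_join P (Function.update x s p) y = Function.update (Ten1_join P x y) (s : S) p := by
  funext t
  by_cases hts : t = s
  · subst hts
    rw [Function.update_self, Ten1_join, dif_pos s.2]
    exact Function.update_self _ _ _
  · rw [Function.update_of_ne hts]
    unfold Ten1_join
    by_cases h : P t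
    · rw [dif_pos h, dif_pos h, Function.update_of_ne]
      intro e
      exact hts (congrArg Subtype.val e)
    · rw [dif_neg h, dif_neg h]

theorem Ten1_join_right {S R : Type*} [DecidableEq S] (P : S → Prop) [DecidablePred P]
    (x : {s // P s} → R) (y : {s // ¬ P s} → R) (s : {s // ¬ P s}) (p : R) :
    Ten1_join P x (Function.update y s p) = Function.update (Ten1_join P x y) (s : S) p := by
  funext t
  by_cases hts : t = s
  · subst hts
    rw [Function.update_self, Ten1_join, dif_neg s.2]
    exact Function.update_self _ _ _
  · rw [Function.update_of_ne hts]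
    unfold Ten1_join
    by_cases h : P t
    · rw [dif_pos h, dif_pos h]
    · rw [dif_neg h, dif_neg h, Function.update_of_ne]
      intro e
      exact hts (congrArg Subtype.val e)

/-- Let `b` be an adapted basis and `c : S → Emb` a colouring of the slots.  The values of a tensor `T` killed
by the skew matrices on the tuples of basis vectors of these colours are a combination of contractions of
the slots with colour in `Φ` with the other ones. -/
theorem ten_color (hm : 0 < m) {S : Type*} [Fintype S] [DecidableEq S] (T : (S → Fin m) → ℂ)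
    (hT : ∀ X, D.Sk X → der X T = 0) {N : ℕ} {Φ : Set (K →+* ℂ)} [DecidablePred (· ∈ Φ)]
    {b : Basis ((K →+* ℂ) × Fin N) ℂ (Fin m → ℂ)} (h : D.Adp N Φ b) (c : S → (K →+* ℂ)) :
    (fun z : S → Fin N => extT T (fun s => b (c s, z s))) ∈
      Submodule.span ℂ {B | ∃ σ : {s // c s ∈ Φ} ≃ {s // ¬ c s ∈ Φ}, (∀ s, cj (c (σ s)) = c s) ∧
        B = fun z => if ∀ s : {s // c s ∈ Φ}, z s = z (σ s) then 1 else 0} := by
  classical
  let A : ({s // c s ∈ Φ} → Fin N) → ({s // ¬ c s ∈ Φ} → Fin N) → ℂ := fun x y =>
    extT T (fun s => b (c s, Ten1_join (fun s => c s ∈ Φ) x y s))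
  have hupd : ∀ (w : S → Fin N) (s : S) (p : Fin N),
      (fun t => b (c t, Function.update w s p t)) =
        Function.update (fun t => b (c t, w t)) s (b (c s, p)) := by
    intro w s p
    funext t
    by_cases hts : t = s
    · subst hts
      rw [Function.update_self, Function.update_self]
    · rw [Function.update_of_ne hts, Function.update_of_ne hts]
  have key := fft2 (fun s : {s // c s ∈ Φ} => c s) (fun s : {s // ¬ c s ∈ Φ} => cj (c s)) A (by
    intro k p q x y
    by_cases hk : k ∈ Φ
    · obtain ⟨X, hX, h1, h2, h3⟩ := Adp_elem hm h hk p q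
      have hd : extT (der X T) (fun s => b (c s, Ten1_join (fun s => c s ∈ Φ) x y s)) = 0 := by
        rw [hT X hX]
        simp [extT]
      rw [extT_der, ← Fintype.sum_subtype_add_sum_subtype (fun s => c s ∈ Φ)] at hd
      have e1 : ∀ s : {s // c s ∈ Φ},
          extT T (Function.update (fun s => b (c s, Ten1_join (fun s => c s ∈ Φ) x y s)) (s : S)
            (X *ᵥ b (c s, Ten1_join (fun s => c s ∈ Φ) x y s))) =
          if c s = k ∧ x s = q then A (Function.update x s p) y else 0 := by
        intro s
        have hj : Ten1_join (fun s => c s ∈ Φ) x y s = x s := by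
          unfold Ten1_join
          rw [dif_pos s.2]
        rw [hj]
        by_cases hs : c s = k ∧ x s = q
        · rw [if_pos hs, hs.1, hs.2, h1]
          show _ = extT T (fun t => b (c t, Ten1_join (fun s => c s ∈ Φ)
            (Function.update x s p) y t))
          rw [Ten1_join_left, hupd, hs.1]
        · rw [if_neg hs, h3, Ten1_zero]
          · intro e
            exact hs ⟨congrArg Prod.fst e, congrArg Prod.snd e⟩
          · intro e
            have e2 : c s = cj k := congrArg Prod.fst e
            exact ((h.cm k).1 hk) (e2 ▸ s.2)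
      have e2 : ∀ s : {s // ¬ c s ∈ Φ},
          extT T (Function.update (fun s => b (c s, Ten1_join (fun s => c s ∈ Φ) x y s)) (s : S)
            (X *ᵥ b (c s, Ten1_join (fun s => c s ∈ Φ) x y s))) =
          -(if cj (c s) = k ∧ y s = p then A x (Function.update y s q) else 0) := by
        intro s
        have hj : Ten1_join (fun s => c s ∈ Φ) x y s = y s := by
          unfold Ten1_join
          rw [dif_neg s.2]
        rw [hj]
        by_cases hs : cj (c s) = k ∧ y s = p
        · have hs1 : c s = cj k := by rw [← hs.1, Ten1_cj]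
          rw [if_pos hs, hs.2]
          have h4 : X *ᵥ b (c s, p) = -b (c s, q) := by
            rw [hs1]
            exact h2
          rw [h4, Ten1_neg]
          congr 1
          show _ = extT T (fun t => b (c t, Ten1_join (fun s => c s ∈ Φ) x
            (Function.update y s q) t))
          rw [Ten1_join_right, hupd]
        · rw [if_neg hs, h3, Ten1_zero, neg_zero]
          · intro e
            have e3 : c s = k := congrArg Prod.fst e
            exact s.2 (e3 ▸ hk)
          · intro e
            have e3 : c s = cj k := congrArg Prod.fst e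
            exact hs ⟨by rw [e3, Ten1_cj], congrArg Prod.snd e⟩
      simp only [e1, e2, Finset.sum_neg_distrib] at hd
      exact add_neg_eq_zero.1 hd
    · rw [Finset.sum_eq_zero, Finset.sum_eq_zero]
      · intro s _
        rw [if_neg]
        rintro ⟨e, _⟩
        apply hk
        rw [← e]
        by_contra hc
        exact s.2 ((h.cm _).2 hc)
      · intro s _
        rw [if_neg]
        rintro ⟨e, _⟩
        exact hk (e ▸ s.2))
  let R : (({s // c s ∈ Φ} → Fin N) → ({s // ¬ c s ∈ Φ} → Fin N) → ℂ) →ₗ[ℂ]
      ((S → Fin N) → ℂ) :=
    { toFun := fun A z => A (fun s => z s) (fun s => z s)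
      map_add' := fun _ _ => rfl
      map_smul' := fun _ _ => rfl }
  have hRA : R A = fun z : S → Fin N => extT T (fun s => b (c s, z s)) := by
    funext z
    show extT T (fun s => b (c s, Ten1_join (fun s => c s ∈ Φ) (fun s => z s)
      (fun s => z s) s)) = _
    congr 1
    funext s
    congr 2
    unfold Ten1_join
    split_ifs <;> rfl
  rw [← hRA]
  have h5 := Submodule.mem_map_of_mem (f := R) key
  rw [Submodule.map_span] at h5
  refine Submodule.span_mono ?_ h5
  rintro _ ⟨_, ⟨σ, hσ, rfl⟩, rfl⟩
  refine ⟨σ, hσ, ?_⟩
  funext z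
  show (if (fun s : {s // c s ∈ Φ} => z s) = (fun s : {s // ¬ c s ∈ Φ} => z s) ∘ σ
    then (1 : ℂ) else 0) = _
  refine if_congr ?_ rfl rfl
  constructor
  · intro e s
    exact congrFun e s
  · intro e
    funext s
    exact e s

end Pool.MP43e44c.PE
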