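import Pool.Agent.H.MP_43e44c_ag.PE.Full

/-!
The centre; `G` is the whole unitary Lie algebra.
-/

set_option autoImplicit false

open NumberField Module Matrix

namespace Pool.MP43e44c.PE

variable {m : ℕ} {K : Type*} [Field K] [NumberField K] [IsCMField K] (D : Dat K m)

/-- The multiplicity function is nondegenerate: its Galois translates span the odd functions. -/
def Dat.Nd : Prop := ∀ z : (K →+* ℂ) → ℂ, (∀ τ, z (cj τ) = - z τ) →
  z ∈ Submodule.span ℂ (Set.range fun (σ : ℂ ≃+* ℂ) (τ : K →+* ℂ) =>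
    (D.mul (tw σ τ) : ℂ) - (D.mul (cj (tw σ τ)) : ℂ))

/-- The statement of `full`. -/
def Dat.Fu : Prop := ∀ τ, ∀ X : Mat m ℂ, D.Sk X → (∀ t, t ≠ τ → t ≠ cj τ → D.e t * X = 0) →
  (D.e τ * X).trace = 0 → X ∈ D.G

theorem uall_e_comm (τ t : K →+* ℂ) : D.e τ * D.e t = D.e t * D.e τ := by
  by_cases h : τ = t
  · rw [h]
  · rw [e_orth D h, e_orth D (Ne.symm h)]

theorem uall_N_cj (τ : K →+* ℂ) : D.mul (cj τ) + D.mul (cj (cj τ)) = D.mul τ + D.mul (cj τ) := by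
  rw [cj_cj, add_comm]

theorem uall_N_ne (hm : 0 < m) (τ : K →+* ℂ) : ((D.mul τ + D.mul (cj τ) : ℕ) : ℂ) ≠ 0 := by
  intro h
  have h1 : D.mul τ + D.mul (cj τ) = 0 := by exact_mod_cast h
  have h2 : (∑ t, D.e t : Mat m ℂ).trace = 0 := by
    rw [Matrix.trace_sum]
    refine Finset.sum_eq_zero fun t _ => ?_
    rw [trace_e, mul_add_mul D t τ, h1, Nat.cast_zero]
  rw [e_sum, Matrix.trace_one, Fintype.card_fin] at h2
  have h3 : m = 0 := by exact_mod_cast h2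
  omega

/-- A combination of the projectors with odd coefficients is skew. -/
theorem uall_sk_center (hm : 0 < m) (c : (K →+* ℂ) → ℂ) (hc : ∀ τ, c (cj τ) = - c τ) :
    D.Sk (∑ τ, c τ • D.e τ) := by
  refine ⟨fun t => ?_, ?_⟩
  · rw [Finset.sum_mul, Finset.mul_sum]
    refine Finset.sum_congr rfl fun τ _ => ?_
    rw [smul_mul_assoc, mul_smul_comm, uall_e_comm]
  · rw [Matrix.transpose_sum, Finset.sum_mul, Finset.mul_sum]
    have h1 : ∀ τ, (c τ • D.e τ)ᵀ * qc D.Ψ = c τ • (qc D.Ψ * D.e (cj τ)) := fun τ => by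
      rw [Matrix.transpose_smul, smul_mul_assoc, e_ros D hm]
    rw [Finset.sum_congr rfl fun τ _ => h1 τ]
    have h2 : ∑ τ, c τ • (qc D.Ψ * D.e (cj τ)) = ∑ τ, c (cj τ) • (qc D.Ψ * D.e τ) := by
      refine Fintype.sum_equiv (Function.Involutive.toPerm (fun τ : K →+* ℂ => cj τ) cj_cj) _ _
        fun τ => ?_
      show c τ • (qc D.Ψ * D.e (cj τ)) = c (cj (cj τ)) • (qc D.Ψ * D.e (cj τ))
      rw [cj_cj]
    rw [h2, ← Finset.sum_add_distrib]
    refine Finset.sum_eq_zero fun τ _ => ?_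
    rw [hc, mul_smul_comm, neg_smul, neg_add_cancel]

theorem uall_odd (hm : 0 < m) {X : Mat m ℂ} (hX : D.Sk X) (τ : K →+* ℂ) :
    (D.e (cj τ) * X).trace = - (D.e τ * X).trace := by
  obtain ⟨u, hu⟩ := (isUnit_Ψ D).map (qc : Mat m ℚ →+* Mat m ℂ)
  have h1 : D.e (cj τ) = (↑u⁻¹ : Mat m ℂ) * ((D.e τ)ᵀ * (u : Mat m ℂ)) := by
    rw [hu, e_ros D hm τ, ← hu, ← mul_assoc, Units.inv_mul, one_mul]
  have h2 : (u : Mat m ℂ) * X = -(Xᵀ * (u : Mat m ℂ)) := by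
    rw [hu]
    exact eq_neg_of_add_eq_zero_right hX.2
  have h3 : D.e (cj τ) * X = -((↑u⁻¹ : Mat m ℂ) * (X * D.e τ)ᵀ * (u : Mat m ℂ)) := by
    rw [h1, mul_assoc, mul_assoc, h2, Matrix.transpose_mul]
    simp only [mul_neg, mul_assoc]
  rw [h3, Matrix.trace_neg, Matrix.trace_units_conj', Matrix.trace_transpose, hX.1 τ]

theorem uall_sk_sub {X Y : Mat m ℂ} (hX : D.Sk X) (hY : D.Sk Y) : D.Sk (X - Y) := by
  refine ⟨fun τ => ?_, ?_⟩
  · rw [sub_mul, mul_sub, hX.1, hY.1]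
  · have h1 := hX.2
    have h2 := hY.2
    rw [Matrix.transpose_sub, sub_mul, mul_sub]
    calc Xᵀ * qc D.Ψ - Yᵀ * qc D.Ψ + (qc D.Ψ * X - qc D.Ψ * Y)
        = (Xᵀ * qc D.Ψ + qc D.Ψ * X) - (Yᵀ * qc D.Ψ + qc D.Ψ * Y) := by abel
      _ = 0 := by rw [h1, h2, sub_zero]

/-- The part of a skew matrix at a pair of conjugate places. -/
theorem uall_sk_part (hm : 0 < m) {Y : Mat m ℂ} (hY : D.Sk Y) (τ : K →+* ℂ) :
    D.Sk ((D.e τ + D.e (cj τ)) * Y) := by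
  refine ⟨fun t => ?_, ?_⟩
  · rw [mul_assoc, hY.1 t, ← mul_assoc, ← mul_assoc, add_mul, mul_add, uall_e_comm D τ t,
      uall_e_comm D (cj τ) t]
  · have h1 : (D.e τ + D.e (cj τ))ᵀ * qc D.Ψ = qc D.Ψ * (D.e τ + D.e (cj τ)) := by
      rw [Matrix.transpose_add, add_mul, e_ros D hm, e_ros D hm, cj_cj, mul_add, add_comm]
    have h2 : Y * (D.e τ + D.e (cj τ)) = (D.e τ + D.e (cj τ)) * Y := by
      rw [mul_add, add_mul, hY.1, hY.1]
    rw [Matrix.transpose_mul, mul_assoc, h1, ← mul_assoc, ← h2, ← mul_assoc, ← add_mul, hY.2,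
      zero_mul]

/-- Reduction to the centre.  For a skew `X` the trace function `z τ = tr(e_τ X)` is odd, and
`X - ∑_τ (z τ / N) e_τ ∈ G`, `N = mul τ + mul (conj τ) > 0`.
Proof: `Y = X - ∑ (z τ/N) e_τ` is skew (`e_ros`, oddness of `z`), `Y = ½ ∑_τ (e_τ + e_{conj τ}) Y` and each
summand is in `G` by `hF` (`tr(e_τ Y) = z τ - (z τ/N) N = 0` by `trace_e`).  Oddness: `tr(e_{conj τ} X) =
tr(Ψ⁻¹ e_τᵀ Ψ X) = -tr(Ψ⁻¹ e_τᵀ Xᵀ Ψ) = -tr((X e_τ)ᵀ)`. -/
theorem red_center (hm : 0 < m) (hF : D.Fu) {X : Mat m ℂ} (hX : D.Sk X) :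
    (∀ τ, (D.e (cj τ) * X).trace = - (D.e τ * X).trace) ∧
    X - ∑ τ, ((D.e τ * X).trace / ((D.mul τ + D.mul (cj τ) : ℕ) : ℂ)) • D.e τ ∈ D.G := by
  refine ⟨uall_odd D hm hX, ?_⟩
  set c : (K →+* ℂ) → ℂ := fun τ => (D.e τ * X).trace / ((D.mul τ + D.mul (cj τ) : ℕ) : ℂ) with hc
  have hodd : ∀ τ, c (cj τ) = - c τ := fun τ => by
    show (D.e (cj τ) * X).trace / ((D.mul (cj τ) + D.mul (cj (cj τ)) : ℕ) : ℂ) =
      -((D.e τ * X).trace / ((D.mul τ + D.mul (cj τ) : ℕ) : ℂ))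
    rw [uall_odd D hm hX, uall_N_cj, neg_div]
  have hY := uall_sk_sub D hX (uall_sk_center D hm c hodd)
  set Y := X - ∑ τ, c τ • D.e τ with hYdef
  have htr : ∀ τ, (D.e τ * Y).trace = 0 := by
    intro τ
    have h1 : D.e τ * ∑ t, c t • D.e t = c τ • D.e τ := by
      rw [Finset.mul_sum, Finset.sum_eq_single τ]
      · rw [mul_smul_comm, e_idem]
      · intro t _ ht
        rw [mul_smul_comm, e_orth D (Ne.symm ht), smul_zero]
      · intro h
        exact absurd (Finset.mem_univ τ) h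
    rw [hYdef, mul_sub, h1, Matrix.trace_sub, Matrix.trace_smul, trace_e, smul_eq_mul]
    show (D.e τ * X).trace - (D.e τ * X).trace / ((D.mul τ + D.mul (cj τ) : ℕ) : ℂ) *
      ((D.mul τ + D.mul (cj τ) : ℕ) : ℂ) = 0
    rw [div_mul_cancel₀ _ (uall_N_ne D hm τ), sub_self]
  have hpart : ∀ τ, (D.e τ + D.e (cj τ)) * Y ∈ D.G := by
    intro τ
    refine hF τ _ (uall_sk_part D hm hY τ) ?_ ?_
    · intro t h1 h2
      rw [← mul_assoc, mul_add, e_orth D h1, e_orth D h2, add_zero, zero_mul]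
    · rw [← mul_assoc, mul_add, e_idem, e_orth D (Ne.symm (cj_ne τ)), add_zero, htr]
  have hsum : ∑ τ, (D.e τ + D.e (cj τ)) * Y = (2 : ℂ) • Y := by
    rw [← Finset.sum_mul, Finset.sum_add_distrib, e_sum]
    have h2 : ∑ τ, D.e (cj τ) = 1 := by
      rw [← e_sum D]
      exact Fintype.sum_equiv (Function.Involutive.toPerm (fun τ : K →+* ℂ => cj τ) cj_cj) _ _
        fun τ => rfl
    rw [h2, two_smul, add_mul, one_mul]
  have h3 : Y = (1 / 2 : ℂ) • ∑ τ, (D.e τ + D.e (cj τ)) * Y := by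
    rw [hsum, smul_smul]
    norm_num
  rw [h3]
  exact D.G.smul_mem _ (D.G.sum_mem fun τ _ => hpart τ)

theorem uall_act (σ : ℂ ≃+* ℂ) (c : (K →+* ℂ) → ℂ) :
    act σ (∑ τ, c τ • D.e τ) = ∑ t, σ (c (tw σ.symm t)) • D.e t := by
  have h1 : act σ (∑ τ, c τ • D.e τ) = ∑ τ, σ (c τ) • D.e (tw σ τ) := by
    have h2 : ∀ τ, D.e (tw σ τ) = act σ (D.e τ) := fun τ => (act_e D σ τ).symm
    simp only [h2]
    ext i j
    simp only [Matrix.map_apply, Matrix.sum_apply, Matrix.smul_apply, smul_eq_mul, map_sum,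
      map_mul]
  rw [h1]
  let e1 : (K →+* ℂ) ≃ (K →+* ℂ) :=
    ⟨fun τ => tw σ τ, fun τ => tw σ.symm τ, fun τ => tw_symm_tw σ τ, fun τ => tw_tw_symm σ τ⟩
  refine Fintype.sum_equiv e1 _ _ fun τ => ?_
  show σ (c τ) • D.e (tw σ τ) = σ (c (tw σ.symm (tw σ τ))) • D.e (tw σ τ)
  rw [tw_symm_tw]

/-- The centre is in `G`.  Proof: `red_center` for `X = J ∈ G` (`J_mem`; `J` is skew) and `trace_eJ` give
`∑_τ (i (m_τ - m_{conj τ})/N) e_τ ∈ G`; apply `σ⁻¹` (`G_act`, `act_e`, `mul_add_mul`: `N` is constant) and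
divide by `σ⁻¹(i)/N`: `∑_τ (m_{στ} - m_{conj στ}) e_τ ∈ G` for every `σ`.  The set of `z` with
`∑ z τ e_τ ∈ G` is a subspace; use `hnd`. -/
theorem center_mem (hm : 0 < m) (hF : D.Fu) (hnd : D.Nd) (z : (K →+* ℂ) → ℂ)
    (hz : ∀ τ, z (cj τ) = - z τ) : ∑ τ, z τ • D.e τ ∈ D.G := by
  have hJ : D.Sk (rc D.J) :=
    ⟨(comm_iff D (rc D.J)).1 fun a => G_comm D (J_mem D) a, G_skew D (J_mem D)⟩
  have h1 := (red_center D hm hF hJ).2
  have h2 := D.G.sub_mem (J_mem D) h1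
  rw [sub_sub_cancel] at h2
  let L : ((K →+* ℂ) → ℂ) →ₗ[ℂ] Mat m ℂ :=
    { toFun := fun w => ∑ τ, w τ • D.e τ
      map_add' := fun v w => by
        simp only [Pi.add_apply, add_smul, Finset.sum_add_distrib]
      map_smul' := fun a w => by
        simp only [Pi.smul_apply, smul_eq_mul, mul_smul, Finset.smul_sum, RingHom.id_apply] }
  have h3 : Submodule.span ℂ (Set.range fun (σ : ℂ ≃+* ℂ) (τ : K →+* ℂ) =>
      (D.mul (tw σ τ) : ℂ) - (D.mul (cj (tw σ τ)) : ℂ)) ≤ D.G.comap L := by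
    rw [Submodule.span_le]
    rintro _ ⟨σ, rfl⟩
    show ∑ τ, ((D.mul (tw σ τ) : ℂ) - (D.mul (cj (tw σ τ)) : ℂ)) • D.e τ ∈ D.G
    have h4 := G_act D σ.symm h2
    rw [uall_act] at h4
    by_cases hne : Nonempty (K →+* ℂ)
    · obtain ⟨τ0⟩ := hne
      set N : ℂ := ((D.mul τ0 + D.mul (cj τ0) : ℕ) : ℂ) with hN
      have hN0 : N ≠ 0 := uall_N_ne D hm τ0
      have hI : σ.symm Complex.I ≠ 0 := by
        rw [Ne, EmbeddingLike.map_eq_zero_iff]
        exact Complex.I_ne_zero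
      have h5 : ∀ t : K →+* ℂ, ((D.mul (tw σ t) : ℂ) - (D.mul (cj (tw σ t)) : ℂ)) • D.e t =
          (N / σ.symm Complex.I) • (σ.symm ((D.e (tw σ.symm.symm t) * rc D.J).trace /
            ((D.mul (tw σ.symm.symm t) + D.mul (cj (tw σ.symm.symm t)) : ℕ) : ℂ)) • D.e t) := by
        intro t
        have h6 : tw σ.symm.symm t = tw σ t := rfl
        rw [smul_smul, h6, trace_eJ, mul_add_mul D (tw σ t) τ0, ← hN]
        congr 1
        have h7 : σ.symm N = N := by rw [hN, map_natCast]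
        rw [map_div₀, h7, map_mul, map_sub, map_natCast, map_natCast]
        field_simp
      rw [Finset.sum_congr rfl fun t _ => h5 t, ← Finset.smul_sum]
      exact D.G.smul_mem _ h4
    · rw [not_nonempty_iff] at hne
      rw [Finset.univ_eq_empty, Finset.sum_empty]
      exact D.G.zero_mem
  exact h3 (hnd z hz)

theorem uall (hm : 0 < m) (hF : D.Fu) (hnd : D.Nd) {X : Mat m ℂ} (hX : D.Sk X) : X ∈ D.G := by
  have h := red_center D hm hF hX
  have h2 := center_mem D hm hF hnd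
    (fun τ => (D.e τ * X).trace / ((D.mul τ + D.mul (cj τ) : ℕ) : ℂ)) (fun τ => by
      simp only [h.1]
      have : D.mul (cj τ) + D.mul (cj (cj τ)) = D.mul τ + D.mul (cj τ) := by
        rw [cj_cj, add_comm]
      rw [this]
      ring)
  have h3 := D.G.add_mem h.2 h2
  rwa [sub_add_cancel] at h3

/-- All hypotheses together. -/
theorem all_of (τ₁ : K →+* ℂ) (hc : Nat.Coprime (D.mul τ₁) (D.mul (cj τ₁)))
    (hs : ∀ τ t : K →+* ℂ, t ≠ τ → t ≠ cj τ → ∃ s : ℂ ≃+* ℂ, D.Dif (tw s τ) (tw s t))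
    (hnd : D.Nd) {X : Mat m ℂ} (hX : D.Sk X) : X ∈ D.G := by
  have hm : 0 < m := by
    rcases Nat.eq_zero_or_pos m with h | h
    · exfalso
      subst h
      have h0 : ∀ τ, D.mul τ = 0 := fun τ => by
        have h1 : finrank ℂ (D.eig τ) ≤ finrank ℂ (Fin 0 → ℂ) := Submodule.finrank_le _
        rw [finrank_fin_fun] at h1
        exact Nat.le_zero.mp h1
      rw [h0, h0] at hc
      exact absurd hc (by decide)
    · exact h
  have hpr := pr D τ₁ hc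
  refine uall D hm (fun τ X h1 h2 h3 => full D hm hpr (fun τ t h h' => ?_) τ h1 h2 h3) hnd hX
  refine sep D hpr τ t (hs τ t h h') (hs τ (cj t) ?_ ?_)
  · intro h''
    apply h'
    rw [← h'', cj_cj]
  · intro h''
    apply h
    rw [← cj_cj t, h'', cj_cj]

end Pool.MP43e44c.PE
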